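import Pool.Agent.PKE70.Basic

/-!
# A random function is hard to invert; black-box reductions
-/

set_option autoImplicit false
set_option linter.unusedSectionVars false

open scoped BigOperators

namespace Pool.Agent.PKE70

variable {D R : Type} [Fintype D] [DecidableEq D] [Fintype R] [DecidableEq R]

/-- resampling one value -/
theorem expect_update [Nonempty R] (z : D) (F : (D → R) → ℝ) :
    𝔼 f : D → R, 𝔼 y : R, F (Function.update f z y) = 𝔼 f : D → R, F f := by
  let e : (D → R) × R → (D → R) × R := fun p => (Function.update p.1 z p.2, p.1 z)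
  have he : Function.Involutive e := by
    rintro ⟨f, y⟩
    simp [e]
  have h1 : 𝔼 f : D → R, 𝔼 y : R, F (Function.update f z y) =
      𝔼 p : (D → R) × R, F (e p).1 := by
    rw [← Finset.univ_product_univ, Finset.expect_product]
  have h2 : 𝔼 f : D → R, F f = 𝔼 p : (D → R) × R, F p.1 := by
    rw [← Finset.univ_product_univ, Finset.expect_product]
    refine Finset.expect_congr rfl fun f _ => ?_
    simp
  rw [h1, h2]
  exact Fintype.expect_equiv (he.toPerm e) _ _ fun p => rfl

theorem mem_queries_update {α : Type} (T : QAlg D R α) (f : D → R) (z : D) (y : R) :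
    z ∈ T.queries (Function.update f z y) ↔ z ∈ T.queries f := by
  induction T with
  | ret a => simp
  | ask x k ih =>
    by_cases hx : x = z
    · subst hx; simp
    · rw [QAlg.queries_ask, QAlg.queries_ask, Function.update_of_ne hx]
      simp only [Finset.mem_insert, ih]

theorem expect_ite_eq_inv [Nonempty R] (y : R) :
    𝔼 y' : R, (if y' = y then (1 : ℝ) else 0) = 1 / Fintype.card R := by
  rw [Fintype.expect_eq_sum_div_card]
  simp

/-- finding a preimage of a fixed point -/
theorem hit_fixed [Nonempty R] {α : Type} (T : QAlg D R α) {k : ℕ} (hk : ∀ f, T.cost f ≤ k)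
    (y : R) :
    𝔼 f : D → R, (∑ z ∈ T.queries f, if f z = y then (1 : ℝ) else 0) ≤ k / Fintype.card R := by
  have h1 : ∀ f : D → R, (∑ z ∈ T.queries f, if f z = y then (1 : ℝ) else 0) =
      ∑ z : D, (if z ∈ T.queries f then (1 : ℝ) else 0) * (if f z = y then (1 : ℝ) else 0) := by
    intro f
    rw [← Finset.sum_filter_add_sum_filter_not Finset.univ (fun z => z ∈ T.queries f)]
    have h2 : ∑ z ∈ Finset.univ.filter (fun z => ¬ z ∈ T.queries f),
        (if z ∈ T.queries f then (1 : ℝ) else 0) * (if f z = y then (1 : ℝ) else 0) = 0 := by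
      refine Finset.sum_eq_zero fun z hz => ?_
      rw [if_neg (Finset.mem_filter.mp hz).2, zero_mul]
    rw [h2, add_zero]
    have h3 : Finset.univ.filter (fun z => z ∈ T.queries f) = T.queries f := by
      ext z; simp
    rw [h3]
    refine Finset.sum_congr rfl fun z hz => ?_
    rw [if_pos hz, one_mul]
  simp only [h1]
  rw [Finset.expect_sum_comm]
  have h4 : ∀ z : D, 𝔼 f : D → R, (if z ∈ T.queries f then (1 : ℝ) else 0) *
      (if f z = y then (1 : ℝ) else 0) =
      (𝔼 f : D → R, (if z ∈ T.queries f then (1 : ℝ) else 0)) * (1 / Fintype.card R) := by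
    intro z
    rw [← expect_update z]
    simp only [mem_queries_update, Function.update_self]
    rw [Finset.expect_mul]
    refine Finset.expect_congr rfl fun f _ => ?_
    rw [← Finset.mul_expect, expect_ite_eq_inv]
  simp only [h4]
  rw [← Finset.sum_mul, ← Finset.expect_sum_comm]
  rw [mul_one_div]
  refine div_le_div_of_nonneg_right ?_ (Nat.cast_nonneg _)
  rcases isEmpty_or_nonempty D with hD | hD
  · simp
  refine Finset.expect_le Finset.univ_nonempty fun f _ => ?_
  have h5 : ∑ z : D, (if z ∈ T.queries f then (1 : ℝ) else 0) = ((T.queries f).card : ℝ) := by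
    rw [← Finset.sum_filter]
    simp
  rw [h5]
  exact_mod_cast (QAlg.card_queries_le f T).trans (hk f)

/-- A random function is one-way against algorithms with few queries. -/
theorem inversion [Nonempty D] [Nonempty R] (T : R → QAlg D R D) {k : ℕ}
    (hk : ∀ y f, (T y).cost f ≤ k) :
    𝔼 f : D → R, 𝔼 x : D, (if f ((T (f x)).run f) = f x then (1 : ℝ) else 0) ≤
      (k + 1) * (1 / Fintype.card D + 1 / Fintype.card R) := by
  -- query the output as well
  let T' : R → QAlg D R D := fun y => (T y).bind fun z => .ask z fun _ => .ret z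
  have hT'c : ∀ y f, (T' y).cost f ≤ k + 1 := by
    intro y f
    rw [QAlg.cost_bind]
    simpa using hk y f
  have hT'q : ∀ y f, (T y).run f ∈ (T' y).queries f := by
    intro y f
    rw [QAlg.queries_bind]
    simp
  -- the number of queried preimages
  have h1 : ∀ (f : D → R) (x : D), (if f ((T (f x)).run f) = f x then (1 : ℝ) else 0) ≤
      ∑ z ∈ (T' (f x)).queries f, if f z = f x then (1 : ℝ) else 0 := by
    intro f x
    have hnn : ∀ z ∈ (T' (f x)).queries f, (0 : ℝ) ≤ if f z = f x then (1 : ℝ) else 0 :=
      fun z _ => by split_ifs <;> norm_num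
    exact Finset.single_le_sum hnn (hT'q (f x) f)
  -- bound by an indicator
  let hit : R → (D → R) → ℝ := fun y f =>
    if ∃ z ∈ (T' y).queries f, f z = y then 1 else 0
  have h2 : ∀ (f : D → R) (x : D), (if f ((T (f x)).run f) = f x then (1 : ℝ) else 0) ≤
      hit (f x) f := by
    intro f x
    simp only [hit]
    by_cases h : f ((T (f x)).run f) = f x
    · rw [if_pos h, if_pos ⟨_, hT'q (f x) f, h⟩]
    · rw [if_neg h]; split_ifs <;> norm_num
  have h3 : 𝔼 f : D → R, 𝔼 x : D, (if f ((T (f x)).run f) = f x then (1 : ℝ) else 0) ≤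
      𝔼 x : D, 𝔼 f : D → R, hit (f x) f := by
    rw [Finset.expect_comm]
    exact Finset.expect_le_expect fun x _ => Finset.expect_le_expect fun f _ => h2 f x
  refine h3.trans ?_
  have h4 : ∀ x : D, 𝔼 f : D → R, hit (f x) f =
      𝔼 f : D → R, 𝔼 y : R, hit y (Function.update f x y) := by
    intro x
    rw [← expect_update x]
    simp only [Function.update_self]
  simp only [h4]
  have h5 : ∀ (x : D) (f : D → R) (y : R), hit y (Function.update f x y) ≤
      (if x ∈ (T' y).queries f then (1 : ℝ) else 0) +
        ∑ z ∈ (T' y).queries f, if f z = y then (1 : ℝ) else 0 := by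
    intro x f y
    have hnn : ∀ z ∈ (T' y).queries f, (0 : ℝ) ≤ if f z = y then (1 : ℝ) else 0 :=
      fun z _ => by split_ifs <;> norm_num
    by_cases hx : x ∈ (T' y).queries f
    · rw [if_pos hx]
      have : hit y (Function.update f x y) ≤ 1 := by
        simp only [hit]; split_ifs <;> norm_num
      have := Finset.sum_nonneg hnn
      linarith
    · rw [if_neg hx, zero_add]
      have hloc : (T' y).queries (Function.update f x y) = (T' y).queries f := by
        refine (QAlg.local_run (T' y) fun z hz => ?_).2
        rw [Function.update_of_ne]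
        rintro rfl
        exact hx hz
      simp only [hit, hloc]
      split_ifs with h
      · obtain ⟨z, hz1, hz2⟩ := h
        have hzx : z ≠ x := fun h => hx (h ▸ hz1)
        rw [Function.update_of_ne hzx] at hz2
        have h6 := Finset.single_le_sum hnn hz1
        rw [if_pos hz2] at h6
        exact h6
      · exact Finset.sum_nonneg hnn
  have h6 : 𝔼 x : D, 𝔼 f : D → R, 𝔼 y : R, hit y (Function.update f x y) ≤
      𝔼 x : D, 𝔼 f : D → R, 𝔼 y : R, ((if x ∈ (T' y).queries f then (1 : ℝ) else 0) +
        ∑ z ∈ (T' y).queries f, if f z = y then (1 : ℝ) else 0) :=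
    Finset.expect_le_expect fun x _ => Finset.expect_le_expect fun f _ =>
      Finset.expect_le_expect fun y _ => h5 x f y
  refine h6.trans ?_
  simp only [Finset.expect_add_distrib, Fintype.expect_const]
  have h7 : 𝔼 x : D, 𝔼 f : D → R, 𝔼 y : R, (if x ∈ (T' y).queries f then (1 : ℝ) else 0) ≤
      (k + 1) / Fintype.card D := by
    have h8 : 𝔼 x : D, 𝔼 f : D → R, 𝔼 y : R, (if x ∈ (T' y).queries f then (1 : ℝ) else 0) =
        𝔼 f : D → R, 𝔼 y : R, 𝔼 x : D, (if x ∈ (T' y).queries f then (1 : ℝ) else 0) := by
      rw [Finset.expect_comm]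
      refine Finset.expect_congr rfl fun f _ => ?_
      rw [Finset.expect_comm]
    rw [h8]
    refine Finset.expect_le Finset.univ_nonempty fun f _ =>
      Finset.expect_le Finset.univ_nonempty fun y _ => ?_
    rw [Fintype.expect_eq_sum_div_card]
    refine div_le_div_of_nonneg_right ?_ (Nat.cast_nonneg _)
    have h9 : ∑ x : D, (if x ∈ (T' y).queries f then (1 : ℝ) else 0) =
        (((T' y).queries f).card : ℝ) := by
      rw [← Finset.sum_filter]
      simp
    rw [h9]
    exact_mod_cast (QAlg.card_queries_le f (T' y)).trans (hT'c y f)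
  have h10 : 𝔼 f : D → R, 𝔼 y : R, (∑ z ∈ (T' y).queries f, if f z = y then (1 : ℝ) else 0) ≤
      (k + 1) / Fintype.card R := by
    rw [Finset.expect_comm]
    refine Finset.expect_le Finset.univ_nonempty fun y _ => ?_
    have := hit_fixed (T' y) (hT'c y) y
    push_cast at this
    exact this
  have h11 : ((k : ℝ) + 1) * (1 / Fintype.card D + 1 / Fintype.card R) =
      (k + 1) / Fintype.card D + (k + 1) / Fintype.card R := by ring
  rw [h11]
  linarith

namespace RAlg

variable {X α : Type}

/-- replace the adversary by an oracle algorithm -/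
def toQ (E : X → QAlg D R Bool) : RAlg D R X α → QAlg D R α
  | ret a => .ret a
  | askF x k => .ask x fun y => toQ E (k y)
  | askA z k => (E z).bind fun b => toQ E (k b)

theorem run_toQ (E : X → QAlg D R Bool) (f : D → R) (T : RAlg D R X α) :
    (T.toQ E).run f = T.run f fun z => (E z).run f := by
  induction T with
  | ret a => rfl
  | askF x k ih => exact ih _
  | askA z k ih =>
    rw [toQ, QAlg.run_bind]
    exact ih _

theorem cost_toQ (E : X → QAlg D R Bool) {Q : ℕ} (hE : ∀ z f, (E z).cost f ≤ Q) (f : D → R)
    (T : RAlg D R X α) :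
    (T.toQ E).cost f ≤ T.cost f (fun z => (E z).run f) * (Q + 1) := by
  induction T with
  | ret a => simp [toQ]
  | askF x k ih =>
    rw [toQ, QAlg.cost_ask, cost, add_mul, one_mul]
    have := ih (f x)
    omega
  | askA z k ih =>
    rw [toQ, QAlg.cost_bind, cost, add_mul, one_mul]
    have h1 := ih ((E z).run f)
    have h2 := hE z f
    omega

end RAlg

end Pool.Agent.PKE70
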