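import Mathlib

/-!
# Public-key encryption relative to an oracle `f : D → R`

Definitions: adaptive oracle algorithms, schemes whose key generation is an arbitrary function of
the oracle, success probabilities, black-box reductions.
-/

set_option autoImplicit false

open scoped BigOperators

namespace Pool.Agent.PKE70

/-- An adaptive algorithm with oracle access to a function `D → R` and output in `α`: it stops with
an output, or queries the oracle and goes on depending on the answer. There is no bound on its
computing time. -/
inductive QAlg (D R α : Type) : Type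
  | ret (a : α) : QAlg D R α
  | ask (x : D) (k : R → QAlg D R α) : QAlg D R α

namespace QAlg

variable {D R α : Type}

/-- The output with oracle `f`. -/
def run (f : D → R) : QAlg D R α → α
  | ret a => a
  | ask x k => run f (k (f x))

/-- The number of queries made with oracle `f`. -/
def cost (f : D → R) : QAlg D R α → ℕ
  | ret _ => 0
  | ask x k => cost f (k (f x)) + 1

end QAlg

/-- A public-key encryption scheme for one-bit messages relative to an oracle `f : D → R`, with
public keys `PK`, secret keys `SK`, ciphertexts `C`, and coins `ΩG`, `ΩE`, `ΩD` of the three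
algorithms. Key generation is an arbitrary function of the oracle and of the coins; encryption and
decryption are oracle algorithms. -/
structure Scheme (D R PK SK C ΩG ΩE ΩD : Type) where
  gen : (D → R) → ΩG → PK × SK
  enc : PK → Bool → ΩE → QAlg D R C
  dec : SK → C → ΩD → QAlg D R Bool

namespace Scheme

variable {D R PK SK C ΩG ΩE ΩD : Type}

/-- Encryption and decryption make at most `q` queries. -/
def QueryBound (S : Scheme D R PK SK C ΩG ΩE ΩD) (q : ℕ) : Prop :=
  (∀ pk b e f, (S.enc pk b e).cost f ≤ q) ∧ ∀ sk c d f, (S.dec sk c d).cost f ≤ q

variable [Fintype D] [DecidableEq D] [Fintype R] [Fintype ΩG] [Fintype ΩE] [Fintype ΩD]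

/-- The probability that decryption is correct, over a uniformly random oracle `f : D → R`, a
random bit `b` and the coins. -/
noncomputable def decProb (S : Scheme D R PK SK C ΩG ΩE ΩD) : ℝ :=
  𝔼 f : D → R, 𝔼 ω : ΩG, 𝔼 b : Bool, 𝔼 e : ΩE, 𝔼 d : ΩD,
    if (S.dec (S.gen f ω).2 ((S.enc (S.gen f ω).1 b e).run f) d).run f = b then 1 else 0

/-- The probability that the adversary `A`, given the public key and an encryption of a random bit
`b` under the oracle `f`, finds `b`. The adversary may depend on the oracle. -/
noncomputable def advProb (S : Scheme D R PK SK C ΩG ΩE ΩD) (f : D → R)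
    (A : PK → C → Bool) : ℝ :=
  𝔼 ω : ΩG, 𝔼 b : Bool, 𝔼 e : ΩE,
    if A (S.gen f ω).1 ((S.enc (S.gen f ω).1 b e).run f) = b then 1 else 0

end Scheme

/-- An adaptive algorithm with access to an oracle `f : D → R` and to an adversary `A : X → Bool`;
used for black-box reductions. -/
inductive RAlg (D R X α : Type) : Type
  | ret (a : α) : RAlg D R X α
  | askF (x : D) (k : R → RAlg D R X α) : RAlg D R X α
  | askA (z : X) (k : Bool → RAlg D R X α) : RAlg D R X α

namespace RAlg

variable {D R X α : Type}

/-- The output with oracle `f` and adversary `A`. -/
def run (f : D → R) (A : X → Bool) : RAlg D R X α → α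
  | ret a => a
  | askF x k => run f A (k (f x))
  | askA z k => run f A (k (A z))

/-- The number of calls to `f` and to `A`, with oracle `f` and adversary `A`. -/
def cost (f : D → R) (A : X → Bool) : RAlg D R X α → ℕ
  | ret _ => 0
  | askF x k => cost f A (k (f x)) + 1
  | askA z k => cost f A (k (A z)) + 1

end RAlg

/-- The probability that the reduction `red`, with oracle `f` and adversary `A`, inverts `f` at a
random point: given `f x` it finds some `z` with `f z = f x`. -/
noncomputable def invProb {D R PK C ΩS : Type} [Fintype D] [DecidableEq R] [Fintype ΩS]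
    (red : R → ΩS → RAlg D R (PK × C) D) (f : D → R) (A : PK → C → Bool) : ℝ :=
  𝔼 x : D, 𝔼 σ : ΩS, if f ((red (f x) σ).run f fun z => A z.1 z.2) = f x then 1 else 0

end Pool.Agent.PKE70
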