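import Pool.Agent.PKE70.ExpMoment

/-!
# The attack on schemes whose key generation is an arbitrary function of the oracle
-/

set_option autoImplicit false
set_option linter.unusedSectionVars false

open scoped BigOperators

namespace Pool.Agent.PKE70

variable {D R PK SK C ΩG ΩE ΩD : Type} [DecidableEq D]

namespace Scheme

variable (S : Scheme D R PK SK C ΩG ΩE ΩD)

/-- points queried by encryption -/
def eqs (pk : PK) (r : Bool × ΩE × ΩD) (f : D → R) : Finset D := (S.enc pk r.1 r.2.1).queries f

/-- encrypt, then decrypt with the hypothetical key `h.1`, the answers `h.2` overriding -/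
def full (pk : PK) (h : SK × (D → Option R)) (r : Bool × ΩE × ΩD) : QAlg D R Bool :=
  (S.enc pk r.1 r.2.1).bind fun c => (S.dec h.1 c r.2.2).withAns h.2

/-- points queried by `full` -/
def qs (pk : PK) (h : SK × (D → Option R)) (r : Bool × ΩE × ΩD) (f : D → R) : Finset D :=
  (S.full pk h r).queries f

/-- success of `full` -/
noncomputable def val (pk : PK) (h : SK × (D → Option R)) (r : Bool × ΩE × ΩD) (f : D → R) : ℝ :=
  if (S.full pk h r).run f = r.1 then 1 else 0

omit [DecidableEq D] in
theorem val_nonneg (pk : PK) (h : SK × (D → Option R)) (r : Bool × ΩE × ΩD) (f : D → R) :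
    0 ≤ S.val pk h r f := by
  unfold val; split_ifs <;> norm_num

omit [DecidableEq D] in
theorem val_le_one (pk : PK) (h : SK × (D → Option R)) (r : Bool × ΩE × ΩD) (f : D → R) :
    S.val pk h r f ≤ 1 := by
  unfold val; split_ifs <;> norm_num

theorem eqs_subset_qs (pk : PK) (h : SK × (D → Option R)) (r : Bool × ΩE × ΩD) (f : D → R) :
    S.eqs pk r f ⊆ S.qs pk h r f := by
  rw [qs, full, QAlg.queries_bind]
  exact Finset.subset_union_left

theorem full_local (pk : PK) (h : SK × (D → Option R)) (r : Bool × ΩE × ΩD) (f f' : D → R)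
    (hf : ∀ x ∈ S.qs pk h r f, f' x = f x) :
    S.qs pk h r f' = S.qs pk h r f ∧ S.val pk h r f' = S.val pk h r f := by
  obtain ⟨h1, h2⟩ := QAlg.local_run (S.full pk h r) hf
  exact ⟨h2, by rw [val, val, h1]⟩

theorem eqs_local (pk : PK) (r : Bool × ΩE × ΩD) (f f' : D → R)
    (hf : ∀ x ∈ S.eqs pk r f, f' x = f x) :
    (S.enc pk r.1 r.2.1).run f' = (S.enc pk r.1 r.2.1).run f ∧ S.eqs pk r f' = S.eqs pk r f :=
  QAlg.local_run (S.enc pk r.1 r.2.1) hf

theorem card_qs_le {q : ℕ} (hq : S.QueryBound q) (pk : PK) (h : SK × (D → Option R))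
    (r : Bool × ΩE × ΩD) (f : D → R) : (S.full pk h r).cost f ≤ 2 * q := by
  rw [full, QAlg.cost_bind]
  have h1 := hq.1 pk r.1 r.2.1 f
  have h2 := (QAlg.cost_withAns f h.2 (S.dec h.1 ((S.enc pk r.1 r.2.1).run f) r.2.2)).trans
    (hq.2 _ _ _ _)
  omega

variable [Fintype D] [Fintype R] [Fintype ΩE] [Fintype ΩD] [Fintype SK] [Nonempty SK]

/-- the success probability of the hypothesis `h` if all points outside `v` are fresh -/
noncomputable def idl (pk : PK) (v : D → Option R) (h : SK × (D → Option R)) : ℝ :=
  𝔼 g : D → R, 𝔼 r : Bool × ΩE × ΩD, S.val pk h r (ovr g v)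

omit [DecidableEq D] in
theorem exists_best [DecidableEq D] (pk : PK) (v : D → Option R) :
    ∃ h : SK × (D → Option R), ∀ h', S.idl pk v h' ≤ S.idl pk v h :=
  Finite.exists_max _

/-- the best hypothesis given the knowledge `v` -/
noncomputable def best (pk : PK) (v : D → Option R) : SK × (D → Option R) :=
  Classical.choose (S.exists_best pk v)

theorem idl_le_best (pk : PK) (v : D → Option R) (h : SK × (D → Option R)) :
    S.idl pk v h ≤ S.idl pk v (S.best pk v) :=
  Classical.choose_spec (S.exists_best pk v) h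

/-- queries of a block of the attack -/
noncomputable def QE (pk : PK) (v : D → Option R) (r : Bool × ΩE × ΩD) (f : D → R) : Finset D :=
  S.qs pk (S.best pk v) r f

/-- success of a block of the attack -/
noncomputable def XE (pk : PK) (v : D → Option R) (r : Bool × ΩE × ΩD) (f : D → R) : ℝ :=
  S.val pk (S.best pk v) r f

/-- queries of an honest block -/
def QH (pk : PK) (sk : SK) (_v : D → Option R) (r : Bool × ΩE × ΩD) (f : D → R) : Finset D :=
  S.qs pk (sk, fun _ => none) r f

open Classical in
/-- success of an honest block, provided that encryption does not query a point that is known, but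
not in `A` -/
noncomputable def XH (pk : PK) (sk : SK) (A : Finset D) (u : D → Option R)
    (r : Bool × ΩE × ΩD) (f : D → R) : ℝ :=
  if Disjoint (S.eqs pk r f) (Finset.univ.filter (fun x => (u x).isSome ∧ x ∉ A)) then
    S.val pk (sk, fun _ => none) r f else 0

theorem isLocal_E (pk : PK) : IsLocal (S.QE pk) (S.XE pk) :=
  fun v r f f' h => S.full_local pk (S.best pk v) r f f' h

theorem isLocal_E' (pk : PK) : IsLocal (S.QE pk) (fun v r f => 1 - S.XE pk v r f) := by
  intro v r f f' h
  obtain ⟨h1, h2⟩ := S.isLocal_E pk v r f f' h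
  exact ⟨h1, by simp only [h2]⟩

theorem isLocal_H (pk : PK) (sk : SK) (A : Finset D) : IsLocal (S.QH pk sk) (S.XH pk sk A) := by
  intro v r f f' h
  obtain ⟨h1, h2⟩ := S.full_local pk (sk, fun _ => none) r f f' h
  obtain ⟨-, h4⟩ := S.eqs_local pk r f f' fun x hx => h x (S.eqs_subset_qs _ _ _ _ hx)
  refine ⟨h1, ?_⟩
  simp only [XH, h2, h4]

theorem XH_nonneg (pk : PK) (sk : SK) (A : Finset D) (u : D → Option R)
    (r : Bool × ΩE × ΩD) (f : D → R) : 0 ≤ S.XH pk sk A u r f := by
  unfold XH; split_ifs
  · exact S.val_nonneg _ _ _ _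
  · exact le_rfl

theorem XH_le_one (pk : PK) (sk : SK) (A : Finset D) (u : D → Option R)
    (r : Bool × ΩE × ΩD) (f : D → R) : S.XH pk sk A u r f ≤ 1 := by
  unfold XH; split_ifs
  · exact S.val_le_one _ _ _ _
  · exact zero_le_one

/-- the predicted value of an honest block is at most the value of the best hypothesis -/
theorem pred_XH_le (pk : PK) (sk : SK) {A B : Finset D} (hAB : A ⊆ B) (f : D → R) :
    pred (S.XH pk sk A) (res B f) ≤ S.idl pk (res A f) (S.best pk (res A f)) := by
  refine le_trans ?_ (S.idl_le_best pk (res A f) (sk, res B f))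
  refine Finset.expect_le_expect fun g _ => Finset.expect_le_expect fun r _ => ?_
  unfold XH
  split_ifs with hdisj
  · -- both runs coincide
    have hagree : ∀ x ∈ S.eqs pk r (ovr g (res B f)), ovr g (res A f) x = ovr g (res B f) x := by
      intro x hx
      rw [ovr_res, ovr_res]
      by_cases hA : x ∈ A
      · simp [hA, hAB hA]
      · by_cases hB : x ∈ B
        · exfalso
          refine Finset.disjoint_left.mp hdisj hx ?_
          simp [res, hA, hB]
        · simp [hA, hB]
    obtain ⟨h1, -⟩ := S.eqs_local pk r _ _ hagree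
    have h2 : ovr (ovr g (res A f)) (res B f) = ovr g (res B f) := by
      funext x
      rw [ovr_res, ovr_res, ovr_res]
      by_cases hB : x ∈ B
      · simp [hB]
      · have hA : x ∉ A := fun h => hB (hAB h)
        simp [hA, hB]
    have h3 : (S.full pk (sk, res B f) r).run (ovr g (res A f)) =
        (S.full pk (sk, fun _ => none) r).run (ovr g (res B f)) := by
      simp only [full, QAlg.run_bind, QAlg.run_withAns, h1, h2, ovr_none]
    unfold val
    rw [h3]
  · exact S.val_nonneg _ _ _ _

end Scheme

end Pool.Agent.PKE70
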