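import Pool.Agent.PKE70.Attack

/-!
# The attack: comparison of the honest world and of the attack with the ideal world
-/

set_option autoImplicit false
set_option linter.unusedSectionVars false

open scoped BigOperators

namespace Pool.Agent.PKE70

variable {D R PK SK C ΩG ΩE ΩD : Type} [DecidableEq D]

namespace Scheme

variable (S : Scheme D R PK SK C ΩG ΩE ΩD)
variable [Fintype D] [Fintype R] [Fintype ΩE] [Fintype ΩD] [Fintype SK] [Nonempty SK]
  [Nonempty ΩE] [Nonempty ΩD] [Nonempty (D → R)]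

/-- exposed set of the learning phase -/
noncomputable def AV (pk : PK) (ρ : List (Bool × ΩE × ΩD)) (f : D → R) : Finset D :=
  kn (S.QE pk) f ∅ ρ

theorem AV_local (pk : PK) (ρ : List (Bool × ΩE × ΩD)) (f f' : D → R)
    (h : ∀ x ∈ S.AV pk ρ f, f' x = f x) : S.AV pk ρ f' = S.AV pk ρ f :=
  kn_local (S.QE pk) (fun v r f f' h => (S.isLocal_E pk v r f f' h).1) f f' ∅ ρ h

/-- points queried by encryption in the learning phase are exposed -/
theorem eqs_subset_kn (pk : PK) (ρ : List (Bool × ΩE × ΩD)) (f : D → R) (A : Finset D)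
    (r : Bool × ΩE × ΩD) (hr : r ∈ ρ) : S.eqs pk r f ⊆ kn (S.QE pk) f A ρ := by
  induction ρ generalizing A with
  | nil => simp at hr
  | cons r' ρ ih =>
    rw [kn_cons]
    rcases List.mem_cons.mp hr with rfl | hr
    · refine Finset.Subset.trans ?_ (subset_kn _ _ _ _)
      exact (S.eqs_subset_qs pk _ _ f).trans Finset.subset_union_right
    · exact ih _ hr

/-- the points queried by honest blocks -/
def hq (pk : PK) (sk : SK) (f : D → R) : List (Bool × ΩE × ΩD) → Finset D
  | [] => ∅
  | r :: η => S.qs pk (sk, fun _ => none) r f ∪ hq pk sk f η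

theorem kn_QH (pk : PK) (sk : SK) (f : D → R) (A : Finset D) (η : List (Bool × ΩE × ΩD)) :
    kn (S.QH pk sk) f A η = A ∪ S.hq pk sk f η := by
  induction η generalizing A with
  | nil => simp [kn_nil, hq]
  | cons r η ih =>
    rw [kn_cons, ih, hq, Finset.union_assoc]
    rfl

theorem card_hq_le {q : ℕ} (hq' : S.QueryBound q) (pk : PK) (sk : SK) (f : D → R)
    (η : List (Bool × ΩE × ΩD)) : (S.hq pk sk f η).card ≤ 2 * q * η.length := by
  induction η with
  | nil => simp [hq]
  | cons r η ih =>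
    rw [hq, List.length_cons]
    refine (Finset.card_union_le _ _).trans ?_
    have h1 : (S.qs pk (sk, fun _ => none) r f).card ≤ 2 * q :=
      (QAlg.card_queries_le _ _).trans (S.card_qs_le hq' _ _ _ _)
    have h2 : 2 * q * (η.length + 1) = 2 * q + 2 * q * η.length := by ring
    omega

theorem geom_le_one {p : ℝ} (h1 : p ≤ 1) (M : ℕ) :
    ∑ l ∈ Finset.range M, (1 - p) ^ l * p ≤ 1 := by
  have h : ∑ l ∈ Finset.range M, (1 - p) ^ l * p = 1 - (1 - p) ^ M := by
    induction M with
    | zero => simp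
    | succ M ih =>
      rw [Finset.sum_range_succ, ih]
      ring
  rw [h]
  have : 0 ≤ (1 - p) ^ M := pow_nonneg (by linarith) _
  linarith

open Classical in
/-- the probability that encryption queries a given point that was not queried by the encryptions
of the learning phase, summed over the lengths of the learning phase -/
theorem sum_miss_le (pk : PK) (f : D → R) (x : D) (M : ℕ) :
    ∑ l ∈ Finset.range M, avgL l (fun ρ : List (Bool × ΩE × ΩD) =>
      (if x ∉ S.AV pk ρ f then (1 : ℝ) else 0) *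
        𝔼 r : Bool × ΩE × ΩD, (if x ∈ S.eqs pk r f then (1 : ℝ) else 0)) ≤ 1 := by
  set p := 𝔼 r : Bool × ΩE × ΩD, (if x ∈ S.eqs pk r f then (1 : ℝ) else 0) with hp
  have hp0 : 0 ≤ p := Finset.expect_nonneg fun r _ => by split_ifs <;> norm_num
  have hp1 : p ≤ 1 := Finset.expect_le Finset.univ_nonempty fun r _ => by
    split_ifs <;> norm_num
  have hmiss : ∀ l : ℕ, avgL l (fun ρ : List (Bool × ΩE × ΩD) =>
      (if ∀ r ∈ ρ, x ∉ S.eqs pk r f then (1 : ℝ) else 0)) = (1 - p) ^ l := by
    intro l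
    induction l with
    | zero => simp [avgL_zero]
    | succ l ih =>
      rw [avgL_succ]
      have h1 : ∀ r : Bool × ΩE × ΩD, avgL l (fun ρ : List (Bool × ΩE × ΩD) =>
          (if ∀ r' ∈ r :: ρ, x ∉ S.eqs pk r' f then (1 : ℝ) else 0)) =
          (1 - (if x ∈ S.eqs pk r f then (1 : ℝ) else 0)) * (1 - p) ^ l := by
        intro r
        rw [← ih, ← avgL_mul_left]
        refine avgL_congr fun ρ _ => ?_
        by_cases h2 : x ∈ S.eqs pk r f
        · simp [h2]
        · simp [h2]
      simp only [h1]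
      rw [← Finset.expect_mul, Finset.expect_sub_distrib, Fintype.expect_const, ← hp]
      ring
  refine le_trans (Finset.sum_le_sum fun l _ => ?_) (geom_le_one hp1 M)
  rw [← hmiss l]
  have h3 : avgL l (fun ρ : List (Bool × ΩE × ΩD) =>
      (if ∀ r ∈ ρ, x ∉ S.eqs pk r f then (1 : ℝ) else 0)) * p =
      avgL l (fun ρ : List (Bool × ΩE × ΩD) =>
        p * (if ∀ r ∈ ρ, x ∉ S.eqs pk r f then (1 : ℝ) else 0)) := by
    rw [avgL_mul_left]; ring
  rw [h3]
  refine avgL_mono fun ρ _ => ?_
  rw [mul_comm]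
  refine mul_le_mul_of_nonneg_left ?_ hp0
  by_cases h4 : x ∉ S.AV pk ρ f
  · have h5 : ∀ r ∈ ρ, x ∉ S.eqs pk r f := fun r hr hx =>
      h4 (S.eqs_subset_kn pk ρ f ∅ r hr hx)
    rw [if_pos h4, if_pos h5]
  · rw [if_neg h4]
    split_ifs <;> norm_num

/-- success of honest decryption for a given oracle and given keys -/
noncomputable def succH (pk : PK) (sk : SK) (f : D → R) : ℝ :=
  𝔼 r : Bool × ΩE × ΩD, S.val pk (sk, fun _ => none) r f

open Classical in
/-- lower bound for the deviations of the honest blocks -/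
theorem devF_H_ge (pk : PK) (sk : SK) (f : D → R) (A : Finset D) (m : ℕ) :
    (m : ℝ) * (S.succH pk sk f - S.idl pk (res A f) (S.best pk (res A f))) -
      ∑ j ∈ Finset.range m, avgL j (fun η : List (Bool × ΩE × ΩD) =>
        ∑ x ∈ S.hq pk sk f η, (if x ∉ A then (1 : ℝ) else 0) *
          𝔼 r : Bool × ΩE × ΩD, (if x ∈ S.eqs pk r f then (1 : ℝ) else 0)) ≤
    devF (S.QH pk sk) (S.XH pk sk A) f m A := by
  rw [devF]
  have h0 : (m : ℝ) * (S.succH pk sk f - S.idl pk (res A f) (S.best pk (res A f))) =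
      ∑ _j ∈ Finset.range m, (S.succH pk sk f - S.idl pk (res A f) (S.best pk (res A f))) := by
    rw [Finset.sum_const, Finset.card_range, nsmul_eq_mul]
  rw [h0, ← Finset.sum_sub_distrib]
  refine Finset.sum_le_sum fun j _ => ?_
  rw [← avgL_const (Ω := Bool × ΩE × ΩD) j
    (S.succH pk sk f - S.idl pk (res A f) (S.best pk (res A f))), ← avgL_sub]
  refine avgL_mono fun η _ => ?_
  rw [Finset.expect_sub_distrib, Fintype.expect_const]
  have hB : A ⊆ kn (S.QH pk sk) f A η := subset_kn _ _ _ _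
  have h1 := S.pred_XH_le pk sk hB f
  have h2 : S.succH pk sk f - ∑ x ∈ S.hq pk sk f η, (if x ∉ A then (1 : ℝ) else 0) *
      𝔼 r : Bool × ΩE × ΩD, (if x ∈ S.eqs pk r f then (1 : ℝ) else 0) ≤
      𝔼 r : Bool × ΩE × ΩD, S.XH pk sk A (res (kn (S.QH pk sk) f A η) f) r f := by
    have h3 : ∑ x ∈ S.hq pk sk f η, (if x ∉ A then (1 : ℝ) else 0) *
        𝔼 r : Bool × ΩE × ΩD, (if x ∈ S.eqs pk r f then (1 : ℝ) else 0) =
        𝔼 r : Bool × ΩE × ΩD, ∑ x ∈ S.hq pk sk f η, (if x ∉ A then (1 : ℝ) else 0) *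
          (if x ∈ S.eqs pk r f then (1 : ℝ) else 0) := by
      rw [Finset.expect_sum_comm]
      refine Finset.sum_congr rfl fun x _ => ?_
      rw [Finset.mul_expect]
    rw [h3, succH, ← Finset.expect_sub_distrib]
    refine Finset.expect_le_expect fun r _ => ?_
    have hnn : ∀ x ∈ S.hq pk sk f η, 0 ≤ (if x ∉ A then (1 : ℝ) else 0) *
        (if x ∈ S.eqs pk r f then (1 : ℝ) else 0) := fun x _ => by
      split_ifs <;> norm_num
    unfold XH
    split_ifs with hd
    · have := Finset.sum_nonneg hnn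
      linarith
    · rw [Finset.not_disjoint_iff] at hd
      obtain ⟨x, hx1, hx2⟩ := hd
      have hx3 : x ∈ kn (S.QH pk sk) f A η ∧ x ∉ A := by
        simp only [Finset.mem_filter, Finset.mem_univ, true_and] at hx2
        refine ⟨?_, hx2.2⟩
        by_contra hcon
        simp [res, hcon] at hx2
      have hx4 : x ∈ S.hq pk sk f η := by
        rw [kn_QH] at hx3
        exact (Finset.mem_union.mp hx3.1).resolve_left hx3.2
      have h4 := Finset.single_le_sum hnn hx4
      rw [if_pos hx3.2, if_pos hx1, one_mul] at h4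
      have h5 := S.val_le_one pk (sk, fun _ => none) r f
      linarith
  linarith

/-- the exponential moment of the honest blocks after the learning phase -/
theorem expect_expF_H_le (pk : PK) (sk : SK) (ρ : List (Bool × ΩE × ΩD)) {lam : ℝ}
    (hl : |lam| ≤ 1) (m : ℕ) :
    𝔼 f : D → R, expF (S.QH pk sk) (S.XH pk sk (S.AV pk ρ f)) lam f m (S.AV pk ρ f) ≤
      Real.exp (lam ^ 2 / 4) ^ m := by
  have h1 := resample (D := D) (R := R) (fun g => S.AV pk ρ g)
    (fun g g' h => S.AV_local pk ρ g g' h)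
    (fun g h => expF (S.QH pk sk) (S.XH pk sk (S.AV pk ρ g)) lam h m (S.AV pk ρ g))
    (by
      intro g g' h hg
      simp only [S.AV_local pk ρ g g' hg])
  rw [h1]
  refine Finset.expect_le (Finset.univ_nonempty) fun g _ => ?_
  have h2 : ∀ g' : D → R, (fun x => if x ∈ S.AV pk ρ g then g x else g' x) =
      ovr g' (res (S.AV pk ρ g) g) := by
    intro g'
    funext x
    rw [ovr_res]
  simp only [h2]
  exact expect_expF_le (S.isLocal_H pk sk _) (fun v r f => S.XH_nonneg pk sk _ v r f)
    (fun v r f => S.XH_le_one pk sk _ v r f) hl m _ g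

end Scheme

end Pool.Agent.PKE70
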