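import Pool.Agent.PKE70.Attack2

/-!
# The attack: conclusion
-/

set_option autoImplicit false
set_option linter.unusedSectionVars false

open scoped BigOperators

namespace Pool.Agent.PKE70

variable {D R PK SK C ΩG ΩE ΩD : Type} [DecidableEq D]

namespace Scheme

variable (S : Scheme D R PK SK C ΩG ΩE ΩD)
variable [Fintype D] [Fintype R] [Fintype ΩE] [Fintype ΩD] [Fintype SK] [Nonempty SK]
  [Nonempty ΩE] [Nonempty ΩD] [Nonempty (D → R)]

/-- predicted successes of the best hypotheses, summed over the lengths of the learning phase -/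
noncomputable def JS (pk : PK) (f : D → R) (M : ℕ) : ℝ :=
  ∑ l ∈ Finset.range M, avgL l (fun ρ : List (Bool × ΩE × ΩD) =>
    S.idl pk (res (S.AV pk ρ f) f) (S.best pk (res (S.AV pk ρ f) f)))

/-- real successes of the best hypotheses, summed over the lengths of the learning phase -/
noncomputable def XS (pk : PK) (f : D → R) (M : ℕ) : ℝ :=
  ∑ l ∈ Finset.range M, avgL l (fun ρ : List (Bool × ΩE × ΩD) =>
    𝔼 r : Bool × ΩE × ΩD, S.XE pk (res (S.AV pk ρ f) f) r f)

theorem pred_one_sub_XE (pk : PK) (v : D → Option R) :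
    pred (fun v r f => 1 - S.XE pk v r f) v = 1 - S.idl pk v (S.best pk v) := by
  simp only [pred, idl, XE]
  simp only [Finset.expect_sub_distrib, Fintype.expect_const]

theorem devF_E (pk : PK) (f : D → R) (M : ℕ) :
    devF (S.QE pk) (fun v r f => 1 - S.XE pk v r f) f M ∅ = S.JS pk f M - S.XS pk f M := by
  rw [devF, JS, XS, ← Finset.sum_sub_distrib]
  refine Finset.sum_congr rfl fun l _ => ?_
  rw [← avgL_sub]
  refine avgL_congr fun ρ _ => ?_
  rw [pred_one_sub_XE]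
  simp only [Finset.expect_sub_distrib, Fintype.expect_const, AV]
  ring

variable [Fintype PK] [Nonempty PK] [Fintype ΩG] [Nonempty ΩG]

/-- (ii) in the attack the real successes are close to the predicted ones -/
theorem attack_dev {lam : ℝ} (hl0 : 0 < lam) (hl1 : lam ≤ 1) (M : ℕ) :
    𝔼 f : D → R, 𝔼 ω : ΩG, (S.JS (S.gen f ω).1 f M - S.XS (S.gen f ω).1 f M) ≤
      Real.log (Fintype.card PK * Real.exp (lam ^ 2 / 4) ^ M) / lam := by
  have hB : (1 : ℝ) ≤ Real.exp (lam ^ 2 / 4) ^ M :=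
    one_le_pow₀ (Real.one_le_exp (by positivity))
  have h := expect_dev_le (D := D) (R := R) (K := PK) (ΩG := ΩG)
    (fun pk f => devF (S.QE pk) (fun v r f => 1 - S.XE pk v r f) f M ∅)
    (fun pk f => expF (S.QE pk) (fun v r f => 1 - S.XE pk v r f) lam f M ∅)
    (fun pk f => expF_nonneg _ _ _ _ _ _) hl0 hB
    (by
      intro pk
      have h1 := expect_expF_le (S.isLocal_E' pk)
        (fun v r f => sub_nonneg.mpr (S.val_le_one _ _ _ _))
        (fun v r f => by
          have := S.val_nonneg pk (S.best pk v) r f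
          simp only [XE]; linarith)
        (lam := lam) (abs_le.mpr ⟨by linarith, hl1⟩) M ∅ (Classical.arbitrary (D → R))
      simp only [res_empty, ovr_none] at h1
      exact h1)
    (fun pk f a => devF_le_expF _ _ _ _ _ _ _)
    (fun f ω => (S.gen f ω).1)
  simp only [devF_E] at h
  exact h

/-- (i) in the honest world the successes are close to the predicted ones -/
theorem honest_dev {lam : ℝ} (hl0 : 0 < lam) (hl1 : lam ≤ 1) (m : ℕ)
    (ρ : List (Bool × ΩE × ΩD)) :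
    𝔼 f : D → R, 𝔼 ω : ΩG, devF (S.QH (S.gen f ω).1 (S.gen f ω).2)
      (S.XH (S.gen f ω).1 (S.gen f ω).2 (S.AV (S.gen f ω).1 ρ f)) f m
        (S.AV (S.gen f ω).1 ρ f) ≤
      Real.log (Fintype.card (PK × SK) * Real.exp (lam ^ 2 / 4) ^ m) / lam := by
  have hB : (1 : ℝ) ≤ Real.exp (lam ^ 2 / 4) ^ m :=
    one_le_pow₀ (Real.one_le_exp (by positivity))
  exact expect_dev_le (D := D) (R := R) (K := PK × SK) (ΩG := ΩG)
    (fun κ f => devF (S.QH κ.1 κ.2) (S.XH κ.1 κ.2 (S.AV κ.1 ρ f)) f m (S.AV κ.1 ρ f))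
    (fun κ f => expF (S.QH κ.1 κ.2) (S.XH κ.1 κ.2 (S.AV κ.1 ρ f)) lam f m (S.AV κ.1 ρ f))
    (fun κ f => expF_nonneg _ _ _ _ _ _) hl0 hB
    (fun κ => S.expect_expF_H_le κ.1 κ.2 ρ (abs_le.mpr ⟨by linarith, hl1⟩) m)
    (fun κ f a => devF_le_expF _ _ _ _ _ _ _)
    (fun f ω => S.gen f ω)

omit [Fintype PK] [Nonempty PK] in
/-- the collisions between honest blocks and encryption outside the learned points -/
theorem sum_hits_le {q : ℕ} (hq' : S.QueryBound q) (pk : PK) (sk : SK) (f : D → R) (M m : ℕ) :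
    ∑ l ∈ Finset.range M, avgL l (fun ρ : List (Bool × ΩE × ΩD) =>
      ∑ j ∈ Finset.range m, avgL j (fun η : List (Bool × ΩE × ΩD) =>
        ∑ x ∈ S.hq pk sk f η, (if x ∉ S.AV pk ρ f then (1 : ℝ) else 0) *
          𝔼 r : Bool × ΩE × ΩD, (if x ∈ S.eqs pk r f then (1 : ℝ) else 0))) ≤
      q * (m : ℝ) ^ 2 := by
  have h1 : ∀ l, avgL l (fun ρ : List (Bool × ΩE × ΩD) =>
      ∑ j ∈ Finset.range m, avgL j (fun η : List (Bool × ΩE × ΩD) =>
        ∑ x ∈ S.hq pk sk f η, (if x ∉ S.AV pk ρ f then (1 : ℝ) else 0) *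
          𝔼 r : Bool × ΩE × ΩD, (if x ∈ S.eqs pk r f then (1 : ℝ) else 0))) =
      ∑ j ∈ Finset.range m, avgL j (fun η : List (Bool × ΩE × ΩD) =>
        ∑ x ∈ S.hq pk sk f η, avgL l (fun ρ : List (Bool × ΩE × ΩD) =>
          (if x ∉ S.AV pk ρ f then (1 : ℝ) else 0) *
          𝔼 r : Bool × ΩE × ΩD, (if x ∈ S.eqs pk r f then (1 : ℝ) else 0))) := by
    intro l
    rw [avgL_sum]
    refine Finset.sum_congr rfl fun j _ => ?_
    rw [avgL_comm]
    refine avgL_congr fun η _ => ?_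
    rw [avgL_sum]
  simp only [h1]
  rw [Finset.sum_comm]
  have h2 : ∀ j, ∑ l ∈ Finset.range M, avgL j (fun η : List (Bool × ΩE × ΩD) =>
        ∑ x ∈ S.hq pk sk f η, avgL l (fun ρ : List (Bool × ΩE × ΩD) =>
          (if x ∉ S.AV pk ρ f then (1 : ℝ) else 0) *
          𝔼 r : Bool × ΩE × ΩD, (if x ∈ S.eqs pk r f then (1 : ℝ) else 0))) ≤
      2 * q * j := by
    intro j
    rw [← avgL_sum]
    have h3 : (2 * q * j : ℝ) = avgL j (fun _ : List (Bool × ΩE × ΩD) => (2 * q * j : ℝ)) :=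
      (avgL_const _ _).symm
    rw [h3]
    refine avgL_mono fun η hη => ?_
    rw [Finset.sum_comm]
    calc ∑ x ∈ S.hq pk sk f η, ∑ l ∈ Finset.range M, avgL l (fun ρ : List (Bool × ΩE × ΩD) =>
          (if x ∉ S.AV pk ρ f then (1 : ℝ) else 0) *
          𝔼 r : Bool × ΩE × ΩD, (if x ∈ S.eqs pk r f then (1 : ℝ) else 0))
        ≤ ∑ _x ∈ S.hq pk sk f η, (1 : ℝ) :=
          Finset.sum_le_sum fun x _ => S.sum_miss_le pk f x M
      _ = ((S.hq pk sk f η).card : ℝ) := by simp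
      _ ≤ ((2 * q * j : ℕ) : ℝ) := by
          rw [← hη]
          exact_mod_cast S.card_hq_le hq' pk sk f η
      _ = 2 * q * j := by push_cast; ring
  refine (Finset.sum_le_sum fun j _ => h2 j).trans ?_
  have h4 : ∑ j ∈ Finset.range m, (2 * q * j : ℝ) = q * (m * (m - 1)) := by
    clear h1
    induction m with
    | zero => simp
    | succ m ih =>
      rw [Finset.sum_range_succ, ih]
      push_cast
      ring
  rw [h4]
  have h5 : (0 : ℝ) ≤ q := Nat.cast_nonneg q
  have h6 : (0 : ℝ) ≤ m := Nat.cast_nonneg m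
  nlinarith [mul_nonneg h5 h6]

omit [Fintype PK] [Nonempty PK] in
/-- summing the lower bounds for the deviations over the learning phases -/
theorem sum_devF_ge {q : ℕ} (hq' : S.QueryBound q) (pk : PK) (sk : SK) (f : D → R) (M m : ℕ) :
    (M : ℝ) * m * S.succH pk sk f - m * S.JS pk f M - q * (m : ℝ) ^ 2 ≤
      ∑ l ∈ Finset.range M, avgL l (fun ρ : List (Bool × ΩE × ΩD) =>
        devF (S.QH pk sk) (S.XH pk sk (S.AV pk ρ f)) f m (S.AV pk ρ f)) := by
  have h1 := S.sum_hits_le hq' pk sk f M m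
  have h2 : ∑ l ∈ Finset.range M, avgL l (fun ρ : List (Bool × ΩE × ΩD) =>
      ((m : ℝ) * (S.succH pk sk f -
        S.idl pk (res (S.AV pk ρ f) f) (S.best pk (res (S.AV pk ρ f) f))) -
      ∑ j ∈ Finset.range m, avgL j (fun η : List (Bool × ΩE × ΩD) =>
        ∑ x ∈ S.hq pk sk f η, (if x ∉ S.AV pk ρ f then (1 : ℝ) else 0) *
          𝔼 r : Bool × ΩE × ΩD, (if x ∈ S.eqs pk r f then (1 : ℝ) else 0)))) ≤
      ∑ l ∈ Finset.range M, avgL l (fun ρ : List (Bool × ΩE × ΩD) =>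
        devF (S.QH pk sk) (S.XH pk sk (S.AV pk ρ f)) f m (S.AV pk ρ f)) :=
    Finset.sum_le_sum fun l _ => avgL_mono fun ρ _ => S.devF_H_ge pk sk f _ m
  refine le_trans ?_ h2
  simp only [avgL_sub, avgL_mul_left, avgL_const]
  rw [Finset.sum_sub_distrib, ← Finset.mul_sum, Finset.sum_sub_distrib, Finset.sum_const,
    Finset.card_range, nsmul_eq_mul]
  rw [JS]
  linarith

/-- the main inequality -/
theorem main_ineq {q : ℕ} (hq' : S.QueryBound q) {lam : ℝ} (hl0 : 0 < lam) (hl1 : lam ≤ 1)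
    {M m : ℕ} (hM : 0 < M) (hm : 0 < m) :
    𝔼 f : D → R, 𝔼 ω : ΩG, S.succH (S.gen f ω).1 (S.gen f ω).2 f ≤
      (𝔼 f : D → R, 𝔼 ω : ΩG, S.XS (S.gen f ω).1 f M) / M +
      (Real.log (Fintype.card PK) / (lam * M) + lam / 4) + q * m / M +
      (Real.log (Fintype.card (PK × SK)) / (lam * m) + lam / 4) := by
  have hMr : (0 : ℝ) < M := by exact_mod_cast hM
  have hmr : (0 : ℝ) < m := by exact_mod_cast hm
  have e1 := S.attack_dev hl0 hl1 M
  have e2 : 𝔼 f : D → R, 𝔼 ω : ΩG, ((M : ℝ) * m * S.succH (S.gen f ω).1 (S.gen f ω).2 f -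
      m * S.JS (S.gen f ω).1 f M - q * (m : ℝ) ^ 2) ≤
      M * (Real.log (Fintype.card (PK × SK) * Real.exp (lam ^ 2 / 4) ^ m) / lam) := by
    calc 𝔼 f : D → R, 𝔼 ω : ΩG, ((M : ℝ) * m * S.succH (S.gen f ω).1 (S.gen f ω).2 f -
        m * S.JS (S.gen f ω).1 f M - q * (m : ℝ) ^ 2)
        ≤ 𝔼 f : D → R, 𝔼 ω : ΩG, ∑ l ∈ Finset.range M,
          avgL l (fun ρ : List (Bool × ΩE × ΩD) =>
            devF (S.QH (S.gen f ω).1 (S.gen f ω).2)
              (S.XH (S.gen f ω).1 (S.gen f ω).2 (S.AV (S.gen f ω).1 ρ f)) f m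
              (S.AV (S.gen f ω).1 ρ f)) :=
          Finset.expect_le_expect fun f _ => Finset.expect_le_expect fun ω _ =>
            S.sum_devF_ge hq' _ _ f M m
      _ = ∑ l ∈ Finset.range M, avgL l (fun ρ : List (Bool × ΩE × ΩD) =>
          𝔼 f : D → R, 𝔼 ω : ΩG, devF (S.QH (S.gen f ω).1 (S.gen f ω).2)
              (S.XH (S.gen f ω).1 (S.gen f ω).2 (S.AV (S.gen f ω).1 ρ f)) f m
              (S.AV (S.gen f ω).1 ρ f)) := by
          simp only [avgL_expect]
          simp only [Finset.expect_sum_comm]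
      _ ≤ ∑ _l ∈ Finset.range M,
          (Real.log (Fintype.card (PK × SK) * Real.exp (lam ^ 2 / 4) ^ m) / lam) := by
          refine Finset.sum_le_sum fun l _ => ?_
          rw [← avgL_const (Ω := Bool × ΩE × ΩD) l
            (Real.log (Fintype.card (PK × SK) * Real.exp (lam ^ 2 / 4) ^ m) / lam)]
          exact avgL_mono fun ρ _ => S.honest_dev hl0 hl1 m ρ
      _ = M * (Real.log (Fintype.card (PK × SK) * Real.exp (lam ^ 2 / 4) ^ m) / lam) := by
          rw [Finset.sum_const, Finset.card_range, nsmul_eq_mul]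
  simp only [Finset.expect_sub_distrib, Fintype.expect_const, ← Finset.mul_expect] at e1 e2
  set X := 𝔼 f : D → R, 𝔼 ω : ΩG, S.XS (S.gen f ω).1 f M
  set J := 𝔼 f : D → R, 𝔼 ω : ΩG, S.JS (S.gen f ω).1 f M
  set Y := 𝔼 f : D → R, 𝔼 ω : ΩG, S.succH (S.gen f ω).1 (S.gen f ω).2 f
  have hc1 : (0 : ℝ) < Fintype.card PK := by exact_mod_cast Fintype.card_pos
  have hc2 : (0 : ℝ) < Fintype.card (PK × SK) := by exact_mod_cast Fintype.card_pos
  have l1 : Real.log (Fintype.card PK * Real.exp (lam ^ 2 / 4) ^ M) =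
      Real.log (Fintype.card PK) + M * (lam ^ 2 / 4) := by
    rw [Real.log_mul hc1.ne' (pow_pos (Real.exp_pos _) _).ne', Real.log_pow, Real.log_exp]
  have l2 : Real.log (Fintype.card (PK × SK) * Real.exp (lam ^ 2 / 4) ^ m) =
      Real.log (Fintype.card (PK × SK)) + m * (lam ^ 2 / 4) := by
    rw [Real.log_mul hc2.ne' (pow_pos (Real.exp_pos _) _).ne', Real.log_pow, Real.log_exp]
  rw [l1] at e1
  rw [l2] at e2
  set L1 := Real.log (Fintype.card PK)
  set L2 := Real.log (Fintype.card (PK × SK))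
  have e1' : J ≤ X + (L1 / lam + M * (lam / 4)) := by
    have : (L1 + M * (lam ^ 2 / 4)) / lam = L1 / lam + M * (lam / 4) := by
      field_simp
    rw [this] at e1
    linarith
  have e2' : M * m * Y ≤ m * J + q * (m : ℝ) ^ 2 + M * (L2 / lam + m * (lam / 4)) := by
    have : (L2 + m * (lam ^ 2 / 4)) / lam = L2 / lam + m * (lam / 4) := by
      field_simp
    rw [this] at e2
    linarith
  have e3 : M * m * Y ≤ m * (X + (L1 / lam + M * (lam / 4))) + q * (m : ℝ) ^ 2 +
      M * (L2 / lam + m * (lam / 4)) := by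
    have := mul_le_mul_of_nonneg_left e1' hmr.le
    linarith
  have e4 : M * m * (X / M + (L1 / (lam * M) + lam / 4) + q * m / M +
      (L2 / (lam * m) + lam / 4)) = m * (X + (L1 / lam + M * (lam / 4))) + q * (m : ℝ) ^ 2 +
      M * (L2 / lam + m * (lam / 4)) := by
    field_simp
  have e5 : M * m * Y ≤ M * m * (X / M + (L1 / (lam * M) + lam / 4) + q * m / M +
      (L2 / (lam * m) + lam / 4)) := by rw [e4]; exact e3
  exact le_of_mul_le_mul_left e5 (mul_pos hMr hmr)

end Scheme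

end Pool.Agent.PKE70
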