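import Pool.Agent.PKE70.Attack3

/-!
# The adversary as an oracle algorithm, and its success probability
-/

set_option autoImplicit false
set_option linter.unusedSectionVars false

open scoped BigOperators

namespace Pool.Agent.PKE70

variable {D R PK SK C ΩG ΩE ΩD : Type} [DecidableEq D]

namespace Scheme

variable (S : Scheme D R PK SK C ΩG ΩE ΩD)
variable [Fintype D] [Fintype R] [Fintype ΩE] [Fintype ΩD] [Fintype SK] [Nonempty SK]
  [Nonempty ΩE] [Nonempty ΩD] [Nonempty (D → R)]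

/-- the learning phase as an oracle algorithm -/
noncomputable def learn (pk : PK) :
    (D → Option R) → List (Bool × ΩE × ΩD) → QAlg D R (D → Option R)
  | v, [] => .ret v
  | v, r :: ρ => ((S.full pk (S.best pk v) r).record v).bind fun v' => learn pk v' ρ

theorem run_learn (pk : PK) (f : D → R) (A : Finset D) (ρ : List (Bool × ΩE × ΩD)) :
    (S.learn pk (res A f) ρ).run f = res (kn (S.QE pk) f A ρ) f := by
  induction ρ generalizing A with
  | nil => rfl
  | cons r ρ ih =>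
    rw [learn, QAlg.run_bind, run_record_res, kn_cons]
    exact ih _

theorem cost_learn {q : ℕ} (hq : S.QueryBound q) (pk : PK) (f : D → R) (v : D → Option R)
    (ρ : List (Bool × ΩE × ΩD)) : (S.learn pk v ρ).cost f ≤ 2 * q * ρ.length := by
  induction ρ generalizing v with
  | nil => simp [learn]
  | cons r ρ ih =>
    rw [learn, QAlg.cost_bind, QAlg.cost_record, List.length_cons]
    have h1 := S.card_qs_le hq pk (S.best pk v) r f
    have h2 := ih (((S.full pk (S.best pk v) r).record v).run f)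
    have h3 : 2 * q * (ρ.length + 1) = 2 * q + 2 * q * ρ.length := by ring
    omega

/-- the adversary -/
noncomputable def eve (ρ : List (Bool × ΩE × ΩD)) (d : ΩD) (pk : PK) (c : C) : QAlg D R Bool :=
  (S.learn pk (fun _ => none) ρ).bind fun v =>
    (S.dec (S.best pk v).1 c d).withAns (S.best pk v).2

theorem run_eve (ρ : List (Bool × ΩE × ΩD)) (d : ΩD) (pk : PK) (c : C) (f : D → R) :
    (S.eve ρ d pk c).run f =
      (S.dec (S.best pk (res (S.AV pk ρ f) f)).1 c d).run
        (ovr f (S.best pk (res (S.AV pk ρ f) f)).2) := by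
  have h : (S.learn pk (fun _ => none) ρ).run f = res (S.AV pk ρ f) f := by
    rw [← res_empty f]
    exact S.run_learn pk f ∅ ρ
  rw [eve, QAlg.run_bind, h, QAlg.run_withAns]

theorem cost_eve {q : ℕ} (hq : S.QueryBound q) (ρ : List (Bool × ΩE × ΩD)) (d : ΩD) (pk : PK)
    (c : C) (f : D → R) : (S.eve ρ d pk c).cost f ≤ 2 * q * (ρ.length + 1) := by
  rw [eve, QAlg.cost_bind]
  have h1 := S.cost_learn hq pk f (fun _ => none) ρ
  have h2 := (QAlg.cost_withAns f (S.best pk ((S.learn pk (fun _ => none) ρ).run f)).2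
    (S.dec (S.best pk ((S.learn pk (fun _ => none) ρ).run f)).1 c d)).trans (hq.2 _ _ _ _)
  have h3 : 2 * q * (ρ.length + 1) = 2 * q + 2 * q * ρ.length := by ring
  omega

theorem expect_coins {α β γ : Type} [Fintype α] [Fintype β] [Fintype γ] (F : α × β × γ → ℝ) :
    𝔼 r : α × β × γ, F r = 𝔼 a : α, 𝔼 b : β, 𝔼 c : γ, F (a, b, c) := by
  rw [← Finset.univ_product_univ, Finset.expect_product]
  refine Finset.expect_congr rfl fun a _ => ?_
  rw [← Finset.univ_product_univ, Finset.expect_product]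

variable [Fintype ΩG] [Nonempty ΩG]

theorem decProb_eq : S.decProb =
    𝔼 f : D → R, 𝔼 ω : ΩG, S.succH (S.gen f ω).1 (S.gen f ω).2 f := by
  unfold decProb succH
  refine Finset.expect_congr rfl fun f _ => Finset.expect_congr rfl fun ω _ => ?_
  rw [expect_coins]
  refine Finset.expect_congr rfl fun b _ => Finset.expect_congr rfl fun e _ =>
    Finset.expect_congr rfl fun d _ => ?_
  simp only [val, full, QAlg.run_bind, QAlg.run_withAns, ovr_none]

theorem advProb_eve (ρ : List (Bool × ΩE × ΩD)) :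
    𝔼 d : ΩD, 𝔼 f : D → R, S.advProb f (fun pk c => (S.eve ρ d pk c).run f) =
      𝔼 f : D → R, 𝔼 ω : ΩG, 𝔼 r : Bool × ΩE × ΩD,
        S.XE (S.gen f ω).1 (res (S.AV (S.gen f ω).1 ρ f) f) r f := by
  rw [Finset.expect_comm]
  refine Finset.expect_congr rfl fun f _ => ?_
  unfold advProb
  rw [Finset.expect_comm]
  refine Finset.expect_congr rfl fun ω _ => ?_
  rw [expect_coins, Finset.expect_comm]
  refine Finset.expect_congr rfl fun b _ => ?_
  rw [Finset.expect_comm]
  refine Finset.expect_congr rfl fun e _ => Finset.expect_congr rfl fun d _ => ?_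
  simp only [run_eve, XE, val, full, QAlg.run_bind, QAlg.run_withAns]

/-- averaging: a learning phase of length less than `M` and decryption coins that are at least as
good as the average -/
theorem exists_eve {q : ℕ} (hq : S.QueryBound q) {M : ℕ} (hM : 0 < M) :
    ∃ (A : PK → C → QAlg D R Bool), (∀ pk c f, (A pk c).cost f ≤ 2 * q * M) ∧
      (𝔼 f : D → R, 𝔼 ω : ΩG, S.XS (S.gen f ω).1 f M) / M ≤
        𝔼 f : D → R, S.advProb f (fun pk c => (A pk c).run f) := by
  have hMr : (0 : ℝ) < M := by exact_mod_cast hM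
  have h1 : 𝔼 f : D → R, 𝔼 ω : ΩG, S.XS (S.gen f ω).1 f M =
      ∑ l ∈ Finset.range M, avgL l (fun ρ : List (Bool × ΩE × ΩD) =>
        𝔼 d : ΩD, 𝔼 f : D → R, S.advProb f (fun pk c => (S.eve ρ d pk c).run f)) := by
    simp only [XS, advProb_eve]
    simp only [Finset.expect_sum_comm, ← avgL_expect]
  set a := (𝔼 f : D → R, 𝔼 ω : ΩG, S.XS (S.gen f ω).1 f M) / M with ha
  have h2 : ∃ l ∈ Finset.range M, a ≤ avgL l (fun ρ : List (Bool × ΩE × ΩD) =>
      𝔼 d : ΩD, 𝔼 f : D → R, S.advProb f (fun pk c => (S.eve ρ d pk c).run f)) := by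
    by_contra hcon
    push Not at hcon
    have h3 : ∑ l ∈ Finset.range M, avgL l (fun ρ : List (Bool × ΩE × ΩD) =>
        𝔼 d : ΩD, 𝔼 f : D → R, S.advProb f (fun pk c => (S.eve ρ d pk c).run f)) <
        ∑ _l ∈ Finset.range M, a :=
      Finset.sum_lt_sum_of_nonempty ⟨0, Finset.mem_range.mpr hM⟩ hcon
    rw [← h1, Finset.sum_const, Finset.card_range, nsmul_eq_mul, ha,
      mul_div_cancel₀ _ hMr.ne'] at h3
    exact lt_irrefl _ h3
  obtain ⟨l, hl, h4⟩ := h2
  obtain ⟨ρ, hρ, h5⟩ := exists_le_avgL h4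
  obtain ⟨d, -, h6⟩ : ∃ d ∈ (Finset.univ : Finset ΩD),
      a ≤ 𝔼 f : D → R, S.advProb f (fun pk c => (S.eve ρ d pk c).run f) := by
    by_contra hcon
    push Not at hcon
    have h7 : 𝔼 d : ΩD, 𝔼 f : D → R, S.advProb f (fun pk c => (S.eve ρ d pk c).run f) < a :=
      Finset.expect_lt (fun d hd => (hcon d hd).le)
        ⟨Classical.arbitrary ΩD, Finset.mem_univ _, hcon _ (Finset.mem_univ _)⟩
    exact absurd h5 (not_le.mpr h7)
  refine ⟨S.eve ρ d, fun pk c f => ?_, h6⟩
  refine (S.cost_eve hq ρ d pk c f).trans ?_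
  have h8 : ρ.length + 1 ≤ M := by
    rw [hρ]; exact Finset.mem_range.mp hl
  exact Nat.mul_le_mul_left _ h8

/-- **Attack on schemes with oracle-dependent key generation.** -/
theorem attack [Fintype PK] [Nonempty PK] {q s : ℕ} (hq : S.QueryBound q) (hq1 : 1 ≤ q)
    (hs : Fintype.card PK * Fintype.card SK ≤ 2 ^ s) {ε : ℝ} (hε : 0 < ε) (hε1 : ε ≤ 1) :
    ∃ A : PK → C → QAlg D R Bool,
      (∀ pk c f, ((A pk c).cost f : ℝ) ≤ 50 * q ^ 2 * (s + 1) / ε ^ 3) ∧
      S.decProb ≤ (𝔼 f : D → R, S.advProb f (fun pk c => (A pk c).run f)) + ε := by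
  set lam : ℝ := 2 * ε / 3 with hlam
  have hl0 : 0 < lam := by positivity
  have hl1 : lam ≤ 1 := by rw [hlam]; linarith
  set m : ℕ := ⌈7 * (s + 1) / ε ^ 2⌉₊ with hm
  have hmpos : 0 < m := Nat.ceil_pos.mpr (by positivity)
  have hmr : (0 : ℝ) < m := by exact_mod_cast hmpos
  have hm1 : 7 * (s + 1) / ε ^ 2 ≤ m := Nat.le_ceil _
  have hm2 : (m : ℝ) ≤ 8 * (s + 1) / ε ^ 2 := by
    have h1 : (m : ℝ) < 7 * (s + 1) / ε ^ 2 + 1 := Nat.ceil_lt_add_one (by positivity)
    have h2 : (1 : ℝ) ≤ (s + 1) / ε ^ 2 := by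
      rw [le_div_iff₀ (by positivity)]
      have : ε ^ 2 ≤ 1 := pow_le_one₀ hε.le hε1
      have h3 : (0 : ℝ) ≤ s := Nat.cast_nonneg s
      linarith
    have h3 : 8 * ((s : ℝ) + 1) / ε ^ 2 = 7 * (s + 1) / ε ^ 2 + (s + 1) / ε ^ 2 := by ring
    linarith
  have hqr : (1 : ℝ) ≤ q := by exact_mod_cast hq1
  set M : ℕ := ⌈3 * q * m / ε⌉₊ with hMdef
  have hMpos : 0 < M := Nat.ceil_pos.mpr (by positivity)
  have hMr : (0 : ℝ) < M := by exact_mod_cast hMpos
  have hM1 : 3 * q * m / ε ≤ M := Nat.le_ceil _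
  have hM2 : (M : ℝ) ≤ 25 * q * (s + 1) / ε ^ 3 := by
    have h1 : (M : ℝ) < 3 * q * m / ε + 1 := Nat.ceil_lt_add_one (by positivity)
    have h2 : 3 * q * m / ε ≤ 24 * q * (s + 1) / ε ^ 3 := by
      calc 3 * q * (m : ℝ) / ε ≤ 3 * q * (8 * (s + 1) / ε ^ 2) / ε := by gcongr
        _ = 24 * q * (s + 1) / ε ^ 3 := by field_simp; ring
    have h3 : (1 : ℝ) ≤ q * (s + 1) / ε ^ 3 := by
      rw [le_div_iff₀ (by positivity)]
      have h4 : ε ^ 3 ≤ 1 := pow_le_one₀ hε.le hε1
      have h5 : (0 : ℝ) ≤ s := Nat.cast_nonneg s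
      nlinarith
    have h4 : 25 * (q : ℝ) * (s + 1) / ε ^ 3 = 24 * q * (s + 1) / ε ^ 3 +
      q * (s + 1) / ε ^ 3 := by ring
    linarith
  obtain ⟨A, hA1, hA2⟩ := S.exists_eve hq hMpos
  refine ⟨A, fun pk c f => ?_, ?_⟩
  · calc ((A pk c).cost f : ℝ) ≤ ((2 * q * M : ℕ) : ℝ) := by exact_mod_cast hA1 pk c f
      _ = 2 * q * M := by push_cast; ring
      _ ≤ 2 * q * (25 * q * (s + 1) / ε ^ 3) := by gcongr
      _ = 50 * q ^ 2 * (s + 1) / ε ^ 3 := by ring
  · rw [decProb_eq]
    have h1 := S.main_ineq hq hl0 hl1 hMpos hmpos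
    -- logarithms
    have hc1 : (0 : ℝ) < Fintype.card PK := by exact_mod_cast Fintype.card_pos
    have hc2 : (0 : ℝ) < Fintype.card (PK × SK) := by exact_mod_cast Fintype.card_pos
    have hL2 : Real.log (Fintype.card (PK × SK)) ≤ s * Real.log 2 := by
      rw [← Real.log_pow]
      apply Real.log_le_log hc2
      rw [Fintype.card_prod]
      exact_mod_cast hs
    have hL1 : Real.log (Fintype.card PK) ≤ s * Real.log 2 := by
      refine le_trans (Real.log_le_log hc1 ?_) hL2
      rw [Fintype.card_prod]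
      have : 1 ≤ Fintype.card SK := Fintype.card_pos
      exact_mod_cast Nat.le_mul_of_pos_right _ this
    have hlog2 : Real.log 2 ≤ 0.7 := by
      have := Real.log_two_lt_d9
      linarith
    have hs0 : (0 : ℝ) ≤ s := Nat.cast_nonneg s
    have hL2' : Real.log (Fintype.card (PK × SK)) ≤ 0.7 * (s + 1) := by nlinarith
    have hL1' : Real.log (Fintype.card PK) ≤ 0.7 * (s + 1) := by nlinarith
    have b2 : Real.log (Fintype.card (PK × SK)) / (lam * m) ≤ 3 * ε / 20 := by
      rw [div_le_iff₀ (by positivity)]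
      have h3 : 7 * ((s : ℝ) + 1) ≤ m * ε ^ 2 := by
        rwa [div_le_iff₀ (by positivity)] at hm1
      have h4 : 3 * ε / 20 * (lam * m) = (m * ε ^ 2) / 10 := by rw [hlam]; ring
      rw [h4]
      linarith
    have b1 : Real.log (Fintype.card PK) / (lam * M) ≤ ε / 20 := by
      rw [div_le_iff₀ (by positivity)]
      have h3 : 7 * ((s : ℝ) + 1) ≤ m * ε ^ 2 := by
        rwa [div_le_iff₀ (by positivity)] at hm1
      have h5 : 3 * q * m ≤ M * ε := by
        rwa [div_le_iff₀ hε] at hM1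
      have h6 : 3 * (m : ℝ) ≤ M := by
        have h7 : 3 * (m : ℝ) ≤ 3 * q * m := by nlinarith
        have h8 : M * ε ≤ M := by nlinarith
        linarith
      have h4 : ε / 20 * (lam * M) = (M * ε ^ 2) / 30 := by rw [hlam]; ring
      rw [h4]
      have h9 : 3 * m * ε ^ 2 ≤ M * ε ^ 2 := mul_le_mul_of_nonneg_right h6 (by positivity)
      linarith
    have b3 : q * m / (M : ℝ) ≤ ε / 3 := by
      rw [div_le_iff₀ hMr]
      have h5 : 3 * q * m ≤ M * ε := by
        rwa [div_le_iff₀ hε] at hM1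
      linarith
    have hlam4 : lam / 4 = ε / 6 := by rw [hlam]; ring
    rw [hlam4] at h1
    linarith

end Scheme

end Pool.Agent.PKE70
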