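import Pool.Agent.PKE70.Defs

/-!
# Oracle algorithms: queried points, composition, overriding answers, recording
-/

set_option autoImplicit false

open scoped BigOperators

namespace Pool.Agent.PKE70

variable {D R α β : Type}

/-- the oracle `g` with the answers in the partial function `v` overriding -/
def ovr (g : D → R) (v : D → Option R) : D → R := fun x => (v x).getD (g x)

theorem ovr_none (g : D → R) : ovr g (fun _ => none) = g := rfl

theorem ovr_some {g : D → R} {v : D → Option R} {x : D} {y : R} (h : v x = some y) :
    ovr g v x = y := by simp [ovr, h]

theorem ovr_of_none {g : D → R} {v : D → Option R} {x : D} (h : v x = none) :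
    ovr g v x = g x := by simp [ovr, h]

namespace QAlg

/-- sequential composition -/
def bind : QAlg D R α → (α → QAlg D R β) → QAlg D R β
  | ret a, g => g a
  | ask x k, g => ask x (fun y => bind (k y) g)

@[simp] theorem run_ret (f : D → R) (a : α) : (ret a : QAlg D R α).run f = a := rfl
@[simp] theorem run_ask (f : D → R) (x : D) (k : R → QAlg D R α) :
    (ask x k).run f = (k (f x)).run f := rfl
@[simp] theorem cost_ret (f : D → R) (a : α) : (ret a : QAlg D R α).cost f = 0 := rfl
@[simp] theorem cost_ask (f : D → R) (x : D) (k : R → QAlg D R α) :
    (ask x k).cost f = (k (f x)).cost f + 1 := rfl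

theorem run_bind (f : D → R) (T : QAlg D R α) (g : α → QAlg D R β) :
    (T.bind g).run f = (g (T.run f)).run f := by
  induction T with
  | ret a => rfl
  | ask x k ih => exact ih _

theorem cost_bind (f : D → R) (T : QAlg D R α) (g : α → QAlg D R β) :
    (T.bind g).cost f = T.cost f + (g (T.run f)).cost f := by
  induction T with
  | ret a => simp [bind]
  | ask x k ih =>
    simp only [bind, cost_ask, run_ask]
    rw [ih]
    omega

/-- answer the queries in the domain of `w` by `w` -/
def withAns (w : D → Option R) : QAlg D R α → QAlg D R α
  | ret a => ret a
  | ask x k => match w x with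
    | some y => withAns w (k y)
    | none => ask x (fun y => withAns w (k y))

theorem run_withAns (f : D → R) (w : D → Option R) (T : QAlg D R α) :
    (T.withAns w).run f = T.run (ovr f w) := by
  induction T with
  | ret a => rfl
  | ask x k ih =>
    rcases h : w x with _ | y
    · simp only [withAns, h, run_ask, ovr_of_none h]
      exact ih _
    · simp only [withAns, h, run_ask, ovr_some h]
      exact ih _

theorem cost_withAns (f : D → R) (w : D → Option R) (T : QAlg D R α) :
    (T.withAns w).cost f ≤ T.cost (ovr f w) := by
  induction T with
  | ret a => exact le_rfl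
  | ask x k ih =>
    rcases h : w x with _ | y
    · simp only [withAns, h, cost_ask, ovr_of_none h]
      exact Nat.add_le_add_right (ih _) 1
    · simp only [withAns, h, cost_ask, ovr_some h]
      exact (ih _).trans (Nat.le_succ _)

variable [DecidableEq D]

/-- the set of queried points -/
def queries (f : D → R) : QAlg D R α → Finset D
  | ret _ => ∅
  | ask x k => insert x (queries f (k (f x)))

@[simp] theorem queries_ret (f : D → R) (a : α) : (ret a : QAlg D R α).queries f = ∅ := rfl
@[simp] theorem queries_ask (f : D → R) (x : D) (k : R → QAlg D R α) :
    (ask x k).queries f = insert x ((k (f x)).queries f) := rfl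

theorem card_queries_le (f : D → R) (T : QAlg D R α) : (T.queries f).card ≤ T.cost f := by
  induction T with
  | ret a => simp
  | ask x k ih =>
    rw [queries_ask, cost_ask]
    exact (Finset.card_insert_le _ _).trans (Nat.add_le_add_right (ih _) 1)

theorem queries_bind (f : D → R) (T : QAlg D R α) (g : α → QAlg D R β) :
    (T.bind g).queries f = T.queries f ∪ (g (T.run f)).queries f := by
  induction T with
  | ret a => simp [bind]
  | ask x k ih =>
    simp only [bind, queries_ask, run_ask]
    rw [ih, Finset.insert_union]

/-- the run depends only on the answers to the queried points -/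
theorem local_run {f f' : D → R} (T : QAlg D R α) (h : ∀ x ∈ T.queries f, f' x = f x) :
    T.run f' = T.run f ∧ T.queries f' = T.queries f := by
  induction T with
  | ret a => exact ⟨rfl, rfl⟩
  | ask x k ih =>
    have hx : f' x = f x := h x (by simp)
    have h2 : ∀ z ∈ (k (f x)).queries f, f' z = f z := fun z hz => h z (by simp [hz])
    obtain ⟨h3, h4⟩ := ih (f x) h2
    constructor
    · rw [run_ask, run_ask, hx, h3]
    · rw [queries_ask, queries_ask, hx, h4]

/-- run the algorithm and return the partial function `v` updated by the answers received -/
def record (v : D → Option R) : QAlg D R α → QAlg D R (D → Option R)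
  | ret _ => ret v
  | ask x k => ask x (fun y => record (Function.update v x (some y)) (k y))

theorem run_record (f : D → R) (v : D → Option R) (T : QAlg D R α) :
    (T.record v).run f = fun x => if x ∈ T.queries f then some (f x) else v x := by
  induction T generalizing v with
  | ret a => simp [record]
  | ask x k ih =>
    simp only [record, run_ask, queries_ask, Finset.mem_insert]
    rw [ih]
    funext z
    by_cases hz : z ∈ (k (f x)).queries f
    · simp [hz]
    · by_cases hzx : z = x
      · subst hzx
        simp [hz]
      · simp [hz, hzx]

theorem cost_record (f : D → R) (v : D → Option R) (T : QAlg D R α) :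
    (T.record v).cost f = T.cost f := by
  induction T generalizing v with
  | ret a => rfl
  | ask x k ih =>
    simp only [record, cost_ask]
    rw [ih]

end QAlg

section Res

variable [DecidableEq D]

/-- the restriction of `f` to the finite set `A`, as a partial function -/
def res (A : Finset D) (f : D → R) : D → Option R := fun x => if x ∈ A then some (f x) else none

theorem res_empty (f : D → R) : res ∅ f = fun _ => none := by
  funext x; simp [res]

theorem ovr_res_self (A : Finset D) (f : D → R) : ovr f (res A f) = f := by
  funext x
  by_cases h : x ∈ A <;> simp [ovr, res, h]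

theorem ovr_res (A : Finset D) (f g : D → R) (x : D) :
    ovr g (res A f) x = if x ∈ A then f x else g x := by
  by_cases h : x ∈ A <;> simp [ovr, res, h]

theorem res_congr {A : Finset D} {f f' : D → R} (h : ∀ x ∈ A, f' x = f x) :
    res A f' = res A f := by
  funext x
  by_cases hx : x ∈ A
  · simp [res, hx, h x hx]
  · simp [res, hx]

/-- recording on top of a restriction -/
theorem run_record_res {α : Type} (f : D → R) (A : Finset D) (T : QAlg D R α) :
    (T.record (res A f)).run f = res (A ∪ T.queries f) f := by
  rw [QAlg.run_record]
  funext x
  by_cases h1 : x ∈ T.queries f <;> by_cases h2 : x ∈ A <;> simp [res, h1, h2]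

/-- Resampling: a set `A g`, determined by the restriction of `g` to it, is exposed; the rest of
`g` may be replaced by an independent copy. -/
theorem resample [Fintype D] [Fintype R] (A : (D → R) → Finset D)
    (hA : ∀ g g', (∀ x ∈ A g, g' x = g x) → A g' = A g) (K : (D → R) → (D → R) → ℝ)
    (hK : ∀ g g' h, (∀ x ∈ A g, g' x = g x) → K g' h = K g h) :
    𝔼 g : D → R, K g g = 𝔼 g : D → R, 𝔼 g' : D → R, K g (fun x => if x ∈ A g then g x else g' x) := by
  classical
  rcases isEmpty_or_nonempty (D → R) with hne | hne
  · simp
  let mix : (D → R) → (D → R) → (D → R) := fun g g' x => if x ∈ A g then g x else g' x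
  have hmix : ∀ g g', ∀ x ∈ A g, mix g g' x = g x := fun g g' x hx => by simp [mix, hx]
  let e : (D → R) × (D → R) → (D → R) × (D → R) := fun p =>
    (mix p.1 p.2, fun x => if x ∈ A p.1 then p.2 x else p.1 x)
  have he : Function.Involutive e := by
    rintro ⟨g, g'⟩
    have h1 : A (mix g g') = A g := hA _ _ (hmix g g')
    simp only [e, Prod.mk.injEq]
    constructor
    · funext x
      simp only [mix]
      have h1' : A (fun x => if x ∈ A g then g x else g' x) = A g := h1
      rw [h1']
      by_cases hx : x ∈ A g <;> simp [hx]
    · funext x
      have h1' : A (mix g g') = A g := h1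
      rw [h1']
      by_cases hx : x ∈ A g <;> simp [hx, mix]
  have h2 : 𝔼 g : D → R, 𝔼 g' : D → R, K g (mix g g') =
      𝔼 p : (D → R) × (D → R), K p.1 (mix p.1 p.2) := by
    rw [← Finset.univ_product_univ, Finset.expect_product]
  have h3 : 𝔼 g : D → R, K g g = 𝔼 p : (D → R) × (D → R), K p.1 p.1 := by
    rw [← Finset.univ_product_univ, Finset.expect_product]
    refine Finset.expect_congr rfl fun g _ => ?_
    simp
  show 𝔼 g : D → R, K g g = 𝔼 g : D → R, 𝔼 g' : D → R, K g (mix g g')
  rw [h2, h3]
  symm
  refine Fintype.expect_equiv (he.toPerm e) _ _ fun p => ?_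
  have h4 : (he.toPerm e) p = e p := rfl
  rw [h4]
  simp only [e]
  exact (hK p.1 (mix p.1 p.2) _ (hmix p.1 p.2)).symm

end Res

end Pool.Agent.PKE70
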