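import Pool.Agent.PKE70.Attack4
import Pool.Agent.PKE70.Inversion

/-!
# No black-box reduction
-/

set_option autoImplicit false
set_option linter.unusedSectionVars false

open scoped BigOperators

namespace Pool.Agent.PKE70

variable {D R PK SK C ΩG ΩE ΩD ΩS : Type} [DecidableEq D] [DecidableEq R] [Fintype D] [Fintype R]
  [Fintype PK] [Nonempty PK] [Fintype SK] [Nonempty SK] [Fintype ΩG] [Nonempty ΩG]
  [Fintype ΩE] [Nonempty ΩE] [Fintype ΩD] [Nonempty ΩD] [Fintype ΩS] [Nonempty ΩS]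
  [Nonempty D] [Nonempty R]

theorem advProb_le_one (S : Scheme D R PK SK C ΩG ΩE ΩD) (f : D → R) (A : PK → C → Bool) :
    S.advProb f A ≤ 1 :=
  Finset.expect_le Finset.univ_nonempty fun _ _ => Finset.expect_le Finset.univ_nonempty fun _ _ =>
    Finset.expect_le Finset.univ_nonempty fun _ _ => by split_ifs <;> norm_num

theorem advProb_nonneg (S : Scheme D R PK SK C ΩG ΩE ΩD) (f : D → R) (A : PK → C → Bool) :
    0 ≤ S.advProb f A :=
  Finset.expect_nonneg fun _ _ => Finset.expect_nonneg fun _ _ =>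
    Finset.expect_nonneg fun _ _ => by split_ifs <;> norm_num

theorem invProb_nonneg (red : R → ΩS → RAlg D R (PK × C) D) (f : D → R) (A : PK → C → Bool) :
    0 ≤ invProb red f A :=
  Finset.expect_nonneg fun _ _ => Finset.expect_nonneg fun _ _ => by split_ifs <;> norm_num

/-- the reduction together with the adversary is an inversion algorithm -/
theorem expect_invProb_le (red : R → ΩS → RAlg D R (PK × C) D) {t Q : ℕ}
    (hred : ∀ y σ f A, (red y σ).cost f A ≤ t) (E : PK → C → QAlg D R Bool)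
    (hE : ∀ pk c f, (E pk c).cost f ≤ Q) :
    𝔼 f : D → R, invProb red f (fun pk c => (E pk c).run f) ≤
      ((t * (Q + 1) : ℕ) + 1) * (1 / (Fintype.card D : ℝ) + 1 / Fintype.card R) := by
  have h1 : 𝔼 f : D → R, invProb red f (fun pk c => (E pk c).run f) =
      𝔼 σ : ΩS, 𝔼 f : D → R, 𝔼 x : D,
        if f (((red (f x) σ).toQ fun z => E z.1 z.2).run f) = f x then (1 : ℝ) else 0 := by
    have h : ∀ f : D → R, invProb red f (fun pk c => (E pk c).run f) = 𝔼 σ : ΩS, 𝔼 x : D,
        if f (((red (f x) σ).toQ fun z => E z.1 z.2).run f) = f x then (1 : ℝ) else 0 := by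
      intro f
      unfold invProb
      rw [Finset.expect_comm]
      refine Finset.expect_congr rfl fun σ _ => Finset.expect_congr rfl fun x _ => ?_
      rw [RAlg.run_toQ]
    simp only [h]
    exact Finset.expect_comm _ _ _
  rw [h1]
  refine Finset.expect_le Finset.univ_nonempty fun σ _ => ?_
  have hcost : ∀ y f, ((red y σ).toQ fun z => E z.1 z.2).cost f ≤ t * (Q + 1) := by
    intro y f
    have h2 := RAlg.cost_toQ (fun z : PK × C => E z.1 z.2) (fun z f => hE z.1 z.2 f) f (red y σ)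
    have h3 := Nat.mul_le_mul_right (Q + 1) (hred y σ f fun z => (E z.1 z.2).run f)
    exact h2.trans h3
  have h := inversion (D := D) (R := R) (fun y => (red y σ).toQ fun z => E z.1 z.2)
    (k := t * (Q + 1)) hcost
  exact h

/-- finite form -/
theorem no_reduction_finite (S : Scheme D R PK SK C ΩG ΩE ΩD) {q s t : ℕ} (hq : S.QueryBound q)
    (hq1 : 1 ≤ q) (hs : Fintype.card PK * Fintype.card SK ≤ 2 ^ s)
    (red : R → ΩS → RAlg D R (PK × C) D) (hred : ∀ y σ f A, (red y σ).cost f A ≤ t)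
    {δ β : ℝ} (hδ : 0 < δ) (hδ1 : δ ≤ 1) (hβ : 0 < β)
    (hbig : (t * (400 * q ^ 2 * (s + 1) / δ ^ 3 + 1) + 1) *
      (1 / (Fintype.card D : ℝ) + 1 / Fintype.card R) < δ / 2 * β) :
    ∃ (f : D → R) (A : PK → C → Bool), S.decProb - δ ≤ S.advProb f A ∧ invProb red f A < β := by
  by_contra hcon
  push Not at hcon
  obtain ⟨E, hE1, hE2⟩ := S.attack hq hq1 hs (half_pos hδ) (by linarith : δ / 2 ≤ 1)
  have hQeq : 50 * (q : ℝ) ^ 2 * (s + 1) / (δ / 2) ^ 3 = 400 * q ^ 2 * (s + 1) / δ ^ 3 := by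
    field_simp
    ring
  rw [hQeq] at hE1
  set Q : ℕ := ⌊400 * (q : ℝ) ^ 2 * (s + 1) / δ ^ 3⌋₊ with hQ
  have hE : ∀ pk c f, (E pk c).cost f ≤ Q := fun pk c f => Nat.le_floor (hE1 pk c f)
  have hQle : (Q : ℝ) ≤ 400 * q ^ 2 * (s + 1) / δ ^ 3 := Nat.floor_le (by positivity)
  have h1 := expect_invProb_le red hred E hE
  -- lower bound
  have h2 : δ / 2 * β ≤ 𝔼 f : D → R, invProb red f (fun pk c => (E pk c).run f) := by
    by_cases hdec : S.decProb - δ < 0
    · -- every adversary is good enough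
      have h3 : β ≤ 𝔼 f : D → R, invProb red f (fun pk c => (E pk c).run f) := by
        rw [← Fintype.expect_const (ι := D → R) β]
        exact Finset.expect_le_expect fun f _ =>
          hcon f _ (hdec.le.trans (advProb_nonneg _ _ _))
      nlinarith
    push Not at hdec
    set I : (D → R) → ℝ := fun f =>
      if S.decProb - δ ≤ S.advProb f (fun pk c => (E pk c).run f) then 1 else 0 with hI
    have h3 : ∀ f : D → R, S.advProb f (fun pk c => (E pk c).run f) ≤ I f + (S.decProb - δ) := by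
      intro f
      simp only [hI]
      split_ifs with h
      · have := advProb_le_one S f (fun pk c => (E pk c).run f)
        linarith
      · push Not at h
        linarith
    have h4 : 𝔼 f : D → R, S.advProb f (fun pk c => (E pk c).run f) ≤
        (𝔼 f : D → R, I f) + (S.decProb - δ) := by
      have h5 : (𝔼 f : D → R, I f) + (S.decProb - δ) = 𝔼 f : D → R, (I f + (S.decProb - δ)) := by
        rw [Finset.expect_add_distrib, Fintype.expect_const]
      rw [h5]
      exact Finset.expect_le_expect fun f _ => h3 f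
    have h6 : δ / 2 ≤ 𝔼 f : D → R, I f := by linarith
    have h7 : ∀ f : D → R, β * I f ≤ invProb red f (fun pk c => (E pk c).run f) := by
      intro f
      simp only [hI]
      split_ifs with h
      · rw [mul_one]; exact hcon f _ h
      · rw [mul_zero]; exact invProb_nonneg _ _ _
    calc δ / 2 * β ≤ (𝔼 f : D → R, I f) * β := mul_le_mul_of_nonneg_right h6 hβ.le
      _ = 𝔼 f : D → R, β * I f := by rw [← Finset.mul_expect, mul_comm]
      _ ≤ _ := Finset.expect_le_expect fun f _ => h7 f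
  have h8 : (((t * (Q + 1) : ℕ) : ℝ) + 1) * (1 / (Fintype.card D : ℝ) + 1 / Fintype.card R) ≤
      (t * (400 * q ^ 2 * (s + 1) / δ ^ 3 + 1) + 1) *
        (1 / (Fintype.card D : ℝ) + 1 / Fintype.card R) := by
    refine mul_le_mul_of_nonneg_right ?_ (by positivity)
    push_cast
    have : (0 : ℝ) ≤ t := Nat.cast_nonneg t
    nlinarith
  linarith

/-- asymptotic form -/
theorem no_reduction (c : ℕ) : ∀ᶠ n : ℕ in Filter.atTop,
    ∀ (PK SK C ΩG ΩE ΩD ΩS : Type) [Fintype PK] [Nonempty PK] [Fintype SK] [Nonempty SK]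
      [Fintype ΩG] [Nonempty ΩG] [Fintype ΩE] [Nonempty ΩE] [Fintype ΩD] [Nonempty ΩD]
      [Fintype ΩS] [Nonempty ΩS] (S : Scheme (Fin n → Bool) (Fin n → Bool) PK SK C ΩG ΩE ΩD)
      (red : (Fin n → Bool) → ΩS → RAlg (Fin n → Bool) (Fin n → Bool) (PK × C) (Fin n → Bool)),
      Fintype.card PK * Fintype.card SK ≤ 2 ^ n ^ c → S.QueryBound (n ^ c) →
      (∀ y σ f A, (red y σ).cost f A ≤ n ^ c) →
      ∃ (f : (Fin n → Bool) → (Fin n → Bool)) (A : PK → C → Bool),
        S.decProb - 1 / (n : ℝ) ^ c ≤ S.advProb f A ∧ invProb red f A < 1 / (n : ℝ) ^ c := by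
  have hlim := tendsto_pow_const_div_const_pow_of_one_lt (9 * c) (one_lt_two (α := ℝ))
  have hev : ∀ᶠ n : ℕ in Filter.atTop, (n : ℝ) ^ (9 * c) / 2 ^ n < 1 / 3300 :=
    hlim.eventually (gt_mem_nhds (by norm_num))
  filter_upwards [hev, Filter.eventually_ge_atTop 1] with n hn hn1
  intro PK SK C ΩG ΩE ΩD ΩS _ _ _ _ _ _ _ _ _ _ _ _ S red hs hq hred
  have hnr : (1 : ℝ) ≤ n := by exact_mod_cast hn1
  set w : ℝ := (n : ℝ) ^ c with hw
  have hw1 : 1 ≤ w := one_le_pow₀ hnr
  have hw0 : 0 < w := by linarith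
  have hq1 : 1 ≤ n ^ c := Nat.one_le_pow _ _ hn1
  refine no_reduction_finite S hq hq1 hs red hred (δ := 1 / w) (β := 1 / w) (by positivity)
    (by rw [div_le_one hw0]; exact hw1) (by positivity) ?_
  have hcard : (Fintype.card (Fin n → Bool) : ℝ) = 2 ^ n := by
    simp
  rw [hcard]
  have hw9 : (n : ℝ) ^ (9 * c) = w ^ 9 := by rw [hw, ← pow_mul]; congr 1; ring
  rw [hw9, div_lt_iff₀ (by positivity)] at hn
  have e1 : ((n ^ c : ℕ) : ℝ) = w := by push_cast; rfl
  rw [e1]
  have e2 : 400 * w ^ 2 * (w + 1) / (1 / w) ^ 3 = 400 * w ^ 5 * (w + 1) := by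
    field_simp
  rw [e2]
  have p2 : (0 : ℝ) < 2 ^ n := by positivity
  have e3 : 1 / (2 : ℝ) ^ n + 1 / 2 ^ n = 2 / 2 ^ n := by ring
  have e4 : 1 / w / 2 * (1 / w) = 1 / (2 * w ^ 2) := by field_simp
  rw [e3, e4, mul_div_assoc', div_lt_div_iff₀ p2 (by positivity), one_mul]
  -- polynomial estimate
  have k1 : w ^ 2 ≤ w ^ 9 := pow_le_pow_right₀ hw1 (by norm_num)
  have k2 : w ^ 3 ≤ w ^ 9 := pow_le_pow_right₀ hw1 (by norm_num)
  have k3 : w ^ 8 ≤ w ^ 9 := pow_le_pow_right₀ hw1 (by norm_num)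
  have e5 : (w * (400 * w ^ 5 * (w + 1) + 1) + 1) * 2 * (2 * w ^ 2) =
      1600 * w ^ 9 + 1600 * w ^ 8 + 4 * w ^ 3 + 4 * w ^ 2 := by ring
  rw [e5]
  have k0 : 0 < w ^ 9 := by positivity
  linarith

end Pool.Agent.PKE70
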