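import Pool.Agent.PKE70.Inversion

/-!
# If encryption or decryption may be an arbitrary function of the oracle, encryption is possible
-/

set_option autoImplicit false
set_option linter.unusedSectionVars false

open scoped BigOperators

namespace Pool.Agent.PKE70

section General

variable {D R : Type} [Fintype D] [DecidableEq D] [Fintype R]

/-- hitting a set of values -/
theorem hit_pred [Nonempty R] {α : Type} (T : QAlg D R α) {k : ℕ} (hk : ∀ f, T.cost f ≤ k)
    (P : R → Prop) [DecidablePred P] :
    𝔼 f : D → R, (∑ z ∈ T.queries f, if P (f z) then (1 : ℝ) else 0) ≤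
      k * 𝔼 y : R, if P y then (1 : ℝ) else 0 := by
  letI : DecidableEq R := Classical.decEq R
  have h1 : ∀ f : D → R, (∑ z ∈ T.queries f, if P (f z) then (1 : ℝ) else 0) =
      ∑ z : D, (if z ∈ T.queries f then (1 : ℝ) else 0) * (if P (f z) then (1 : ℝ) else 0) := by
    intro f
    rw [← Finset.sum_filter_add_sum_filter_not Finset.univ (fun z => z ∈ T.queries f)]
    have h2 : ∑ z ∈ Finset.univ.filter (fun z => ¬ z ∈ T.queries f),
        (if z ∈ T.queries f then (1 : ℝ) else 0) * (if P (f z) then (1 : ℝ) else 0) = 0 := by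
      refine Finset.sum_eq_zero fun z hz => ?_
      rw [if_neg (Finset.mem_filter.mp hz).2, zero_mul]
    rw [h2, add_zero]
    have h3 : Finset.univ.filter (fun z => z ∈ T.queries f) = T.queries f := by
      ext z; simp
    rw [h3]
    refine Finset.sum_congr rfl fun z hz => ?_
    rw [if_pos hz, one_mul]
  simp only [h1]
  rw [Finset.expect_sum_comm]
  have h4 : ∀ z : D, 𝔼 f : D → R, (if z ∈ T.queries f then (1 : ℝ) else 0) *
      (if P (f z) then (1 : ℝ) else 0) =
      (𝔼 f : D → R, (if z ∈ T.queries f then (1 : ℝ) else 0)) *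
        𝔼 y : R, if P y then (1 : ℝ) else 0 := by
    intro z
    rw [← expect_update z]
    simp only [mem_queries_update, Function.update_self]
    rw [Finset.expect_mul]
    refine Finset.expect_congr rfl fun f _ => ?_
    rw [← Finset.mul_expect]
  simp only [h4]
  rw [← Finset.sum_mul, ← Finset.expect_sum_comm]
  refine mul_le_mul_of_nonneg_right ?_ (Finset.expect_nonneg fun y _ => by split_ifs <;> norm_num)
  rcases isEmpty_or_nonempty D with hD | hD
  · simp
  refine Finset.expect_le Finset.univ_nonempty fun f _ => ?_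
  have h5 : ∑ z : D, (if z ∈ T.queries f then (1 : ℝ) else 0) = ((T.queries f).card : ℝ) := by
    rw [← Finset.sum_filter]
    simp
  rw [h5]
  exact_mod_cast (QAlg.card_queries_le f T).trans (hk f)

/-- a random point is rarely among few points -/
theorem expect_mem_le [Nonempty D] (s : Finset D) {k : ℕ} (hk : s.card ≤ k) :
    𝔼 x : D, (if x ∈ s then (1 : ℝ) else 0) ≤ k / Fintype.card D := by
  rw [Fintype.expect_eq_sum_div_card]
  refine div_le_div_of_nonneg_right ?_ (Nat.cast_nonneg _)
  have h9 : ∑ x : D, (if x ∈ s then (1 : ℝ) else 0) = (s.card : ℝ) := by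
    rw [← Finset.sum_filter]
    simp
  rw [h9]
  exact_mod_cast hk

/-- flip the second coordinate at `x` -/
def flipAt {K : Type} (f : D → K × Bool) (x : D) : D → K × Bool :=
  Function.update f x ((f x).1, !(f x).2)

omit [Fintype D] in
theorem flipAt_fst {K : Type} (f : D → K × Bool) (x z : D) : (flipAt f x z).1 = (f z).1 := by
  by_cases h : z = x
  · subst h; simp [flipAt]
  · simp [flipAt, Function.update_of_ne h]

/-- If the adversary does not query the point that hides the message, it fails with probability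
`1/2`; `X` chooses the point from the first coordinates of the oracle. -/
theorem hide_le {K : Type} [Fintype K] [Nonempty K] (X : (D → K) → D)
    (A : (D → K) → Bool → QAlg D (K × Bool) Bool) :
    𝔼 f : D → K × Bool, 𝔼 b : Bool,
      (if (A (fun z => (f z).1) (xor (f (X fun z => (f z).1)).2 b)).run f = b then (1 : ℝ) else 0) ≤
    1 / 2 + 𝔼 f : D → K × Bool, 𝔼 c : Bool,
      (if (X fun z => (f z).1) ∈ (A (fun z => (f z).1) c).queries f then (1 : ℝ) else 0) := by
  classical
  -- the involution
  let G : (D → K × Bool) → Bool → ℝ := fun f b =>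
    if (A (fun z => (f z).1) (xor (f (X fun z => (f z).1)).2 b)).run f = b then (1 : ℝ) else 0
  let H : (D → K × Bool) → Bool → ℝ := fun f b =>
    if (X fun z => (f z).1) ∈ (A (fun z => (f z).1) (xor (f (X fun z => (f z).1)).2 b)).queries f
      then (1 : ℝ) else 0
  let e : (D → K × Bool) × Bool → (D → K × Bool) × Bool := fun p =>
    (flipAt p.1 (X fun z => (p.1 z).1), !p.2)
  have hfst : ∀ (f : D → K × Bool) (x : D), (fun z => (flipAt f x z).1) = fun z => (f z).1 :=
    fun f x => funext fun z => flipAt_fst f x z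
  have he : Function.Involutive e := by
    rintro ⟨f, b⟩
    simp only [e, hfst, Prod.mk.injEq, Bool.not_not, and_true]
    funext z
    by_cases h : z = X fun z => (f z).1
    · subst h; simp [flipAt]
    · simp [flipAt, Function.update_of_ne h]
  have h1 : 𝔼 f : D → K × Bool, 𝔼 b : Bool, G f b =
      𝔼 p : (D → K × Bool) × Bool, G p.1 p.2 := by
    rw [← Finset.univ_product_univ, Finset.expect_product]
  have h2 : 𝔼 p : (D → K × Bool) × Bool, G (e p).1 (e p).2 =
      𝔼 p : (D → K × Bool) × Bool, G p.1 p.2 :=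
    Fintype.expect_equiv (he.toPerm e) _ _ fun p => rfl
  have h3 : ∀ p : (D → K × Bool) × Bool, G p.1 p.2 + G (e p).1 (e p).2 ≤
      1 + 2 * H p.1 p.2 := by
    rintro ⟨f, b⟩
    have hG1 : ∀ f b, G f b ≤ 1 := fun f b => by
      simp only [G]; split_ifs <;> norm_num
    by_cases hx : (X fun z => (f z).1) ∈
        (A (fun z => (f z).1) (xor (f (X fun z => (f z).1)).2 b)).queries f
    · have : H f b = 1 := if_pos hx
      simp only [this]
      have := hG1 f b
      have := hG1 (e (f, b)).1 (e (f, b)).2
      linarith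
    · have hH : H f b = 0 := if_neg hx
      simp only [hH]
      have hc : xor (flipAt f (X fun z => (f z).1) (X fun z => (f z).1)).2 (!b) =
          xor (f (X fun z => (f z).1)).2 b := by
        simp [flipAt]
      have hrun : (A (fun z => (f z).1) (xor (f (X fun z => (f z).1)).2 b)).run
          (flipAt f (X fun z => (f z).1)) =
          (A (fun z => (f z).1) (xor (f (X fun z => (f z).1)).2 b)).run f := by
        refine (QAlg.local_run _ fun z hz => ?_).1
        have : z ≠ X fun z => (f z).1 := fun h => hx (h ▸ hz)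
        simp [flipAt, Function.update_of_ne this]
      simp only [G, e, hfst, hc, hrun]
      cases b <;> cases (A (fun z => (f z).1) (xor (f (X fun z => (f z).1)).2 _)).run f <;>
        simp
  have h4 : 2 * 𝔼 p : (D → K × Bool) × Bool, G p.1 p.2 ≤
      1 + 2 * 𝔼 p : (D → K × Bool) × Bool, H p.1 p.2 := by
    calc 2 * 𝔼 p : (D → K × Bool) × Bool, G p.1 p.2
        = 𝔼 p : (D → K × Bool) × Bool, (G p.1 p.2 + G (e p).1 (e p).2) := by
          rw [Finset.expect_add_distrib, h2]; ring
      _ ≤ 𝔼 p : (D → K × Bool) × Bool, (1 + 2 * H p.1 p.2) :=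
          Finset.expect_le_expect fun p _ => h3 p
      _ = _ := by
          rw [Finset.expect_add_distrib, Fintype.expect_const, ← Finset.mul_expect]
  have h5 : 𝔼 p : (D → K × Bool) × Bool, H p.1 p.2 = 𝔼 f : D → K × Bool, 𝔼 b : Bool, H f b := by
    rw [← Finset.univ_product_univ, Finset.expect_product]
  have h6 : ∀ f : D → K × Bool, 𝔼 b : Bool, H f b = 𝔼 c : Bool,
      (if (X fun z => (f z).1) ∈ (A (fun z => (f z).1) c).queries f then (1 : ℝ) else 0) := by
    intro f
    have hinv : Function.Involutive (fun b : Bool => xor (f (X fun z => (f z).1)).2 b) := by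
      intro b; simp
    exact Fintype.expect_equiv (hinv.toPerm _) _ _ fun b => rfl
  show 𝔼 f : D → K × Bool, 𝔼 b : Bool, G f b ≤ _
  rw [h1]
  rw [h5] at h4
  simp only [h6] at h4
  linarith

/-- collisions in the first coordinate are rare -/
theorem collision_le {K : Type} [Fintype K] [Nonempty K] [DecidableEq K] (x : D)
    [∀ f : D → K × Bool, Decidable (∃ x', x' ≠ x ∧ (f x').1 = (f x).1)] :
    𝔼 f : D → K × Bool, (if ∃ x', x' ≠ x ∧ (f x').1 = (f x).1 then (1 : ℝ) else 0) ≤
      Fintype.card D / Fintype.card K := by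
  classical
  have h1 : ∀ f : D → K × Bool, (if ∃ x', x' ≠ x ∧ (f x').1 = (f x).1 then (1 : ℝ) else 0) ≤
      ∑ x' : D, if x' ≠ x ∧ (f x').1 = (f x).1 then (1 : ℝ) else 0 := by
    intro f
    have hnn : ∀ x' ∈ (Finset.univ : Finset D),
        (0 : ℝ) ≤ if x' ≠ x ∧ (f x').1 = (f x).1 then (1 : ℝ) else 0 :=
      fun z _ => by split_ifs <;> norm_num
    split_ifs with h
    · obtain ⟨x', hx'⟩ := h
      have := Finset.single_le_sum hnn (Finset.mem_univ x')
      rw [if_pos hx'] at this
      exact this
    · exact Finset.sum_nonneg hnn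
  refine (Finset.expect_le_expect fun f _ => h1 f).trans ?_
  rw [Finset.expect_sum_comm]
  have h2 : ∀ x' : D, 𝔼 f : D → K × Bool,
      (if x' ≠ x ∧ (f x').1 = (f x).1 then (1 : ℝ) else 0) ≤ 1 / Fintype.card K := by
    intro x'
    by_cases hx : x' = x
    · subst hx
      simp only [ne_eq, not_true_eq_false, false_and, if_false, Fintype.expect_const]
      positivity
    · rw [← expect_update x]
      simp only [ne_eq, hx, not_false_eq_true, true_and, Function.update_self,
        Function.update_of_ne hx]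
      refine Finset.expect_le Finset.univ_nonempty fun f _ => ?_
      have h3 : 𝔼 y : K × Bool, (if (f x').1 = y.1 then (1 : ℝ) else 0) =
          𝔼 i : K, (if (f x').1 = i then (1 : ℝ) else 0) := by
        rw [← Finset.univ_product_univ, Finset.expect_product]
        exact Finset.expect_congr rfl fun i _ => Fintype.expect_const _
      rw [h3, Fintype.expect_eq_sum_div_card]
      simp
  calc ∑ x' : D, 𝔼 f : D → K × Bool,
      (if x' ≠ x ∧ (f x').1 = (f x).1 then (1 : ℝ) else 0)
      ≤ ∑ _x' : D, (1 : ℝ) / Fintype.card K := Finset.sum_le_sum fun x' _ => h2 x'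
    _ = Fintype.card D / Fintype.card K := by
        rw [Finset.sum_const, Finset.card_univ, nsmul_eq_mul]; ring

open Classical in
/-- a preimage under the first coordinate -/
noncomputable def pick {K : Type} [Nonempty D] (f : D → K) (y : K) : D :=
  if h : ∃ x, f x = y then Classical.choose h else Classical.arbitrary D

theorem pick_eq {K : Type} [Nonempty D] (f : D → K) (x : D)
    (h : ¬ ∃ x', x' ≠ x ∧ f x' = f x) : pick f (f x) = x := by
  have h1 : ∃ z, f z = f x := ⟨x, rfl⟩
  rw [pick, dif_pos h1]
  by_contra hne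
  exact h ⟨_, hne, Classical.choose_spec h1⟩

theorem apply_pick {K : Type} [Nonempty D] (f : D → K) (x : D) : f (pick f (f x)) = f x := by
  have h1 : ∃ z, f z = f x := ⟨x, rfl⟩
  rw [pick, dif_pos h1]
  exact Classical.choose_spec h1

end General

/-- (C1) Unbounded decryption: `c = (f(x)₁, f(x)₂ + b)`. Encryption makes one query, decryption is an
arbitrary function of the oracle; there are no keys. -/
theorem unbounded_dec (N K : ℕ) [NeZero N] [NeZero K] :
    ∃ (enc : Bool → Fin N → QAlg (Fin N) (Fin K × Bool) (Fin K × Bool))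
      (dec : (Fin N → Fin K × Bool) → Fin K × Bool → Bool),
      (∀ b x f, (enc b x).cost f ≤ 1) ∧
      (1 - (N : ℝ) / K ≤ 𝔼 f : Fin N → Fin K × Bool, 𝔼 b : Bool, 𝔼 x : Fin N,
        if dec f ((enc b x).run f) = b then (1 : ℝ) else 0) ∧
      ∀ (Q : ℕ) (A : Fin K × Bool → QAlg (Fin N) (Fin K × Bool) Bool),
        (∀ c f, (A c).cost f ≤ Q) →
        (𝔼 f : Fin N → Fin K × Bool, 𝔼 b : Bool, 𝔼 x : Fin N,
          if (A ((enc b x).run f)).run f = b then (1 : ℝ) else 0) ≤ 1 / 2 + Q / N := by
  classical
  refine ⟨fun b x => .ask x fun y => .ret (y.1, xor y.2 b),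
    fun f c => xor (f (pick (fun z => (f z).1) c.1)).2 c.2, fun b x f => by simp, ?_, ?_⟩
  · -- correctness
    have h1 : 𝔼 f : Fin N → Fin K × Bool, 𝔼 b : Bool, 𝔼 x : Fin N,
        (if ∃ x', x' ≠ x ∧ (f x').1 = (f x).1 then (1 : ℝ) else 0) ≤ (N : ℝ) / K := by
      simp only [Fintype.expect_const]
      rw [Finset.expect_comm]
      refine Finset.expect_le Finset.univ_nonempty fun x _ => ?_
      have := collision_le (D := Fin N) (K := Fin K) x
      simpa using this
    have h2 : 𝔼 f : Fin N → Fin K × Bool, 𝔼 b : Bool, 𝔼 x : Fin N,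
        (1 - (if ∃ x', x' ≠ x ∧ (f x').1 = (f x).1 then (1 : ℝ) else 0)) ≤
        𝔼 f : Fin N → Fin K × Bool, 𝔼 b : Bool, 𝔼 x : Fin N,
        if (fun (f : Fin N → Fin K × Bool) (c : Fin K × Bool) =>
          xor (f (pick (fun z => (f z).1) c.1)).2 c.2) f
          ((QAlg.ask x fun y => .ret (y.1, xor y.2 b) :
            QAlg (Fin N) (Fin K × Bool) (Fin K × Bool)).run f) = b then (1 : ℝ) else 0 := by
      refine Finset.expect_le_expect fun f _ => Finset.expect_le_expect fun b _ =>
        Finset.expect_le_expect fun x _ => ?_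
      by_cases h : ∃ x', x' ≠ x ∧ (f x').1 = (f x).1
      · rw [if_pos h]; split_ifs <;> norm_num
      · rw [if_neg h]
        have h3 := pick_eq (fun z => (f z).1) x h
        simp only [QAlg.run_ask, QAlg.run_ret, h3]
        simp
    refine le_trans ?_ h2
    simp only [Finset.expect_sub_distrib, Fintype.expect_const] at h1 ⊢
    linarith
  · intro Q A hA
    have h1 : 𝔼 f : Fin N → Fin K × Bool, 𝔼 b : Bool, 𝔼 x : Fin N,
        (if (A ((QAlg.ask x fun y => .ret (y.1, xor y.2 b) :
            QAlg (Fin N) (Fin K × Bool) (Fin K × Bool)).run f)).run f = b then (1 : ℝ) else 0) =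
        𝔼 x : Fin N, 𝔼 f : Fin N → Fin K × Bool, 𝔼 b : Bool,
        (if (A ((f x).1, xor (f x).2 b)).run f = b then (1 : ℝ) else 0) := by
      rw [Finset.expect_comm]
      have : ∀ f : Fin N → Fin K × Bool, 𝔼 b : Bool, 𝔼 x : Fin N,
        (if (A ((QAlg.ask x fun y => .ret (y.1, xor y.2 b) :
            QAlg (Fin N) (Fin K × Bool) (Fin K × Bool)).run f)).run f = b then (1 : ℝ) else 0) =
        𝔼 x : Fin N, 𝔼 b : Bool,
        (if (A ((f x).1, xor (f x).2 b)).run f = b then (1 : ℝ) else 0) := by
        intro f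
        exact Finset.expect_comm _ _ _
      rw [Finset.expect_comm]
      simp only [this]
      exact Finset.expect_comm _ _ _
    rw [h1]
    have h2 : ∀ x : Fin N, 𝔼 f : Fin N → Fin K × Bool, 𝔼 b : Bool,
        (if (A ((f x).1, xor (f x).2 b)).run f = b then (1 : ℝ) else 0) ≤
        1 / 2 + 𝔼 f : Fin N → Fin K × Bool, 𝔼 c : Bool,
          (if x ∈ (A ((f x).1, c)).queries f then (1 : ℝ) else 0) := by
      intro x
      exact hide_le (D := Fin N) (K := Fin K) (fun _ => x) (fun f₁ c => A (f₁ x, c))
    refine (Finset.expect_le_expect fun x _ => h2 x).trans ?_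
    rw [Finset.expect_add_distrib, Fintype.expect_const]
    have h3 : 𝔼 x : Fin N, 𝔼 f : Fin N → Fin K × Bool, 𝔼 c : Bool,
          (if x ∈ (A ((f x).1, c)).queries f then (1 : ℝ) else 0) ≤ Q / N := by
      have h4 : ∀ x : Fin N, 𝔼 f : Fin N → Fin K × Bool, 𝔼 c : Bool,
          (if x ∈ (A ((f x).1, c)).queries f then (1 : ℝ) else 0) =
          𝔼 f : Fin N → Fin K × Bool, 𝔼 y : Fin K × Bool, 𝔼 c : Bool,
            (if x ∈ (A (y.1, c)).queries f then (1 : ℝ) else 0) := by
        intro x
        rw [← expect_update x]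
        simp only [mem_queries_update, Function.update_self]
      simp only [h4]
      rw [Finset.expect_comm]
      refine Finset.expect_le Finset.univ_nonempty fun f _ => ?_
      rw [Finset.expect_comm]
      refine Finset.expect_le Finset.univ_nonempty fun y _ => ?_
      rw [Finset.expect_comm]
      refine Finset.expect_le Finset.univ_nonempty fun c _ => ?_
      have := expect_mem_le (D := Fin N) ((A (y.1, c)).queries f)
        ((QAlg.card_queries_le f _).trans (hA _ f))
      simpa using this
    linarith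

/-- (C2) Unbounded encryption: the secret key is `x`, the public key is `f(x)₁`; encryption finds
`x` and outputs `f(x)₂ + b`. Key generation and decryption make one query each. -/
theorem unbounded_enc (N K : ℕ) [NeZero N] [NeZero K] :
    ∃ (gen : Fin N → QAlg (Fin N) (Fin K × Bool) (Fin K × Fin N))
      (enc : (Fin N → Fin K × Bool) → Fin K → Bool → Bool)
      (dec : Fin N → Bool → QAlg (Fin N) (Fin K × Bool) Bool),
      (∀ ω f, (gen ω).cost f ≤ 1) ∧ (∀ sk c f, (dec sk c).cost f ≤ 1) ∧
      (1 - (N : ℝ) / K ≤ 𝔼 f : Fin N → Fin K × Bool, 𝔼 ω : Fin N, 𝔼 b : Bool,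
        if (dec ((gen ω).run f).2 (enc f ((gen ω).run f).1 b)).run f = b then (1 : ℝ) else 0) ∧
      ∀ (Q : ℕ) (A : Fin K → Bool → QAlg (Fin N) (Fin K × Bool) Bool),
        (∀ pk c f, (A pk c).cost f ≤ Q) →
        (𝔼 f : Fin N → Fin K × Bool, 𝔼 ω : Fin N, 𝔼 b : Bool,
          if (A ((gen ω).run f).1 (enc f ((gen ω).run f).1 b)).run f = b then (1 : ℝ) else 0) ≤
          1 / 2 + (Q / N + Q / K) := by
  classical
  refine ⟨fun ω => .ask ω fun y => .ret (y.1, ω),
    fun f pk b => xor (f (pick (fun z => (f z).1) pk)).2 b,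
    fun sk c => .ask sk fun y => .ret (xor y.2 c), fun ω f => by simp, fun sk c f => by simp, ?_, ?_⟩
  · -- correctness
    have h1 : 𝔼 f : Fin N → Fin K × Bool, 𝔼 ω : Fin N, 𝔼 b : Bool,
        (if ∃ x', x' ≠ ω ∧ (f x').1 = (f ω).1 then (1 : ℝ) else 0) ≤ (N : ℝ) / K := by
      simp only [Fintype.expect_const]
      rw [Finset.expect_comm]
      refine Finset.expect_le Finset.univ_nonempty fun x _ => ?_
      have := collision_le (D := Fin N) (K := Fin K) x
      simpa using this
    have h2 : 𝔼 f : Fin N → Fin K × Bool, 𝔼 ω : Fin N, 𝔼 b : Bool,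
        (1 - (if ∃ x', x' ≠ ω ∧ (f x').1 = (f ω).1 then (1 : ℝ) else 0)) ≤
        𝔼 f : Fin N → Fin K × Bool, 𝔼 ω : Fin N, 𝔼 b : Bool,
        if (xor (f ω).2 (xor (f (pick (fun z => (f z).1) (f ω).1)).2 b)) = b
          then (1 : ℝ) else 0 := by
      refine Finset.expect_le_expect fun f _ => Finset.expect_le_expect fun ω _ =>
        Finset.expect_le_expect fun b _ => ?_
      by_cases h : ∃ x', x' ≠ ω ∧ (f x').1 = (f ω).1
      · rw [if_pos h]; split_ifs <;> norm_num
      · rw [if_neg h]
        have h3 := pick_eq (fun z => (f z).1) ω h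
        simp only [h3]
        simp
    refine le_trans ?_ h2
    simp only [Finset.expect_sub_distrib, Fintype.expect_const] at h1 ⊢
    linarith
  · intro Q A hA
    have h1 : 𝔼 f : Fin N → Fin K × Bool, 𝔼 ω : Fin N, 𝔼 b : Bool,
        (if (A (f ω).1 (xor (f (pick (fun z => (f z).1) (f ω).1)).2 b)).run f = b
          then (1 : ℝ) else 0) =
        𝔼 ω : Fin N, 𝔼 f : Fin N → Fin K × Bool, 𝔼 b : Bool,
        (if (A (f ω).1 (xor (f (pick (fun z => (f z).1) (f ω).1)).2 b)).run f = b
          then (1 : ℝ) else 0) := Finset.expect_comm _ _ _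
    show 𝔼 f : Fin N → Fin K × Bool, 𝔼 ω : Fin N, 𝔼 b : Bool,
        (if (A (f ω).1 (xor (f (pick (fun z => (f z).1) (f ω).1)).2 b)).run f = b
          then (1 : ℝ) else 0) ≤ _
    rw [h1]
    have h2 : ∀ ω : Fin N, 𝔼 f : Fin N → Fin K × Bool, 𝔼 b : Bool,
        (if (A (f ω).1 (xor (f (pick (fun z => (f z).1) (f ω).1)).2 b)).run f = b
          then (1 : ℝ) else 0) ≤
        1 / 2 + 𝔼 f : Fin N → Fin K × Bool, 𝔼 c : Bool,
          (if pick (fun z => (f z).1) (f ω).1 ∈ (A (f ω).1 c).queries f
            then (1 : ℝ) else 0) := by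
      intro ω
      exact hide_le (D := Fin N) (K := Fin K) (fun f₁ => pick f₁ (f₁ ω)) (fun f₁ c => A (f₁ ω) c)
    refine (Finset.expect_le_expect fun ω _ => h2 ω).trans ?_
    rw [Finset.expect_add_distrib, Fintype.expect_const]
    -- the indicator that some preimage is queried
    let hit : Fin K → Bool → (Fin N → Fin K × Bool) → ℝ := fun y c f =>
      if ∃ z ∈ (A y c).queries f, (f z).1 = y then 1 else 0
    have h3 : 𝔼 ω : Fin N, 𝔼 f : Fin N → Fin K × Bool, 𝔼 c : Bool,
          (if pick (fun z => (f z).1) (f ω).1 ∈ (A (f ω).1 c).queries f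
            then (1 : ℝ) else 0) ≤
        𝔼 ω : Fin N, 𝔼 f : Fin N → Fin K × Bool, 𝔼 c : Bool, hit (f ω).1 c f := by
      refine Finset.expect_le_expect fun ω _ => Finset.expect_le_expect fun f _ =>
        Finset.expect_le_expect fun c _ => ?_
      simp only [hit]
      by_cases h : pick (fun z => (f z).1) (f ω).1 ∈ (A (f ω).1 c).queries f
      · rw [if_pos h, if_pos ⟨_, h, apply_pick (fun z => (f z).1) ω⟩]
      · rw [if_neg h]; split_ifs <;> norm_num
    have h4 : ∀ ω : Fin N, 𝔼 f : Fin N → Fin K × Bool, 𝔼 c : Bool, hit (f ω).1 c f =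
        𝔼 f : Fin N → Fin K × Bool, 𝔼 y : Fin K × Bool, 𝔼 c : Bool,
          hit y.1 c (Function.update f ω y) := by
      intro ω
      rw [← expect_update ω]
      simp only [Function.update_self]
    have h5 : ∀ (ω : Fin N) (f : Fin N → Fin K × Bool) (y : Fin K × Bool) (c : Bool),
        hit y.1 c (Function.update f ω y) ≤
        (if ω ∈ (A y.1 c).queries f then (1 : ℝ) else 0) +
          ∑ z ∈ (A y.1 c).queries f, if (f z).1 = y.1 then (1 : ℝ) else 0 := by
      intro ω f y c
      have hnn : ∀ z ∈ (A y.1 c).queries f, (0 : ℝ) ≤ if (f z).1 = y.1 then (1 : ℝ) else 0 :=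
        fun z _ => by split_ifs <;> norm_num
      by_cases hx : ω ∈ (A y.1 c).queries f
      · rw [if_pos hx]
        have : hit y.1 c (Function.update f ω y) ≤ 1 := by
          simp only [hit]; split_ifs <;> norm_num
        have := Finset.sum_nonneg hnn
        linarith
      · rw [if_neg hx, zero_add]
        have hloc : (A y.1 c).queries (Function.update f ω y) = (A y.1 c).queries f := by
          refine (QAlg.local_run (A y.1 c) fun z hz => ?_).2
          rw [Function.update_of_ne]
          rintro rfl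
          exact hx hz
        simp only [hit, hloc]
        split_ifs with h
        · obtain ⟨z, hz1, hz2⟩ := h
          have hzx : z ≠ ω := fun h => hx (h ▸ hz1)
          rw [Function.update_of_ne hzx] at hz2
          have h6 := Finset.single_le_sum hnn hz1
          rw [if_pos hz2] at h6
          exact h6
        · exact Finset.sum_nonneg hnn
    have h6 : 𝔼 ω : Fin N, 𝔼 f : Fin N → Fin K × Bool, 𝔼 c : Bool, hit (f ω).1 c f ≤
        𝔼 ω : Fin N, 𝔼 f : Fin N → Fin K × Bool, 𝔼 y : Fin K × Bool, 𝔼 c : Bool,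
        ((if ω ∈ (A y.1 c).queries f then (1 : ℝ) else 0) +
          ∑ z ∈ (A y.1 c).queries f, if (f z).1 = y.1 then (1 : ℝ) else 0) := by
      simp only [h4]
      exact Finset.expect_le_expect fun x _ => Finset.expect_le_expect fun f _ =>
        Finset.expect_le_expect fun y _ => Finset.expect_le_expect fun c _ => h5 x f y c
    simp only [Finset.expect_add_distrib, Fintype.expect_const] at h6
    have h7 : 𝔼 ω : Fin N, 𝔼 f : Fin N → Fin K × Bool, 𝔼 y : Fin K × Bool, 𝔼 c : Bool,
        (if ω ∈ (A y.1 c).queries f then (1 : ℝ) else 0) ≤ Q / N := by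
      rw [Finset.expect_comm]
      refine Finset.expect_le Finset.univ_nonempty fun f _ => ?_
      rw [Finset.expect_comm]
      refine Finset.expect_le Finset.univ_nonempty fun y _ => ?_
      rw [Finset.expect_comm]
      refine Finset.expect_le Finset.univ_nonempty fun c _ => ?_
      have := expect_mem_le (D := Fin N) ((A y.1 c).queries f)
        ((QAlg.card_queries_le f _).trans (hA _ _ f))
      simpa using this
    have h8 : 𝔼 f : Fin N → Fin K × Bool, 𝔼 y : Fin K × Bool, 𝔼 c : Bool,
        (∑ z ∈ (A y.1 c).queries f, if (f z).1 = y.1 then (1 : ℝ) else 0) ≤ Q / K := by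
      rw [Finset.expect_comm]
      refine Finset.expect_le Finset.univ_nonempty fun y _ => ?_
      rw [Finset.expect_comm]
      refine Finset.expect_le Finset.univ_nonempty fun c _ => ?_
      have h9 := hit_pred (D := Fin N) (R := Fin K × Bool) (A y.1 c) (hA _ _)
        (fun w => w.1 = y.1)
      refine h9.trans (le_of_eq ?_)
      have h10 : 𝔼 w : Fin K × Bool, (if w.1 = y.1 then (1 : ℝ) else 0) = 1 / K := by
        have h3 : 𝔼 w : Fin K × Bool, (if w.1 = y.1 then (1 : ℝ) else 0) =
            𝔼 i : Fin K, (if i = y.1 then (1 : ℝ) else 0) := by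
          rw [← Finset.univ_product_univ, Finset.expect_product]
          exact Finset.expect_congr rfl fun i _ => Fintype.expect_const _
        rw [h3, Fintype.expect_eq_sum_div_card]
        simp
      rw [h10]
      ring
    linarith

end Pool.Agent.PKE70
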