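import Pool.Agent.PKE70.Basic

/-!
# Sequential experiments on a random oracle: exponential moments
-/

set_option autoImplicit false

open scoped BigOperators

namespace Pool.Agent.PKE70

section AvgL

variable {Ω : Type} [Fintype Ω]

/-- average over lists of length `n` of independent uniform elements of `Ω` -/
noncomputable def avgL : ℕ → (List Ω → ℝ) → ℝ
  | 0, Φ => Φ []
  | n + 1, Φ => 𝔼 r : Ω, avgL n (fun ρ => Φ (r :: ρ))

theorem avgL_zero (Φ : List Ω → ℝ) : avgL 0 Φ = Φ [] := rfl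
theorem avgL_succ (n : ℕ) (Φ : List Ω → ℝ) :
    avgL (n + 1) Φ = 𝔼 r : Ω, avgL n (fun ρ => Φ (r :: ρ)) := rfl

theorem avgL_mono {n : ℕ} {Φ Ψ : List Ω → ℝ} (h : ∀ ρ, ρ.length = n → Φ ρ ≤ Ψ ρ) :
    avgL n Φ ≤ avgL n Ψ := by
  induction n generalizing Φ Ψ with
  | zero => exact h [] rfl
  | succ n ih =>
    exact Finset.expect_le_expect fun r _ => ih fun ρ hρ => h _ (by simp [hρ])

theorem avgL_congr {n : ℕ} {Φ Ψ : List Ω → ℝ} (h : ∀ ρ, ρ.length = n → Φ ρ = Ψ ρ) :
    avgL n Φ = avgL n Ψ :=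
  le_antisymm (avgL_mono fun ρ hρ => (h ρ hρ).le) (avgL_mono fun ρ hρ => (h ρ hρ).ge)

theorem avgL_add (n : ℕ) (Φ Ψ : List Ω → ℝ) :
    avgL n (fun ρ => Φ ρ + Ψ ρ) = avgL n Φ + avgL n Ψ := by
  induction n generalizing Φ Ψ with
  | zero => rfl
  | succ n ih =>
    simp only [avgL_succ, ih]
    rw [Finset.expect_add_distrib]

theorem avgL_sub (n : ℕ) (Φ Ψ : List Ω → ℝ) :
    avgL n (fun ρ => Φ ρ - Ψ ρ) = avgL n Φ - avgL n Ψ := by
  induction n generalizing Φ Ψ with
  | zero => rfl
  | succ n ih =>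
    simp only [avgL_succ, ih]
    rw [Finset.expect_sub_distrib]

theorem avgL_mul_left (n : ℕ) (c : ℝ) (Φ : List Ω → ℝ) :
    avgL n (fun ρ => c * Φ ρ) = c * avgL n Φ := by
  induction n generalizing Φ with
  | zero => rfl
  | succ n ih =>
    simp only [avgL_succ, ih]
    rw [Finset.mul_expect]

theorem avgL_const [Nonempty Ω] (n : ℕ) (c : ℝ) : avgL n (fun _ : List Ω => c) = c := by
  induction n with
  | zero => rfl
  | succ n ih =>
    simp only [avgL_succ, ih]
    exact Fintype.expect_const c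

theorem avgL_expect {ι : Type} [Fintype ι] (n : ℕ) (Φ : List Ω → ι → ℝ) :
    avgL n (fun ρ => 𝔼 i, Φ ρ i) = 𝔼 i, avgL n (fun ρ => Φ ρ i) := by
  induction n generalizing Φ with
  | zero => rfl
  | succ n ih =>
    simp only [avgL_succ, ih]
    rw [Finset.expect_comm]

theorem avgL_sum {ι : Type} (s : Finset ι) (n : ℕ) (Φ : List Ω → ι → ℝ) :
    avgL n (fun ρ => ∑ i ∈ s, Φ ρ i) = ∑ i ∈ s, avgL n (fun ρ => Φ ρ i) := by
  induction n generalizing Φ with
  | zero => rfl
  | succ n ih =>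
    simp only [avgL_succ, ih]
    rw [Finset.expect_sum_comm]

theorem avgL_comm {Ω' : Type} [Fintype Ω'] (n m : ℕ) (Φ : List Ω → List Ω' → ℝ) :
    avgL n (fun ρ => avgL m (fun η => Φ ρ η)) = avgL m (fun η => avgL n (fun ρ => Φ ρ η)) := by
  induction n generalizing Φ with
  | zero => rfl
  | succ n ih =>
    simp only [avgL_succ, ih]
    rw [avgL_expect]

theorem exists_le_avgL [Nonempty Ω] {n : ℕ} {Φ : List Ω → ℝ} {a : ℝ} (h : a ≤ avgL n Φ) :
    ∃ ρ : List Ω, ρ.length = n ∧ a ≤ Φ ρ := by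
  induction n generalizing Φ with
  | zero => exact ⟨[], rfl, h⟩
  | succ n ih =>
    rw [avgL_succ] at h
    obtain ⟨r, -, hr⟩ : ∃ r ∈ (Finset.univ : Finset Ω), a ≤ avgL n (fun ρ => Φ (r :: ρ)) := by
      by_contra hcon
      push Not at hcon
      have h2 : 𝔼 r : Ω, avgL n (fun ρ => Φ (r :: ρ)) < a :=
        Finset.expect_lt (fun r hr => (hcon r hr).le)
          ⟨Classical.arbitrary Ω, Finset.mem_univ _, hcon _ (Finset.mem_univ _)⟩
      exact absurd h (not_le.mpr h2)
    obtain ⟨ρ, hρ, h3⟩ := ih hr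
    exact ⟨r :: ρ, by simp [hρ], h3⟩

end AvgL

section Process

variable {D R Ω : Type} [DecidableEq D] [Fintype Ω]

/-- A block with knowledge `v` and coins `r` queries the set `Q v r f` and has the value
`X v r f`, both determined by the restriction of `f` to `Q v r f`. -/
def IsLocal (Q : (D → Option R) → Ω → (D → R) → Finset D)
    (X : (D → Option R) → Ω → (D → R) → ℝ) : Prop :=
  ∀ v r f f', (∀ x ∈ Q v r f, f' x = f x) → Q v r f' = Q v r f ∧ X v r f' = X v r f

variable (Q : (D → Option R) → Ω → (D → R) → Finset D)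
  (X : (D → Option R) → Ω → (D → R) → ℝ)

/-- the set of exposed points after the blocks with coins `ρ` -/
def kn (f : D → R) : Finset D → List Ω → Finset D
  | A, [] => A
  | A, r :: ρ => kn f (A ∪ Q (res A f) r f) ρ

omit [Fintype Ω] in
theorem kn_nil (f : D → R) (A : Finset D) : kn Q f A [] = A := rfl
omit [Fintype Ω] in
theorem kn_cons (f : D → R) (A : Finset D) (r : Ω) (ρ : List Ω) :
    kn Q f A (r :: ρ) = kn Q f (A ∪ Q (res A f) r f) ρ := rfl

omit [Fintype Ω] in
theorem subset_kn (f : D → R) (A : Finset D) (ρ : List Ω) : A ⊆ kn Q f A ρ := by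
  induction ρ generalizing A with
  | nil => exact subset_rfl
  | cons r ρ ih =>
    rw [kn_cons]
    exact Finset.subset_union_left.trans (ih _)

omit [Fintype Ω] in
/-- the exposed set is determined by the restriction of the oracle to it -/
theorem kn_local (hQ : ∀ v r f f', (∀ x ∈ Q v r f, f' x = f x) → Q v r f' = Q v r f)
    (f f' : D → R) (A : Finset D) (ρ : List Ω) (h : ∀ x ∈ kn Q f A ρ, f' x = f x) :
    kn Q f' A ρ = kn Q f A ρ := by
  induction ρ generalizing A with
  | nil => rfl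
  | cons r ρ ih =>
    rw [kn_cons] at h ⊢
    rw [kn_cons]
    have h1 : ∀ x ∈ A ∪ Q (res A f) r f, f' x = f x := fun x hx => h x (subset_kn _ _ _ _ hx)
    have h2 : res A f' = res A f := res_congr fun x hx => h1 x (Finset.mem_union_left _ hx)
    have h3 : Q (res A f) r f' = Q (res A f) r f :=
      hQ _ _ _ _ fun x hx => h1 x (Finset.mem_union_right _ hx)
    rw [h2, h3]
    exact ih _ h

variable [Fintype D] [Fintype R]

/-- the expected value of a block if all points that are not known are fresh -/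
noncomputable def pred (v : D → Option R) : ℝ := 𝔼 g : D → R, 𝔼 r : Ω, X v r (ovr g v)

/-- the exponential functional -/
noncomputable def expF (lam : ℝ) (f : D → R) : ℕ → Finset D → ℝ
  | 0, _ => 1
  | m + 1, A => 𝔼 r : Ω, Real.exp (lam * (X (res A f) r f - pred X (res A f))) *
      expF lam f m (A ∪ Q (res A f) r f)

theorem expF_zero (lam : ℝ) (f : D → R) (A : Finset D) : expF Q X lam f 0 A = 1 := rfl
theorem expF_succ (lam : ℝ) (f : D → R) (m : ℕ) (A : Finset D) :
    expF Q X lam f (m + 1) A =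
      𝔼 r : Ω, Real.exp (lam * (X (res A f) r f - pred X (res A f))) *
        expF Q X lam f m (A ∪ Q (res A f) r f) := rfl

theorem expF_nonneg (lam : ℝ) (f : D → R) (m : ℕ) (A : Finset D) :
    0 ≤ expF Q X lam f m A := by
  induction m generalizing A with
  | zero => exact zero_le_one
  | succ m ih =>
    rw [expF_succ]
    exact Finset.expect_nonneg fun r _ => mul_nonneg (Real.exp_pos _).le (ih _)

omit [DecidableEq D] in
theorem exp_le_quadratic {lam x p : ℝ} (hl : |lam| ≤ 1) (hx0 : 0 ≤ x) (hx1 : x ≤ 1) (hp0 : 0 ≤ p)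
    (hp1 : p ≤ 1) : Real.exp (lam * (x - p)) ≤
      (1 - lam * p + lam ^ 2 * p ^ 2) + (lam + lam ^ 2 * (1 - 2 * p)) * x := by
  have h1 : |x - p| ≤ 1 := abs_le.mpr ⟨by linarith, by linarith⟩
  have h2 : |lam * (x - p)| ≤ 1 := by
    rw [abs_mul]
    calc |lam| * |x - p| ≤ 1 * 1 := mul_le_mul hl h1 (abs_nonneg _) zero_le_one
      _ = 1 := one_mul 1
  have h3 := Real.abs_exp_sub_one_sub_id_le h2
  have h4 := (abs_le.mp h3).2
  have h5 : x ^ 2 ≤ x := by nlinarith
  have h6 : 0 ≤ lam ^ 2 := sq_nonneg _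
  nlinarith [mul_nonneg h6 (sub_nonneg.mpr h5)]

variable {Q X}

theorem pred_nonneg (hX0 : ∀ v r f, 0 ≤ X v r f) (v : D → Option R) : 0 ≤ pred X v :=
  Finset.expect_nonneg fun _ _ => Finset.expect_nonneg fun _ _ => hX0 _ _ _

theorem pred_le_one [Nonempty Ω] [Nonempty (D → R)] (hX1 : ∀ v r f, X v r f ≤ 1)
    (v : D → Option R) : pred X v ≤ 1 :=
  Finset.expect_le Finset.univ_nonempty fun _ _ =>
    Finset.expect_le Finset.univ_nonempty fun _ _ => hX1 _ _ _

/-- one step -/
theorem expect_exp_le [Nonempty Ω] [Nonempty (D → R)] (hX0 : ∀ v r f, 0 ≤ X v r f)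
    (hX1 : ∀ v r f, X v r f ≤ 1) {lam : ℝ} (hl : |lam| ≤ 1) (v : D → Option R) :
    𝔼 r : Ω, 𝔼 g : D → R, Real.exp (lam * (X v r (ovr g v) - pred X v)) ≤
      Real.exp (lam ^ 2 / 4) := by
  set p := pred X v with hp
  have hp0 : 0 ≤ p := pred_nonneg hX0 v
  have hp1 : p ≤ 1 := pred_le_one hX1 v
  have h1 : 𝔼 r : Ω, 𝔼 g : D → R, Real.exp (lam * (X v r (ovr g v) - p)) ≤
      𝔼 r : Ω, 𝔼 g : D → R, ((1 - lam * p + lam ^ 2 * p ^ 2) +
        (lam + lam ^ 2 * (1 - 2 * p)) * X v r (ovr g v)) :=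
    Finset.expect_le_expect fun r _ => Finset.expect_le_expect fun g _ =>
      exp_le_quadratic hl (hX0 _ _ _) (hX1 _ _ _) hp0 hp1
  have h2 : 𝔼 r : Ω, 𝔼 g : D → R, ((1 - lam * p + lam ^ 2 * p ^ 2) +
        (lam + lam ^ 2 * (1 - 2 * p)) * X v r (ovr g v)) =
      (1 - lam * p + lam ^ 2 * p ^ 2) + (lam + lam ^ 2 * (1 - 2 * p)) * p := by
    simp only [Finset.expect_add_distrib, ← Finset.mul_expect, Fintype.expect_const]
    rw [hp, pred, Finset.expect_comm]
  rw [h2] at h1
  refine h1.trans ?_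
  have h3 : (1 - lam * p + lam ^ 2 * p ^ 2) + (lam + lam ^ 2 * (1 - 2 * p)) * p =
      1 + lam ^ 2 * (p - p ^ 2) := by ring
  rw [h3]
  have h4 : p - p ^ 2 ≤ 1 / 4 := by nlinarith [sq_nonneg (p - 1 / 2)]
  have h5 := Real.add_one_le_exp (lam ^ 2 / 4)
  nlinarith [sq_nonneg lam, mul_le_mul_of_nonneg_left h4 (sq_nonneg lam)]

/-- the exponential moment of the whole process, started with the knowledge `res A f₀` -/
theorem expect_expF_le [Nonempty Ω] [Nonempty (D → R)] (hloc : IsLocal Q X)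
    (hX0 : ∀ v r f, 0 ≤ X v r f) (hX1 : ∀ v r f, X v r f ≤ 1) {lam : ℝ} (hl : |lam| ≤ 1)
    (m : ℕ) (A : Finset D) (f₀ : D → R) :
    𝔼 g : D → R, expF Q X lam (ovr g (res A f₀)) m A ≤ Real.exp (lam ^ 2 / 4) ^ m := by
  induction m generalizing A f₀ with
  | zero =>
    simp only [expF_zero, pow_zero]
    exact (Fintype.expect_const (1 : ℝ)).le
  | succ m ih =>
    set v := res A f₀ with hv
    have hres : ∀ g : D → R, res A (ovr g v) = v := by
      intro g
      funext x
      by_cases hx : x ∈ A <;> simp [res, hv, ovr, hx]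
    have h1 : ∀ r : Ω, 𝔼 g : D → R, (Real.exp (lam * (X v r (ovr g v) - pred X v)) *
        expF Q X lam (ovr g v) m (A ∪ Q v r (ovr g v))) ≤
        𝔼 g : D → R, Real.exp (lam * (X v r (ovr g v) - pred X v)) *
          Real.exp (lam ^ 2 / 4) ^ m := by
      intro r
      have hovr : ∀ g g' : D → R, (∀ x ∈ Q v r (ovr g v), g' x = g x) →
          ∀ x ∈ Q v r (ovr g v), ovr g' v x = ovr g v x := by
        intro g g' h x hx
        simp only [ovr, h x hx]
      have h2 := resample (D := D) (R := R) (fun g => Q v r (ovr g v))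
        (fun g g' h => (hloc v r _ _ (hovr g g' h)).1)
        (fun g h => Real.exp (lam * (X v r (ovr g v) - pred X v)) *
          expF Q X lam (ovr h v) m (A ∪ Q v r (ovr g v)))
        (by
          intro g g' h hg
          obtain ⟨h3, h4⟩ := hloc v r _ _ (hovr g g' hg)
          simp only [h3, h4])
      rw [h2]
      refine Finset.expect_le_expect fun g _ => ?_
      rw [← Finset.mul_expect]
      refine mul_le_mul_of_nonneg_left ?_ (Real.exp_pos _).le
      have h5 : ∀ g' : D → R, ovr (fun x => if x ∈ Q v r (ovr g v) then g x else g' x) v =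
          ovr g' (res (A ∪ Q v r (ovr g v)) (ovr g v)) := by
        intro g'
        funext x
        have hL : ∀ h : D → R, ovr h v x = if x ∈ A then f₀ x else h x :=
          fun h => ovr_res A f₀ h x
        rw [ovr_res (A ∪ Q v r (ovr g v)) (ovr g v) g' x, hL, hL]
        by_cases hxA : x ∈ A
        · simp [hxA]
        · by_cases hxQ : x ∈ Q v r (ovr g v)
          · simp [hxA, hxQ]
          · simp [hxA, hxQ]
      simp only [h5]
      exact ih _ _
    have h6 : 𝔼 g : D → R, expF Q X lam (ovr g v) (m + 1) A =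
        𝔼 r : Ω, 𝔼 g : D → R, (Real.exp (lam * (X v r (ovr g v) - pred X v)) *
          expF Q X lam (ovr g v) m (A ∪ Q v r (ovr g v))) := by
      rw [Finset.expect_comm]
      refine Finset.expect_congr rfl fun g _ => ?_
      rw [expF_succ, hres]
    rw [h6]
    calc 𝔼 r : Ω, 𝔼 g : D → R, (Real.exp (lam * (X v r (ovr g v) - pred X v)) *
          expF Q X lam (ovr g v) m (A ∪ Q v r (ovr g v)))
        ≤ 𝔼 r : Ω, 𝔼 g : D → R, Real.exp (lam * (X v r (ovr g v) - pred X v)) *
          Real.exp (lam ^ 2 / 4) ^ m := Finset.expect_le_expect fun r _ => h1 r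
      _ = (𝔼 r : Ω, 𝔼 g : D → R, Real.exp (lam * (X v r (ovr g v) - pred X v))) *
          Real.exp (lam ^ 2 / 4) ^ m := by
        simp only [← Finset.expect_mul]
      _ ≤ Real.exp (lam ^ 2 / 4) * Real.exp (lam ^ 2 / 4) ^ m :=
        mul_le_mul_of_nonneg_right (expect_exp_le hX0 hX1 hl v) (pow_nonneg (Real.exp_pos _).le _)
      _ = Real.exp (lam ^ 2 / 4) ^ (m + 1) := by ring

variable (Q X)

/-- the sum of the deviations of the blocks from their predicted values -/
noncomputable def devF (f : D → R) (m : ℕ) (A : Finset D) : ℝ :=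
  ∑ l ∈ Finset.range m, avgL l (fun ρ : List Ω =>
    𝔼 r : Ω, (X (res (kn Q f A ρ) f) r f - pred X (res (kn Q f A ρ) f)))

theorem devF_succ [Nonempty Ω] (f : D → R) (m : ℕ) (A : Finset D) :
    devF Q X f (m + 1) A = 𝔼 r : Ω, ((X (res A f) r f - pred X (res A f)) +
      devF Q X f m (A ∪ Q (res A f) r f)) := by
  rw [devF, Finset.sum_range_succ', Finset.expect_add_distrib, add_comm]
  congr 1
  simp only [devF]
  rw [Finset.expect_sum_comm]
  refine Finset.sum_congr rfl fun l _ => ?_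
  rw [avgL_succ]
  rfl

theorem devF_le_expF [Nonempty Ω] (lam a : ℝ) (f : D → R) (m : ℕ) (A : Finset D) :
    lam * devF Q X f m A - a + 1 ≤ Real.exp (-a) * expF Q X lam f m A := by
  induction m generalizing a A with
  | zero =>
    simp only [devF, Finset.range_zero, Finset.sum_empty, mul_zero, zero_sub, expF_zero, mul_one]
    exact Real.add_one_le_exp _
  | succ m ih =>
    rw [devF_succ, expF_succ, Finset.mul_expect, Finset.mul_expect]
    have h1 : 𝔼 r : Ω, lam * ((X (res A f) r f - pred X (res A f)) +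
        devF Q X f m (A ∪ Q (res A f) r f)) - a + 1 =
        𝔼 r : Ω, (lam * devF Q X f m (A ∪ Q (res A f) r f) -
          (a - lam * (X (res A f) r f - pred X (res A f))) + 1) := by
      have h2 : ∀ r : Ω, lam * devF Q X f m (A ∪ Q (res A f) r f) -
          (a - lam * (X (res A f) r f - pred X (res A f))) + 1 =
          lam * ((X (res A f) r f - pred X (res A f)) + devF Q X f m (A ∪ Q (res A f) r f)) +
            (-a + 1) := fun r => by ring
      simp only [h2]
      rw [Finset.expect_add_distrib, Fintype.expect_const]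
      ring
    rw [h1]
    refine Finset.expect_le_expect fun r _ => ?_
    refine (ih _ _).trans (le_of_eq ?_)
    rw [← mul_assoc, ← Real.exp_add]
    congr 2
    ring

/-- Union bound over a parameter `κ` that may depend on the oracle. -/
theorem expect_dev_le {K ΩG : Type} [Fintype K] [Nonempty K] [Fintype ΩG] [Nonempty ΩG]
    [Nonempty (D → R)]
    (U G : K → (D → R) → ℝ) (hG : ∀ κ f, 0 ≤ G κ f) {lam B : ℝ} (hlam : 0 < lam) (hB : 1 ≤ B)
    (hGB : ∀ κ, 𝔼 f : D → R, G κ f ≤ B)
    (hUG : ∀ κ f a, lam * U κ f - a + 1 ≤ Real.exp (-a) * G κ f)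
    (κ : (D → R) → ΩG → K) :
    𝔼 f : D → R, 𝔼 ω : ΩG, U (κ f ω) f ≤ Real.log (Fintype.card K * B) / lam := by
  have hKpos : (0 : ℝ) < Fintype.card K := by exact_mod_cast Fintype.card_pos
  have hpos : (0 : ℝ) < Fintype.card K * B := mul_pos hKpos (by linarith)
  set a := Real.log (Fintype.card K * B) with ha
  rw [le_div_iff₀ hlam]
  have h1 : 𝔼 f : D → R, 𝔼 ω : ΩG, (lam * U (κ f ω) f - a + 1) ≤
      𝔼 f : D → R, 𝔼 ω : ΩG, Real.exp (-a) * G (κ f ω) f :=
    Finset.expect_le_expect fun f _ => Finset.expect_le_expect fun ω _ => hUG _ _ _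
  have h2 : 𝔼 f : D → R, 𝔼 ω : ΩG, (lam * U (κ f ω) f - a + 1) =
      lam * 𝔼 f : D → R, 𝔼 ω : ΩG, U (κ f ω) f - a + 1 := by
    have h3 : ∀ f : D → R, ∀ ω : ΩG, lam * U (κ f ω) f - a + 1 =
        lam * U (κ f ω) f + (-a + 1) := fun f ω => by ring
    simp only [h3]
    simp only [Finset.expect_add_distrib, Fintype.expect_const, ← Finset.mul_expect]
    ring
  have h4 : 𝔼 f : D → R, 𝔼 ω : ΩG, Real.exp (-a) * G (κ f ω) f ≤ 1 := by
    calc 𝔼 f : D → R, 𝔼 ω : ΩG, Real.exp (-a) * G (κ f ω) f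
        ≤ 𝔼 f : D → R, 𝔼 _ω : ΩG, Real.exp (-a) * ∑ k, G k f := by
          refine Finset.expect_le_expect fun f _ => Finset.expect_le_expect fun ω _ => ?_
          refine mul_le_mul_of_nonneg_left ?_ (Real.exp_pos _).le
          exact Finset.single_le_sum (f := fun k => G k f) (fun k _ => hG k f) (Finset.mem_univ _)
      _ = Real.exp (-a) * ∑ k, 𝔼 f : D → R, G k f := by
          simp only [Fintype.expect_const, ← Finset.mul_expect]
          rw [Finset.expect_sum_comm]
      _ ≤ Real.exp (-a) * ∑ _k : K, B := by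
          refine mul_le_mul_of_nonneg_left ?_ (Real.exp_pos _).le
          exact Finset.sum_le_sum fun k _ => hGB k
      _ = 1 := by
          rw [Finset.sum_const, Finset.card_univ, nsmul_eq_mul, ha, Real.exp_neg,
            Real.exp_log hpos]
          exact inv_mul_cancel₀ hpos.ne'
  rw [h2] at h1
  linarith

end Process

end Pool.Agent.PKE70
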