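import Pool.Agent.PKE70.ExpMoment
import Pool.Agent.PKE70.Inversion

/-!
# Sampling the view of an oracle algorithm from its posterior, coupled with a fresh oracle:
the expected number of replaced answers
-/

set_option autoImplicit false
set_option linter.unusedSectionVars false

open scoped BigOperators

namespace Pool.Agent.PKE70

variable {D R α : Type} [DecidableEq D]

section Upd

theorem ovr_update_of_none {g : D → R} {u : D → Option R} {x : D} (h : u x = none) (y : R) :
    ovr (Function.update g x y) u = ovr g (Function.update u x (some y)) := by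
  funext z
  by_cases hz : z = x
  · subst hz
    rw [ovr_of_none h]
    simp [ovr]
  · simp [ovr, Function.update_of_ne hz]

theorem ovr_update_self (g : D → R) (u : D → Option R) (x : D) (y : R) :
    ovr g (Function.update u x (some y)) x = y := by simp [ovr]

theorem expect_ovr_update [Fintype D] [Fintype R] [Nonempty R] {u : D → Option R} {x : D}
    (h : u x = none) (F : (D → R) → ℝ) :
    𝔼 g : D → R, F (ovr g u) =
      𝔼 y : R, 𝔼 g : D → R, F (ovr g (Function.update u x (some y))) := by
  classical
  rw [← expect_update x (fun g => F (ovr g u)), Finset.expect_comm]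
  refine Finset.expect_congr rfl fun y _ => Finset.expect_congr rfl fun g _ => ?_
  rw [ovr_update_of_none h]

theorem update_eq_self_of_some {u : D → Option R} {x : D} {y : R} (h : u x = some y) :
    Function.update u x (some y) = u := by
  rw [← h]; exact Function.update_eq_self x u

end Upd

variable [Fintype D] [Fintype R] (P : α → Prop) [DecidablePred P]

/-- the probability that the output of `T` satisfies `P`, given the knowledge `u` -/
noncomputable def acc (u : D → Option R) (T : QAlg D R α) : ℝ :=
  𝔼 g : D → R, if P (T.run (ovr g u)) then (1 : ℝ) else 0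

theorem acc_nonneg (u : D → Option R) (T : QAlg D R α) : 0 ≤ acc P u T :=
  Finset.expect_nonneg fun _ _ => by split_ifs <;> norm_num

theorem acc_le_one [Nonempty (D → R)] (u : D → Option R) (T : QAlg D R α) : acc P u T ≤ 1 :=
  Finset.expect_le Finset.univ_nonempty fun _ _ => by split_ifs <;> norm_num

theorem acc_ask_of_none [Nonempty R] {u : D → Option R} {x : D} {k : R → QAlg D R α}
    (h : u x = none) :
    acc P u (.ask x k) = 𝔼 y : R, acc P (Function.update u x (some y)) (k y) := by
  unfold acc
  rw [expect_ovr_update h (fun f => if P ((QAlg.ask x k).run f) then (1 : ℝ) else 0)]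
  refine Finset.expect_congr rfl fun y _ => Finset.expect_congr rfl fun g _ => ?_
  rw [QAlg.run_ask, ovr_update_self]

theorem acc_ask_of_some {u : D → Option R} {x : D} {y : R} {k : R → QAlg D R α}
    (h : u x = some y) : acc P u (.ask x k) = acc P u (k y) := by
  unfold acc
  refine Finset.expect_congr rfl fun g _ => ?_
  rw [QAlg.run_ask, ovr_some h]

/-- the probability of replacing the real answer if the hypothetical answer is `y` -/
noncomputable def fk (u : D → Option R) (x : D) (k : R → QAlg D R α) (y : R) : ℝ :=
  max 0 (1 - acc P u (.ask x k) / acc P (Function.update u x (some y)) (k y))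

theorem fk_nonneg (u : D → Option R) (x : D) (k : R → QAlg D R α) (y : R) :
    0 ≤ fk P u x k y := le_max_left _ _

theorem fk_le_one (u : D → Option R) (x : D) (k : R → QAlg D R α) (y : R) :
    fk P u x k y ≤ 1 := by
  refine max_le zero_le_one ?_
  have := div_nonneg (acc_nonneg P u (.ask x k))
    (acc_nonneg P (Function.update u x (some y)) (k y))
  linarith

/-- `(1 - fk) a_y = min a_y a` -/
theorem one_sub_fk_mul (u : D → Option R) (x : D) (k : R → QAlg D R α) (y : R) :
    (1 - fk P u x k y) * acc P (Function.update u x (some y)) (k y) =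
      min (acc P (Function.update u x (some y)) (k y)) (acc P u (.ask x k)) := by
  set a := acc P u (.ask x k) with ha
  set b := acc P (Function.update u x (some y)) (k y) with hb
  have ha0 : 0 ≤ a := acc_nonneg _ _ _
  have hb0 : 0 ≤ b := acc_nonneg _ _ _
  rcases hb0.eq_or_lt with h | h
  · rw [← h, mul_zero, min_eq_left ha0]
  · rw [fk, ← ha, ← hb]
    rcases le_total a b with h1 | h1
    · have h2 : a / b ≤ 1 := (div_le_one h).mpr h1
      rw [max_eq_right (by linarith), min_eq_right h1]
      field_simp
      ring
    · have h2 : 1 ≤ a / b := (one_le_div h).mpr h1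
      rw [max_eq_left (by linarith), min_eq_left h1]
      ring

/-- `fk a_y = (a_y - a)₊` -/
theorem fk_mul (u : D → Option R) (x : D) (k : R → QAlg D R α) (y : R) :
    fk P u x k y * acc P (Function.update u x (some y)) (k y) =
      max (acc P (Function.update u x (some y)) (k y) - acc P u (.ask x k)) 0 := by
  have h := one_sub_fk_mul P u x k y
  have h2 : fk P u x k y * acc P (Function.update u x (some y)) (k y) =
      acc P (Function.update u x (some y)) (k y) -
        min (acc P (Function.update u x (some y)) (k y)) (acc P u (.ask x k)) := by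
    rw [← h]; ring
  rw [h2]
  rcases le_total (acc P (Function.update u x (some y)) (k y)) (acc P u (.ask x k)) with h1 | h1
  · rw [min_eq_left h1, max_eq_right (by linarith)]; ring
  · rw [min_eq_right h1, max_eq_left (by linarith)]

/-- expected number of replaced answers, along the run of `T` -/
noncomputable def fakeF : (D → Option R) → QAlg D R α → (D → R) → ℝ
  | _, .ret _, _ => 0
  | u, .ask x k, f => (if (u x).isSome then 0 else fk P u x k (f x)) +
      fakeF (Function.update u x (some (f x))) (k (f x)) f

theorem fakeF_ret (u : D → Option R) (a : α) (f : D → R) : fakeF P u (.ret a) f = 0 := rfl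
theorem fakeF_ask (u : D → Option R) (x : D) (k : R → QAlg D R α) (f : D → R) :
    fakeF P u (.ask x k) f = (if (u x).isSome then 0 else fk P u x k (f x)) +
      fakeF P (Function.update u x (some (f x))) (k (f x)) f := rfl

theorem fakeF_nonneg (u : D → Option R) (T : QAlg D R α) (f : D → R) : 0 ≤ fakeF P u T f := by
  induction T generalizing u with
  | ret a => exact le_rfl
  | ask x k ih =>
    rw [fakeF_ask]
    refine add_nonneg ?_ (ih _ _)
    split_ifs
    · exact le_rfl
    · exact fk_nonneg _ _ _ _ _

/-- Fenchel's inequality for `b log b` -/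
theorem fenchel {a b : ℝ} (ha : 0 < a) (hb : 0 ≤ b) (t : ℝ) :
    b + b * t - a * Real.exp t ≤ b * Real.log b - b * Real.log a := by
  rcases hb.eq_or_lt with h | h
  · subst h
    have := mul_pos ha (Real.exp_pos t)
    simp
    linarith
  · have h1 : Real.log (a / b * Real.exp t) ≤ a / b * Real.exp t - 1 :=
      Real.log_le_sub_one_of_pos (by positivity)
    rw [Real.log_mul (by positivity) (Real.exp_pos t).ne', Real.log_exp,
      Real.log_div ha.ne' h.ne'] at h1
    have h2 : b * (Real.log a - Real.log b + t) ≤ b * (a / b * Real.exp t - 1) :=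
      mul_le_mul_of_nonneg_left h1 h.le
    have h3 : b * (a / b * Real.exp t - 1) = a * Real.exp t - b := by
      field_simp
    rw [h3] at h2
    linarith

/-- a form of Pinsker's inequality -/
theorem pinsker {ι : Type} [Fintype ι] [Nonempty ι] (a : ι → ℝ) (ha : ∀ i, 0 ≤ a i) {θ : ℝ}
    (hθ0 : 0 ≤ θ) (hθ1 : θ ≤ 1) :
    θ * 𝔼 i, max (a i - 𝔼 j, a j) 0 ≤
      Real.negMulLog (𝔼 j, a j) - (𝔼 i, Real.negMulLog (a i)) + θ ^ 2 / 4 * 𝔼 j, a j := by
  set m := 𝔼 j, a j with hm
  have hm0 : 0 ≤ m := Finset.expect_nonneg fun i _ => ha i
  rcases hm0.eq_or_lt with h | h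
  · -- all the `a i` vanish
    have h0 : ∀ i, a i = 0 := by
      intro i
      have h1 : 𝔼 j, a j = 0 := by rw [← hm]; exact h.symm
      rw [Fintype.expect_eq_sum_div_card] at h1
      have hc : (0 : ℝ) < Fintype.card ι := by exact_mod_cast Fintype.card_pos
      have h2 : ∑ j, a j = 0 := by
        rcases div_eq_zero_iff.mp h1 with h | h
        · exact h
        · exact absurd h hc.ne'
      exact (Finset.sum_eq_zero_iff_of_nonneg fun j _ => ha j).mp h2 i (Finset.mem_univ i)
    simp only [h0, ← h]
    simp
  · -- indicator of `a i > m`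
    let ψ : ι → ℝ := fun i => if m < a i then 1 else 0
    set p := 𝔼 i, ψ i with hp
    have hψ0 : ∀ i, 0 ≤ ψ i := fun i => by simp only [ψ]; split_ifs <;> norm_num
    have hψ1 : ∀ i, ψ i ≤ 1 := fun i => by simp only [ψ]; split_ifs <;> norm_num
    have hp0 : 0 ≤ p := Finset.expect_nonneg fun i _ => hψ0 i
    have hp1 : p ≤ 1 := Finset.expect_le Finset.univ_nonempty fun i _ => hψ1 i
    have h1 : 𝔼 i, (a i + a i * (θ * (ψ i - p)) - m * Real.exp (θ * (ψ i - p))) ≤
        𝔼 i, (a i * Real.log (a i) - a i * Real.log m) :=
      Finset.expect_le_expect fun i _ => fenchel h (ha i) _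
    -- right-hand side
    have h2 : 𝔼 i, (a i * Real.log (a i) - a i * Real.log m) =
        Real.negMulLog m - 𝔼 i, Real.negMulLog (a i) := by
      rw [Finset.expect_sub_distrib, ← Finset.expect_mul]
      simp only [Real.negMulLog, neg_mul, Finset.expect_neg_distrib]
      ring
    -- left-hand side
    have h3 : 𝔼 i, max (a i - m) 0 = 𝔼 i, a i * (ψ i - p) := by
      have h4 : ∀ i, max (a i - m) 0 = a i * (ψ i - p) + (a i * p - m * ψ i) := by
        intro i
        simp only [ψ]
        split_ifs with h5
        · rw [max_eq_left (by linarith)]; ring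
        · rw [max_eq_right (by linarith)]; ring
      simp only [h4]
      rw [Finset.expect_add_distrib, Finset.expect_sub_distrib, ← Finset.expect_mul,
        ← Finset.mul_expect, ← hp, ← hm]
      ring
    have h6 : 𝔼 i, Real.exp (θ * (ψ i - p)) ≤ 1 + θ ^ 2 / 4 := by
      have h7 : 𝔼 i, Real.exp (θ * (ψ i - p)) ≤
          𝔼 i, ((1 - θ * p + θ ^ 2 * p ^ 2) + (θ + θ ^ 2 * (1 - 2 * p)) * ψ i) :=
        Finset.expect_le_expect fun i _ =>
          exp_le_quadratic (abs_le.mpr ⟨by linarith, hθ1⟩) (hψ0 i) (hψ1 i) hp0 hp1
      rw [Finset.expect_add_distrib, Fintype.expect_const, ← Finset.mul_expect, ← hp] at h7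
      have h8 : p - p ^ 2 ≤ 1 / 4 := by nlinarith [sq_nonneg (p - 1 / 2)]
      nlinarith [mul_le_mul_of_nonneg_left h8 (sq_nonneg θ)]
    have h9 : 𝔼 i, (a i + a i * (θ * (ψ i - p)) - m * Real.exp (θ * (ψ i - p))) =
        m + θ * (𝔼 i, a i * (ψ i - p)) - m * 𝔼 i, Real.exp (θ * (ψ i - p)) := by
      rw [Finset.expect_sub_distrib, Finset.expect_add_distrib, ← Finset.mul_expect, ← hm]
      congr 2
      rw [Finset.mul_expect]
      exact Finset.expect_congr rfl fun i _ => by ring
    rw [h9, h2] at h1
    rw [h3]
    have h10 := mul_le_mul_of_nonneg_left h6 hm0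
    linarith

/-- the expected number of replaced answers, restricted to the event that `T` outputs something
that satisfies `P` -/
theorem expect_fakeF_le [Nonempty R] {n : ℕ} {θ : ℝ} (hθ0 : 0 < θ) (hθ1 : θ ≤ 1)
    (u : D → Option R) (T : QAlg D R α) (hT : ∀ g : D → R, T.cost (ovr g u) ≤ n) :
    𝔼 g : D → R, (if P (T.run (ovr g u)) then (1 : ℝ) else 0) * fakeF P u T (ovr g u) ≤
      1 / θ * Real.negMulLog (acc P u T) + θ / 4 * n * acc P u T := by
  induction T generalizing u n with
  | ret a =>
    simp only [fakeF_ret, mul_zero, Fintype.expect_const]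
    have h1 : 0 ≤ Real.negMulLog (acc P u (.ret a)) :=
      Real.negMulLog_nonneg (acc_nonneg _ _ _) (acc_le_one _ _ _)
    have h2 := acc_nonneg P u (.ret a)
    positivity
  | ask x k ih =>
    have hn1 : 1 ≤ n := by
      have g : D → R := Classical.arbitrary _
      have := hT g
      rw [QAlg.cost_ask] at this
      omega
    obtain ⟨n', rfl⟩ : ∃ n', n = n' + 1 := ⟨n - 1, by omega⟩
    have hacc0 := acc_nonneg P u (.ask x k)
    rcases hx : u x with _ | y
    · -- fresh point
      have hcost : ∀ (y : R) (g : D → R), (k y).cost (ovr g (Function.update u x (some y))) ≤ n' := by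
        intro y g
        have h1 := hT (Function.update g x y)
        rw [ovr_update_of_none hx, QAlg.cost_ask, ovr_update_self] at h1
        omega
      have h1 := expect_ovr_update hx (fun f => (if P ((QAlg.ask x k).run f) then (1 : ℝ) else 0) *
        fakeF P u (.ask x k) f)
      rw [h1]
      have h2 : ∀ y : R, 𝔼 g : D → R,
          (if P ((QAlg.ask x k).run (ovr g (Function.update u x (some y)))) then (1 : ℝ) else 0) *
            fakeF P u (.ask x k) (ovr g (Function.update u x (some y))) =
          fk P u x k y * acc P (Function.update u x (some y)) (k y) +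
          𝔼 g : D → R, (if P ((k y).run (ovr g (Function.update u x (some y)))) then (1 : ℝ)
            else 0) * fakeF P (Function.update u x (some y)) (k y)
              (ovr g (Function.update u x (some y))) := by
        intro y
        unfold acc
        rw [Finset.mul_expect, ← Finset.expect_add_distrib]
        refine Finset.expect_congr rfl fun g _ => ?_
        rw [fakeF_ask, QAlg.run_ask, ovr_update_self, hx]
        simp only [Option.isSome_none, Bool.false_eq_true, if_false]
        ring
      simp only [h2]
      rw [Finset.expect_add_distrib]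
      have h3 : 𝔼 y : R, 𝔼 g : D → R,
          (if P ((k y).run (ovr g (Function.update u x (some y)))) then (1 : ℝ)
            else 0) * fakeF P (Function.update u x (some y)) (k y)
              (ovr g (Function.update u x (some y))) ≤
          𝔼 y : R, (1 / θ * Real.negMulLog (acc P (Function.update u x (some y)) (k y)) +
            θ / 4 * n' * acc P (Function.update u x (some y)) (k y)) :=
        Finset.expect_le_expect fun y _ => ih y _ (hcost y)
      rw [Finset.expect_add_distrib, ← Finset.mul_expect, ← Finset.mul_expect,
        ← acc_ask_of_none P hx] at h3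
      have h4 := pinsker (fun y : R => acc P (Function.update u x (some y)) (k y))
        (fun y => acc_nonneg _ _ _) hθ0.le hθ1
      rw [← acc_ask_of_none P hx] at h4
      simp only [fk_mul]
      have h5 : 𝔼 y : R, max (acc P (Function.update u x (some y)) (k y) - acc P u (.ask x k)) 0 ≤
          1 / θ * (Real.negMulLog (acc P u (.ask x k)) -
            𝔼 y : R, Real.negMulLog (acc P (Function.update u x (some y)) (k y))) +
          θ / 4 * acc P u (.ask x k) := by
        rw [← mul_le_mul_iff_right₀ hθ0]
        refine h4.trans (le_of_eq ?_)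
        field_simp
      push_cast
      nlinarith [h3, h5]
    · -- known point
      have hcost : ∀ (g : D → R), (k y).cost (ovr g u) ≤ n' := by
        intro g
        have h1 := hT g
        rw [QAlg.cost_ask, ovr_some hx] at h1
        omega
      have h2 : ∀ g : D → R, (if P ((QAlg.ask x k).run (ovr g u)) then (1 : ℝ) else 0) *
            fakeF P u (.ask x k) (ovr g u) =
          (if P ((k y).run (ovr g u)) then (1 : ℝ) else 0) * fakeF P u (k y) (ovr g u) := by
        intro g
        rw [fakeF_ask, QAlg.run_ask, ovr_some hx, update_eq_self_of_some hx, hx]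
        simp
      simp only [h2]
      refine (ih y u hcost).trans ?_
      rw [acc_ask_of_some P hx]
      have h3 : θ / 4 * (n' : ℝ) * acc P u (k y) ≤ θ / 4 * ((n' + 1 : ℕ) : ℝ) * acc P u (k y) := by
        have := acc_nonneg P u (k y)
        push_cast
        have h4 : 0 ≤ θ / 4 * acc P u (k y) := by positivity
        nlinarith
      linarith

/-- the tangent of `- x log x` at `1 / K` -/
theorem negMulLog_le {K : ℝ} (hK : 0 < K) {x : ℝ} (hx : 0 ≤ x) :
    Real.negMulLog x ≤ x * Real.log K + 1 / K - x := by
  rcases hx.eq_or_lt with h | h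
  · subst h; simp; positivity
  · have h1 : Real.log (1 / (K * x)) ≤ 1 / (K * x) - 1 :=
      Real.log_le_sub_one_of_pos (by positivity)
    rw [one_div, Real.log_inv, Real.log_mul hK.ne' h.ne'] at h1
    have h2 := mul_le_mul_of_nonneg_left h1 h.le
    have h3 : x * ((K * x)⁻¹ - 1) = 1 / K - x := by field_simp
    rw [h3] at h2
    rw [Real.negMulLog]
    linarith

end Pool.Agent.PKE70
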