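import Pool.Agent.PKE70.Fakes

/-!
# Lower bound: expectations of products, marginals
-/

set_option autoImplicit false
set_option linter.unusedSectionVars false

open scoped BigOperators

namespace Pool.Agent.PKE70

section Prod

theorem expect_pi_prod {ι : Type} [Fintype ι] [DecidableEq ι] {α : ι → Type}
    [∀ i, Fintype (α i)] (F : (i : ι) → α i → ℝ) :
    𝔼 x : (i : ι) → α i, ∏ i, F i (x i) = ∏ i, 𝔼 a : α i, F i a := by
  have h1 : ∏ i, ∑ a : α i, F i a = ∑ x : (i : ι) → α i, ∏ i, F i (x i) := by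
    rw [Finset.prod_univ_sum, Fintype.piFinset_univ]
  rw [Fintype.expect_eq_sum_div_card, ← h1]
  simp only [Fintype.expect_eq_sum_div_card]
  rw [Finset.prod_div_distrib, Fintype.card_pi]
  push_cast
  rfl

/-- one coordinate of a uniformly random dependent function -/
theorem expect_pi_apply {ι : Type} [Fintype ι] [DecidableEq ι] {α : ι → Type}
    [∀ i, Fintype (α i)] [∀ i, Nonempty (α i)] (i₀ : ι) (g : α i₀ → ℝ) :
    𝔼 x : (i : ι) → α i, g (x i₀) = 𝔼 a : α i₀, g a := by
  have h1 : 𝔼 x : (i : ι) → α i, g (x i₀) =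
      𝔼 p : α i₀ × ((i : { i // i ≠ i₀ }) → α i), g p.1 :=
    Fintype.expect_equiv (Equiv.piSplitAt i₀ α) _ _ fun x => rfl
  rw [h1, ← Finset.univ_product_univ, Finset.expect_product]
  exact Finset.expect_congr rfl fun a _ => Fintype.expect_const (g a)

/-- marginals along an injection -/
theorem expect_comp_inj {J D R : Type} [Fintype J] [Fintype D] [Fintype R] [DecidableEq J]
    [DecidableEq D] [Nonempty R] (j : J → D) (hj : Function.Injective j) (G : (J → R) → ℝ) :
    𝔼 f : D → R, G (fun x => f (j x)) = 𝔼 g : J → R, G g := by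
  classical
  let e1 : J ⊕ { x // x ∉ Set.range j } ≃ D :=
    ((Equiv.ofInjective j hj).sumCongr (Equiv.refl _)).trans (Equiv.Set.sumCompl (Set.range j))
  let e2 : (D → R) ≃ (J → R) × ({ x // x ∉ Set.range j } → R) :=
    (Equiv.arrowCongr e1.symm (Equiv.refl R)).trans (Equiv.sumArrowEquivProdArrow _ _ _)
  have h1 : 𝔼 f : D → R, G (fun x => f (j x)) =
      𝔼 p : (J → R) × ({ x // x ∉ Set.range j } → R), G p.1 := by
    refine Fintype.expect_equiv e2 _ _ fun f => ?_
    congr 1
  rw [h1, ← Finset.univ_product_univ, Finset.expect_product]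
  exact Finset.expect_congr rfl fun a _ => Fintype.expect_const (G a)

theorem expect_sq_le {ι : Type} [Fintype ι] [Nonempty ι] (X : ι → ℝ) :
    (𝔼 i, X i) ^ 2 ≤ 𝔼 i, X i ^ 2 := by
  set m := 𝔼 i, X i with hm
  have h1 : 0 ≤ 𝔼 i, (X i - m) ^ 2 := Finset.expect_nonneg fun i _ => sq_nonneg _
  have h2 : 𝔼 i, (X i - m) ^ 2 = 𝔼 i, X i ^ 2 - m ^ 2 := by
    have h3 : ∀ i, (X i - m) ^ 2 = X i ^ 2 - 2 * m * X i + m ^ 2 := fun i => by ring
    simp only [h3]
    rw [Finset.expect_add_distrib, Finset.expect_sub_distrib, Fintype.expect_const,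
      ← Finset.mul_expect, ← hm]
    ring
  linarith

theorem expect_abs_le {ι : Type} [Fintype ι] [Nonempty ι] (X : ι → ℝ) :
    𝔼 i, |X i| ≤ Real.sqrt (𝔼 i, X i ^ 2) := by
  refine Real.le_sqrt_of_sq_le ?_
  refine (expect_sq_le fun i => |X i|).trans (le_of_eq ?_)
  exact Finset.expect_congr rfl fun i _ => sq_abs _

theorem expect_prod_type {α β : Type} [Fintype α] [Fintype β] (F : α × β → ℝ) :
    𝔼 p : α × β, F p = 𝔼 a : α, 𝔼 b : β, F (a, b) := by
  rw [← Finset.univ_product_univ, Finset.expect_product]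

end Prod

end Pool.Agent.PKE70
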