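import Pool.Agent.PKE70.LB9

/-!
# Lower bound: the probability of a decryption error
-/

set_option autoImplicit false
set_option linter.unusedSectionVars false

open scoped BigOperators

namespace Pool.Agent.PKE70

section Fail

variable {A U V I Kc Y : Type} [Fintype A] [DecidableEq A] [Fintype U] [DecidableEq U] [Fintype V]
  [DecidableEq V] [Fintype I] [DecidableEq I] [Fintype Kc] [DecidableEq Kc] [Fintype Y]
  [DecidableEq Y] [Nonempty A] [Nonempty U] [Nonempty V] [Nonempty I] [Nonempty Kc] [Nonempty Y]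
  {l : ℕ}

/-- the number of agreements of the designated block is far from its mean -/
noncomputable def far (s : Kc → I → Bool) (c₀ μ : ℝ) (κ : Kc) (y : I → Bool) : ℝ :=
  if |(cnt (agr (s κ) y) : ℝ) - c₀| ≤ μ then 0 else 1

theorem far_nonneg (s : Kc → I → Bool) (c₀ μ : ℝ) (κ : Kc) (y : I → Bool) :
    0 ≤ far s c₀ μ κ y := by unfold far; split_ifs <;> norm_num

/-- picks fail in a block with many agreements -/
noncomputable def pfail (T : ℕ) (P : I → Bool) (p : Fin l → Fin (T + 1) → I) : ℝ :=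
  if (Fintype.card I : ℝ) / 4 ≤ cnt P then
    (if ∀ j, P (pick P T (p j)) = true then 0 else 1) else 0

theorem pfail_nonneg (T : ℕ) (P : I → Bool) (p : Fin l → Fin (T + 1) → I) :
    0 ≤ pfail T P p := by unfold pfail; split_ifs <;> norm_num

theorem expect_pfail (T : ℕ) (P : I → Bool) :
    𝔼 p : Fin l → Fin (T + 1) → I, pfail T P p ≤ l * (3 / 4) ^ (T + 1) := by
  unfold pfail
  by_cases h : (Fintype.card I : ℝ) / 4 ≤ cnt P
  · simp only [if_pos h]
    exact expect_pf P l T h
  · simp only [if_neg h]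
    rw [Fintype.expect_const]
    positivity

open Classical in
/-- a false candidate -/
noncomputable def coll (thr : ℝ) (P : I → Bool) (u₀ : U) (x₀ : U × (Fin l → I))
    (h : Hsh U I Y l) : ℝ :=
  if (cnt P : ℝ) ≤ thr then
    (if ∃ X : Fin l → I, (∀ j, P (X j) = true) ∧ (u₀, X) ≠ x₀ ∧ (h (u₀, X)).1 = (h x₀).1
      then 1 else 0) else 0

theorem coll_nonneg (thr : ℝ) (P : I → Bool) (u₀ : U) (x₀ : U × (Fin l → I))
    (h : Hsh U I Y l) : 0 ≤ coll thr P u₀ x₀ h := by unfold coll; split_ifs <;> norm_num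

theorem expect_coll {thr : ℝ} (hthr : 0 ≤ thr) (P : I → Bool) (u₀ : U)
    (x₀ : U × (Fin l → I)) :
    𝔼 h : Hsh U I Y l, coll thr P u₀ x₀ h ≤ thr ^ l / Fintype.card Y := by
  unfold coll
  by_cases h : (cnt P : ℝ) ≤ thr
  · simp only [if_pos h]
    have h1 := expect_col (Y := Y) P x₀ u₀
    have h2 : (cnt P : ℝ) ^ l / Fintype.card Y ≤ thr ^ l / Fintype.card Y := by
      have : (cnt P : ℝ) ^ l ≤ thr ^ l := pow_le_pow_left₀ (Nat.cast_nonneg _) h l
      gcongr
    refine le_trans (le_of_eq ?_) (h1.trans h2)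
    refine Finset.expect_congr rfl fun h _ => ?_
    congr 1
  · simp only [if_neg h]
    rw [Fintype.expect_const]
    positivity

theorem expect_coll_ph {thr : ℝ} (hthr : 0 ≤ thr) (T : ℕ) (P P' : I → Bool) (u₀ u₁ : U) :
    𝔼 q : Ph U I Y l T, coll thr P u₀ (u₁, fun j => pick P' T (q.1 j)) q.2 ≤
      thr ^ l / Fintype.card Y := by
  have h1 := expect_prod_type (fun q : Ph U I Y l T =>
    coll thr P u₀ (u₁, fun j => pick P' T (q.1 j)) q.2)
  rw [h1]
  have h2 : ∀ p : Fin l → Fin (T + 1) → I, 𝔼 h : Hsh U I Y l,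
      coll thr P u₀ (u₁, fun j => pick P' T (p j)) h ≤ thr ^ l / Fintype.card Y :=
    fun p => expect_coll hthr P u₀ _
  exact Finset.expect_le Finset.univ_nonempty fun p _ => h2 p

theorem expect_pfail_ph (T : ℕ) (P : I → Bool) :
    𝔼 q : Ph U I Y l T, pfail T P q.1 ≤ l * (3 / 4) ^ (T + 1) := by
  have h1 := expect_prod_type (fun q : Ph U I Y l T => pfail T P q.1)
  rw [h1]
  simp only [Fintype.expect_const]
  exact expect_pfail T _

theorem fail_le (s : Kc → I → Bool) (T : ℕ) {c₀ μ : ℝ} (hc : (Fintype.card I : ℝ) / 4 ≤ c₀ - μ)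
    (w : A → U × V) (κ : A → Kc) (b : Bool) (u : A × V → U) (ph : A × V → Ph U I Y l T)
    (f : Dm A U V I → Bool) :
    (if decF s (c₀ + μ) (w, (fun a => blk f a (w a), κ)) (encF s T κ b (u, ph) f) = b then (0 : ℝ)
      else 1) ≤ (if ∀ a, u (a, (w a).2) ≠ (w a).1 then (1 : ℝ) else 0) +
      ∑ a, ((if u (a, (w a).2) = (w a).1 then (1 : ℝ) else 0) *
          far s c₀ μ (κ a) (blk f a (w a)) +
        (if u (a, (w a).2) = (w a).1 then (1 : ℝ) else 0) *
          pfail T (agr (s (κ a)) (blk f a (u (a, (w a).2), (w a).2)))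
            (ph (a, (w a).2)).1 +
        coll (c₀ + μ) (agr (s (κ a)) (blk f a (w a))) (w a).1
          (u (a, (w a).2), pk s T κ (u, ph) f (a, (w a).2)) (ph (a, (w a).2)).2) := by
  classical
  set B1 : ℝ := if ∀ a, u (a, (w a).2) ≠ (w a).1 then (1 : ℝ) else 0 with hB1
  set F : A → ℝ := fun a => (if u (a, (w a).2) = (w a).1 then (1 : ℝ) else 0) *
          far s c₀ μ (κ a) (blk f a (w a)) with hF
  set G : A → ℝ := fun a => (if u (a, (w a).2) = (w a).1 then (1 : ℝ) else 0) *
          pfail T (agr (s (κ a)) (blk f a (u (a, (w a).2), (w a).2)))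
            (ph (a, (w a).2)).1 with hG
  set C : A → ℝ := fun a => coll (c₀ + μ) (agr (s (κ a)) (blk f a (w a))) (w a).1
          (u (a, (w a).2), pk s T κ (u, ph) f (a, (w a).2)) (ph (a, (w a).2)).2 with hC
  have hB1nn : 0 ≤ B1 := by rw [hB1]; split_ifs <;> norm_num
  have hFnn : ∀ a, 0 ≤ F a := fun a =>
    mul_nonneg (by split_ifs <;> norm_num) (far_nonneg _ _ _ _ _)
  have hGnn : ∀ a, 0 ≤ G a := fun a =>
    mul_nonneg (by split_ifs <;> norm_num) (pfail_nonneg _ _ _)
  have hCnn : ∀ a, 0 ≤ C a := fun a => coll_nonneg _ _ _ _ _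
  have hsum : ∀ a, F a + G a + C a ≤ ∑ a, (F a + G a + C a) := fun a =>
    Finset.single_le_sum (f := fun a => F a + G a + C a)
      (fun a _ => by have := hFnn a; have := hGnn a; have := hCnn a; positivity)
      (Finset.mem_univ a)
  have hsum0 : 0 ≤ ∑ a, (F a + G a + C a) :=
    Finset.sum_nonneg fun a _ => by have := hFnn a; have := hGnn a; have := hCnn a; positivity
  by_cases hdec : decF s (c₀ + μ) (w, (fun a => blk f a (w a), κ)) (encF s T κ b (u, ph) f) = b
  · rw [if_pos hdec]
    positivity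
  rw [if_neg hdec]
  by_contra hlt
  push Not at hlt
  refine hdec (decF_encF s T w κ b (u, ph) f ?_ ?_ ?_ ?_)
  · intro h
    rw [hB1, if_pos h] at hlt
    linarith
  · intro a ha
    by_contra hfar
    have h1 : F a = 1 := by
      simp only [hF]
      rw [if_pos ha, far, if_neg hfar, one_mul]
    have := hsum a
    have := hGnn a
    have := hCnn a
    linarith
  · intro a ha j
    by_contra hj
    by_cases hfar : |(cnt (agr (s (κ a)) (blk f a (w a))) : ℝ) - c₀| ≤ μ
    · have hw : (u (a, (w a).2), (w a).2) = w a := Prod.ext ha rfl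
      have h1 : G a = 1 := by
        simp only [hG]
        rw [if_pos ha, pfail, if_pos, if_neg, one_mul]
        · intro hall
          exact hj (hall j)
        · rw [hw]
          have := (abs_le.mp hfar).1
          linarith
      have := hsum a
      have := hFnn a
      have := hCnn a
      linarith
    · have h1 : F a = 1 := by
        simp only [hF]
        rw [if_pos ha, far, if_neg hfar, one_mul]
      have := hsum a
      have := hGnn a
      have := hCnn a
      linarith
  · intro a hthr hex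
    have h1 : C a = 1 := by
      simp only [hC]
      rw [coll, if_pos hthr, if_pos hex]
    have := hsum a
    have := hGnn a
    have := hFnn a
    linarith

theorem expect_fail (s : Kc → I → Bool) (T : ℕ) {c₀ μ : ℝ} (hμ : 0 ≤ μ)
    (hc : (Fintype.card I : ℝ) / 4 ≤ c₀ - μ)
    (w : A → U × V) (κ : A → Kc) (b : Bool) (f : Dm A U V I → Bool) :
    𝔼 e : EC A U V I Y l T, (if decF s (c₀ + μ) (w, (fun a => blk f a (w a), κ))
        (encF s T κ b e f) = b then (0 : ℝ) else 1) ≤
      (1 - 1 / Fintype.card U) ^ Fintype.card A +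
      ∑ a, (1 / (Fintype.card U : ℝ) * far s c₀ μ (κ a) (blk f a (w a)) +
        1 / (Fintype.card U : ℝ) * (l * (3 / 4) ^ (T + 1)) +
        (c₀ + μ) ^ l / Fintype.card Y) := by
  have hn : (0 : ℝ) ≤ Fintype.card I := Nat.cast_nonneg _
  have hthr : 0 ≤ c₀ + μ := by linarith
  rw [expect_prod_type]
  refine (Finset.expect_le_expect fun u _ => Finset.expect_le_expect fun ph _ =>
    fail_le s T hc w κ b u ph f).trans ?_
  have h1 : ∀ u : A × V → U, 𝔼 ph : A × V → Ph U I Y l T,
      ((if ∀ a, u (a, (w a).2) ≠ (w a).1 then (1 : ℝ) else 0) +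
      ∑ a, ((if u (a, (w a).2) = (w a).1 then (1 : ℝ) else 0) *
          far s c₀ μ (κ a) (blk f a (w a)) +
        (if u (a, (w a).2) = (w a).1 then (1 : ℝ) else 0) *
          pfail T (agr (s (κ a)) (blk f a (u (a, (w a).2), (w a).2)))
            (ph (a, (w a).2)).1 +
        coll (c₀ + μ) (agr (s (κ a)) (blk f a (w a))) (w a).1
          (u (a, (w a).2), pk s T κ (u, ph) f (a, (w a).2)) (ph (a, (w a).2)).2)) ≤
      (if ∀ a, u (a, (w a).2) ≠ (w a).1 then (1 : ℝ) else 0) +
      ∑ a, ((if u (a, (w a).2) = (w a).1 then (1 : ℝ) else 0) *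
          far s c₀ μ (κ a) (blk f a (w a)) +
        (if u (a, (w a).2) = (w a).1 then (1 : ℝ) else 0) * (l * (3 / 4) ^ (T + 1)) +
        (c₀ + μ) ^ l / Fintype.card Y) := by
    intro u
    rw [Finset.expect_add_distrib, Fintype.expect_const, Finset.expect_sum_comm]
    refine add_le_add le_rfl (Finset.sum_le_sum fun a _ => ?_)
    rw [Finset.expect_add_distrib, Finset.expect_add_distrib, Fintype.expect_const,
      ← Finset.mul_expect]
    have h2 : 𝔼 ph : A × V → Ph U I Y l T,
        pfail T (agr (s (κ a)) (blk f a (u (a, (w a).2), (w a).2))) (ph (a, (w a).2)).1 ≤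
          l * (3 / 4) ^ (T + 1) :=
      (le_of_eq (expect_pi_apply (α := fun _ : A × V => Ph U I Y l T) (a, (w a).2)
        (fun ph => pfail T (agr (s (κ a)) (blk f a (u (a, (w a).2), (w a).2))) ph.1))).trans
        (expect_pfail_ph T _)
    have h3 : 𝔼 ph : A × V → Ph U I Y l T,
        coll (c₀ + μ) (agr (s (κ a)) (blk f a (w a))) (w a).1
          (u (a, (w a).2), pk s T κ (u, ph) f (a, (w a).2)) (ph (a, (w a).2)).2 ≤
        (c₀ + μ) ^ l / Fintype.card Y :=
      (le_of_eq (expect_pi_apply (α := fun _ : A × V => Ph U I Y l T) (a, (w a).2)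
        (fun ph => coll (c₀ + μ) (agr (s (κ a)) (blk f a (w a))) (w a).1
          (u (a, (w a).2), fun j => pick (agr (s (κ a)) (blk f a (u (a, (w a).2), (w a).2))) T
            (ph.1 j)) ph.2))).trans (expect_coll_ph hthr T _ _ _ _)
    refine add_le_add (add_le_add le_rfl ?_) h3
    exact mul_le_mul_of_nonneg_left h2 (by split_ifs <;> norm_num)
  refine (Finset.expect_le_expect fun u _ => h1 u).trans (le_of_eq ?_)
  rw [Finset.expect_add_distrib, expect_no_cell, Finset.expect_sum_comm]
  congr 1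
  refine Finset.sum_congr rfl fun a _ => ?_
  rw [Finset.expect_add_distrib, Finset.expect_add_distrib, Fintype.expect_const,
    ← Finset.expect_mul, ← Finset.expect_mul, expect_cell (a, (w a).2) (w a).1]

end Fail

end Pool.Agent.PKE70
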