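import Pool.Agent.PKE70.LB10

/-!
# Lower bound: the decryption probability, and the passage to the biased measure
-/

set_option autoImplicit false
set_option linter.unusedSectionVars false

open scoped BigOperators

namespace Pool.Agent.PKE70

section Real

variable {A U V I Kc Y : Type} [Fintype A] [DecidableEq A] [Fintype U] [DecidableEq U] [Fintype V]
  [DecidableEq V] [Fintype I] [DecidableEq I] [Fintype Kc] [DecidableEq Kc] [Fintype Y]
  [DecidableEq Y] [Nonempty A] [Nonempty U] [Nonempty V] [Nonempty I] [Nonempty Kc] [Nonempty Y]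
  {l : ℕ}

theorem abs_one_sub_Wt {β η : ℝ} (s : Kc → I → Bool)
    (hs : 𝔼 y : I → Bool, Wt β s y ^ 2 ≤ 1 + η) :
    𝔼 y : I → Bool, |1 - Wt β s y| ≤ Real.sqrt η := by
  refine (expect_abs_le fun y : I → Bool => 1 - Wt β s y).trans (Real.sqrt_le_sqrt ?_)
  have h1 : ∀ y : I → Bool, (1 - Wt β s y) ^ 2 = Wt β s y ^ 2 - 2 * Wt β s y + 1 :=
    fun y => by ring
  simp only [h1]
  rw [Finset.expect_add_distrib, Finset.expect_sub_distrib, Fintype.expect_const,
    ← Finset.mul_expect, expect_Wt]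
  linarith

/-- the designated block of one class, with its codeword index -/
theorem expect_far {M : ℕ} (hM : 2 ≤ M) {η μ : ℝ} (hμ : 0 < μ) (s : Kc → I → Bool)
    (hs : 𝔼 y : I → Bool, Wt (1 / (M : ℝ)) s y ^ 2 ≤ 1 + η) (w : A → U × V) (a : A) :
    𝔼 f : Dm A U V I → Bool, 𝔼 ω : A → Coin M s,
      far s (Fintype.card I * ((1 - 1 / (M : ℝ)) / 2)) μ (ω a (blk f a (w a))).1
        (blk f a (w a)) ≤ Fintype.card I / (4 * μ ^ 2) + Real.sqrt η := by
  have hβ0 : (0 : ℝ) ≤ 1 / M := by positivity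
  have hβ1 : (1 : ℝ) / M ≤ 1 := by
    rw [div_le_one (by positivity)]
    exact_mod_cast (by omega : 1 ≤ M)
  haveI := nonempty_coin hM s
  set c₀ : ℝ := Fintype.card I * ((1 - 1 / (M : ℝ)) / 2) with hc₀
  have h1 : ∀ f : Dm A U V I → Bool, 𝔼 ω : A → Coin M s,
      far s c₀ μ (ω a (blk f a (w a))).1 (blk f a (w a)) =
      𝔼 κ : Kc, LamB (1 / (M : ℝ)) (s κ) (blk f a (w a)) /
        Wt (1 / (M : ℝ)) s (blk f a (w a)) * far s c₀ μ κ (blk f a (w a)) := by
    intro f
    rw [expect_pi_apply (α := fun _ : A => Coin M s) a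
      (fun ω => far s c₀ μ (ω (blk f a (w a))).1 (blk f a (w a)))]
    exact expect_coin hM s (blk f a (w a)) (fun κ => far s c₀ μ κ (blk f a (w a)))
  simp only [h1]
  rw [expect_block a (w a) (fun y => 𝔼 κ : Kc, LamB (1 / (M : ℝ)) (s κ) y /
        Wt (1 / (M : ℝ)) s y * far s c₀ μ κ y)]
  have h2 : ∀ y : I → Bool, 𝔼 κ : Kc, LamB (1 / (M : ℝ)) (s κ) y /
      Wt (1 / (M : ℝ)) s y * far s c₀ μ κ y ≤
      𝔼 κ : Kc, LamB (1 / (M : ℝ)) (s κ) y * far s c₀ μ κ y + |1 - Wt (1 / (M : ℝ)) s y| := by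
    intro y
    have hW := Wt_pos hM s y
    have h3 : 𝔼 κ : Kc, LamB (1 / (M : ℝ)) (s κ) y / Wt (1 / (M : ℝ)) s y = 1 := by
      rw [← Finset.expect_div, ← Wt, div_self hW.ne']
    have h4 : |1 - Wt (1 / (M : ℝ)) s y| = 𝔼 κ : Kc, LamB (1 / (M : ℝ)) (s κ) y /
        Wt (1 / (M : ℝ)) s y * |1 - Wt (1 / (M : ℝ)) s y| := by
      rw [← Finset.expect_mul, h3, one_mul]
    rw [h4, ← Finset.expect_add_distrib]
    refine Finset.expect_le_expect fun κ _ => ?_
    have hL := LamB_nonneg hβ0 hβ1 (s κ) y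
    have hg0 := far_nonneg s c₀ μ κ y
    have hg1 : far s c₀ μ κ y ≤ 1 := by unfold far; split_ifs <;> norm_num
    have h5 : LamB (1 / (M : ℝ)) (s κ) y / Wt (1 / (M : ℝ)) s y * far s c₀ μ κ y =
        LamB (1 / (M : ℝ)) (s κ) y * far s c₀ μ κ y + LamB (1 / (M : ℝ)) (s κ) y /
        Wt (1 / (M : ℝ)) s y * ((1 - Wt (1 / (M : ℝ)) s y) * far s c₀ μ κ y) := by
      field_simp
      ring
    rw [h5]
    refine add_le_add le_rfl (mul_le_mul_of_nonneg_left ?_ (by positivity))
    refine (le_abs_self _).trans ?_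
    rw [abs_mul, abs_of_nonneg hg0]
    exact mul_le_of_le_one_right (abs_nonneg _) hg1
  refine (Finset.expect_le_expect fun y _ => h2 y).trans ?_
  rw [Finset.expect_add_distrib, Finset.expect_comm]
  refine add_le_add ?_ (abs_one_sub_Wt s hs)
  refine Finset.expect_le Finset.univ_nonempty fun κ _ => ?_
  exact biased_tail hβ0 hβ1 (s κ) hμ

/-- the scheme decrypts correctly with high probability -/
theorem decProb_ge {M : ℕ} (hM : 2 ≤ M) {η μ : ℝ} (hμ : 0 < μ) (s : Kc → I → Bool)
    (hs : 𝔼 y : I → Bool, Wt (1 / (M : ℝ)) s y ^ 2 ≤ 1 + η) (T : ℕ)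
    (hc : (Fintype.card I : ℝ) / 4 ≤ Fintype.card I * ((1 - 1 / (M : ℝ)) / 2) - μ) :
    1 - ((1 - 1 / Fintype.card U) ^ Fintype.card A +
      Fintype.card A * (1 / (Fintype.card U : ℝ) *
        (Fintype.card I / (4 * μ ^ 2) + Real.sqrt η) +
        1 / (Fintype.card U : ℝ) * (l * (3 / 4) ^ (T + 1)) +
        (Fintype.card I * ((1 - 1 / (M : ℝ)) / 2) + μ) ^ l / Fintype.card Y)) ≤
    (theScheme (A := A) (U := U) (V := V) (Y := Y) M s l T
      (Fintype.card I * ((1 - 1 / (M : ℝ)) / 2) + μ)).decProb := by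
  haveI := nonempty_coin hM s
  set c₀ : ℝ := Fintype.card I * ((1 - 1 / (M : ℝ)) / 2) with hc₀
  have h1 : (theScheme (A := A) (U := U) (V := V) (Y := Y) M s l T (c₀ + μ)).decProb =
      1 - 𝔼 f : Dm A U V I → Bool, 𝔼 r : (A → U × V) × (A → Coin M s), 𝔼 b : Bool,
        𝔼 e : EC A U V I Y l T, (if decF s (c₀ + μ) (r.1, (fun a => blk f a (r.1 a),
          kap r.2 (fun a => blk f a (r.1 a))))
          (encF s T (kap r.2 (fun a => blk f a (r.1 a))) b e f) = b then (0 : ℝ) else 1) := by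
    unfold Scheme.decProb
    have h2 : ∀ (f : Dm A U V I → Bool) (r : (A → U × V) × (A → Coin M s)) (b : Bool)
        (e : EC A U V I Y l T) (d : Unit),
        (if ((theScheme (A := A) (U := U) (V := V) (Y := Y) M s l T (c₀ + μ)).dec
          ((theScheme (A := A) (U := U) (V := V) (Y := Y) M s l T (c₀ + μ)).gen f r).2
          (((theScheme (A := A) (U := U) (V := V) (Y := Y) M s l T (c₀ + μ)).enc
          ((theScheme (A := A) (U := U) (V := V) (Y := Y) M s l T (c₀ + μ)).gen f r).1 b e).run f)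
          d).run f = b then (1 : ℝ) else 0) =
        1 - (if decF s (c₀ + μ) (r.1, (fun a => blk f a (r.1 a),
          kap r.2 (fun a => blk f a (r.1 a))))
          (encF s T (kap r.2 (fun a => blk f a (r.1 a))) b e f) = b then (0 : ℝ) else 1) := by
      intro f r b e d
      have h3 : ((theScheme (A := A) (U := U) (V := V) (Y := Y) M s l T (c₀ + μ)).enc
          ((theScheme (A := A) (U := U) (V := V) (Y := Y) M s l T (c₀ + μ)).gen f r).1 b e).run f =
          encF s T (kap r.2 (fun a => blk f a (r.1 a))) b e f :=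
        (exists_encT s T (kap r.2 (fun a => blk f a (r.1 a))) b e).choose_spec.1 f
      rw [h3]
      have h4 : ((theScheme (A := A) (U := U) (V := V) (Y := Y) M s l T (c₀ + μ)).dec
          ((theScheme (A := A) (U := U) (V := V) (Y := Y) M s l T (c₀ + μ)).gen f r).2
          (encF s T (kap r.2 (fun a => blk f a (r.1 a))) b e f) d).run f =
          decF s (c₀ + μ) (r.1, (fun a => blk f a (r.1 a),
            kap r.2 (fun a => blk f a (r.1 a))))
            (encF s T (kap r.2 (fun a => blk f a (r.1 a))) b e f) := rfl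
      rw [h4]
      split_ifs <;> norm_num
    simp only [h2, Fintype.expect_const, Finset.expect_sub_distrib]
  rw [h1]
  refine sub_le_sub_left ?_ 1
  have h5 : ∀ (f : Dm A U V I → Bool) (r : (A → U × V) × (A → Coin M s)) (b : Bool),
      𝔼 e : EC A U V I Y l T, (if decF s (c₀ + μ) (r.1, (fun a => blk f a (r.1 a),
          kap r.2 (fun a => blk f a (r.1 a))))
          (encF s T (kap r.2 (fun a => blk f a (r.1 a))) b e f) = b then (0 : ℝ) else 1) ≤
      (1 - 1 / Fintype.card U) ^ Fintype.card A +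
      ∑ a, (1 / (Fintype.card U : ℝ) * far s c₀ μ (r.2 a (blk f a (r.1 a))).1
          (blk f a (r.1 a)) +
        1 / (Fintype.card U : ℝ) * (l * (3 / 4) ^ (T + 1)) +
        (c₀ + μ) ^ l / Fintype.card Y) := fun f r b =>
    expect_fail s T hμ.le hc r.1 (kap r.2 (fun a => blk f a (r.1 a))) b f
  refine (Finset.expect_le_expect fun f _ => Finset.expect_le_expect fun r _ =>
    Finset.expect_le_expect fun b _ => h5 f r b).trans ?_
  simp only [Fintype.expect_const]
  have h6 : ∀ f : Dm A U V I → Bool, 𝔼 r : (A → U × V) × (A → Coin M s),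
      ((1 - 1 / (Fintype.card U : ℝ)) ^ Fintype.card A +
      ∑ a, (1 / (Fintype.card U : ℝ) * far s c₀ μ (r.2 a (blk f a (r.1 a))).1
          (blk f a (r.1 a)) +
        1 / (Fintype.card U : ℝ) * (l * (3 / 4) ^ (T + 1)) +
        (c₀ + μ) ^ l / Fintype.card Y)) =
      (1 - 1 / (Fintype.card U : ℝ)) ^ Fintype.card A +
      ∑ a, (1 / (Fintype.card U : ℝ) * (𝔼 w : A → U × V, 𝔼 ω : A → Coin M s,
        far s c₀ μ (ω a (blk f a (w a))).1 (blk f a (w a))) +
        1 / (Fintype.card U : ℝ) * (l * (3 / 4) ^ (T + 1)) +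
        (c₀ + μ) ^ l / Fintype.card Y) := by
    intro f
    rw [Finset.expect_add_distrib, Fintype.expect_const, Finset.expect_sum_comm]
    congr 1
    refine Finset.sum_congr rfl fun a _ => ?_
    rw [Finset.expect_add_distrib, Finset.expect_add_distrib, Fintype.expect_const,
      Fintype.expect_const, ← Finset.mul_expect]
    congr 3
    exact expect_prod_type (fun r : (A → U × V) × (A → Coin M s) =>
      far s c₀ μ (r.2 a (blk f a (r.1 a))).1 (blk f a (r.1 a)))
  simp only [h6]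
  rw [Finset.expect_add_distrib, Fintype.expect_const, Finset.expect_sum_comm]
  refine add_le_add le_rfl ?_
  have h7 : ∀ a : A, 𝔼 f : Dm A U V I → Bool,
      (1 / (Fintype.card U : ℝ) * (𝔼 w : A → U × V, 𝔼 ω : A → Coin M s,
        far s c₀ μ (ω a (blk f a (w a))).1 (blk f a (w a))) +
        1 / (Fintype.card U : ℝ) * (l * (3 / 4) ^ (T + 1)) +
        (c₀ + μ) ^ l / Fintype.card Y) ≤
      1 / (Fintype.card U : ℝ) *
        (Fintype.card I / (4 * μ ^ 2) + Real.sqrt η) +
        1 / (Fintype.card U : ℝ) * (l * (3 / 4) ^ (T + 1)) +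
        (c₀ + μ) ^ l / Fintype.card Y := by
    intro a
    rw [Finset.expect_add_distrib, Finset.expect_add_distrib, Fintype.expect_const,
      Fintype.expect_const, ← Finset.mul_expect, Finset.expect_comm]
    refine add_le_add (add_le_add (mul_le_mul_of_nonneg_left ?_ (by positivity)) le_rfl) le_rfl
    exact Finset.expect_le Finset.univ_nonempty fun w _ => expect_far hM hμ s hs w a
  refine (Finset.sum_le_sum fun a _ => h7 a).trans (le_of_eq ?_)
  rw [Finset.sum_const, Finset.card_univ, nsmul_eq_mul]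

end Real

end Pool.Agent.PKE70
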