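import Pool.Agent.PKE70.LB11

/-!
# Lower bound: the biased measure, and ciphertexts that look uniform
-/

set_option autoImplicit false
set_option linter.unusedSectionVars false

open scoped BigOperators

namespace Pool.Agent.PKE70

section Ideal

variable {A U V I Kc Y : Type} [Fintype A] [DecidableEq A] [Fintype U] [DecidableEq U] [Fintype V]
  [DecidableEq V] [Fintype I] [DecidableEq I] [Fintype Kc] [DecidableEq Kc] [Fintype Y]
  [DecidableEq Y] [Nonempty A] [Nonempty U] [Nonempty V] [Nonempty I] [Nonempty Kc] [Nonempty Y]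
  {l : ℕ}

/-- the public key may be taken uniform if the designated blocks are biased -/
theorem real_to_ideal {M : ℕ} (hM : 2 ≤ M) {η : ℝ} (s : Kc → I → Bool)
    (hs : 𝔼 y : I → Bool, Wt (1 / (M : ℝ)) s y ^ 2 ≤ 1 + η) (w : A → U × V)
    (G : (Dm A U V I → Bool) → (A → Kc) → ℝ) (hG0 : ∀ f κ, 0 ≤ G f κ)
    (hG1 : ∀ f κ, G f κ ≤ 1) :
    𝔼 f : Dm A U V I → Bool, 𝔼 ω : A → Coin M s, G f (kap ω (fun a => blk f a (w a))) ≤
      𝔼 κ : A → Kc, 𝔼 f : Dm A U V I → Bool,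
        (∏ a, LamB (1 / (M : ℝ)) (s (κ a)) (blk f a (w a))) * G f κ +
      Real.sqrt ((1 + η) ^ Fintype.card A - 1) := by
  have hβ0 : (0 : ℝ) ≤ 1 / M := by positivity
  have hβ1 : (1 : ℝ) / M ≤ 1 := by
    rw [div_le_one (by positivity)]
    exact_mod_cast (by omega : 1 ≤ M)
  haveI := nonempty_coin hM s
  have h1 : ∀ f : Dm A U V I → Bool, 𝔼 ω : A → Coin M s, G f (kap ω (fun a => blk f a (w a))) ≤
      𝔼 κ : A → Kc, (∏ a, LamB (1 / (M : ℝ)) (s (κ a)) (blk f a (w a))) * G f κ +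
        |1 - ∏ a, Wt (1 / (M : ℝ)) s (blk f a (w a))| := by
    intro f
    set y : A → I → Bool := fun a => blk f a (w a) with hy
    have h2 := expect_coins_pi hM s y (G f)
    have h2' : 𝔼 ω : A → Coin M s, G f (kap ω y) = 𝔼 κ : A → Kc,
        (∏ a, LamB (1 / (M : ℝ)) (s (κ a)) (y a) / Wt (1 / (M : ℝ)) s (y a)) * G f κ := h2
    rw [h2']
    have h3 : 𝔼 κ : A → Kc,
        (∏ a, LamB (1 / (M : ℝ)) (s (κ a)) (y a) / Wt (1 / (M : ℝ)) s (y a)) = 1 := by
      have := expect_coins_pi hM s y (fun _ => 1)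
      rw [Fintype.expect_const] at this
      simp only [mul_one] at this
      exact this.symm
    have h4 : |1 - ∏ a, Wt (1 / (M : ℝ)) s (y a)| = 𝔼 κ : A → Kc,
        (∏ a, LamB (1 / (M : ℝ)) (s (κ a)) (y a) / Wt (1 / (M : ℝ)) s (y a)) *
          |1 - ∏ a, Wt (1 / (M : ℝ)) s (y a)| := by
      rw [← Finset.expect_mul, h3, one_mul]
    rw [h4, ← Finset.expect_add_distrib]
    refine Finset.expect_le_expect fun κ _ => ?_
    have hWa : ∀ a, 0 < Wt (1 / (M : ℝ)) s (y a) := fun a => Wt_pos hM s (y a)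
    have hW : 0 < ∏ a, Wt (1 / (M : ℝ)) s (y a) := Finset.prod_pos fun a _ => hWa a
    have hL : 0 ≤ ∏ a, LamB (1 / (M : ℝ)) (s (κ a)) (y a) :=
      Finset.prod_nonneg fun a _ => LamB_nonneg hβ0 hβ1 _ _
    rw [Finset.prod_div_distrib]
    set L := ∏ a, LamB (1 / (M : ℝ)) (s (κ a)) (y a)
    set W := ∏ a, Wt (1 / (M : ℝ)) s (y a)
    have h5 : L / W * G f κ = L * G f κ + L / W * ((1 - W) * G f κ) := by
      field_simp
      ring
    rw [h5]
    refine add_le_add le_rfl (mul_le_mul_of_nonneg_left ?_ (by positivity))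
    refine (le_abs_self _).trans ?_
    rw [abs_mul, abs_of_nonneg (hG0 f κ)]
    exact mul_le_of_le_one_right (abs_nonneg _) (hG1 f κ)
  refine (Finset.expect_le_expect fun f _ => h1 f).trans ?_
  rw [Finset.expect_add_distrib, Finset.expect_comm]
  refine add_le_add le_rfl ?_
  rw [expect_blocks w (fun y => |1 - ∏ a, Wt (1 / (M : ℝ)) s (y a)|)]
  refine (expect_abs_le fun y : A → I → Bool => 1 - ∏ a, Wt (1 / (M : ℝ)) s (y a)).trans
    (Real.sqrt_le_sqrt ?_)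
  have h6 : ∀ y : A → I → Bool, (1 - ∏ a, Wt (1 / (M : ℝ)) s (y a)) ^ 2 =
      (∏ a, Wt (1 / (M : ℝ)) s (y a) ^ 2) - 2 * (∏ a, Wt (1 / (M : ℝ)) s (y a)) + 1 := by
    intro y
    rw [Finset.prod_pow]; ring
  simp only [h6]
  rw [Finset.expect_add_distrib, Finset.expect_sub_distrib, Fintype.expect_const,
    ← Finset.mul_expect, expect_pi_prod (fun _ y => Wt (1 / (M : ℝ)) s y ^ 2),
    expect_pi_prod (fun _ y => Wt (1 / (M : ℝ)) s y)]
  simp only [expect_Wt, Finset.prod_const_one]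
  have h7 : ∏ _a : A, 𝔼 y : I → Bool, Wt (1 / (M : ℝ)) s y ^ 2 ≤ (1 + η) ^ Fintype.card A := by
    rw [Finset.prod_const, Finset.card_univ]
    refine pow_le_pow_left₀ (Finset.expect_nonneg fun y _ => sq_nonneg _) hs _
  linarith

/-- an entry computed from a block with many agreements is close to uniform -/
theorem entry_close (P : I → Bool) (hP : 0 < cnt P) (u₀ : U) (b : Bool) (T : ℕ)
    (ψ : Hsh U I Y l × (Y × Bool) → ℝ) (hψ0 : ∀ z, 0 ≤ ψ z) (hψ1 : ∀ z, ψ z ≤ 1) :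
    |𝔼 ph : Ph U I Y l T, ψ (entry P u₀ b T ph) - 𝔼 z, ψ z| ≤
      1 / 2 * Real.sqrt (2 * Fintype.card Y * (1 / cnt P) ^ l) := by
  have h1 := leftover (Ωp := Fin l → Fin (T + 1) → I) (𝒳 := U × (Fin l → I)) (R' := Y × Bool)
    (fun p => (u₀, fun j => pick P T (p j))) (cp := (1 / (cnt P : ℝ)) ^ l)
    (by
      intro x
      refine le_trans (Finset.expect_le_expect fun p _ => ?_) (prob_picks_le P hP T l x.2)
      by_cases h : (u₀, fun j => pick P T (p j)) = x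
      · rw [if_pos h, if_pos (by rw [← h])]
      · rw [if_neg h]
        split_ifs <;> norm_num)
    (fun H r => ψ (H, (r.1, xor b r.2))) (fun H r => hψ0 _) (fun H r => hψ1 _)
  have h2 : 𝔼 ph : Ph U I Y l T, ψ (entry P u₀ b T ph) =
      𝔼 H : Hsh U I Y l, 𝔼 p : Fin l → Fin (T + 1) → I,
        ψ (H, ((H (u₀, fun j => pick P T (p j))).1,
          xor b (H (u₀, fun j => pick P T (p j))).2)) := by
    rw [expect_prod_type, Finset.expect_comm]
    rfl
  have h3 : 𝔼 z : Hsh U I Y l × (Y × Bool), ψ z =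
      𝔼 H : Hsh U I Y l, 𝔼 r : Y × Bool, ψ (H, (r.1, xor b r.2)) := by
    rw [expect_prod_type]
    refine Finset.expect_congr rfl fun H _ => ?_
    let e : Y × Bool → Y × Bool := fun r => (r.1, xor b r.2)
    have he : Function.Involutive e := by
      rintro ⟨y, c⟩
      simp [e]
    refine Fintype.expect_equiv (he.toPerm e) _ _ fun r => ?_
    have h4 : (he.toPerm e) r = e r := rfl
    rw [h4]
    simp [e]
  have h5 : (Fintype.card (Y × Bool) : ℝ) = 2 * Fintype.card Y := by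
    rw [Fintype.card_prod, Fintype.card_bool]; push_cast; ring
  rw [h2, h3, ← h5]
  exact h1

/-- distance of an entry from uniform -/
noncomputable def dd (typ δ₁ : ℝ) (P : I → Bool) : ℝ := if typ ≤ cnt P then δ₁ else 1

theorem entry_close' {typ : ℝ} (htyp : 0 < typ) (P : I → Bool) (u₀ : U) (b : Bool) (T : ℕ)
    (ψ : Hsh U I Y l × (Y × Bool) → ℝ) (hψ0 : ∀ z, 0 ≤ ψ z) (hψ1 : ∀ z, ψ z ≤ 1) :
    |𝔼 ph : Ph U I Y l T, ψ (entry P u₀ b T ph) - 𝔼 z, ψ z| ≤
      dd typ (1 / 2 * Real.sqrt (2 * Fintype.card Y * (1 / typ) ^ l)) P := by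
  unfold dd
  split_ifs with h
  · have hP : (0 : ℝ) < cnt P := lt_of_lt_of_le htyp h
    refine (entry_close P (by exact_mod_cast hP) u₀ b T ψ hψ0 hψ1).trans ?_
    gcongr
  · have h1 : 𝔼 ph : Ph U I Y l T, ψ (entry P u₀ b T ph) ≤ 1 :=
      Finset.expect_le Finset.univ_nonempty fun _ _ => hψ1 _
    have h2 : 0 ≤ 𝔼 ph : Ph U I Y l T, ψ (entry P u₀ b T ph) :=
      Finset.expect_nonneg fun _ _ => hψ0 _
    have h3 : 𝔼 z, ψ z ≤ 1 :=
      Finset.expect_le Finset.univ_nonempty fun _ _ => hψ1 _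
    have h4 : 0 ≤ 𝔼 z, ψ z :=
      Finset.expect_nonneg fun _ _ => hψ0 _
    rw [abs_le]
    constructor <;> linarith

/-- for a fixed oracle, ciphertexts are close to uniform if the probed blocks have many
agreements -/
theorem junk_point {typ : ℝ} (htyp : 0 < typ) (s : Kc → I → Bool) (T : ℕ) (κ : A → Kc) (b : Bool)
    (u : A × V → U) (f : Dm A U V I → Bool) (φ : Ct A U V I Y l → ℝ) (hφ0 : ∀ c, 0 ≤ φ c)
    (hφ1 : ∀ c, φ c ≤ 1) :
    𝔼 ph : A × V → Ph U I Y l T, φ (encF s T κ b (u, ph) f) ≤ 𝔼 c : Ct A U V I Y l, φ c +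
      ∑ i, dd typ (1 / 2 * Real.sqrt (2 * Fintype.card Y * (1 / typ) ^ l))
        (agr (s (κ i.1)) (blk f i.1 (u i, i.2))) := by
  have h1 := hybrid (ι := A × V) (Ω := Ph U I Y l T) (Z := Hsh U I Y l × (Y × Bool))
    (fun i ph => entry (agr (s (κ i.1)) (blk f i.1 (u i, i.2))) (u i) b T ph)
    (fun i => dd typ (1 / 2 * Real.sqrt (2 * Fintype.card Y * (1 / typ) ^ l))
        (agr (s (κ i.1)) (blk f i.1 (u i, i.2))))
    (fun i ψ h0 h1 => entry_close' htyp _ (u i) b T ψ h0 h1) φ hφ0 hφ1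
  have h2 := (abs_le.mp h1).2
  have h3 : 𝔼 ph : A × V → Ph U I Y l T, φ (encF s T κ b (u, ph) f) =
      𝔼 ω : A × V → Ph U I Y l T, φ (fun i =>
        entry (agr (s (κ i.1)) (blk f i.1 (u i, i.2))) (u i) b T (ω i)) := rfl
  rw [h3]
  linarith

/-- the classes whose designated block is probed -/
def Hs (w : A → U × V) (u : A × V → U) : Finset A :=
  Finset.univ.filter fun a => u (a, (w a).2) = (w a).1

theorem mem_Hs {w : A → U × V} {u : A × V → U} {a : A} :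
    a ∈ Hs w u ↔ u (a, (w a).2) = (w a).1 := by simp [Hs]

theorem expect_dd {β : ℝ} (s : Kc → I → Bool) {lam δ₁ : ℝ} (hlam : 0 ≤ lam) (hδ : 0 ≤ δ₁)
    (κ : A → Kc) (w : A → U × V) (u : A × V → U) (i : A × V) :
    𝔼 f : Dm A U V I → Bool, Lam β (sg s κ) (SH w (Hs w u)ᶜ) f *
      dd (Fintype.card I / 2 - lam) δ₁ (agr (s (κ i.1)) (blk f i.1 (u i, i.2))) ≤
      δ₁ + Real.exp (-(2 * lam ^ 2 / Fintype.card I)) := by
  have h1 : 𝔼 f : Dm A U V I → Bool, Lam β (sg s κ) (SH w (Hs w u)ᶜ) f *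
      dd (Fintype.card I / 2 - lam) δ₁ (agr (s (κ i.1)) (blk f i.1 (u i, i.2))) =
      𝔼 f : Dm A U V I → Bool,
        dd (Fintype.card I / 2 - lam) δ₁ (agr (s (κ i.1)) (blk f i.1 (u i, i.2))) := by
    have h2 := expect_mul_Lam β (sg s κ) (SH w (Hs w u)ᶜ) (fun f : Dm A U V I → Bool =>
        dd (Fintype.card I / 2 - lam) δ₁ (agr (s (κ i.1)) (blk f i.1 (u i, i.2)))) (by
      intro f f' hff
      have h2 : blk f' i.1 (u i, i.2) = blk f i.1 (u i, i.2) := by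
        funext j
        refine hff _ fun hmem => ?_
        obtain ⟨h3, h4⟩ := mem_SH.mp hmem
        simp only [Finset.mem_compl, mem_Hs] at h3
        simp only at h4
        refine h3 ?_
        rw [← h4]
      simp only [h2])
    rw [← h2]
    exact Finset.expect_congr rfl fun f _ => mul_comm _ _
  rw [h1, expect_block i.1 (u i, i.2)
    (fun y => dd (Fintype.card I / 2 - lam) δ₁ (agr (s (κ i.1)) y))]
  have h5 : ∀ y : I → Bool, dd (Fintype.card I / 2 - lam) δ₁ (agr (s (κ i.1)) y) ≤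
      δ₁ + (if (cnt (agr (s (κ i.1)) y) : ℝ) < Fintype.card I / 2 - lam then (1 : ℝ) else 0) := by
    intro y
    unfold dd
    by_cases h : (Fintype.card I : ℝ) / 2 - lam ≤ cnt (agr (s (κ i.1)) y)
    · rw [if_pos h, if_neg (not_lt.mpr h)]; linarith
    · rw [if_neg h, if_pos (not_le.mp h)]; linarith
  refine (Finset.expect_le_expect fun y _ => h5 y).trans ?_
  rw [Finset.expect_add_distrib, Fintype.expect_const]
  exact add_le_add le_rfl (lower_tail (s (κ i.1)) hlam)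

/-- replace the ciphertext by a uniform one -/
theorem junk_le {β : ℝ} (hβ0 : 0 ≤ β) (hβ1 : β ≤ 1) (s : Kc → I → Bool) (T : ℕ) {lam : ℝ}
    (hlam : 0 ≤ lam)
    (htyp : 0 < (Fintype.card I : ℝ) / 2 - lam) (κ : A → Kc) (w : A → U × V) (b : Bool)
    (u : A × V → U) (φ : (Dm A U V I → Bool) → Ct A U V I Y l → ℝ)
    (hφ0 : ∀ f c, 0 ≤ φ f c) (hφ1 : ∀ f c, φ f c ≤ 1) :
    𝔼 ph : A × V → Ph U I Y l T, 𝔼 f : Dm A U V I → Bool,
      Lam β (sg s κ) (SH w (Hs w u)ᶜ) f * φ f (encF s T κ b (u, ph) f) ≤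
    𝔼 c : Ct A U V I Y l, 𝔼 f : Dm A U V I → Bool,
      Lam β (sg s κ) (SH w (Hs w u)ᶜ) f * φ f c +
    Fintype.card (A × V) * (1 / 2 * Real.sqrt (2 * Fintype.card Y *
      (1 / ((Fintype.card I : ℝ) / 2 - lam)) ^ l) +
        Real.exp (-(2 * lam ^ 2 / Fintype.card I))) := by
  rw [Finset.expect_comm, Finset.expect_comm (f := fun (c : Ct A U V I Y l) f =>
    Lam β (sg s κ) (SH w (Hs w u)ᶜ) f * φ f c)]
  set δ₁ : ℝ := 1 / 2 * Real.sqrt (2 * Fintype.card Y *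
      (1 / ((Fintype.card I : ℝ) / 2 - lam)) ^ l) with hδ₁
  have h1 : ∀ f : Dm A U V I → Bool, 𝔼 ph : A × V → Ph U I Y l T,
      Lam β (sg s κ) (SH w (Hs w u)ᶜ) f * φ f (encF s T κ b (u, ph) f) ≤
      𝔼 c : Ct A U V I Y l, Lam β (sg s κ) (SH w (Hs w u)ᶜ) f * φ f c +
      ∑ i, Lam β (sg s κ) (SH w (Hs w u)ᶜ) f *
        dd (Fintype.card I / 2 - lam) δ₁ (agr (s (κ i.1)) (blk f i.1 (u i, i.2))) := by
    intro f
    rw [← Finset.mul_expect, ← Finset.mul_expect, ← Finset.mul_sum, ← mul_add]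
    exact mul_le_mul_of_nonneg_left (junk_point htyp s T κ b u f (φ f) (hφ0 f) (hφ1 f))
      (Lam_nonneg _ hβ0 hβ1 _ _)
  refine (Finset.expect_le_expect fun f _ => h1 f).trans ?_
  rw [Finset.expect_add_distrib, Finset.expect_sum_comm]
  refine add_le_add le_rfl ?_
  refine (Finset.sum_le_sum fun i _ => expect_dd (β := β) s hlam (by positivity) κ w u i).trans
    (le_of_eq ?_)
  rw [Finset.sum_const, Finset.card_univ, nsmul_eq_mul]

end Ideal

end Pool.Agent.PKE70
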