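import Pool.Agent.PKE70.LB12

/-!
# Lower bound: one key pair
-/

set_option autoImplicit false
set_option linter.unusedSectionVars false

open scoped BigOperators

namespace Pool.Agent.PKE70

section Core

variable {A U V I Kc Y : Type} [Fintype A] [DecidableEq A] [Fintype U] [DecidableEq U] [Fintype V]
  [DecidableEq V] [Fintype I] [DecidableEq I] [Fintype Kc] [DecidableEq Kc] [Fintype Y]
  [DecidableEq Y] [Nonempty A] [Nonempty U] [Nonempty V] [Nonempty I] [Nonempty Kc] [Nonempty Y]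
  {l : ℕ}

theorem ind_le (H : Finset A) {X N₀ Z : ℕ} (hZ : 0 < Z) (Ya : A → ℕ)
    (hX : X ≤ N₀ + ∑ a ∈ H, Ya a) :
    (if Z < X then (1 : ℝ) else 0) ≤ N₀ / Z + ∑ a ∈ H, min 1 ((Ya a : ℝ) / Z) := by
  have hZ' : (0 : ℝ) < Z := by exact_mod_cast hZ
  have hnn : ∀ a ∈ H, 0 ≤ min 1 ((Ya a : ℝ) / Z) := fun a _ => le_min zero_le_one (by positivity)
  by_cases h : Z < X
  · rw [if_pos h]
    by_cases hex : ∃ a ∈ H, (1 : ℝ) ≤ (Ya a : ℝ) / Z
    · obtain ⟨a, ha, ha1⟩ := hex
      have h1 := Finset.single_le_sum hnn ha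
      rw [min_eq_left ha1] at h1
      have h2 : (0 : ℝ) ≤ N₀ / Z := by positivity
      linarith
    · push Not at hex
      have h1 : ∑ a ∈ H, min 1 ((Ya a : ℝ) / Z) = ∑ a ∈ H, (Ya a : ℝ) / Z :=
        Finset.sum_congr rfl fun a ha => min_eq_right (hex a ha).le
      rw [h1, ← Finset.sum_div, ← add_div, le_div_iff₀ hZ', one_mul]
      have h2 : (Z : ℝ) < X := by exact_mod_cast h
      have h3 : (X : ℝ) ≤ N₀ + ∑ a ∈ H, (Ya a : ℝ) := by exact_mod_cast hX
      linarith
  · rw [if_neg h]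
    exact add_nonneg (by positivity) (Finset.sum_nonneg hnn)

theorem core {β : ℝ} (hβ0 : 0 ≤ β) (hβ1 : β ≤ 1) (s : Kc → I → Bool) (T : ℕ) {lam : ℝ}
    (hlam : 0 ≤ lam) (htyp : 0 < (Fintype.card I : ℝ) / 2 - lam)
    (E : (A → Kc) → Ct A U V I Y l → QAlg (Dm A U V I) Bool Bool) (κ : A → Kc)
    (w : A → U × V) (u : A × V → U) {Z : ℕ} (hZ : 0 < Z) :
    𝔼 b : Bool, 𝔼 ph : A × V → Ph U I Y l T, 𝔼 f : Dm A U V I → Bool,
      (∏ a, LamB β (s (κ a)) (blk f a (w a))) *
        (if (E κ (encF s T κ b (u, ph) f)).run f = b then (1 : ℝ) else 0) ≤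
    1 / 2 + Fintype.card (A × V) * (1 / 2 * Real.sqrt (2 * Fintype.card Y *
      (1 / ((Fintype.card I : ℝ) / 2 - lam)) ^ l) +
        Real.exp (-(2 * lam ^ 2 / Fintype.card I))) +
    Real.sqrt ((1 + β ^ 2) ^ Z - 1) + (Hs w u).card * ((l * (T + 1) : ℕ) / Z) +
    ∑ a ∈ Hs w u, (Fintype.card (A × V) * (1 / 2 * Real.sqrt (2 * Fintype.card Y *
      (1 / ((Fintype.card I : ℝ) / 2 - lam)) ^ l) +
        Real.exp (-(2 * lam ^ 2 / Fintype.card I))) +
      𝔼 c : Ct A U V I Y l, 𝔼 f : Dm A U V I → Bool,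
        Lam β (sg s κ) (SH w (Hs w u)ᶜ) f *
          min 1 ((asksIn (Bk a (w a)) f (E κ c) : ℝ) / Z)) := by
  set δ : ℝ := Fintype.card (A × V) * (1 / 2 * Real.sqrt (2 * Fintype.card Y *
      (1 / ((Fintype.card I : ℝ) / 2 - lam)) ^ l) +
        Real.exp (-(2 * lam ^ 2 / Fintype.card I))) with hδ
  set H := Hs w u with hH
  set ρ : (Dm A U V I → Bool) → ℝ := Lam β (sg s κ) (SH w Hᶜ) with hρ
  have hρ0 : ∀ f, 0 ≤ ρ f := fun f => Lam_nonneg _ hβ0 hβ1 _ _
  have hρ1 : 𝔼 f, ρ f = 1 := expect_Lam β (sg s κ) (SH w Hᶜ)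
  have hρS : ∀ f f' : Dm A U V I → Bool, (∀ x, x ∉ SH w H → f' x = f x) → ρ f' = ρ f := by
    intro f f' hff
    refine Lam_congr β _ fun x hx => hff x fun hx' => ?_
    exact (Finset.mem_compl.mp (mem_SH.mp hx).1) (mem_SH.mp hx').1
  -- one bit and one choice of the positions and hash functions
  have step1 : ∀ (b : Bool) (ph : A × V → Ph U I Y l T), 𝔼 f : Dm A U V I → Bool,
      (∏ a, LamB β (s (κ a)) (blk f a (w a))) *
        (if (E κ (encF s T κ b (u, ph) f)).run f = b then (1 : ℝ) else 0) ≤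
      𝔼 f : Dm A U V I → Bool, ρ f *
        (if (E κ (encF s T κ b (u, ph) f)).run f = b then (1 : ℝ) else 0) +
      (H.card * ((l * (T + 1) : ℕ) / Z) + ∑ a ∈ H, 𝔼 f : Dm A U V I → Bool, ρ f *
        min 1 ((asksIn (Bk a (w a)) f (E κ (encF s T κ b (u, ph) f)) : ℝ) / Z)) +
      Real.sqrt ((1 + β ^ 2) ^ Z - 1) := by
    intro b ph
    obtain ⟨Te, hT1, -, hT3⟩ := exists_encT s T κ b (u, ph)
    have h1 := switch_weight β (sg s κ) (SH w H) ρ hρ0 hρS (Te.bind (E κ)) Z
      (fun x => if x = b then (1 : ℝ) else 0) (fun x => by split_ifs <;> norm_num)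
      (fun x => by split_ifs <;> norm_num) hβ0 hβ1
    rw [hρ1, one_mul] at h1
    have hrun : ∀ f, (Te.bind (E κ)).run f = (E κ (encF s T κ b (u, ph) f)).run f := by
      intro f
      rw [QAlg.run_bind, hT1]
    simp only [hrun] at h1
    have h2 : ∀ f : Dm A U V I → Bool, (∏ a, LamB β (s (κ a)) (blk f a (w a))) *
        (if (E κ (encF s T κ b (u, ph) f)).run f = b then (1 : ℝ) else 0) =
        ρ f * (Lam β (sg s κ) (SH w H) f *
          (if (E κ (encF s T κ b (u, ph) f)).run f = b then (1 : ℝ) else 0)) := by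
      intro f
      rw [hρ, Lam_SH, Lam_SH, ← Finset.prod_mul_prod_compl H]
      ring
    simp only [h2]
    refine h1.trans (add_le_add (add_le_add le_rfl ?_) le_rfl)
    have h3 : ∀ f : Dm A U V I → Bool,
        (if Z < asksIn (SH w H) f (Te.bind (E κ)) then (1 : ℝ) else 0) ≤
        H.card * ((l * (T + 1) : ℕ) / Z) + ∑ a ∈ H,
          min 1 ((asksIn (Bk a (w a)) f (E κ (encF s T κ b (u, ph) f)) : ℝ) / Z) := by
      intro f
      refine (ind_le H (N₀ := H.card * (l * (T + 1))) hZ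
        (fun a => asksIn (Bk a (w a)) f (E κ (encF s T κ b (u, ph) f))) ?_).trans
        (le_of_eq ?_)
      · refine (asksIn_biUnion_le H (fun a => Bk a (w a)) f (Te.bind (E κ))).trans ?_
        have h4 : ∀ a, asksIn (Bk a (w a)) f (Te.bind (E κ)) =
            asksIn (Bk a (w a)) f Te +
              asksIn (Bk a (w a)) f (E κ (encF s T κ b (u, ph) f)) := by
          intro a
          rw [asksIn_bind, hT1]
        simp only [h4]
        rw [Finset.sum_add_distrib]
        refine Nat.add_le_add_right ?_ _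
        refine (Finset.sum_le_sum fun a _ => hT3 a (w a) f).trans (le_of_eq ?_)
        rw [Finset.sum_const, smul_eq_mul]
      · push_cast
        ring
    refine (Finset.expect_le_expect fun f _ => mul_le_mul_of_nonneg_left (h3 f) (hρ0 f)).trans
      (le_of_eq ?_)
    simp only [mul_add, Finset.mul_sum]
    rw [Finset.expect_add_distrib, ← Finset.expect_mul, hρ1, one_mul, Finset.expect_sum_comm]
  -- replace the ciphertext
  have step2 : ∀ b : Bool, 𝔼 ph : A × V → Ph U I Y l T, 𝔼 f : Dm A U V I → Bool,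
      (∏ a, LamB β (s (κ a)) (blk f a (w a))) *
        (if (E κ (encF s T κ b (u, ph) f)).run f = b then (1 : ℝ) else 0) ≤
      (𝔼 c : Ct A U V I Y l, 𝔼 f : Dm A U V I → Bool, ρ f *
        (if (E κ c).run f = b then (1 : ℝ) else 0) + δ) +
      (H.card * ((l * (T + 1) : ℕ) / Z) + ∑ a ∈ H, (𝔼 c : Ct A U V I Y l,
        𝔼 f : Dm A U V I → Bool, ρ f *
        min 1 ((asksIn (Bk a (w a)) f (E κ c) : ℝ) / Z) + δ)) +
      Real.sqrt ((1 + β ^ 2) ^ Z - 1) := by
    intro b
    refine (Finset.expect_le_expect fun ph _ => step1 b ph).trans ?_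
    rw [Finset.expect_add_distrib, Finset.expect_add_distrib, Finset.expect_add_distrib,
      Fintype.expect_const, Fintype.expect_const, Finset.expect_sum_comm]
    refine add_le_add (add_le_add ?_ (add_le_add le_rfl (Finset.sum_le_sum fun a _ => ?_))) le_rfl
    · exact junk_le hβ0 hβ1 s T hlam htyp κ w b u
        (fun f c => if (E κ c).run f = b then (1 : ℝ) else 0)
        (fun f c => by split_ifs <;> norm_num) (fun f c => by split_ifs <;> norm_num)
    · exact junk_le hβ0 hβ1 s T hlam htyp κ w b u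
        (fun f c => min 1 ((asksIn (Bk a (w a)) f (E κ c) : ℝ) / Z))
        (fun f c => le_min zero_le_one (by positivity)) (fun f c => min_le_left _ _)
  refine (Finset.expect_le_expect fun b _ => step2 b).trans (le_of_eq ?_)
  have h5 : 𝔼 b : Bool, 𝔼 c : Ct A U V I Y l, 𝔼 f : Dm A U V I → Bool, ρ f *
      (if (E κ c).run f = b then (1 : ℝ) else 0) = 1 / 2 := by
    rw [Finset.expect_comm]
    have h6 : ∀ c : Ct A U V I Y l, 𝔼 b : Bool, 𝔼 f : Dm A U V I → Bool, ρ f *
        (if (E κ c).run f = b then (1 : ℝ) else 0) = 1 / 2 := by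
      intro c
      rw [Finset.expect_comm]
      have h7 : ∀ f : Dm A U V I → Bool, 𝔼 b : Bool, ρ f *
          (if (E κ c).run f = b then (1 : ℝ) else 0) = ρ f * (1 / 2) := by
        intro f
        rw [← Finset.mul_expect, Fintype.expect_eq_sum_div_card]
        cases (E κ c).run f <;> simp
      simp only [h7]
      rw [← Finset.expect_mul, hρ1, one_mul]
    simp only [h6]
    exact Fintype.expect_const _
  rw [Finset.expect_add_distrib, Finset.expect_add_distrib, Finset.expect_add_distrib, h5,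
    Fintype.expect_const, Fintype.expect_const, Fintype.expect_const]
  simp only [add_comm _ δ]
  ring

end Core

end Pool.Agent.PKE70
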