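import Pool.Agent.PKE70.LB13

/-!
# Lower bound: finding designated blocks that look uniform
-/

set_option autoImplicit false
set_option linter.unusedSectionVars false

open scoped BigOperators

namespace Pool.Agent.PKE70

section Hidden

variable {A U V I Kc : Type} [Fintype A] [DecidableEq A] [Fintype U] [DecidableEq U] [Fintype V]
  [DecidableEq V] [Fintype I] [DecidableEq I] [Fintype Kc] [DecidableEq Kc]
  [Nonempty A] [Nonempty U] [Nonempty V] [Nonempty I] [Nonempty Kc]

/-- density of a designated block which is uniform with probability `1 / |U|`, else biased -/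
noncomputable def Lf (β : ℝ) (s : Kc → I → Bool) (κ : A → Kc) (w : A → U × V) (a : A)
    (f : Dm A U V I → Bool) : ℝ :=
  1 / (Fintype.card U : ℝ) +
    (1 - 1 / (Fintype.card U : ℝ)) * LamB β (s (κ a)) (blk f a (w a))

/-- the product over the classes other than `a` -/
noncomputable def Pw (β : ℝ) (s : Kc → I → Bool) (κ : A → Kc) (w : A → U × V) (a : A)
    (f : Dm A U V I → Bool) : ℝ := ∏ a' ∈ Finset.univ.erase a, Lf β s κ w a' f

theorem card_U_pos : (0 : ℝ) < Fintype.card U := by exact_mod_cast Fintype.card_pos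

theorem one_sub_inv_nonneg : (0 : ℝ) ≤ 1 - 1 / (Fintype.card U : ℝ) := by
  have h : (1 : ℝ) ≤ Fintype.card U := by exact_mod_cast Fintype.card_pos (α := U)
  have : 1 / (Fintype.card U : ℝ) ≤ 1 := by
    rw [div_le_one (by linarith)]; exact h
  linarith

theorem Lf_nonneg {β : ℝ} (hβ0 : 0 ≤ β) (hβ1 : β ≤ 1) (s : Kc → I → Bool) (κ : A → Kc)
    (w : A → U × V) (a : A) (f : Dm A U V I → Bool) : 0 ≤ Lf β s κ w a f := by
  unfold Lf
  have h1 := LamB_nonneg hβ0 hβ1 (s (κ a)) (blk f a (w a))
  have h2 := one_sub_inv_nonneg (U := U)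
  have h3 := card_U_pos (U := U)
  positivity

theorem Pw_nonneg {β : ℝ} (hβ0 : 0 ≤ β) (hβ1 : β ≤ 1) (s : Kc → I → Bool) (κ : A → Kc)
    (w : A → U × V) (a : A) (f : Dm A U V I → Bool) : 0 ≤ Pw β s κ w a f :=
  Finset.prod_nonneg fun a' _ => Lf_nonneg hβ0 hβ1 s κ w a' f

theorem expect_prod_Lf (β : ℝ) (s : Kc → I → Bool) (κ : A → Kc) (w : A → U × V)
    (F : Finset A) : 𝔼 f : Dm A U V I → Bool, ∏ a ∈ F, Lf β s κ w a f = 1 := by
  have h1 : ∀ f : Dm A U V I → Bool, ∏ a ∈ F, Lf β s κ w a f =
      ∏ a, (if a ∈ F then (1 / (Fintype.card U : ℝ) +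
        (1 - 1 / (Fintype.card U : ℝ)) * LamB β (s (κ a)) (blk f a (w a))) else 1) := by
    intro f
    rw [Finset.prod_ite_mem, Finset.univ_inter]
    rfl
  simp only [h1]
  rw [expect_blocks_prod w (fun a y => if a ∈ F then (1 / (Fintype.card U : ℝ) +
        (1 - 1 / (Fintype.card U : ℝ)) * LamB β (s (κ a)) y) else 1)]
  refine Finset.prod_eq_one fun a _ => ?_
  by_cases h : a ∈ F
  · simp only [if_pos h]
    rw [Finset.expect_add_distrib, Fintype.expect_const, ← Finset.mul_expect, expect_LamB]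
    ring
  · simp only [if_neg h]
    exact Fintype.expect_const _

theorem expect_Pw (β : ℝ) (s : Kc → I → Bool) (κ : A → Kc) (w : A → U × V) (a : A) :
    𝔼 f : Dm A U V I → Bool, Pw β s κ w a f = 1 := expect_prod_Lf β s κ w _

theorem Pw_update (β : ℝ) (s : Kc → I → Bool) (κ : A → Kc) (w : A → U × V) (a : A) (x : U × V)
    (f : Dm A U V I → Bool) : Pw β s κ (Function.update w a x) a f = Pw β s κ w a f := by
  unfold Pw
  refine Finset.prod_congr rfl fun a' ha' => ?_
  unfold Lf
  rw [Function.update_of_ne (Finset.ne_of_mem_erase ha')]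

theorem Pw_congr (β : ℝ) (s : Kc → I → Bool) (κ : A → Kc) (w : A → U × V) (a : A)
    (f f' : Dm A U V I → Bool) (h : ∀ x, x ∉ Bk a (w a) → f' x = f x) :
    Pw β s κ w a f' = Pw β s κ w a f := by
  unfold Pw
  refine Finset.prod_congr rfl fun a' ha' => ?_
  unfold Lf
  have : blk f' a' (w a') = blk f a' (w a') := by
    funext i
    refine h _ fun hmem => Finset.ne_of_mem_erase ha' ?_
    exact (mem_Bk.mp hmem).1
  rw [this]

/-- averaging over the cells probed by encryption -/
theorem expect_hidden (β : ℝ) (s : Kc → I → Bool) (κ : A → Kc) (w : A → U × V) (a : A)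
    (f : Dm A U V I → Bool) :
    𝔼 u : A × V → U, (if a ∈ Hs w u then Lam β (sg s κ) (SH w (Hs w u)ᶜ) f else 0) =
      1 / (Fintype.card U : ℝ) * Pw β s κ w a f := by
  classical
  let g : A → U → ℝ := fun a' x => if a' = a then (if x = (w a').1 then 1 else 0) else
    (if x = (w a').1 then 1 else LamB β (s (κ a')) (blk f a' (w a')))
  have h1 : ∀ u : A × V → U, (if a ∈ Hs w u then Lam β (sg s κ) (SH w (Hs w u)ᶜ) f else 0) =
      ∏ a', g a' (u (a', (w a').2)) := by
    intro u
    by_cases h : a ∈ Hs w u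
    · rw [if_pos h, Lam_SH]
      have h2 : ∀ a', g a' (u (a', (w a').2)) =
          if a' ∈ (Hs w u)ᶜ then LamB β (s (κ a')) (blk f a' (w a')) else 1 := by
        intro a'
        by_cases ha' : a' = a
        · subst ha'
          simp only [g, if_true]
          rw [if_pos (mem_Hs.mp h), if_neg (by simp [h])]
        · simp only [g, if_neg ha']
          by_cases h3 : u (a', (w a').2) = (w a').1
          · rw [if_pos h3, if_neg (by simp [mem_Hs.mpr h3])]
          · rw [if_neg h3, if_pos (by simpa [mem_Hs] using h3)]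
      simp only [h2]
      rw [Finset.prod_ite_mem, Finset.univ_inter]
    · rw [if_neg h]
      refine (Finset.prod_eq_zero (Finset.mem_univ a) ?_).symm
      simp only [g, if_true]
      exact if_neg fun h' => h (mem_Hs.mpr h')
  simp only [h1]
  rw [expect_cells w (fun x => ∏ a', g a' (x a')), expect_pi_prod g,
    ← Finset.mul_prod_erase Finset.univ _ (Finset.mem_univ a)]
  congr 1
  · simp only [g, if_true]
    rw [Fintype.expect_eq_sum_div_card]
    simp
  · unfold Pw
    refine Finset.prod_congr rfl fun a' ha' => ?_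
    simp only [g, if_neg (Finset.ne_of_mem_erase ha')]
    unfold Lf
    have h4 : ∀ x : U, (if x = (w a').1 then (1 : ℝ) else LamB β (s (κ a')) (blk f a' (w a'))) =
        LamB β (s (κ a')) (blk f a' (w a')) +
          (1 - LamB β (s (κ a')) (blk f a' (w a'))) * (if x = (w a').1 then (1 : ℝ) else 0) := by
      intro x
      split_ifs <;> ring
    simp only [h4]
    rw [Finset.expect_add_distrib, Fintype.expect_const, ← Finset.mul_expect]
    have h5 : 𝔼 x : U, (if x = (w a').1 then (1 : ℝ) else 0) = 1 / Fintype.card U := by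
      rw [Fintype.expect_eq_sum_div_card]
      simp
    rw [h5]
    ring

/-- the points of a class -/
def Cl (a : A) : Finset (Dm A U V I) := Finset.univ.filter fun z => z.1 = a

theorem expect_asks (a : A) (f : Dm A U V I → Bool) {α : Type} (B : QAlg (Dm A U V I) Bool α) :
    𝔼 x : U × V, (asksIn (Bk a x) f B : ℝ) ≤
      (asksIn (Cl a) f B : ℝ) / (Fintype.card U * Fintype.card V) := by
  rw [Fintype.expect_eq_sum_div_card, Fintype.card_prod]
  push_cast
  have h1 := sum_asksIn_le (Finset.univ : Finset (U × V)) (fun x => Bk a x)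
    (fun x _ x' _ hxx' => by
      rw [Finset.disjoint_left]
      intro z hz hz'
      exact hxx' ((mem_Bk.mp hz).2.symm.trans (mem_Bk.mp hz').2)) (Cl a)
    (fun x _ z hz => by simp [Cl, (mem_Bk.mp hz).1]) f B
  have h2 : ∑ x : U × V, (asksIn (Bk a x) f B : ℝ) ≤ asksIn (Cl a) f B := by
    exact_mod_cast h1
  gcongr

variable {β : ℝ} (hβ0 : 0 ≤ β) (hβ1 : β ≤ 1) (s : Kc → I → Bool) (κ : A → Kc)
  (B : QAlg (Dm A U V I) Bool Bool)

include hβ0 hβ1

/-- step C -/
theorem stepC (a : A) {Z cap : ℕ} (hZ : 0 < Z) :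
    𝔼 w : A → U × V, 𝔼 f : Dm A U V I → Bool, Pw β s κ w a f *
      min 1 ((asksIn (Bk a (w a)) f B : ℝ) / Z) ≤
    𝔼 w : A → U × V, 𝔼 f : Dm A U V I → Bool, Pw β s κ w a f *
      (if cap < asksIn (Cl a) f B then (1 : ℝ) else 0) +
    cap / (Z * (Fintype.card U * Fintype.card V)) := by
  have hZ' : (0 : ℝ) < Z := by exact_mod_cast hZ
  have hU := card_U_pos (U := U)
  have hV := card_U_pos (U := V)
  rw [← expect_update a]
  have h1 : ∀ w : A → U × V, 𝔼 x : U × V, 𝔼 f : Dm A U V I → Bool,
      Pw β s κ (Function.update w a x) a f *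
        min 1 ((asksIn (Bk a (Function.update w a x a)) f B : ℝ) / Z) ≤
      𝔼 f : Dm A U V I → Bool, Pw β s κ w a f *
        (if cap < asksIn (Cl a) f B then (1 : ℝ) else 0) +
        cap / (Z * (Fintype.card U * Fintype.card V)) := by
    intro w
    simp only [Pw_update, Function.update_self]
    rw [Finset.expect_comm]
    have h2 : ∀ f : Dm A U V I → Bool, 𝔼 x : U × V, Pw β s κ w a f *
        min 1 ((asksIn (Bk a x) f B : ℝ) / Z) ≤
        Pw β s κ w a f * (if cap < asksIn (Cl a) f B then (1 : ℝ) else 0) +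
        Pw β s κ w a f * (cap / (Z * (Fintype.card U * Fintype.card V))) := by
      intro f
      rw [← Finset.mul_expect, ← mul_add]
      refine mul_le_mul_of_nonneg_left ?_ (Pw_nonneg hβ0 hβ1 s κ w a f)
      by_cases h : cap < asksIn (Cl a) f B
      · rw [if_pos h]
        have h3 : 𝔼 x : U × V, min 1 ((asksIn (Bk a x) f B : ℝ) / Z) ≤ 1 :=
          Finset.expect_le Finset.univ_nonempty fun x _ => min_le_left _ _
        have h4 : (0 : ℝ) ≤ cap / (Z * (Fintype.card U * Fintype.card V)) := by positivity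
        linarith
      · rw [if_neg h, zero_add]
        push Not at h
        have h3 : 𝔼 x : U × V, min 1 ((asksIn (Bk a x) f B : ℝ) / Z) ≤
            (𝔼 x : U × V, (asksIn (Bk a x) f B : ℝ)) / Z := by
          rw [Finset.expect_div]
          exact Finset.expect_le_expect fun x _ => min_le_right _ _
        refine h3.trans ?_
        have h4 := expect_asks a f B
        have h5 : (asksIn (Cl a) f B : ℝ) ≤ cap := by exact_mod_cast h
        calc (𝔼 x : U × V, (asksIn (Bk a x) f B : ℝ)) / Z
            ≤ ((asksIn (Cl a) f B : ℝ) / (Fintype.card U * Fintype.card V)) / Z := by gcongr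
          _ ≤ ((cap : ℝ) / (Fintype.card U * Fintype.card V)) / Z := by gcongr
          _ = cap / (Z * (Fintype.card U * Fintype.card V)) := by
              rw [div_div]; congr 1; ring
    refine (Finset.expect_le_expect fun f _ => h2 f).trans (le_of_eq ?_)
    rw [Finset.expect_add_distrib, ← Finset.expect_mul, expect_Pw, one_mul]
  refine (Finset.expect_le_expect fun w _ => h1 w).trans (le_of_eq ?_)
  rw [Finset.expect_add_distrib, Fintype.expect_const]

/-- step D -/
theorem stepD (a : A) {Z cap : ℕ} (hZ : 0 < Z) :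
    𝔼 w : A → U × V, 𝔼 f : Dm A U V I → Bool, Pw β s κ w a f *
      (if cap < asksIn (Cl a) f B then (1 : ℝ) else 0) ≤
    𝔼 w : A → U × V, 𝔼 f : Dm A U V I → Bool, Pw β s κ w a f *
      (LamB β (s (κ a)) (blk f a (w a)) *
        (if cap < asksIn (Cl a) f B then (1 : ℝ) else 0)) +
    (cap / (Z * (Fintype.card U * Fintype.card V)) + Real.sqrt ((1 + β ^ 2) ^ Z - 1)) := by
  have hZ' : (0 : ℝ) < Z := by exact_mod_cast hZ
  have hU := card_U_pos (U := U)
  have hV := card_U_pos (U := V)
  set B' := trunc (Cl a) cap B with hB'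
  let ψ : Option Bool → ℝ := fun o => o.elim 1 (fun _ => 0)
  have hψ0 : ∀ o, 0 ≤ ψ o := fun o => by cases o <;> simp [ψ]
  have hψ1 : ∀ o, ψ o ≤ 1 := fun o => by cases o <;> simp [ψ]
  have hψ : ∀ f : Dm A U V I → Bool, ψ (B'.run f) =
      if cap < asksIn (Cl a) f B then (1 : ℝ) else 0 := by
    intro f
    rw [hB', run_trunc]
    by_cases h : asksIn (Cl a) f B ≤ cap
    · rw [if_pos h, if_neg (by omega)]
      rfl
    · rw [if_neg h, if_pos (by omega)]
      rfl
  have h1 : ∀ w : A → U × V, 𝔼 f : Dm A U V I → Bool, Pw β s κ w a f *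
      (if cap < asksIn (Cl a) f B then (1 : ℝ) else 0) ≤
      𝔼 f : Dm A U V I → Bool, Pw β s κ w a f *
      (LamB β (s (κ a)) (blk f a (w a)) *
        (if cap < asksIn (Cl a) f B then (1 : ℝ) else 0)) +
      𝔼 f : Dm A U V I → Bool, Pw β s κ w a f *
        ((asksIn (Bk a (w a)) f B' : ℝ) / Z) + Real.sqrt ((1 + β ^ 2) ^ Z - 1) := by
    intro w
    have h2 := switch_weight' β (sg s κ) (Bk a (w a)) (Pw β s κ w a)
      (Pw_nonneg hβ0 hβ1 s κ w a) (fun f f' h => Pw_congr β s κ w a f f' h) B' Z ψ hψ0 hψ1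
      hβ0 hβ1
    rw [expect_Pw, one_mul] at h2
    simp only [hψ, Lam_Bk] at h2
    refine h2.trans (add_le_add (add_le_add le_rfl ?_) le_rfl)
    refine Finset.expect_le_expect fun f _ =>
      mul_le_mul_of_nonneg_left ?_ (Pw_nonneg hβ0 hβ1 s κ w a f)
    split_ifs with h3
    · rw [le_div_iff₀ hZ', one_mul]
      exact_mod_cast h3.le
    · positivity
  refine (Finset.expect_le_expect fun w _ => h1 w).trans ?_
  rw [Finset.expect_add_distrib, Finset.expect_add_distrib, Fintype.expect_const, add_assoc]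
  refine add_le_add le_rfl (add_le_add ?_ le_rfl)
  rw [← expect_update a]
  refine Finset.expect_le Finset.univ_nonempty fun w _ => ?_
  simp only [Pw_update, Function.update_self]
  rw [Finset.expect_comm]
  have h4 : ∀ f : Dm A U V I → Bool, 𝔼 x : U × V, Pw β s κ w a f *
      ((asksIn (Bk a x) f B' : ℝ) / Z) ≤
      Pw β s κ w a f * (cap / (Z * (Fintype.card U * Fintype.card V))) := by
    intro f
    rw [← Finset.mul_expect]
    refine mul_le_mul_of_nonneg_left ?_ (Pw_nonneg hβ0 hβ1 s κ w a f)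
    rw [← Finset.expect_div]
    have h5 := expect_asks a f B'
    have h6 : (asksIn (Cl a) f B' : ℝ) ≤ cap := by
      exact_mod_cast asksIn_trunc (Cl a) cap f B
    calc (𝔼 x : U × V, (asksIn (Bk a x) f B' : ℝ)) / Z
        ≤ ((asksIn (Cl a) f B' : ℝ) / (Fintype.card U * Fintype.card V)) / Z := by gcongr
      _ ≤ ((cap : ℝ) / (Fintype.card U * Fintype.card V)) / Z := by gcongr
      _ = cap / (Z * (Fintype.card U * Fintype.card V)) := by
          rw [div_div]; congr 1; ring
  refine (Finset.expect_le_expect fun f _ => h4 f).trans (le_of_eq ?_)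
  rw [← Finset.expect_mul, expect_Pw, one_mul]

/-- step E: the total number of queries -/
theorem stepE {Q : ℕ} (hB : ∀ f, B.cost f ≤ Q) {Z cap : ℕ} (hZ : 0 < Z) (hcap : 0 < cap) :
    ∑ a, 𝔼 w : A → U × V, 𝔼 f : Dm A U V I → Bool, Pw β s κ w a f *
      (if cap < asksIn (Cl a) f B then (1 : ℝ) else 0) ≤
    Q / cap + Fintype.card A *
      (cap / (Z * (Fintype.card U * Fintype.card V)) + Real.sqrt ((1 + β ^ 2) ^ Z - 1)) := by
  have hcap' : (0 : ℝ) < cap := by exact_mod_cast hcap
  have hp := one_sub_inv_nonneg (U := U)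
  set p : ℝ := 1 / (Fintype.card U : ℝ) with hpdef
  set η : ℝ := cap / (Z * (Fintype.card U * Fintype.card V)) +
    Real.sqrt ((1 + β ^ 2) ^ Z - 1) with hη
  have hη0 : 0 ≤ η := by positivity
  set Ua : A → ℝ := fun a => 𝔼 w : A → U × V, 𝔼 f : Dm A U V I → Bool, Pw β s κ w a f *
      (if cap < asksIn (Cl a) f B then (1 : ℝ) else 0) with hUa
  set Va : A → ℝ := fun a => 𝔼 w : A → U × V, 𝔼 f : Dm A U V I → Bool, Pw β s κ w a f *
      (LamB β (s (κ a)) (blk f a (w a)) *
        (if cap < asksIn (Cl a) f B then (1 : ℝ) else 0)) with hVa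
  have hD : ∀ a, Ua a ≤ Va a + η := fun a => stepD hβ0 hβ1 s κ B a hZ
  have hsum : ∑ a, (p * Ua a + (1 - p) * Va a) ≤ Q / cap := by
    have h1 : ∀ a, p * Ua a + (1 - p) * Va a = 𝔼 w : A → U × V, 𝔼 f : Dm A U V I → Bool,
        (∏ a', Lf β s κ w a' f) * (if cap < asksIn (Cl a) f B then (1 : ℝ) else 0) := by
      intro a
      simp only [hUa, hVa]
      rw [Finset.mul_expect, Finset.mul_expect, ← Finset.expect_add_distrib]
      refine Finset.expect_congr rfl fun w _ => ?_
      rw [Finset.mul_expect, Finset.mul_expect, ← Finset.expect_add_distrib]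
      refine Finset.expect_congr rfl fun f _ => ?_
      rw [← Finset.mul_prod_erase Finset.univ _ (Finset.mem_univ a)]
      unfold Pw
      rw [Lf, ← hpdef]
      ring
    simp only [h1]
    rw [← Finset.expect_sum_comm]
    refine Finset.expect_le Finset.univ_nonempty fun w _ => ?_
    rw [← Finset.expect_sum_comm]
    have h2 : ∀ f : Dm A U V I → Bool, ∑ a, (∏ a', Lf β s κ w a' f) *
        (if cap < asksIn (Cl a) f B then (1 : ℝ) else 0) ≤
        (∏ a', Lf β s κ w a' f) * (Q / cap) := by
      intro f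
      rw [← Finset.mul_sum]
      refine mul_le_mul_of_nonneg_left ?_
        (Finset.prod_nonneg fun a' _ => Lf_nonneg hβ0 hβ1 s κ w a' f)
      have h3 : ∀ a, (if cap < asksIn (Cl a) f B then (1 : ℝ) else 0) ≤
          (asksIn (Cl a) f B : ℝ) / cap := by
        intro a
        split_ifs with h
        · rw [le_div_iff₀ hcap', one_mul]
          exact_mod_cast h.le
        · positivity
      refine (Finset.sum_le_sum fun a _ => h3 a).trans ?_
      rw [← Finset.sum_div]
      have h4 := sum_asksIn_le (Finset.univ : Finset A)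
        (fun a => (Cl a : Finset (Dm A U V I)))
        (fun a _ a' _ haa' => by
          rw [Finset.disjoint_left]
          intro z hz hz'
          refine haa' ?_
          simp only [Cl, Finset.mem_filter, Finset.mem_univ, true_and] at hz hz'
          rw [← hz, ← hz']) Finset.univ (fun a _ => Finset.subset_univ _) f B
      have h5 : ∑ a : A, (asksIn (Cl a) f B : ℝ) ≤ Q := by
        have h6 := h4.trans ((asksIn_le_cost Finset.univ f B).trans (hB f))
        exact_mod_cast h6
      gcongr
    refine (Finset.expect_le_expect fun f _ => h2 f).trans (le_of_eq ?_)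
    rw [← Finset.expect_mul, expect_prod_Lf, one_mul]
  have h7 : ∀ a, Ua a ≤ (p * Ua a + (1 - p) * Va a) + η := by
    intro a
    have h8 := hD a
    have h9 : (1 - p) * (Ua a - Va a) ≤ (1 - p) * η :=
      mul_le_mul_of_nonneg_left (by linarith) hp
    have h10 : p * η ≥ 0 := mul_nonneg (by positivity) hη0
    nlinarith
  refine (Finset.sum_le_sum fun a _ => h7 a).trans ?_
  rw [Finset.sum_add_distrib, Finset.sum_const, Finset.card_univ, nsmul_eq_mul]
  linarith

end Hidden

end Pool.Agent.PKE70
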