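import Pool.Agent.PKE70.LB14

/-!
# Lower bound: security of the scheme
-/

set_option autoImplicit false
set_option linter.unusedSectionVars false

open scoped BigOperators

namespace Pool.Agent.PKE70

section Security

variable {A U V I Kc Y : Type} [Fintype A] [DecidableEq A] [Fintype U] [DecidableEq U] [Fintype V]
  [DecidableEq V] [Fintype I] [DecidableEq I] [Fintype Kc] [DecidableEq Kc] [Fintype Y]
  [DecidableEq Y] [Nonempty A] [Nonempty U] [Nonempty V] [Nonempty I] [Nonempty Kc] [Nonempty Y]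
  {l : ℕ}

theorem hidden_le {β : ℝ} (hβ0 : 0 ≤ β) (hβ1 : β ≤ 1) (s : Kc → I → Bool) (κ : A → Kc)
    (B : QAlg (Dm A U V I) Bool Bool) {Q : ℕ} (hB : ∀ f, B.cost f ≤ Q) {Z cap : ℕ}
    (hZ : 0 < Z) (hcap : 0 < cap) :
    𝔼 w : A → U × V, 𝔼 u : A × V → U, ∑ a ∈ Hs w u, 𝔼 f : Dm A U V I → Bool,
      Lam β (sg s κ) (SH w (Hs w u)ᶜ) f * min 1 ((asksIn (Bk a (w a)) f B : ℝ) / Z) ≤
    1 / (Fintype.card U : ℝ) * ((Q / cap + Fintype.card A *
      (cap / (Z * (Fintype.card U * Fintype.card V)) + Real.sqrt ((1 + β ^ 2) ^ Z - 1))) +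
      Fintype.card A * (cap / (Z * (Fintype.card U * Fintype.card V)))) := by
  have hU := card_U_pos (U := U)
  have h1 : ∀ w : A → U × V, 𝔼 u : A × V → U, ∑ a ∈ Hs w u, 𝔼 f : Dm A U V I → Bool,
      Lam β (sg s κ) (SH w (Hs w u)ᶜ) f * min 1 ((asksIn (Bk a (w a)) f B : ℝ) / Z) =
      ∑ a, 1 / (Fintype.card U : ℝ) * 𝔼 f : Dm A U V I → Bool, Pw β s κ w a f *
        min 1 ((asksIn (Bk a (w a)) f B : ℝ) / Z) := by
    intro w
    have h2 : ∀ u : A × V → U, ∑ a ∈ Hs w u, 𝔼 f : Dm A U V I → Bool,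
        Lam β (sg s κ) (SH w (Hs w u)ᶜ) f * min 1 ((asksIn (Bk a (w a)) f B : ℝ) / Z) =
        ∑ a, 𝔼 f : Dm A U V I → Bool,
          (if a ∈ Hs w u then Lam β (sg s κ) (SH w (Hs w u)ᶜ) f else 0) *
            min 1 ((asksIn (Bk a (w a)) f B : ℝ) / Z) := by
      intro u
      rw [← Finset.sum_filter_add_sum_filter_not Finset.univ (fun a => a ∈ Hs w u)]
      have h3 : ∑ a with a ∉ Hs w u, 𝔼 f : Dm A U V I → Bool,
          (if a ∈ Hs w u then Lam β (sg s κ) (SH w (Hs w u)ᶜ) f else 0) *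
            min 1 ((asksIn (Bk a (w a)) f B : ℝ) / Z) = 0 := by
        refine Finset.sum_eq_zero fun a ha => ?_
        simp only [if_neg (Finset.mem_filter.mp ha).2, zero_mul]
        exact Fintype.expect_const _
      rw [h3, add_zero, Finset.filter_mem_eq_inter, Finset.univ_inter]
      refine Finset.sum_congr rfl fun a ha => ?_
      simp only [if_pos ha]
    simp only [h2]
    rw [Finset.expect_sum_comm]
    refine Finset.sum_congr rfl fun a _ => ?_
    rw [Finset.expect_comm, Finset.mul_expect]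
    refine Finset.expect_congr rfl fun f _ => ?_
    rw [← Finset.expect_mul, expect_hidden, mul_assoc]
  simp only [h1]
  rw [Finset.expect_sum_comm]
  simp only [← Finset.mul_expect]
  rw [← Finset.mul_sum]
  refine mul_le_mul_of_nonneg_left ?_ (by positivity)
  refine (Finset.sum_le_sum fun a _ => stepC hβ0 hβ1 s κ B a (cap := cap) hZ).trans ?_
  rw [Finset.sum_add_distrib, Finset.sum_const, Finset.card_univ, nsmul_eq_mul]
  exact add_le_add (stepE hβ0 hβ1 s κ B hB hZ hcap) le_rfl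

/-- average number of classes probed at the designated block -/
theorem expect_card_Hs (w : A → U × V) :
    𝔼 u : A × V → U, ((Hs w u).card : ℝ) = Fintype.card A * (1 / Fintype.card U) := by
  have h1 : ∀ u : A × V → U, ((Hs w u).card : ℝ) =
      ∑ a, (if u (a, (w a).2) = (w a).1 then (1 : ℝ) else 0) := by
    intro u
    rw [Hs, Finset.card_filter]
    push_cast
    rfl
  simp only [h1]
  rw [Finset.expect_sum_comm]
  simp only [fun a : A => expect_cell (a, (w a).2) (w a).1]
  rw [Finset.sum_const, Finset.card_univ, nsmul_eq_mul]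

theorem reorder {X B' α β : Type} [Fintype X] [Fintype B'] [Fintype α] [Fintype β] (g : X → ℝ)
    (F : B' → α × β → X → ℝ) :
    𝔼 f : X, g f * (𝔼 b : B', 𝔼 e : α × β, F b e f) =
      𝔼 u : α, 𝔼 b : B', 𝔼 p : β, 𝔼 f : X, g f * F b (u, p) f := by
  have h1 : ∀ f : X, g f * (𝔼 b : B', 𝔼 e : α × β, F b e f) =
      𝔼 b : B', 𝔼 u : α, 𝔼 p : β, g f * F b (u, p) f := by
    intro f
    rw [Finset.mul_expect]
    refine Finset.expect_congr rfl fun b _ => ?_
    rw [expect_prod_type, Finset.mul_expect]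
    refine Finset.expect_congr rfl fun u _ => ?_
    rw [Finset.mul_expect]
  simp only [h1]
  rw [Finset.expect_comm, Finset.expect_comm (ι := α)]
  refine Finset.expect_congr rfl fun b _ => ?_
  rw [Finset.expect_comm]
  refine Finset.expect_congr rfl fun u _ => ?_
  rw [Finset.expect_comm]

/-- the error terms of the passage to uniform ciphertexts -/
noncomputable def jd (A V I Y : Type) [Fintype A] [Fintype V] [Fintype I] [Fintype Y] (l : ℕ)
    (lam : ℝ) : ℝ :=
  Fintype.card (A × V) * (1 / 2 * Real.sqrt (2 * Fintype.card Y *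
      (1 / ((Fintype.card I : ℝ) / 2 - lam)) ^ l) + Real.exp (-(2 * lam ^ 2 / Fintype.card I)))

/-- **security of the scheme** -/
theorem adv_le {M : ℕ} (hM : 2 ≤ M) {η : ℝ} (s : Kc → I → Bool)
    (hs : 𝔼 y : I → Bool, Wt (1 / (M : ℝ)) s y ^ 2 ≤ 1 + η) (T : ℕ) (thr : ℝ) {lam : ℝ}
    (hlam : 0 ≤ lam) (htyp : 0 < (Fintype.card I : ℝ) / 2 - lam)
    (E : (A → Kc) → Ct A U V I Y l → QAlg (Dm A U V I) Bool Bool) {Q Z cap : ℕ}
    (hE : ∀ κ c f, (E κ c).cost f ≤ Q) (hZ : 0 < Z) (hcap : 0 < cap) :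
    𝔼 f : Dm A U V I → Bool, (theScheme (A := A) (U := U) (V := V) (Y := Y) M s l T thr).advProb f
      (fun κ c => (E κ c).run f) ≤
    1 / 2 + Real.sqrt ((1 + η) ^ Fintype.card A - 1) + jd A V I Y l lam +
      Real.sqrt ((1 + (1 / (M : ℝ)) ^ 2) ^ Z - 1) +
      Fintype.card A * (1 / Fintype.card U) * ((l * (T + 1) : ℕ) / Z + jd A V I Y l lam) +
      1 / (Fintype.card U : ℝ) * ((Q / cap + Fintype.card A *
      (cap / (Z * (Fintype.card U * Fintype.card V)) +
        Real.sqrt ((1 + (1 / (M : ℝ)) ^ 2) ^ Z - 1))) +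
      Fintype.card A * (cap / (Z * (Fintype.card U * Fintype.card V)))) := by
  have hβ0 : (0 : ℝ) ≤ 1 / M := by positivity
  have hβ1 : (1 : ℝ) / M ≤ 1 := by
    rw [div_le_one (by positivity)]
    exact_mod_cast (by omega : 1 ≤ M)
  have := nonempty_coin hM s
  set β : ℝ := 1 / (M : ℝ) with hβ
  let G : (Dm A U V I → Bool) → (A → Kc) → ℝ := fun f κ => 𝔼 b : Bool, 𝔼 e : EC A U V I Y l T,
    if (E κ (encF s T κ b e f)).run f = b then (1 : ℝ) else 0
  have hG0 : ∀ f κ, 0 ≤ G f κ := fun f κ => Finset.expect_nonneg fun b _ =>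
    Finset.expect_nonneg fun e _ => by split_ifs <;> norm_num
  have hG1 : ∀ f κ, G f κ ≤ 1 := fun f κ => Finset.expect_le Finset.univ_nonempty fun b _ =>
    Finset.expect_le Finset.univ_nonempty fun e _ => by split_ifs <;> norm_num
  have h1 : 𝔼 f : Dm A U V I → Bool,
      (theScheme (A := A) (U := U) (V := V) (Y := Y) M s l T thr).advProb f
        (fun κ c => (E κ c).run f) =
      𝔼 w : A → U × V, 𝔼 f : Dm A U V I → Bool, 𝔼 ω : A → Coin M s,
        G f (kap ω (fun a => blk f a (w a))) := by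
    rw [Finset.expect_comm]
    refine Finset.expect_congr rfl fun f _ => ?_
    unfold Scheme.advProb
    rw [expect_prod_type]
    refine Finset.expect_congr rfl fun w _ => Finset.expect_congr rfl fun ω _ =>
      Finset.expect_congr rfl fun b _ => Finset.expect_congr rfl fun e _ => ?_
    have h3 : ((theScheme (A := A) (U := U) (V := V) (Y := Y) M s l T thr).enc
        ((theScheme (A := A) (U := U) (V := V) (Y := Y) M s l T thr).gen f (w, ω)).1 b e).run f =
        encF s T (kap ω (fun a => blk f a (w a))) b e f :=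
      (exists_encT s T (kap ω (fun a => blk f a (w a))) b e).choose_spec.1 f
    rw [h3]
    rfl
  rw [h1]
  refine (Finset.expect_le_expect fun w _ => real_to_ideal hM s hs w G hG0 hG1).trans ?_
  have h2 : ∀ w : A → U × V, 𝔼 κ : A → Kc, 𝔼 f : Dm A U V I → Bool,
      (∏ a, LamB (1 / (M : ℝ)) (s (κ a)) (blk f a (w a))) * G f κ ≤
      1 / 2 + jd A V I Y l lam + Real.sqrt ((1 + β ^ 2) ^ Z - 1) +
      Fintype.card A * (1 / Fintype.card U) * ((l * (T + 1) : ℕ) / Z + jd A V I Y l lam) +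
      𝔼 κ : A → Kc, 𝔼 c : Ct A U V I Y l, 𝔼 u : A × V → U, ∑ a ∈ Hs w u,
        𝔼 f : Dm A U V I → Bool, Lam β (sg s κ) (SH w (Hs w u)ᶜ) f *
          min 1 ((asksIn (Bk a (w a)) f (E κ c) : ℝ) / Z) := by
    intro w
    have h4 : ∀ κ : A → Kc, 𝔼 f : Dm A U V I → Bool,
        (∏ a, LamB (1 / (M : ℝ)) (s (κ a)) (blk f a (w a))) * G f κ =
        𝔼 u : A × V → U, 𝔼 b : Bool, 𝔼 ph : A × V → Ph U I Y l T, 𝔼 f : Dm A U V I → Bool,
          (∏ a, LamB β (s (κ a)) (blk f a (w a))) *
            (if (E κ (encF s T κ b (u, ph) f)).run f = b then (1 : ℝ) else 0) := by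
      intro κ
      exact reorder (fun f : Dm A U V I → Bool => ∏ a, LamB β (s (κ a)) (blk f a (w a)))
        (fun (b : Bool) (e : EC A U V I Y l T) f =>
          if (E κ (encF s T κ b e f)).run f = b then (1 : ℝ) else 0)
    simp only [h4]
    have h6 : ∀ κ : A → Kc, 𝔼 u : A × V → U, 𝔼 b : Bool, 𝔼 ph : A × V → Ph U I Y l T,
        𝔼 f : Dm A U V I → Bool, (∏ a, LamB β (s (κ a)) (blk f a (w a))) *
            (if (E κ (encF s T κ b (u, ph) f)).run f = b then (1 : ℝ) else 0) ≤
        1 / 2 + jd A V I Y l lam + Real.sqrt ((1 + β ^ 2) ^ Z - 1) +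
        Fintype.card A * (1 / Fintype.card U) * ((l * (T + 1) : ℕ) / Z + jd A V I Y l lam) +
        𝔼 c : Ct A U V I Y l, 𝔼 u : A × V → U, ∑ a ∈ Hs w u,
          𝔼 f : Dm A U V I → Bool, Lam β (sg s κ) (SH w (Hs w u)ᶜ) f *
            min 1 ((asksIn (Bk a (w a)) f (E κ c) : ℝ) / Z) := by
      intro κ
      refine (Finset.expect_le_expect fun u _ =>
        core hβ0 hβ1 s T hlam htyp E κ w u hZ).trans (le_of_eq ?_)
      have h7 : ∀ u : A × V → U, ∑ a ∈ Hs w u, (Fintype.card (A × V) *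
          (1 / 2 * Real.sqrt (2 * Fintype.card Y *
            (1 / ((Fintype.card I : ℝ) / 2 - lam)) ^ l) +
            Real.exp (-(2 * lam ^ 2 / Fintype.card I))) +
          𝔼 c : Ct A U V I Y l, 𝔼 f : Dm A U V I → Bool,
            Lam β (sg s κ) (SH w (Hs w u)ᶜ) f *
              min 1 ((asksIn (Bk a (w a)) f (E κ c) : ℝ) / Z)) =
          (Hs w u).card * jd A V I Y l lam +
          𝔼 c : Ct A U V I Y l, ∑ a ∈ Hs w u, 𝔼 f : Dm A U V I → Bool,
            Lam β (sg s κ) (SH w (Hs w u)ᶜ) f *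
              min 1 ((asksIn (Bk a (w a)) f (E κ c) : ℝ) / Z) := by
        intro u
        rw [Finset.sum_add_distrib, Finset.sum_const, nsmul_eq_mul, Finset.expect_sum_comm]
        rfl
      simp only [h7]
      rw [Finset.expect_add_distrib, Finset.expect_add_distrib, Finset.expect_add_distrib,
        Finset.expect_add_distrib, Finset.expect_add_distrib,
        Fintype.expect_const, Fintype.expect_const, Fintype.expect_const,
        ← Finset.expect_mul, ← Finset.expect_mul, expect_card_Hs, Finset.expect_comm (ι := A × V → U)]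
      unfold jd
      ring
    refine (Finset.expect_le_expect fun κ _ => h6 κ).trans (le_of_eq ?_)
    rw [Finset.expect_add_distrib, Fintype.expect_const]
  refine (Finset.expect_le_expect fun w _ => add_le_add (h2 w) le_rfl).trans ?_
  rw [Finset.expect_add_distrib, Finset.expect_add_distrib, Fintype.expect_const,
    Fintype.expect_const, Finset.expect_comm]
  have h8 : ∀ κ : A → Kc, 𝔼 w : A → U × V, 𝔼 c : Ct A U V I Y l, 𝔼 u : A × V → U,
      ∑ a ∈ Hs w u, 𝔼 f : Dm A U V I → Bool, Lam β (sg s κ) (SH w (Hs w u)ᶜ) f *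
          min 1 ((asksIn (Bk a (w a)) f (E κ c) : ℝ) / Z) ≤
      1 / (Fintype.card U : ℝ) * ((Q / cap + Fintype.card A *
      (cap / (Z * (Fintype.card U * Fintype.card V)) + Real.sqrt ((1 + β ^ 2) ^ Z - 1))) +
      Fintype.card A * (cap / (Z * (Fintype.card U * Fintype.card V)))) := by
    intro κ
    rw [Finset.expect_comm]
    exact Finset.expect_le Finset.univ_nonempty fun c _ =>
      hidden_le hβ0 hβ1 s κ (E κ c) (fun f => hE κ c f) hZ hcap
  have h9 := Finset.expect_le (s := Finset.univ) Finset.univ_nonempty fun (κ : A → Kc) _ => h8 κ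
  linarith

end Security

end Pool.Agent.PKE70
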