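import Pool.Agent.PKE70.LB15

/-!
# Lower bound: numerical lemmas for the choice of the parameters
-/

set_option autoImplicit false
set_option linter.unusedSectionVars false

open scoped BigOperators

namespace Pool.Agent.PKE70

section Numbers

theorem one_add_pow_le_exp {x : ℝ} (hx : 0 ≤ x) (n : ℕ) : (1 + x) ^ n ≤ Real.exp (n * x) := by
  rw [Real.exp_nat_mul]
  refine pow_le_pow_left₀ (by linarith) ?_ n
  have := Real.add_one_le_exp x
  linarith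

theorem one_add_pow_sub_le {x : ℝ} (hx : 0 ≤ x) (n : ℕ) (h1 : n * x ≤ 1) :
    (1 + x) ^ n - 1 ≤ 2 * (n * x) := by
  have h2 := one_add_pow_le_exp hx n
  have h3 : 0 ≤ n * x := by positivity
  have h4 := Real.abs_exp_sub_one_le (x := n * x) (by rw [abs_of_nonneg h3]; exact h1)
  rw [abs_of_nonneg h3] at h4
  have h5 := (abs_le.mp h4).2
  linarith

theorem num_D1 {τ : ℕ} (r : ℕ) (hτ : 1 ≤ τ) :
    (1 - 1 / (τ : ℝ)) ^ (r * τ) ≤ Real.exp (-(r : ℝ)) := by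
  have hτ' : (0 : ℝ) < τ := by exact_mod_cast hτ
  have h0 : 0 ≤ 1 - 1 / (τ : ℝ) := by
    have : 1 / (τ : ℝ) ≤ 1 := by rw [div_le_one hτ']; exact_mod_cast hτ
    linarith
  have h1 : 1 - 1 / (τ : ℝ) ≤ Real.exp (-(1 / (τ : ℝ))) := by
    have := Real.add_one_le_exp (-(1 / (τ : ℝ))); linarith
  calc (1 - 1 / (τ : ℝ)) ^ (r * τ) ≤ Real.exp (-(1 / (τ : ℝ))) ^ (r * τ) :=
        pow_le_pow_left₀ h0 h1 _
    _ = Real.exp (-(r : ℝ)) := by
        rw [← Real.exp_nat_mul]; congr 1; push_cast; field_simp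

theorem M_facts {g a N : ℕ} (hg : 1 ≤ g) (hN : 20 * (g + a) ≤ N) :
    2 ≤ N / (4 * (g + a)) ∧
      4 * ((g : ℝ) + a) / N ≤ 1 / ((N / (4 * (g + a)) : ℕ) : ℝ) ∧
      1 / ((N / (4 * (g + a)) : ℕ) : ℝ) ≤ 8 * ((g : ℝ) + a) / N := by
  set D := 4 * (g + a) with hD
  set M := N / D with hM
  have hDpos : 0 < D := by omega
  have hNpos : 0 < N := by omega
  have h1 : D * M ≤ N := Nat.mul_div_le N D
  have h2 : N < D * (M + 1) := by
    have := Nat.lt_mul_div_succ N hDpos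
    exact this
  have hM5 : 5 ≤ M := by
    rw [hM, Nat.le_div_iff_mul_le hDpos]
    omega
  have hNr : (0 : ℝ) < N := by exact_mod_cast hNpos
  have hMr : (0 : ℝ) < M := by
    have : 0 < M := by omega
    exact_mod_cast this
  refine ⟨by omega, ?_, ?_⟩
  · rw [div_le_div_iff₀ hNr hMr, one_mul]
    have h3 : ((D * M : ℕ) : ℝ) ≤ N := by exact_mod_cast h1
    rw [hD] at h3
    push_cast at h3
    linarith
  · rw [div_le_div_iff₀ hMr hNr, one_mul]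
    have h3 : N ≤ 2 * (D * M) := by nlinarith
    have h4 : (N : ℝ) ≤ 2 * (D * M) := by exact_mod_cast h3
    rw [hD] at h4
    push_cast at h4
    linarith

theorem thr_facts {g a N β : ℝ} (hg : 1 ≤ g) (ha : 0 ≤ a) (hN : 20 * (g + a) ≤ N)
    (hβ1 : 4 * (g + a) / N ≤ β) (hβ2 : β ≤ 8 * (g + a) / N) :
    N ^ 2 / 4 ≤ N ^ 2 * ((1 - β) / 2) - a * N ∧
    N ^ 2 * ((1 - β) / 2) + a * N ≤ (N ^ 2 / 2 - g * N) * Real.exp (-(2 * g / N)) ∧
    0 < N ^ 2 / 2 - g * N ∧ 1 / (N ^ 2 / 2 - g * N) ≤ Real.exp (-(2 * g / N)) := by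
  have hNpos : 0 < N := by linarith
  have h1 : 4 * (g + a) ≤ β * N := by rwa [div_le_iff₀ hNpos] at hβ1
  have h2 : β * N ≤ 8 * (g + a) := by rwa [le_div_iff₀ hNpos] at hβ2
  have hA : N ^ 2 / 4 ≤ N ^ 2 * ((1 - β) / 2) - a * N := by
    have : N ^ 2 * ((1 - β) / 2) - a * N - N ^ 2 / 4 =
        N * (N / 4 - β * N / 2 - a) := by ring
    have h3 : 0 ≤ N * (N / 4 - β * N / 2 - a) := by
      refine mul_nonneg hNpos.le ?_
      linarith
    linarith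
  have hpos : 0 < N ^ 2 / 2 - g * N := by
    have : N ^ 2 / 2 - g * N = N * (N / 2 - g) := by ring
    rw [this]
    refine mul_pos hNpos ?_
    linarith
  have hexp : 1 - 2 * g / N ≤ Real.exp (-(2 * g / N)) := by
    have := Real.add_one_le_exp (-(2 * g / N)); linarith
  have hB : N ^ 2 * ((1 - β) / 2) + a * N ≤ (N ^ 2 / 2 - g * N) * Real.exp (-(2 * g / N)) := by
    refine le_trans ?_ (mul_le_mul_of_nonneg_left hexp hpos.le)
    have h3 : (N ^ 2 / 2 - g * N) * (1 - 2 * g / N) = N ^ 2 / 2 - 2 * g * N + 2 * g ^ 2 := by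
      field_simp
      ring
    rw [h3]
    have h4 : N ^ 2 * ((1 - β) / 2) + a * N = N ^ 2 / 2 - N * (β * N / 2 - a) := by ring
    rw [h4]
    have h5 : N * (2 * g) ≤ N * (β * N / 2 - a) := by
      refine mul_le_mul_of_nonneg_left ?_ hNpos.le
      linarith
    nlinarith [sq_nonneg g]
  refine ⟨hA, hB, hpos, ?_⟩
  rw [div_le_iff₀ hpos, mul_comm]
  refine le_trans ?_ hB
  have h6 : (20 : ℝ) ≤ N := by nlinarith
  have h7 : 0 ≤ a * N := mul_nonneg ha hNpos.le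
  nlinarith

/-- the mixture over the code is close to uniform -/
theorem eta_le {g a N M : ℕ} (hg : 1 ≤ g) (hN : 0 < N)
    (hM : 1 / (M : ℝ) ≤ 8 * ((g : ℝ) + a) / N) :
    (1 + (1 / (M : ℝ)) ^ 2) ^ (N ^ 2) /
      ((2 ^ ((128 * (1 + a) ^ 2 + 8) * g ^ 2) : ℕ) : ℝ) ≤ Real.exp (-(4 * (g : ℝ) ^ 2)) := by
  have hNr : (0 : ℝ) < N := by exact_mod_cast hN
  have hgr : (1 : ℝ) ≤ g := by exact_mod_cast hg
  have har : (0 : ℝ) ≤ a := Nat.cast_nonneg a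
  have h1 : (1 + (1 / (M : ℝ)) ^ 2) ^ (N ^ 2) ≤
      Real.exp (64 * (1 + (a : ℝ)) ^ 2 * g ^ 2) := by
    refine (one_add_pow_le_exp (sq_nonneg _) _).trans (Real.exp_le_exp.mpr ?_)
    push_cast
    have h2 : (1 / (M : ℝ)) ^ 2 ≤ (8 * ((g : ℝ) + a) / N) ^ 2 :=
      pow_le_pow_left₀ (by positivity) hM 2
    calc (N : ℝ) ^ 2 * (1 / (M : ℝ)) ^ 2 ≤ (N : ℝ) ^ 2 * (8 * ((g : ℝ) + a) / N) ^ 2 :=
          mul_le_mul_of_nonneg_left h2 (by positivity)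
      _ = (8 * ((g : ℝ) + a)) ^ 2 := by field_simp
      _ ≤ (8 * ((1 + (a : ℝ)) * g)) ^ 2 := by
          refine pow_le_pow_left₀ (by positivity) ?_ 2
          nlinarith
      _ = 64 * (1 + (a : ℝ)) ^ 2 * g ^ 2 := by ring
  have h3 : Real.exp (64 * (1 + (a : ℝ)) ^ 2 * g ^ 2 + 4 * (g : ℝ) ^ 2) ≤
      ((2 ^ ((128 * (1 + a) ^ 2 + 8) * g ^ 2) : ℕ) : ℝ) := by
    push_cast
    rw [← Real.exp_log (show (0 : ℝ) < 2 by norm_num), ← Real.exp_nat_mul]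
    refine Real.exp_le_exp.mpr ?_
    have hlog : (1 : ℝ) / 2 ≤ Real.log 2 := by
      have := Real.log_two_gt_d9; linarith
    push_cast
    have h4 : (0 : ℝ) ≤ (128 * (1 + (a : ℝ)) ^ 2 + 8) * g ^ 2 := by positivity
    nlinarith
  rw [div_le_iff₀ (by positivity)]
  refine h1.trans ?_
  have h5 : Real.exp (64 * (1 + (a : ℝ)) ^ 2 * g ^ 2) = Real.exp (-(4 * (g : ℝ) ^ 2)) *
      Real.exp (64 * (1 + (a : ℝ)) ^ 2 * g ^ 2 + 4 * (g : ℝ) ^ 2) := by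
    rw [← Real.exp_add]; congr 1; ring
  rw [h5]
  exact mul_le_mul_of_nonneg_left h3 (Real.exp_pos _).le

theorem three_quarters_pow (g : ℕ) (hg : 1 ≤ g) :
    (3 / 4 : ℝ) ^ (8 * g ^ 2 - 1 + 1) ≤ Real.exp (-(2 * (g : ℝ) ^ 2)) := by
  have h1 : 8 * g ^ 2 - 1 + 1 = 8 * g ^ 2 := by
    have : 1 ≤ g ^ 2 := Nat.one_le_pow _ _ hg
    omega
  rw [h1]
  have h2 : (3 / 4 : ℝ) ≤ Real.exp (-(1 / 4)) := by
    have := Real.add_one_le_exp (-(1 / 4 : ℝ)); linarith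
  calc (3 / 4 : ℝ) ^ (8 * g ^ 2) ≤ Real.exp (-(1 / 4)) ^ (8 * g ^ 2) :=
        pow_le_pow_left₀ (by norm_num) h2 _
    _ = Real.exp (-(2 * (g : ℝ) ^ 2)) := by
        rw [← Real.exp_nat_mul]; congr 1; push_cast; ring

/-- floors -/
theorem div_facts {X D : ℕ} (hD : 0 < D) (hX : D ≤ X) :
    1 ≤ X / D ∧ ((X / D : ℕ) : ℝ) ≤ (X : ℝ) / D ∧ (X : ℝ) / (2 * D) ≤ ((X / D : ℕ) : ℝ) := by
  have h0 : 1 ≤ X / D := by rwa [Nat.one_le_div_iff hD]
  have hDr : (0 : ℝ) < D := by exact_mod_cast hD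
  refine ⟨h0, ?_, ?_⟩
  · exact Nat.cast_div_le
  · have h1 : X < D * (X / D + 1) := Nat.lt_mul_div_succ X hD
    have h2 : X ≤ D * (2 * (X / D)) := by
      refine h1.le.trans (Nat.mul_le_mul_left D ?_)
      omega
    have h3 : (X : ℝ) ≤ D * (2 * ((X / D : ℕ) : ℝ)) := by exact_mod_cast h2
    rw [div_le_iff₀ (by positivity)]
    linarith

end Numbers

end Pool.Agent.PKE70
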