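import Pool.Agent.PKE70.LB16

/-!
# Lower bound: the scheme with its parameters
-/

set_option autoImplicit false
set_option linter.unusedSectionVars false

open scoped BigOperators

namespace Pool.Agent.PKE70

section Numbers2

theorem num_J {ε X t tm y typ thr z : ℝ} {l : ℕ} (hε : 0 < ε) (hε1 : ε ≤ 1) (hX : 1 ≤ X)
    (ht1 : 1 ≤ t) (htX : t ≤ X) (htm0 : 0 ≤ tm) (htm : tm ≤ X) (hthr : 0 ≤ thr)
    (htyp : 0 < typ) (h1 : thr ≤ typ * z) (h2 : 1 / typ ≤ z)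
    (hzl : z ^ l = (X ^ 8)⁻¹) (hy : y ≤ 8 * t * thr ^ l / ε + 2) :
    tm * (1 / 2 * Real.sqrt (2 * y * (1 / typ) ^ l) + (X ^ 2)⁻¹) ≤ 4 / (ε * X) := by
  have hX0 : 0 < X := by linarith
  have hinv : (1 / typ) ^ l ≤ (X ^ 8)⁻¹ := by
    rw [← hzl]
    exact pow_le_pow_left₀ (by positivity) h2 l
  have hinv0 : 0 ≤ (1 / typ) ^ l := by positivity
  have hratio : thr ^ l * (1 / typ) ^ l ≤ (X ^ 8)⁻¹ := by
    rw [← mul_pow, ← hzl]
    refine pow_le_pow_left₀ (by positivity) ?_ l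
    rw [mul_one_div, div_le_iff₀ htyp, mul_comm]
    exact h1
  have h3 : 2 * y * (1 / typ) ^ l ≤ (20 * t / ε) * (X ^ 8)⁻¹ := by
    calc 2 * y * (1 / typ) ^ l ≤ 2 * (8 * t * thr ^ l / ε + 2) * (1 / typ) ^ l := by
          refine mul_le_mul_of_nonneg_right ?_ hinv0
          linarith
      _ = (16 * t / ε) * (thr ^ l * (1 / typ) ^ l) + 4 * (1 / typ) ^ l := by ring
      _ ≤ (16 * t / ε) * (X ^ 8)⁻¹ + 4 * (X ^ 8)⁻¹ := by
          refine add_le_add (mul_le_mul_of_nonneg_left hratio (by positivity)) ?_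
          linarith
      _ = (16 * t / ε + 4) * (X ^ 8)⁻¹ := by ring
      _ ≤ (20 * t / ε) * (X ^ 8)⁻¹ := by
          refine mul_le_mul_of_nonneg_right ?_ (by positivity)
          have h4 : 4 ≤ 4 * t / ε := by
            rw [le_div_iff₀ hε]; nlinarith
          have h5 : 20 * t / ε = 16 * t / ε + 4 * t / ε := by ring
          linarith
  have h6 : (20 * t / ε) * (X ^ 8)⁻¹ ≤ (5 / ε * (X ^ 3)⁻¹) ^ 2 := by
    calc (20 * t / ε) * (X ^ 8)⁻¹ ≤ (20 * X / ε) * (X ^ 8)⁻¹ := by gcongr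
      _ = (20 / ε) * (X ^ 7)⁻¹ := by field_simp
      _ ≤ (25 / ε ^ 2) * (X ^ 6)⁻¹ := by
          have h7 : 20 / ε ≤ 25 / ε ^ 2 := by
            rw [div_le_div_iff₀ hε (by positivity)]
            nlinarith
          have h8 : (X ^ 7)⁻¹ ≤ (X ^ 6)⁻¹ := by
            refine inv_anti₀ (by positivity) ?_
            exact pow_le_pow_right₀ hX (by norm_num)
          exact mul_le_mul h7 h8 (by positivity) (by positivity)
      _ = (5 / ε * (X ^ 3)⁻¹) ^ 2 := by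
          rw [mul_pow, div_pow, inv_pow]
          norm_num
          left
          ring
  have h9 : Real.sqrt (2 * y * (1 / typ) ^ l) ≤ 5 / ε * (X ^ 3)⁻¹ :=
    Real.sqrt_le_iff.mpr ⟨by positivity, h3.trans h6⟩
  calc tm * (1 / 2 * Real.sqrt (2 * y * (1 / typ) ^ l) + (X ^ 2)⁻¹)
      ≤ X * (1 / 2 * (5 / ε * (X ^ 3)⁻¹) + (X ^ 2)⁻¹) := by
        refine mul_le_mul htm ?_ (by positivity) hX0.le
        linarith
    _ = (5 / (2 * ε)) * (X ^ 2)⁻¹ + X⁻¹ := by field_simp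
    _ ≤ (5 / (2 * ε)) * X⁻¹ + 1 / ε * X⁻¹ := by
        have h10 : (X ^ 2)⁻¹ ≤ X⁻¹ := by
          refine inv_anti₀ hX0 ?_
          nlinarith
        have h11 : 1 ≤ 1 / ε := by rw [le_div_iff₀ hε]; linarith
        have h12 : 0 < X⁻¹ := by positivity
        refine add_le_add (mul_le_mul_of_nonneg_left h10 (by positivity)) ?_
        nlinarith
    _ = (7 / 2) / (ε * X) := by field_simp; ring
    _ ≤ 4 / (ε * X) := by
        gcongr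
        norm_num

theorem num_S1 {ε X η : ℝ} {t r : ℕ} (hε : 0 < ε) (hε1 : ε ≤ 1) (hX : 1 ≤ X)
    (htX : (t : ℝ) ≤ X) (hη0 : 0 ≤ η) (hη : η ≤ (X ^ 4)⁻¹)
    (hX2 : 64 * (1 + (r : ℝ)) / ε ^ 2 ≤ X) :
    Real.sqrt ((1 + η) ^ t - 1) ≤ ε / 16 := by
  have hX0 : 0 < X := by linarith
  have h1 : (t : ℝ) * η ≤ (X ^ 3)⁻¹ := by
    calc (t : ℝ) * η ≤ X * (X ^ 4)⁻¹ := mul_le_mul htX hη hη0 hX0.le
      _ = (X ^ 3)⁻¹ := by field_simp
  have h2 : (X ^ 3)⁻¹ ≤ 1 := inv_le_one_of_one_le₀ (one_le_pow₀ hX)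
  have h3 := one_add_pow_sub_le hη0 t (h1.trans h2)
  have hε2 : 0 < ε ^ 2 := by positivity
  have hr : (0 : ℝ) ≤ r := Nat.cast_nonneg r
  have h4 : 64 ≤ ε ^ 2 * X := by
    rw [div_le_iff₀ hε2] at hX2
    nlinarith
  have h5 : (X ^ 3)⁻¹ ≤ X⁻¹ * (X⁻¹) := by
    rw [← mul_inv]
    refine inv_anti₀ (by positivity) ?_
    nlinarith
  have h6 : X⁻¹ ≤ ε ^ 2 / 64 := by
    rw [inv_le_iff_one_le_mul₀ hX0]
    linarith
  refine Real.sqrt_le_iff.mpr ⟨by positivity, ?_⟩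
  have h7 : 0 < X⁻¹ := by positivity
  have h8 : X⁻¹ * X⁻¹ ≤ ε ^ 2 / 64 * (ε ^ 2 / 64) := mul_le_mul h6 h6 h7.le (by positivity)
  have h9 : ε ^ 2 / 64 * (ε ^ 2 / 64) ≤ ε ^ 2 / 64 * (1 / 64) := by
    refine mul_le_mul_of_nonneg_left ?_ (by positivity)
    nlinarith
  have h10 : (ε / 16) ^ 2 = ε ^ 2 / 256 := by ring
  rw [h10]
  nlinarith

theorem num_sq {ε N β : ℝ} {g a cZ r Z : ℕ} (hε : 0 < ε) (hε1 : ε ≤ 1) (hg : 1 ≤ g)
    (hN : 0 < N) (hβ0 : 0 ≤ β) (hβ : β ≤ 8 * ((g : ℝ) + a) / N)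
    (hcZ : 128 * (1 + (a : ℝ)) ^ 2 * (16 * (1 + (r : ℝ)) / ε) ^ 2 ≤ cZ)
    (hZ : (Z : ℝ) ≤ N ^ 2 / (cZ * g ^ 2)) :
    (1 + (r : ℝ)) * Real.sqrt ((1 + β ^ 2) ^ Z - 1) ≤ ε / 16 := by
  have hgr : (1 : ℝ) ≤ g := by exact_mod_cast hg
  have har : (0 : ℝ) ≤ a := Nat.cast_nonneg a
  have hrr : (0 : ℝ) ≤ r := Nat.cast_nonneg r
  have hcZpos : (0 : ℝ) < cZ := by
    refine lt_of_lt_of_le ?_ hcZ
    positivity
  have h1 : (Z : ℝ) * β ^ 2 ≤ 64 * (1 + (a : ℝ)) ^ 2 / cZ := by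
    calc (Z : ℝ) * β ^ 2 ≤ N ^ 2 / (cZ * g ^ 2) * (8 * ((g : ℝ) + a) / N) ^ 2 :=
          mul_le_mul hZ (pow_le_pow_left₀ hβ0 hβ 2) (by positivity) (by positivity)
      _ = 64 * ((g : ℝ) + a) ^ 2 / (cZ * g ^ 2) := by field_simp; ring
      _ ≤ 64 * ((1 + (a : ℝ)) * g) ^ 2 / (cZ * g ^ 2) := by
          gcongr
          nlinarith
      _ = 64 * (1 + (a : ℝ)) ^ 2 / cZ := by field_simp
  have h2 : 64 * (1 + (a : ℝ)) ^ 2 / cZ ≤ 1 / 2 * (ε / (16 * (1 + (r : ℝ)))) ^ 2 := by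
    rw [div_le_iff₀ hcZpos]
    have h3 : 1 / 2 * (ε / (16 * (1 + (r : ℝ)))) ^ 2 *
        (128 * (1 + (a : ℝ)) ^ 2 * (16 * (1 + (r : ℝ)) / ε) ^ 2) = 64 * (1 + (a : ℝ)) ^ 2 := by
      field_simp
      ring
    rw [← h3]
    exact mul_le_mul_of_nonneg_left hcZ (by positivity)
  have h4 : (ε / (16 * (1 + (r : ℝ)))) ≤ 1 := by
    rw [div_le_one (by positivity)]
    linarith
  have h5 : (Z : ℝ) * β ^ 2 ≤ 1 := by
    have h6 : (ε / (16 * (1 + (r : ℝ)))) ^ 2 ≤ 1 := pow_le_one₀ (by positivity) h4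
    linarith
  have h7 := one_add_pow_sub_le (sq_nonneg β) Z h5
  have h8 : Real.sqrt ((1 + β ^ 2) ^ Z - 1) ≤ ε / (16 * (1 + (r : ℝ))) :=
    Real.sqrt_le_iff.mpr ⟨by positivity, by linarith⟩
  calc (1 + (r : ℝ)) * Real.sqrt ((1 + β ^ 2) ^ Z - 1)
      ≤ (1 + (r : ℝ)) * (ε / (16 * (1 + (r : ℝ)))) :=
        mul_le_mul_of_nonneg_left h8 (by positivity)
    _ = ε / 16 := by field_simp

end Numbers2

end Pool.Agent.PKE70
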