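import Pool.Agent.PKE70.LB17

/-!
# Lower bound: the scheme with its parameters
-/

set_option autoImplicit false
set_option linter.unusedSectionVars false

open scoped BigOperators

namespace Pool.Agent.PKE70

/-- There is a scheme relative to a random oracle with values in `Bool` whose three algorithms make
at most `q` queries, with at most `K` public keys, which decrypts correctly with probability
`1 - ε` and which no adversary with at most `Q` queries breaks with advantage more than `ε`. -/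
def HasScheme (q K : ℕ) (ε Q : ℝ) : Prop :=
  ∃ (D PK SK C ΩG ΩE : Type) (_ : Fintype D) (_ : DecidableEq D) (_ : Fintype PK)
    (_ : Nonempty PK) (_ : Fintype SK) (_ : Nonempty SK)
    (_ : Fintype ΩG) (_ : Nonempty ΩG) (_ : Fintype ΩE) (_ : Nonempty ΩE)
    (S : Scheme D Bool PK SK C ΩG ΩE Unit) (G : ΩG → QAlg D Bool (PK × SK)),
    S.QueryBound q ∧ (∀ ω f, (G ω).cost f ≤ q) ∧ (∀ f ω, S.gen f ω = (G ω).run f) ∧
    Fintype.card PK ≤ K ∧ 1 - ε ≤ S.decProb ∧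
    ∀ E : PK → C → QAlg D Bool Bool, (∀ pk c f, ((E pk c).cost f : ℝ) ≤ Q) →
      𝔼 f : D → Bool, S.advProb f (fun pk c => (E pk c).run f) ≤ 1 / 2 + ε

theorem HasScheme.mono {q q' K K' : ℕ} {ε Q Q' : ℝ} (h : HasScheme q K ε Q) (hq : q ≤ q')
    (hK : K ≤ K') (hQ : Q' ≤ Q) : HasScheme q' K' ε Q' := by
  obtain ⟨D, PK, SK, C, ΩG, ΩE, i1, i2, i3, i4, i5, i6, i7, i8, i9, i10, S, G, h1, h2, h3, h4,
    h5, h6⟩ := h
  exact ⟨D, PK, SK, C, ΩG, ΩE, i1, i2, i3, i4, i5, i6, i7, i8, i9, i10, S, G,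
    ⟨fun pk b e f => (h1.1 pk b e f).trans hq, fun sk c d f => (h1.2 sk c d f).trans hq⟩,
    fun ω f => (h2 ω f).trans hq, h3, h4.trans hK, h5, fun E hE => h6 E fun pk c f =>
      (hE pk c f).trans hQ⟩

section Numbers3

theorem num_e2 {ε r a N : ℝ} (hr : 0 ≤ r) (ha : 1 ≤ a) (hN : 1 ≤ N) (h : 2 * r ≤ ε * a ^ 2) :
    r * (N ^ 2 / (4 * (a * N) ^ 2)) ≤ ε / 8 := by
  have h2 : r * (N ^ 2 / (4 * (a * N) ^ 2)) = r / (4 * a ^ 2) := by
    have : N ≠ 0 := by linarith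
    have : a ≠ 0 := by linarith
    field_simp
  rw [h2, div_le_div_iff₀ (by positivity) (by norm_num)]
  nlinarith

theorem num_e3 {ε r X η : ℝ} (hε : 0 < ε) (hε1 : ε ≤ 1) (hr : 0 ≤ r) (hX1 : 1 ≤ X)
    (hX3 : 64 * (1 + r) ≤ ε ^ 2 * X) (hη1 : η ≤ (X ^ 4)⁻¹) :
    r * Real.sqrt η ≤ ε / 8 := by
  have hX0 : 0 < X := by linarith
  have h2 : Real.sqrt η ≤ (X ^ 2)⁻¹ := by
    refine Real.sqrt_le_iff.mpr ⟨by positivity, hη1.trans (le_of_eq ?_)⟩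
    rw [inv_pow, ← pow_mul]
  have h3 : (X ^ 2)⁻¹ ≤ X⁻¹ := inv_anti₀ hX0 (by nlinarith)
  have h4 : r * X⁻¹ ≤ ε / 8 := by
    rw [← div_eq_mul_inv, div_le_iff₀ hX0]
    nlinarith
  calc r * Real.sqrt η ≤ r * X⁻¹ := mul_le_mul_of_nonneg_left (h2.trans h3) hr
    _ ≤ ε / 8 := h4

theorem num_e4 {ε r X l w : ℝ} (hε : 0 < ε) (hε1 : ε ≤ 1) (hr : 0 ≤ r) (hX1 : 1 ≤ X)
    (hX3 : 64 * (1 + r) ≤ ε ^ 2 * X) (hl0 : 0 ≤ l) (hl : l ≤ 4 * X) (hw0 : 0 ≤ w)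
    (hw : w ≤ (X ^ 2)⁻¹) : r * (l * w) ≤ ε / 8 := by
  have hX0 : 0 < X := by linarith
  calc r * (l * w) ≤ r * (4 * X * (X ^ 2)⁻¹) := by
        refine mul_le_mul_of_nonneg_left ?_ hr
        exact mul_le_mul hl hw hw0 (by positivity)
    _ = 4 * r / X := by field_simp
    _ ≤ ε / 8 := by
        rw [div_le_div_iff₀ hX0 (by norm_num)]
        nlinarith

theorem num_e5 {ε t v y : ℝ} (hε : 0 < ε) (hy : 0 < y) (h : 8 * t * v / ε ≤ y) :
    t * (v / y) ≤ ε / 8 := by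
  rw [← mul_div_assoc, div_le_iff₀ hy]
  rw [div_le_iff₀ hε] at h
  nlinarith

theorem num_h7 {r τ b c d e : ℝ} (hτ : 1 ≤ τ) :
    r * τ * (1 / τ * (b + c) + 1 / τ * d + e) = r * b + r * c + r * d + r * τ * e := by
  have : τ ≠ 0 := by linarith
  field_simp

theorem num_s1 {ε r X J : ℝ} (hε : 0 < ε) (hε1 : ε ≤ 1) (hr : 0 ≤ r) (hX1 : 1 ≤ X)
    (hX3 : 64 * (1 + r) ≤ ε ^ 2 * X) (hJ : J ≤ 4 / (ε * X)) : (1 + r) * J ≤ ε / 16 := by
  have hX0 : 0 < X := by linarith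
  calc (1 + r) * J ≤ (1 + r) * (4 / (ε * X)) := mul_le_mul_of_nonneg_left hJ (by positivity)
    _ ≤ ε / 16 := by
        rw [← mul_div_assoc, div_le_div_iff₀ (by positivity) (by norm_num)]
        nlinarith

theorem num_s4 {ε r cZ g N Z : ℝ} (hε : 0 < ε) (hr : 0 ≤ r) (hcZ : 0 < cZ) (hg : 1 ≤ g)
    (hN : 1 ≤ N) (hZ : 1 ≤ Z) (hN3 : 1024 * r * cZ * g ^ 5 / ε ≤ N)
    (hZl : N ^ 2 / (2 * (cZ * g ^ 2)) ≤ Z) : r * (32 * g ^ 3 * N / Z) ≤ ε / 16 := by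
  have hg0 : 0 < g := by linarith
  rw [div_le_iff₀ hε] at hN3
  have h2 : N ^ 2 ≤ Z * (2 * (cZ * g ^ 2)) := by
    rwa [div_le_iff₀ (by positivity)] at hZl
  rw [← mul_div_assoc, div_le_div_iff₀ (by positivity) (by norm_num)]
  have h3 : r * (32 * g ^ 3 * N) * 16 * (2 * (cZ * g ^ 2)) ≤ ε * Z * (2 * (cZ * g ^ 2)) := by
    calc r * (32 * g ^ 3 * N) * 16 * (2 * (cZ * g ^ 2)) =
          (1024 * r * cZ * g ^ 5) * N := by ring
      _ ≤ (N * ε) * N := mul_le_mul_of_nonneg_right hN3 (by positivity)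
      _ = ε * N ^ 2 := by ring
      _ ≤ ε * (Z * (2 * (cZ * g ^ 2))) := mul_le_mul_of_nonneg_left h2 hε.le
      _ = ε * Z * (2 * (cZ * g ^ 2)) := by ring
  exact le_of_mul_le_mul_right h3 (by positivity)

theorem num_s5 {ε cc cZ g N Z τ m cap Q : ℝ} (hε : 0 < ε) (hcc : 1 ≤ cc) (hcZ : 0 < cZ)
    (hg : 1 ≤ g) (hN : 1 ≤ N) (hZ : 1 ≤ Z) (hτ : 1 ≤ τ) (hm : 1 ≤ m) (hcap : 1 ≤ cap)
    (hZl : N ^ 2 / (2 * (cZ * g ^ 2)) ≤ Z) (hml : N / (2 * (32 * g ^ 3)) ≤ m)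
    (hcapl : Z * τ * m / (2 * cc) ≤ cap)
    (hQ : Q ≤ ε * τ ^ 2 * N ^ 3 / (4096 * cc * cZ * g ^ 5)) : 1 / τ * (Q / cap) ≤ ε / 16 := by
  have hg0 : 0 < g := by linarith
  have h2 : τ * N ^ 3 / (256 * cc * cZ * g ^ 5) ≤ cap := by
    refine le_trans ?_ hcapl
    rw [le_div_iff₀ (by positivity)]
    calc τ * N ^ 3 / (256 * cc * cZ * g ^ 5) * (2 * cc) =
          (N ^ 2 / (2 * (cZ * g ^ 2))) * τ * (N / (2 * (32 * g ^ 3))) := by
          field_simp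
          ring
      _ ≤ Z * τ * m := by gcongr
  rw [one_div, ← div_eq_inv_mul, div_div, div_le_iff₀ (by positivity)]
  calc Q ≤ ε * τ ^ 2 * N ^ 3 / (4096 * cc * cZ * g ^ 5) := hQ
    _ = ε / 16 * (τ * N ^ 3 / (256 * cc * cZ * g ^ 5) * τ) := by field_simp; ring
    _ ≤ ε / 16 * (cap * τ) := by gcongr

theorem num_s6 {ε r cc Z τ m cap : ℝ} (hε : 0 < ε) (hr : 0 ≤ r) (hcc1 : 1 ≤ cc)
    (hcc : 32 * r / ε ≤ cc) (hZ : 1 ≤ Z) (hτ : 1 ≤ τ) (hm : 1 ≤ m)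
    (hcapu : cap ≤ Z * τ * m / cc) : 2 * r * (cap / (Z * (τ * m))) ≤ ε / 16 := by
  have hcc0 : 0 < cc := by linarith
  have h2 : cap / (Z * (τ * m)) ≤ 1 / cc := by
    rw [div_le_div_iff₀ (by positivity) (by positivity), one_mul]
    rw [le_div_iff₀ hcc0] at hcapu
    linarith
  calc 2 * r * (cap / (Z * (τ * m))) ≤ 2 * r * (1 / cc) :=
        mul_le_mul_of_nonneg_left h2 (by positivity)
    _ ≤ ε / 16 := by
        rw [mul_one_div, div_le_div_iff₀ (by positivity) (by norm_num)]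
        rw [div_le_iff₀ hε] at hcc
        linarith

theorem num_h8 {r τ a J S b c x : ℝ} (hτ : 1 ≤ τ) :
    1 / 2 + a + J + S + r * τ * (1 / τ) * (b + J) + 1 / τ * ((c + r * τ * (x + S)) + r * τ * x) =
      1 / 2 + a + (1 + r) * J + (1 + r) * S + r * b + 1 / τ * c + 2 * r * x := by
  have : τ ≠ 0 := by linarith
  field_simp
  ring

end Numbers3

set_option maxHeartbeats 4000000 in
theorem scheme_params {ε : ℝ} (hε : 0 < ε) (hε1 : ε ≤ 1) {r a cZ cc : ℕ} (hr1 : 1 ≤ r)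
    (hr : Real.exp (-(r : ℝ)) ≤ ε / 8) (ha1 : 1 ≤ a) (ha : 2 * (r : ℝ) ≤ ε * a ^ 2)
    (hcZ : 128 * (1 + (a : ℝ)) ^ 2 * (16 * (1 + (r : ℝ)) / ε) ^ 2 ≤ cZ)
    (hcc1 : 1 ≤ cc) (hcc : 32 * (r : ℝ) / ε ≤ cc) {g τ N : ℕ} (hg : 1 ≤ g) (hτ : 1 ≤ τ)
    (hN1 : 20 * (1 + a) * g ^ 5 ≤ N) (hN2 : 32 * g ^ 5 ≤ N)
    (hN3 : 1024 * r * cZ * (g : ℝ) ^ 5 / ε ≤ N) (hN4 : 2 * cZ * cc * g ^ 5 ≤ N)
    (hX1 : ((r * τ * N ^ 2 : ℕ) : ℝ) ≤ Real.exp ((g : ℝ) ^ 2))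
    (hX2 : 64 * (1 + (r : ℝ)) / ε ^ 2 ≤ Real.exp ((g : ℝ) ^ 2)) :
    HasScheme (r * τ * N ^ 2) (2 ^ ((128 * (1 + a) ^ 2 + 8) * g ^ 2 * (r * τ))) ε
      (ε * τ ^ 2 * N ^ 3 / (4096 * cc * cZ * g ^ 5)) := by
  classical
  have hgr : (1 : ℝ) ≤ g := by exact_mod_cast hg
  have hrr : (1 : ℝ) ≤ r := by exact_mod_cast hr1
  have har : (1 : ℝ) ≤ a := by exact_mod_cast ha1
  have hτr : (1 : ℝ) ≤ τ := by exact_mod_cast hτ
  have hccr : (1 : ℝ) ≤ cc := by exact_mod_cast hcc1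
  have hcZr : (0 : ℝ) < cZ := lt_of_lt_of_le (by positivity) hcZ
  have hcZ1 : 1 ≤ cZ := by
    have : 0 < cZ := by exact_mod_cast hcZr
    omega
  have hg5 : g ≤ g ^ 5 := Nat.le_self_pow (by norm_num) g
  have hg52 : g ^ 2 ≤ g ^ 5 := Nat.pow_le_pow_right hg (by norm_num)
  have hg53 : g ^ 3 ≤ g ^ 5 := Nat.pow_le_pow_right hg (by norm_num)
  have hg1 : 1 ≤ g ^ 5 := Nat.one_le_pow _ _ hg
  have hN20 : 20 * (g + a) ≤ N := by
    have h1 : g + a ≤ (1 + a) * g ^ 5 := by nlinarith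
    calc 20 * (g + a) ≤ 20 * ((1 + a) * g ^ 5) := Nat.mul_le_mul_left _ h1
      _ = 20 * (1 + a) * g ^ 5 := by ring
      _ ≤ N := hN1
  have hNpos : 0 < N := by omega
  have hNr : (1 : ℝ) ≤ N := by exact_mod_cast hNpos
  obtain ⟨hM2, hMl, hMu⟩ := M_facts hg hN20
  set M := N / (4 * (g + a)) with hMdef
  -- the number of blocks
  obtain ⟨hm1, hmu, hml⟩ := div_facts (X := N) (D := 32 * g ^ 3) (by positivity)
    ((Nat.mul_le_mul_left 32 hg53).trans hN2)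
  set m := N / (32 * g ^ 3) with hmdef
  -- the budget
  have hcZg : 0 < cZ * g ^ 2 := by positivity
  have hNN : N ≤ N ^ 2 := Nat.le_self_pow (by norm_num) N
  have hZcc : cc ≤ N ^ 2 / (cZ * g ^ 2) := by
    rw [Nat.le_div_iff_mul_le hcZg]
    calc cc * (cZ * g ^ 2) ≤ 2 * cZ * cc * g ^ 5 := by
          have : cc * (cZ * g ^ 2) ≤ cc * (cZ * g ^ 5) :=
            Nat.mul_le_mul_left _ (Nat.mul_le_mul_left _ hg52)
          have h2 : cc * (cZ * g ^ 5) ≤ 2 * (cc * (cZ * g ^ 5)) := Nat.le_mul_of_pos_left _ (by norm_num)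
          calc cc * (cZ * g ^ 2) ≤ 2 * (cc * (cZ * g ^ 5)) := this.trans h2
            _ = 2 * cZ * cc * g ^ 5 := by ring
      _ ≤ N := hN4
      _ ≤ N ^ 2 := hNN
  have hZX : cZ * g ^ 2 ≤ N ^ 2 := by
    have h1 := (Nat.le_div_iff_mul_le hcZg).mp hZcc
    calc cZ * g ^ 2 ≤ cc * (cZ * g ^ 2) := Nat.le_mul_of_pos_left _ hcc1
      _ ≤ N ^ 2 := h1
  obtain ⟨hZ1, hZu, hZl⟩ := div_facts (X := N ^ 2) (D := cZ * g ^ 2) hcZg hZX
  set Z := N ^ 2 / (cZ * g ^ 2) with hZdef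
  have hZtm : cc ≤ Z * τ * m := by
    calc cc ≤ Z := hZcc
      _ ≤ Z * τ := Nat.le_mul_of_pos_right _ hτ
      _ ≤ Z * τ * m := Nat.le_mul_of_pos_right _ hm1
  obtain ⟨hcap1, hcapu, hcapl⟩ := div_facts (X := Z * τ * m) (D := cc) hcc1 hZtm
  set cap := Z * τ * m / cc with hcapdef
  have hZr : (1 : ℝ) ≤ Z := by exact_mod_cast hZ1
  have hmr : (1 : ℝ) ≤ m := by exact_mod_cast hm1
  have hcapr : (1 : ℝ) ≤ cap := by exact_mod_cast hcap1
  push_cast at hmu hml hZu hZl hcapu hcapl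
  -- real parameters
  set X : ℝ := Real.exp ((g : ℝ) ^ 2) with hX
  have hX1' : 1 ≤ X := Real.one_le_exp (by positivity)
  have hX0 : 0 < X := by linarith
  set β : ℝ := 1 / (M : ℝ) with hβ
  have hMr : (0 : ℝ) < M := by
    have : 0 < M := by omega
    exact_mod_cast this
  have hβ0 : 0 < β := by positivity
  obtain ⟨hthr1, hthr2, htyp0, htyp1⟩ := thr_facts (g := (g : ℝ)) (a := (a : ℝ)) (N := (N : ℝ))
    (β := β) hgr (by linarith) (by exact_mod_cast hN20) hMl hMu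
  set c₀ : ℝ := (N : ℝ) ^ 2 * ((1 - β) / 2) with hc₀
  set μ : ℝ := (a : ℝ) * N with hμ
  have hμ0 : 0 < μ := by positivity
  have hthr0 : 0 ≤ c₀ + μ := by nlinarith [sq_nonneg (N : ℝ)]
  set l : ℕ := 4 * g * N with hl
  set T : ℕ := 8 * g ^ 2 - 1 with hT
  have hT1 : T + 1 = 8 * g ^ 2 := by
    have : 1 ≤ g ^ 2 := Nat.one_le_pow _ _ hg
    omega
  have hlT : l * (T + 1) = 32 * g ^ 3 * N := by rw [hT1, hl]; ring
  have hmlT : m * (l * (T + 1)) ≤ N ^ 2 := by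
    rw [hlT]
    calc m * (32 * g ^ 3 * N) = (32 * g ^ 3 * m) * N := by ring
      _ ≤ N * N := Nat.mul_le_mul_right _ (Nat.mul_div_le N (32 * g ^ 3))
      _ = N ^ 2 := by ring
  -- the number of tags
  set y : ℕ := ⌈8 * ((r * τ : ℕ) : ℝ) * (c₀ + μ) ^ l / ε⌉₊ + 1 with hy
  have hy1 : 8 * ((r * τ : ℕ) : ℝ) * (c₀ + μ) ^ l / ε ≤ y := by
    rw [hy]; push_cast
    have := Nat.le_ceil (8 * ((r : ℝ) * τ) * (c₀ + μ) ^ l / ε)
    push_cast at this ⊢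
    linarith
  have hy2 : (y : ℝ) ≤ 8 * ((r * τ : ℕ) : ℝ) * (c₀ + μ) ^ l / ε + 2 := by
    rw [hy]; push_cast
    have := Nat.ceil_lt_add_one (a := 8 * ((r : ℝ) * τ) * (c₀ + μ) ^ l / ε) (by positivity)
    push_cast at this ⊢
    linarith
  have hypos : 0 < y := by omega
  -- types
  have hrτ : 0 < r * τ := by positivity
  have hN2pos : 0 < N ^ 2 := by positivity
  have hm0 : 0 < m := hm1
  set K : ℕ := 2 ^ ((128 * (1 + a) ^ 2 + 8) * g ^ 2) with hK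
  have hK0 : 0 < K := by positivity
  have hτ0 : 0 < τ := hτ
  have : Nonempty (Fin (r * τ)) := ⟨⟨0, hrτ⟩⟩
  have : Nonempty (Fin τ) := ⟨⟨0, hτ0⟩⟩
  have : Nonempty (Fin m) := ⟨⟨0, hm0⟩⟩
  have : Nonempty (Fin (N ^ 2)) := ⟨⟨0, hN2pos⟩⟩
  have : Nonempty (Fin K) := ⟨⟨0, hK0⟩⟩
  have : Nonempty (Fin y) := ⟨⟨0, hypos⟩⟩
  obtain ⟨s, hs⟩ := exists_code (I := Fin (N ^ 2)) (Kc := Fin K) β
  rw [Fintype.card_fin, Fintype.card_fin] at hs
  set η : ℝ := (1 + β ^ 2) ^ (N ^ 2) / (K : ℝ) with hη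
  have hη0 : 0 ≤ η := by positivity
  have hη1 : η ≤ (X ^ 4)⁻¹ := by
    refine (eta_le (a := a) hg hNpos hMu).trans (le_of_eq ?_)
    rw [hX, ← Real.exp_nat_mul, ← Real.exp_neg]
    norm_num
  have htX : ((r * τ : ℕ) : ℝ) ≤ X := by
    refine le_trans ?_ hX1
    exact_mod_cast Nat.le_mul_of_pos_right _ hN2pos
  have htmX : ((r * τ : ℕ) : ℝ) * m ≤ X := by
    refine le_trans ?_ hX1
    have h1 : r * τ * m ≤ r * τ * N ^ 2 := Nat.mul_le_mul_left _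
      ((Nat.div_le_self _ _).trans hNN)
    exact_mod_cast h1
  have hNX : (N : ℝ) ^ 2 ≤ X := by
    refine le_trans ?_ hX1
    exact_mod_cast Nat.le_mul_of_pos_left _ hrτ
  have hε2 : 0 < ε ^ 2 := by positivity
  have hX3 : 64 * (1 + (r : ℝ)) ≤ ε ^ 2 * X := by
    rw [div_le_iff₀ hε2] at hX2
    linarith
  have := nonempty_coin hM2 s
  refine ⟨Dm (Fin (r * τ)) (Fin τ) (Fin m) (Fin (N ^ 2)), Fin (r * τ) → Fin K,
    Sk (Fin (r * τ)) (Fin τ) (Fin m) (Fin (N ^ 2)) (Fin K),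
    Ct (Fin (r * τ)) (Fin τ) (Fin m) (Fin (N ^ 2)) (Fin y) l,
    (Fin (r * τ) → Fin τ × Fin m) × (Fin (r * τ) → Coin M s),
    EC (Fin (r * τ)) (Fin τ) (Fin m) (Fin (N ^ 2)) (Fin y) l T,
    inferInstance, inferInstance, inferInstance, inferInstance, inferInstance, inferInstance,
    inferInstance, inferInstance, inferInstance, inferInstance,
    theScheme M s l T (c₀ + μ), fun ω => (exists_genT s ω).choose, ⟨?_, ?_⟩, ?_, ?_, ?_, ?_, ?_⟩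
  · -- encryption
    intro pk b e f
    refine (le_of_eq ((exists_encT s T pk b e).choose_spec.2.1 f)).trans ?_
    rw [Fintype.card_fin, Fintype.card_fin, mul_assoc]
    exact Nat.mul_le_mul_left _ hmlT
  · -- decryption
    intro sk c d f
    exact Nat.zero_le _
  · -- key generation
    intro ω f
    refine (le_of_eq ((exists_genT s ω).choose_spec.2 f)).trans ?_
    rw [Fintype.card_fin, Fintype.card_fin]
  · intro f ω
    exact ((exists_genT s ω).choose_spec.1 f).symm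
  · -- public keys
    rw [Fintype.card_fun, Fintype.card_fin, Fintype.card_fin, hK, ← pow_mul]
  · -- correctness
    have hc : (Fintype.card (Fin (N ^ 2)) : ℝ) / 4 ≤
        Fintype.card (Fin (N ^ 2)) * ((1 - 1 / (M : ℝ)) / 2) - μ := by
      rw [Fintype.card_fin]; push_cast
      exact hthr1
    have h1 := decProb_ge (A := Fin (r * τ)) (U := Fin τ) (V := Fin m) (Y := Fin y) (l := l)
      hM2 (η := η) hμ0 s hs T hc
    simp only [Fintype.card_fin] at h1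
    have hcast : ((N ^ 2 : ℕ) : ℝ) * ((1 - 1 / (M : ℝ)) / 2) + μ = c₀ + μ := by
      push_cast; rfl
    rw [hcast] at h1
    refine le_trans ?_ h1
    refine sub_le_sub_left ?_ 1
    have e1 := (num_D1 r hτ).trans hr
    have e2 : (r : ℝ) * (((N ^ 2 : ℕ) : ℝ) / (4 * μ ^ 2)) ≤ ε / 8 := by
      rw [Nat.cast_pow]
      exact num_e2 (by linarith) har hNr ha
    have e3 : (r : ℝ) * Real.sqrt η ≤ ε / 8 := num_e3 hε hε1 (by linarith) hX1' hX3 hη1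
    have e4 : (r : ℝ) * (l * (3 / 4) ^ (T + 1)) ≤ ε / 8 := by
      have h2 := three_quarters_pow g hg
      rw [← hT] at h2
      have h3 : Real.exp (-(2 * (g : ℝ) ^ 2)) = (X ^ 2)⁻¹ := by
        rw [hX, ← Real.exp_nat_mul, ← Real.exp_neg]
        norm_num
      rw [h3] at h2
      have h4 : (l : ℝ) ≤ 4 * X := by
        have h5 : l ≤ 4 * N ^ 2 := by
          rw [hl, mul_assoc, pow_two]
          exact Nat.mul_le_mul_left _ (Nat.mul_le_mul_right _ (by omega))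
        have h6 : (l : ℝ) ≤ 4 * (N : ℝ) ^ 2 := by exact_mod_cast h5
        linarith
      exact num_e4 hε hε1 (by linarith) hX1' hX3 (Nat.cast_nonneg _) h4 (by positivity) h2
    have e5 : ((r * τ : ℕ) : ℝ) * ((c₀ + μ) ^ l / y) ≤ ε / 8 :=
      num_e5 hε (by exact_mod_cast hypos) hy1
    have h7 := num_h7 (r := (r : ℝ)) (τ := (τ : ℝ)) (b := ((N ^ 2 : ℕ) : ℝ) / (4 * μ ^ 2))
      (c := Real.sqrt η) (d := l * (3 / 4) ^ (T + 1)) (e := (c₀ + μ) ^ l / y) hτr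
    rw [Nat.cast_mul] at e5 ⊢
    rw [h7]
    linarith
  · -- security
    intro E hE
    set Q : ℕ := ⌊ε * τ ^ 2 * N ^ 3 / (4096 * cc * cZ * (g : ℝ) ^ 5)⌋₊ with hQ
    have hE' : ∀ κ c f, (E κ c).cost f ≤ Q := fun κ c f => Nat.le_floor (hE κ c f)
    have hQr : (Q : ℝ) ≤ ε * τ ^ 2 * N ^ 3 / (4096 * cc * cZ * (g : ℝ) ^ 5) :=
      Nat.floor_le (by positivity)
    have htyp : 0 < (Fintype.card (Fin (N ^ 2)) : ℝ) / 2 - (g : ℝ) * N := by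
      rw [Fintype.card_fin]; push_cast
      exact htyp0
    have h1 := adv_le (A := Fin (r * τ)) (U := Fin τ) (V := Fin m) (Y := Fin y) (l := l)
      hM2 (η := η) s hs T (c₀ + μ) (lam := (g : ℝ) * N) (by positivity) htyp E hE' hZ1 hcap1
    refine h1.trans ?_
    have hjd : jd (Fin (r * τ)) (Fin m) (Fin (N ^ 2)) (Fin y) l ((g : ℝ) * N) =
        ((r * τ : ℕ) : ℝ) * m * (1 / 2 * Real.sqrt (2 * y *
          (1 / ((N : ℝ) ^ 2 / 2 - g * N)) ^ l) + (X ^ 2)⁻¹) := by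
      have h2 : Real.exp (-(2 * ((g : ℝ) * N) ^ 2 / ((N : ℝ) ^ 2))) = (X ^ 2)⁻¹ := by
        rw [hX, ← Real.exp_nat_mul, ← Real.exp_neg]
        congr 1
        field_simp
        norm_num
      unfold jd
      simp only [Fintype.card_fin, Fintype.card_prod]
      push_cast
      rw [h2]
    have hz : Real.exp (-(2 * (g : ℝ) / N)) ^ l = (X ^ 8)⁻¹ := by
      rw [← Real.exp_nat_mul, hX, ← Real.exp_nat_mul, ← Real.exp_neg]
      congr 1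
      rw [hl]; push_cast
      field_simp
      ring
    have hJ := num_J (ε := ε) (X := X) (t := ((r * τ : ℕ) : ℝ)) (tm := ((r * τ : ℕ) : ℝ) * m)
      (y := y) (typ := (N : ℝ) ^ 2 / 2 - g * N) (thr := c₀ + μ)
      (z := Real.exp (-(2 * (g : ℝ) / N))) (l := l) hε hε1 hX1'
      (by exact_mod_cast hrτ) htX (by positivity) htmX hthr0 htyp0 hthr2 htyp1 hz hy2
    rw [← hjd] at hJ
    set J := jd (Fin (r * τ)) (Fin m) (Fin (N ^ 2)) (Fin y) l ((g : ℝ) * N) with hJdef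
    have e1 : (1 + (r : ℝ)) * J ≤ ε / 16 := num_s1 hε hε1 (by linarith) hX1' hX3 hJ
    have e2 : Real.sqrt ((1 + η) ^ (r * τ) - 1) ≤ ε / 16 :=
      num_S1 (r := r) hε hε1 hX1' htX hη0 hη1 hX2
    have e3 : (1 + (r : ℝ)) * Real.sqrt ((1 + (1 / (M : ℝ)) ^ 2) ^ Z - 1) ≤ ε / 16 :=
      num_sq (N := (N : ℝ)) (g := g) (a := a) (cZ := cZ) hε hε1 hg (by linarith) hβ0.le hMu hcZ
        hZu
    have e4 : (r : ℝ) * ((l * (T + 1) : ℕ) / (Z : ℝ)) ≤ ε / 16 := by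
      have h2 : ((l * (T + 1) : ℕ) : ℝ) = 32 * (g : ℝ) ^ 3 * N := by
        rw [hlT]; push_cast; rfl
      rw [h2]
      exact num_s4 hε (by linarith) hcZr hgr hNr hZr hN3 hZl
    have e5 : 1 / (τ : ℝ) * ((Q : ℝ) / cap) ≤ ε / 16 :=
      num_s5 hε hccr hcZr hgr hNr hZr hτr hmr hcapr hZl hml hcapl hQr
    have e6 : 2 * (r : ℝ) * ((cap : ℝ) / (Z * (τ * m))) ≤ ε / 16 :=
      num_s6 hε (by linarith) hccr hcc hZr hτr hmr hcapu
    simp only [Fintype.card_fin]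
    have h8 := num_h8 (r := (r : ℝ)) (τ := (τ : ℝ)) (a := Real.sqrt ((1 + η) ^ (r * τ) - 1))
      (J := J) (S := Real.sqrt ((1 + (1 / (M : ℝ)) ^ 2) ^ Z - 1))
      (b := (l * (T + 1) : ℕ) / (Z : ℝ)) (c := (Q : ℝ) / cap)
      (x := (cap : ℝ) / (Z * (τ * m))) hτr
    rw [Nat.cast_mul r τ, h8]
    linarith

end Pool.Agent.PKE70
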