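import Pool.Agent.PKE70.LB18

/-!
# Lower bound: final form
-/

set_option autoImplicit false
set_option linter.unusedSectionVars false

open scoped BigOperators

namespace Pool.Agent.PKE70

theorem one_add_log_pow {q : ℝ} (hq : 1 ≤ q) : (1 + Real.log q) ^ 5 ≤ 10 ^ 5 * Real.sqrt q := by
  have hq0 : 0 < q := by linarith
  set y : ℝ := q ^ (1 / 10 : ℝ) with hy
  have hy0 : 0 < y := Real.rpow_pos_of_pos hq0 _
  have h1 : Real.log q = 10 * Real.log y := by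
    rw [hy, Real.log_rpow hq0]; ring
  have h2 : Real.log y ≤ y - 1 := Real.log_le_sub_one_of_pos hy0
  have h3 : 1 + Real.log q ≤ 10 * y := by linarith
  have h4 : 0 ≤ 1 + Real.log q := by
    have := Real.log_nonneg hq; linarith
  have h5 : y ^ 5 = Real.sqrt q := by
    rw [hy, ← Real.rpow_natCast, ← Real.rpow_mul hq0.le, Real.sqrt_eq_rpow]
    norm_num
  calc (1 + Real.log q) ^ 5 ≤ (10 * y) ^ 5 := pow_le_pow_left₀ h4 h3 5
    _ = 10 ^ 5 * Real.sqrt q := by rw [mul_pow, h5]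

theorem log_pow_le {d q : ℝ} (hd : 0 ≤ d) (hq : 1 ≤ q) (hqd : (1024 * 10 ^ 5 * d) ^ 2 ≤ q) :
    1024 * d * (1 + Real.log q) ^ 5 ≤ q := by
  have h1 := one_add_log_pow hq
  have h2 : 1024 * 10 ^ 5 * d ≤ Real.sqrt q := Real.le_sqrt_of_sq_le hqd
  have h3 : Real.sqrt q * Real.sqrt q = q := Real.mul_self_sqrt (by linarith)
  calc 1024 * d * (1 + Real.log q) ^ 5 ≤ 1024 * d * (10 ^ 5 * Real.sqrt q) := by gcongr
    _ = (1024 * 10 ^ 5 * d) * Real.sqrt q := by ring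
    _ ≤ Real.sqrt q * Real.sqrt q := mul_le_mul_of_nonneg_right h2 (Real.sqrt_nonneg _)
    _ = q := h3

set_option maxHeartbeats 4000000 in
/-- **Short public keys: the construction.** -/
theorem exists_scheme {ε : ℝ} (hε : 0 < ε) (hε1 : ε ≤ 1) : ∃ C : ℝ, 0 < C ∧ ∀ q k : ℕ,
    C * (1 + Real.log q) ≤ k → k ≤ q →
    HasScheme q (2 ^ k) ε (q * Real.sqrt (q * k) / (C * (1 + Real.log q) ^ 5)) := by
  -- constants
  obtain ⟨r, hr1, hr⟩ : ∃ r : ℕ, 1 ≤ r ∧ Real.exp (-(r : ℝ)) ≤ ε / 8 := by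
    refine ⟨⌈Real.log (8 / ε)⌉₊ + 1, by omega, ?_⟩
    have h1 := Nat.le_ceil (Real.log (8 / ε))
    have h2 : Real.exp (-Real.log (8 / ε)) = ε / 8 := by
      rw [Real.exp_neg, Real.exp_log (by positivity)]
      field_simp
    rw [← h2]
    refine Real.exp_le_exp.mpr ?_
    push_cast
    linarith
  obtain ⟨a, ha1, ha⟩ : ∃ a : ℕ, 1 ≤ a ∧ 2 * (r : ℝ) ≤ ε * a ^ 2 := by
    refine ⟨⌈2 * (r : ℝ) / ε⌉₊ + 1, by omega, ?_⟩
    have h1 := Nat.le_ceil (2 * (r : ℝ) / ε)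
    set b : ℕ := ⌈2 * (r : ℝ) / ε⌉₊
    rw [div_le_iff₀ hε] at h1
    push_cast
    have h2 : (0 : ℝ) ≤ b := Nat.cast_nonneg b
    nlinarith
  obtain ⟨cZ, hcZ⟩ : ∃ cZ : ℕ, 128 * (1 + (a : ℝ)) ^ 2 * (16 * (1 + (r : ℝ)) / ε) ^ 2 ≤ cZ :=
    ⟨_, Nat.le_ceil _⟩
  obtain ⟨cc, hcc1, hcc⟩ : ∃ cc : ℕ, 1 ≤ cc ∧ 32 * (r : ℝ) / ε ≤ cc := by
    refine ⟨⌈32 * (r : ℝ) / ε⌉₊ + 1, by omega, ?_⟩
    have h1 := Nat.le_ceil (32 * (r : ℝ) / ε)
    push_cast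
    linarith
  obtain ⟨c₃, hc₃⟩ : ∃ c₃ : ℕ, 1024 * (r : ℝ) * cZ / ε ≤ c₃ := ⟨_, Nat.le_ceil _⟩
  set C₂ : ℕ := 20 * (1 + a) + 32 + c₃ + 2 * cZ * cc with hC₂
  set d₁ : ℕ := (128 * (1 + a) ^ 2 + 8) * r with hd₁
  set d₂ : ℕ := r * C₂ ^ 2 with hd₂
  have hrr : (1 : ℝ) ≤ r := by exact_mod_cast hr1
  have hccr : (1 : ℝ) ≤ cc := by exact_mod_cast hcc1
  have hcZr : (0 : ℝ) < cZ := lt_of_lt_of_le (by positivity) hcZ
  have hC₂0 : 0 < C₂ := by omega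
  have hd₁0 : 0 < d₁ := by positivity
  have hd₂0 : 0 < d₂ := by positivity
  set c₄ : ℝ := 4 * r * Real.sqrt (8 * r * (d₁ + d₂)) * 4096 * cc * cZ * 1024 / ε with hc₄
  have hc₄0 : 0 ≤ c₄ := by positivity
  set q₀ : ℝ := (1024 * 10 ^ 5 * (d₂ : ℝ)) ^ 2 with hq₀
  have hq₀0 : 0 ≤ q₀ := by positivity
  set C : ℝ := 4 * d₁ + q₀ + 64 * (1 + (r : ℝ)) / ε ^ 2 + c₄ + 1 with hC
  have hx0 : 0 ≤ 64 * (1 + (r : ℝ)) / ε ^ 2 := by positivity
  have hd₁r : (0 : ℝ) ≤ d₁ := Nat.cast_nonneg _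
  have hC0 : 0 < C := by rw [hC]; positivity
  refine ⟨C, hC0, fun q k hk hkq => ?_⟩
  -- the size of q
  have hkq' : (k : ℝ) ≤ q := by exact_mod_cast hkq
  have hq1 : 1 ≤ q := by
    by_contra hq
    have hq0 : q = 0 := by omega
    rw [hq0] at hk hkq'
    simp only [Nat.cast_zero, Real.log_zero, add_zero, mul_one] at hk hkq'
    linarith
  have hq1r : (1 : ℝ) ≤ q := by exact_mod_cast hq1
  have hlog : 0 ≤ Real.log q := Real.log_nonneg hq1r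
  set L : ℝ := 1 + Real.log q with hL
  have hL1 : 1 ≤ L := by linarith
  have hCq : C ≤ q := by nlinarith
  -- the scale
  obtain ⟨g, hg1, hgl, hgu⟩ : ∃ g : ℕ, 1 ≤ g ∧ L ≤ (g : ℝ) ^ 2 ∧ (g : ℝ) ^ 2 ≤ 4 * L := by
    have hs1 : 1 ≤ Real.sqrt L := Real.one_le_sqrt.mpr hL1
    have hs2 : Real.sqrt L ^ 2 = L := Real.sq_sqrt (by linarith)
    have h1 := Nat.le_ceil (Real.sqrt L)
    have h2 := Nat.ceil_lt_add_one (Real.sqrt_nonneg L)
    refine ⟨⌈Real.sqrt L⌉₊, ?_, ?_, ?_⟩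
    · exact Nat.one_le_ceil_iff.mpr (by linarith)
    · calc L = Real.sqrt L ^ 2 := hs2.symm
        _ ≤ ((⌈Real.sqrt L⌉₊ : ℕ) : ℝ) ^ 2 := pow_le_pow_left₀ (Real.sqrt_nonneg L) h1 2
    · calc ((⌈Real.sqrt L⌉₊ : ℕ) : ℝ) ^ 2 ≤ (2 * Real.sqrt L) ^ 2 :=
            pow_le_pow_left₀ (Nat.cast_nonneg _) (by linarith) 2
        _ = 4 * L := by rw [mul_pow, hs2]; norm_num
  have hgr : (1 : ℝ) ≤ g := by exact_mod_cast hg1
  have hg10 : (g : ℝ) ^ 10 ≤ 1024 * L ^ 5 := by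
    calc (g : ℝ) ^ 10 = ((g : ℝ) ^ 2) ^ 5 := by ring
      _ ≤ (4 * L) ^ 5 := pow_le_pow_left₀ (by positivity) hgu 5
      _ = 1024 * L ^ 5 := by ring
  -- the number of cells
  have hk1 : d₁ * g ^ 2 ≤ k := by
    have h1 : (d₁ : ℝ) * g ^ 2 ≤ k := by
      calc (d₁ : ℝ) * g ^ 2 ≤ d₁ * (4 * L) := mul_le_mul_of_nonneg_left hgu hd₁r
        _ = 4 * d₁ * L := by ring
        _ ≤ C * L := by
            refine mul_le_mul_of_nonneg_right ?_ (by linarith)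
            rw [hC]; linarith
        _ ≤ k := hk
    exact_mod_cast h1
  have hq2 : d₂ * g ^ 10 ≤ q := by
    have h1 : (d₂ : ℝ) * g ^ 10 ≤ q := by
      calc (d₂ : ℝ) * g ^ 10 ≤ d₂ * (1024 * L ^ 5) :=
            mul_le_mul_of_nonneg_left hg10 (Nat.cast_nonneg _)
        _ = 1024 * d₂ * L ^ 5 := by ring
        _ ≤ q := by
            refine log_pow_le (Nat.cast_nonneg _) hq1r ?_
            rw [← hq₀]
            refine le_trans ?_ hCq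
            rw [hC]; linarith
    exact_mod_cast h1
  set τ : ℕ := min (k / (d₁ * g ^ 2)) (q / (d₂ * g ^ 10)) with hτ
  have hd1g : 0 < d₁ * g ^ 2 := by positivity
  have hd2g : 0 < d₂ * g ^ 10 := by positivity
  have hτ1 : 1 ≤ τ := by
    rw [hτ, le_min_iff]
    exact ⟨(Nat.one_le_div_iff hd1g).mpr hk1, (Nat.one_le_div_iff hd2g).mpr hq2⟩
  have hτk : d₁ * g ^ 2 * τ ≤ k :=
    (Nat.mul_le_mul_left _ (min_le_left _ _)).trans (Nat.mul_div_le k _)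
  have hτq : d₂ * g ^ 10 * τ ≤ q :=
    (Nat.mul_le_mul_left _ (min_le_right _ _)).trans (Nat.mul_div_le q _)
  have hkτ : k ≤ 2 * ((d₁ + d₂) * g ^ 10 * τ) := by
    rcases min_choice (k / (d₁ * g ^ 2)) (q / (d₂ * g ^ 10)) with h | h
    · have h1 : k < d₁ * g ^ 2 * (τ + 1) := by
        rw [hτ, h]
        exact Nat.lt_mul_div_succ k hd1g
      have h2 : d₁ * g ^ 2 * (τ + 1) ≤ d₁ * g ^ 2 * (2 * τ) := Nat.mul_le_mul_left _ (by omega)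
      have h3 : g ^ 2 ≤ g ^ 10 := Nat.pow_le_pow_right hg1 (by norm_num)
      calc k ≤ d₁ * g ^ 2 * (2 * τ) := h1.le.trans h2
        _ ≤ (d₁ + d₂) * g ^ 10 * (2 * τ) :=
            Nat.mul_le_mul_right _ (Nat.mul_le_mul (Nat.le_add_right _ _) h3)
        _ = 2 * ((d₁ + d₂) * g ^ 10 * τ) := by ring
    · have h1 : q < d₂ * g ^ 10 * (τ + 1) := by
        rw [hτ, h]
        exact Nat.lt_mul_div_succ q hd2g
      have h2 : d₂ * g ^ 10 * (τ + 1) ≤ d₂ * g ^ 10 * (2 * τ) := Nat.mul_le_mul_left _ (by omega)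
      calc k ≤ q := hkq
        _ ≤ d₂ * g ^ 10 * (2 * τ) := h1.le.trans h2
        _ ≤ (d₁ + d₂) * g ^ 10 * (2 * τ) :=
            Nat.mul_le_mul_right _ (Nat.mul_le_mul_right _ (Nat.le_add_left _ _))
        _ = 2 * ((d₁ + d₂) * g ^ 10 * τ) := by ring
  -- the block length
  have hrτ : 0 < r * τ := by positivity
  set N : ℕ := Nat.sqrt (q / (r * τ)) with hN
  have hNle : C₂ * g ^ 5 ≤ N := by
    rw [hN, Nat.le_sqrt, Nat.le_div_iff_mul_le hrτ]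
    calc C₂ * g ^ 5 * (C₂ * g ^ 5) * (r * τ) = d₂ * g ^ 10 * τ := by rw [hd₂]; ring
      _ ≤ q := hτq
  have hNq : r * τ * N ^ 2 ≤ q := by
    have h1 : N ^ 2 ≤ q / (r * τ) := by rw [pow_two]; exact Nat.sqrt_le _
    calc r * τ * N ^ 2 ≤ r * τ * (q / (r * τ)) := Nat.mul_le_mul_left _ h1
      _ ≤ q := Nat.mul_div_le q _
  have hg5 : 1 ≤ g ^ 5 := Nat.one_le_pow _ _ hg1
  have hN1 : 1 ≤ N := le_trans (Nat.mul_pos hC₂0 hg5) hNle
  have hqN : q ≤ r * τ * (4 * N ^ 2) := by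
    have h1 : q < r * τ * (q / (r * τ) + 1) := Nat.lt_mul_div_succ q hrτ
    have h2 : q / (r * τ) + 1 ≤ (N + 1) ^ 2 := by
      rw [pow_two]
      exact Nat.lt_succ_sqrt (q / (r * τ))
    have h3 : (N + 1) ^ 2 ≤ 4 * N ^ 2 := by
      calc (N + 1) ^ 2 ≤ (2 * N) ^ 2 := Nat.pow_le_pow_left (by omega) 2
        _ = 4 * N ^ 2 := by ring
    exact h1.le.trans (Nat.mul_le_mul_left _ (h2.trans h3))
  have hX : (q : ℝ) ≤ Real.exp ((g : ℝ) ^ 2) := by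
    calc (q : ℝ) = Real.exp (Real.log q) := (Real.exp_log (by linarith)).symm
      _ ≤ Real.exp ((g : ℝ) ^ 2) := Real.exp_le_exp.mpr (by linarith)
  have hmain := scheme_params (g := g) (τ := τ) (N := N) hε hε1 hr1 hr ha1 ha hcZ hcc1 hcc hg1 hτ1
    ((Nat.mul_le_mul_right _ (by rw [hC₂]; omega)).trans hNle)
    ((Nat.mul_le_mul_right _ (by rw [hC₂]; omega)).trans hNle)
    (by
      have h1 : 1024 * (r : ℝ) * cZ * (g : ℝ) ^ 5 / ε = 1024 * (r : ℝ) * cZ / ε * g ^ 5 := by ring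
      rw [h1]
      have h2 : c₃ * g ^ 5 ≤ N := (Nat.mul_le_mul_right _ (by rw [hC₂]; omega)).trans hNle
      have h3 : (c₃ : ℝ) * g ^ 5 ≤ N := by exact_mod_cast h2
      exact le_trans (mul_le_mul_of_nonneg_right hc₃ (by positivity)) h3)
    ((Nat.mul_le_mul_right _ (by rw [hC₂]; omega)).trans hNle)
    (le_trans (by exact_mod_cast hNq) hX)
    (le_trans (le_trans (by rw [hC]; linarith) hCq) hX)
  refine hmain.mono hNq (Nat.pow_le_pow_right (by norm_num) ?_) ?_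
  · calc (128 * (1 + a) ^ 2 + 8) * g ^ 2 * (r * τ) = d₁ * g ^ 2 * τ := by rw [hd₁]; ring
      _ ≤ k := hτk
  · -- the query bound
    have hτr : (1 : ℝ) ≤ τ := by exact_mod_cast hτ1
    have hNr : (1 : ℝ) ≤ N := by exact_mod_cast hN1
    have hq' : (q : ℝ) ≤ 4 * r * τ * N ^ 2 := by
      have : (q : ℝ) ≤ r * τ * (4 * N ^ 2) := by exact_mod_cast hqN
      linarith
    have hk' : (k : ℝ) ≤ 2 * ((d₁ + d₂) * g ^ 10 * τ) := by exact_mod_cast hkτ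
    have hsq : Real.sqrt (q * k) ≤ Real.sqrt (8 * r * (d₁ + d₂)) * (τ * N * g ^ 5) := by
      have h1 : Real.sqrt (8 * r * (d₁ + d₂)) * (τ * N * (g : ℝ) ^ 5) =
          Real.sqrt (8 * r * (d₁ + d₂) * (τ * N * (g : ℝ) ^ 5) ^ 2) := by
        rw [Real.sqrt_mul (show (0 : ℝ) ≤ 8 * r * (d₁ + d₂) by positivity)
          ((τ * N * (g : ℝ) ^ 5) ^ 2), Real.sqrt_sq (by positivity)]
      rw [h1]
      refine Real.sqrt_le_sqrt ?_
      calc (q : ℝ) * k ≤ (4 * r * τ * N ^ 2) * (2 * ((d₁ + d₂) * g ^ 10 * τ)) :=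
            mul_le_mul hq' hk' (Nat.cast_nonneg _) (by positivity)
        _ = 8 * r * (d₁ + d₂) * (τ * N * (g : ℝ) ^ 5) ^ 2 := by ring
    rw [div_le_div_iff₀ (by positivity) (by positivity)]
    have h2 : (q : ℝ) * Real.sqrt (q * k) ≤ (4 * r * τ * N ^ 2) *
        (Real.sqrt (8 * r * (d₁ + d₂)) * (τ * N * g ^ 5)) :=
      mul_le_mul hq' hsq (Real.sqrt_nonneg _) (by positivity)
    have h3 : c₄ * L ^ 5 ≤ C * L ^ 5 := by
      refine mul_le_mul_of_nonneg_right ?_ (by positivity)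
      rw [hC]; linarith
    calc (q : ℝ) * Real.sqrt (q * k) * (4096 * cc * cZ * g ^ 5)
        ≤ (4 * r * τ * N ^ 2) * (Real.sqrt (8 * r * (d₁ + d₂)) * (τ * N * g ^ 5)) *
          (4096 * cc * cZ * g ^ 5) := mul_le_mul_of_nonneg_right h2 (by positivity)
      _ = (4 * r * Real.sqrt (8 * r * (d₁ + d₂)) * 4096 * cc * cZ * g ^ 10) *
          (τ ^ 2 * N ^ 3) := by ring
      _ ≤ (4 * r * Real.sqrt (8 * r * (d₁ + d₂)) * 4096 * cc * cZ * (1024 * L ^ 5)) *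
          (τ ^ 2 * N ^ 3) := by gcongr
      _ = ε * (c₄ * L ^ 5) * (τ ^ 2 * N ^ 3) := by
          rw [hc₄]; field_simp
      _ ≤ ε * (C * L ^ 5) * (τ ^ 2 * N ^ 3) := by gcongr
      _ = ε * τ ^ 2 * N ^ 3 * (C * L ^ 5) := by ring

end Pool.Agent.PKE70
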