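import Pool.Agent.PKE70.LB1

/-!
# Lower bound: likelihood ratios for biased bits, change of measure for oracle algorithms
-/

set_option autoImplicit false
set_option linter.unusedSectionVars false

open scoped BigOperators

namespace Pool.Agent.PKE70

section LR

variable {D α : Type} [Fintype D] [DecidableEq D]

/-- weight of the bit `y` at a point whose sign is `s`: bits equal to the sign are less likely -/
noncomputable def fc (β : ℝ) (s y : Bool) : ℝ := if y = s then 1 - β else 1 + β

theorem expect_fc (β : ℝ) (s : Bool) : 𝔼 y : Bool, fc β s y = 1 := by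
  rw [Fintype.expect_eq_sum_div_card]
  cases s <;> simp [fc] <;> ring

theorem expect_fc_sq (β : ℝ) (s : Bool) : 𝔼 y : Bool, fc β s y ^ 2 = 1 + β ^ 2 := by
  rw [Fintype.expect_eq_sum_div_card]
  cases s <;> simp [fc] <;> ring

theorem fc_nonneg {β : ℝ} (h0 : 0 ≤ β) (h1 : β ≤ 1) (s y : Bool) : 0 ≤ fc β s y := by
  unfold fc; split_ifs <;> linarith

variable (β : ℝ) (σ : D → Bool)

/-- density of the biased bits on `S` -/
noncomputable def Lam (S : Finset D) (f : D → Bool) : ℝ := ∏ x ∈ S, fc β (σ x) (f x)

theorem Lam_nonneg {β : ℝ} (h0 : 0 ≤ β) (h1 : β ≤ 1) (S : Finset D) (f : D → Bool) :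
    0 ≤ Lam β σ S f := Finset.prod_nonneg fun _ _ => fc_nonneg h0 h1 _ _

theorem Lam_congr {S : Finset D} {f f' : D → Bool} (h : ∀ x ∈ S, f' x = f x) :
    Lam β σ S f' = Lam β σ S f :=
  Finset.prod_congr rfl fun x hx => by rw [h x hx]

theorem Lam_eq_univ (S : Finset D) (f : D → Bool) :
    Lam β σ S f = ∏ x, (if x ∈ S then fc β (σ x) (f x) else 1) := by
  rw [Lam, Finset.prod_ite_mem, Finset.univ_inter]

theorem expect_Lam (S : Finset D) : 𝔼 f : D → Bool, Lam β σ S f = 1 := by
  simp only [Lam_eq_univ]
  rw [expect_pi_prod (fun x y => if x ∈ S then fc β (σ x) y else 1)]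
  refine Finset.prod_eq_one fun x _ => ?_
  split_ifs
  · exact expect_fc _ _
  · exact Fintype.expect_const _

theorem expect_Lam_ovr (S : Finset D) (u : D → Option Bool) :
    𝔼 g : D → Bool, Lam β σ (S.filter fun x => u x = none) (ovr g u) = 1 := by
  rw [← expect_Lam β σ (S.filter fun x => u x = none)]
  refine Finset.expect_congr rfl fun g _ => Lam_congr β σ fun x hx => ?_
  exact ovr_of_none (Finset.mem_filter.mp hx).2

/-- likelihood ratio of the answers to the new queries in `S` -/
noncomputable def lrF (S : Finset D) : (D → Option Bool) → QAlg D Bool α → (D → Bool) → ℝ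
  | _, .ret _, _ => 1
  | u, .ask x k, f => (if x ∈ S ∧ u x = none then fc β (σ x) (f x) else 1) *
      lrF S (Function.update u x (some (f x))) (k (f x)) f

theorem lrF_ret (S : Finset D) (u : D → Option Bool) (a : α) (f : D → Bool) :
    lrF β σ S u (.ret a) f = 1 := rfl
theorem lrF_ask (S : Finset D) (u : D → Option Bool) (x : D) (k : Bool → QAlg D Bool α)
    (f : D → Bool) : lrF β σ S u (.ask x k) f =
      (if x ∈ S ∧ u x = none then fc β (σ x) (f x) else 1) *
      lrF β σ S (Function.update u x (some (f x))) (k (f x)) f := rfl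

/-- change of measure along an oracle algorithm -/
theorem expect_Lam_run (S : Finset D) (ψ : α → ℝ) (T : QAlg D Bool α) (u : D → Option Bool) :
    𝔼 g : D → Bool, Lam β σ (S.filter fun x => u x = none) (ovr g u) * ψ (T.run (ovr g u)) =
      𝔼 g : D → Bool, lrF β σ S u T (ovr g u) * ψ (T.run (ovr g u)) := by
  induction T generalizing u with
  | ret a =>
    simp only [QAlg.run_ret, lrF_ret, one_mul, Fintype.expect_const]
    rw [← Finset.expect_mul, expect_Lam_ovr, one_mul]
  | ask x k ih =>
    rcases hx : u x with _ | y
    · -- fresh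
      rw [expect_ovr_update hx (fun f => Lam β σ (S.filter fun x => u x = none) f *
          ψ ((QAlg.ask x k).run f)),
        expect_ovr_update hx (fun f => lrF β σ S u (.ask x k) f * ψ ((QAlg.ask x k).run f))]
      refine Finset.expect_congr rfl fun y _ => ?_
      have h1 := ih y (Function.update u x (some y))
      have h2 : ∀ g : D → Bool, Lam β σ (S.filter fun x => u x = none)
          (ovr g (Function.update u x (some y))) =
          (if x ∈ S then fc β (σ x) y else 1) *
          Lam β σ (S.filter fun z => Function.update u x (some y) z = none)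
            (ovr g (Function.update u x (some y))) := by
        intro g
        by_cases hxS : x ∈ S
        · have hset : (S.filter fun z => u z = none) =
              insert x (S.filter fun z => Function.update u x (some y) z = none) := by
            ext z
            by_cases hz : z = x
            · subst hz; simp [hxS, hx]
            · simp [hz]
          have hnot : x ∉ S.filter fun z => Function.update u x (some y) z = none := by simp
          rw [hset, Lam, Finset.prod_insert hnot, if_pos hxS, ovr_update_self]
          rfl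
        · have hset : (S.filter fun z => u z = none) =
              (S.filter fun z => Function.update u x (some y) z = none) := by
            ext z
            by_cases hz : z = x
            · subst hz; simp [hxS]
            · simp [hz]
          rw [hset, if_neg hxS, one_mul]
      have h3 : 𝔼 g : D → Bool, Lam β σ (S.filter fun x => u x = none)
          (ovr g (Function.update u x (some y))) *
            ψ ((QAlg.ask x k).run (ovr g (Function.update u x (some y)))) =
          (if x ∈ S then fc β (σ x) y else 1) * 𝔼 g : D → Bool,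
            Lam β σ (S.filter fun z => Function.update u x (some y) z = none)
              (ovr g (Function.update u x (some y))) *
              ψ ((k y).run (ovr g (Function.update u x (some y)))) := by
        rw [Finset.mul_expect]
        refine Finset.expect_congr rfl fun g _ => ?_
        rw [h2, QAlg.run_ask, ovr_update_self]
        ring
      rw [h3, h1, Finset.mul_expect]
      refine Finset.expect_congr rfl fun g _ => ?_
      rw [lrF_ask, QAlg.run_ask, ovr_update_self]
      simp only [hx, and_true]
      ring
    · -- known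
      have h1 := ih y u
      have h2 : ∀ g : D → Bool, (QAlg.ask x k).run (ovr g u) = (k y).run (ovr g u) := by
        intro g; rw [QAlg.run_ask, ovr_some hx]
      have h3 : ∀ g : D → Bool, lrF β σ S u (.ask x k) (ovr g u) = lrF β σ S u (k y) (ovr g u) := by
        intro g
        rw [lrF_ask, ovr_some hx, update_eq_self_of_some hx, hx]
        simp
      simp only [h2, h3]
      exact h1

/-- number of queries in `S` -/
def asksIn (S : Finset D) (f : D → Bool) : QAlg D Bool α → ℕ
  | .ret _ => 0
  | .ask x k => (if x ∈ S then 1 else 0) + asksIn S f (k (f x))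

theorem asksIn_ret (S : Finset D) (f : D → Bool) (a : α) :
    asksIn S f (.ret a : QAlg D Bool α) = 0 := rfl
theorem asksIn_ask (S : Finset D) (f : D → Bool) (x : D) (k : Bool → QAlg D Bool α) :
    asksIn S f (.ask x k) = (if x ∈ S then 1 else 0) + asksIn S f (k (f x)) := rfl

theorem asksIn_le_cost (S : Finset D) (f : D → Bool) (T : QAlg D Bool α) :
    asksIn S f T ≤ T.cost f := by
  induction T with
  | ret a => simp [asksIn_ret]
  | ask x k ih =>
    rw [asksIn_ask, QAlg.cost_ask]
    have := ih (f x)
    split_ifs <;> omega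

theorem asksIn_bind {γ : Type} (S : Finset D) (f : D → Bool) (T : QAlg D Bool α)
    (g : α → QAlg D Bool γ) :
    asksIn S f (T.bind g) = asksIn S f T + asksIn S f (g (T.run f)) := by
  induction T with
  | ret a => simp [QAlg.bind, asksIn_ret]
  | ask x k ih =>
    simp only [QAlg.bind, asksIn_ask, QAlg.run_ask]
    rw [ih]
    omega

theorem asksIn_biUnion_le {ι : Type} (s : Finset ι) [DecidableEq ι] (B : ι → Finset D)
    (f : D → Bool) (T : QAlg D Bool α) :
    asksIn (s.biUnion B) f T ≤ ∑ i ∈ s, asksIn (B i) f T := by
  induction T with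
  | ret a => simp [asksIn_ret]
  | ask x k ih =>
    simp only [asksIn_ask]
    rw [Finset.sum_add_distrib]
    refine Nat.add_le_add ?_ (ih _)
    split_ifs with h
    · obtain ⟨i, hi, hxi⟩ := Finset.mem_biUnion.mp h
      have h1 := Finset.single_le_sum (f := fun i => if x ∈ B i then 1 else 0)
        (fun i _ => Nat.zero_le _) hi
      simp only [hxi, if_true] at h1
      exact h1
    · exact Nat.zero_le _

theorem sum_asksIn_le {ι : Type} (s : Finset ι) [DecidableEq ι] (B : ι → Finset D)
    (hB : ∀ i ∈ s, ∀ j ∈ s, i ≠ j → Disjoint (B i) (B j)) (C : Finset D)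
    (hC : ∀ i ∈ s, B i ⊆ C) (f : D → Bool) (T : QAlg D Bool α) :
    ∑ i ∈ s, asksIn (B i) f T ≤ asksIn C f T := by
  induction T with
  | ret a => simp [asksIn_ret]
  | ask x k ih =>
    simp only [asksIn_ask]
    rw [Finset.sum_add_distrib]
    refine Nat.add_le_add ?_ (ih _)
    by_cases h : ∃ i ∈ s, x ∈ B i
    · obtain ⟨i, hi, hxi⟩ := h
      rw [if_pos (hC i hi hxi), Finset.sum_eq_single_of_mem i hi]
      · rw [if_pos hxi]
      · intro j hj hji
        rw [if_neg]
        intro hxj
        exact Finset.disjoint_left.mp (hB i hi j hj (Ne.symm hji)) hxi hxj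
    · rw [Finset.sum_eq_zero]
      · exact Nat.zero_le _
      · intro i hi
        rw [if_neg]
        intro hxi
        exact h ⟨i, hi, hxi⟩

theorem lrF_sq (S : Finset D) (T : QAlg D Bool α) {N : ℕ} (u : D → Option Bool)
    (hT : ∀ g : D → Bool, asksIn S (ovr g u) T ≤ N) :
    𝔼 g : D → Bool, lrF β σ S u T (ovr g u) ^ 2 ≤ (1 + β ^ 2) ^ N := by
  have h1β : (1 : ℝ) ≤ 1 + β ^ 2 := by nlinarith [sq_nonneg β]
  induction T generalizing u N with
  | ret a =>
    simp only [lrF_ret, one_pow, Fintype.expect_const]
    exact one_le_pow₀ h1β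
  | ask x k ih =>
    rcases hx : u x with _ | y
    · rw [expect_ovr_update hx (fun f => lrF β σ S u (.ask x k) f ^ 2)]
      have hstep : ∀ (y : Bool) (g : D → Bool), (if x ∈ S then 1 else 0) +
          asksIn S (ovr g (Function.update u x (some y))) (k y) ≤ N := by
        intro y g
        have h1 := hT (Function.update g x y)
        rw [ovr_update_of_none hx, asksIn_ask, ovr_update_self] at h1
        exact h1
      have h2 : ∀ y : Bool, 𝔼 g : D → Bool,
          lrF β σ S u (.ask x k) (ovr g (Function.update u x (some y))) ^ 2 =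
          (if x ∈ S then fc β (σ x) y ^ 2 else 1) * 𝔼 g : D → Bool,
            lrF β σ S (Function.update u x (some y)) (k y)
              (ovr g (Function.update u x (some y))) ^ 2 := by
        intro y
        rw [Finset.mul_expect]
        refine Finset.expect_congr rfl fun g _ => ?_
        rw [lrF_ask, ovr_update_self, mul_pow]
        by_cases hxS : x ∈ S <;> simp [hxS, hx]
      simp only [h2]
      by_cases hxS : x ∈ S
      · simp only [hxS, if_true] at hstep ⊢
        have hN : 1 ≤ N := (Nat.le_add_right 1 _).trans (hstep true (Classical.arbitrary _))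
        obtain ⟨N', rfl⟩ : ∃ N', N = N' + 1 := ⟨N - 1, by omega⟩
        calc 𝔼 y : Bool, fc β (σ x) y ^ 2 * 𝔼 g : D → Bool,
              lrF β σ S (Function.update u x (some y)) (k y)
                (ovr g (Function.update u x (some y))) ^ 2
            ≤ 𝔼 y : Bool, fc β (σ x) y ^ 2 * (1 + β ^ 2) ^ N' := by
              refine Finset.expect_le_expect fun y _ => ?_
              refine mul_le_mul_of_nonneg_left ?_ (sq_nonneg _)
              exact ih y _ fun g => by have := hstep y g; omega
          _ = (1 + β ^ 2) ^ (N' + 1) := by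
              rw [← Finset.expect_mul, expect_fc_sq]; ring
      · simp only [hxS, if_false, one_mul, zero_add] at hstep ⊢
        rw [← Fintype.expect_const (ι := Bool) ((1 + β ^ 2) ^ N)]
        exact Finset.expect_le_expect fun y _ => ih y _ (hstep y)
    · have h3 : ∀ g : D → Bool, lrF β σ S u (.ask x k) (ovr g u) = lrF β σ S u (k y) (ovr g u) := by
        intro g
        rw [lrF_ask, ovr_some hx, update_eq_self_of_some hx, hx]
        simp
      simp only [h3]
      refine ih y u fun g => ?_
      have := hT g
      rw [asksIn_ask, ovr_some hx] at this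
      omega

/-- the total variation distance between biased and unbiased bits for an algorithm with few
queries in `S` -/
theorem switch_le (S : Finset D) (T : QAlg D Bool α) {N : ℕ} (hT : ∀ f, asksIn S f T ≤ N)
    (ψ : α → ℝ) (hψ0 : ∀ a, 0 ≤ ψ a) (hψ1 : ∀ a, ψ a ≤ 1) :
    |𝔼 f : D → Bool, Lam β σ S f * ψ (T.run f) - 𝔼 f : D → Bool, ψ (T.run f)| ≤
      Real.sqrt ((1 + β ^ 2) ^ N - 1) := by
  have h1 := expect_Lam_run β σ S ψ T (fun _ => none)
  have h2 := expect_Lam_run β σ S (fun _ => 1) T (fun _ => none)
  have h3 := lrF_sq β σ S T (N := N) (fun _ => none) (fun g => hT _)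
  simp only [ovr_none, Finset.filter_true, mul_one] at h1 h2 h3
  rw [expect_Lam] at h2
  rw [h1, ← Finset.expect_sub_distrib]
  have h4 : 𝔼 f : D → Bool, (lrF β σ S (fun _ => none) T f - 1) ^ 2 ≤ (1 + β ^ 2) ^ N - 1 := by
    have h5 : ∀ f : D → Bool, (lrF β σ S (fun _ => none) T f - 1) ^ 2 =
        lrF β σ S (fun _ => none) T f ^ 2 - 2 * lrF β σ S (fun _ => none) T f + 1 :=
      fun f => by ring
    simp only [h5]
    rw [Finset.expect_add_distrib, Finset.expect_sub_distrib, Fintype.expect_const,
      ← Finset.mul_expect, ← h2]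
    linarith
  refine le_trans ?_ ((expect_abs_le fun f : D → Bool =>
    lrF β σ S (fun _ => none) T f - 1).trans (Real.sqrt_le_sqrt h4))
  refine (Finset.abs_expect_le _ _).trans (Finset.expect_le_expect fun f _ => ?_)
  have h6 : lrF β σ S (fun _ => none) T f * ψ (T.run f) - ψ (T.run f) =
      (lrF β σ S (fun _ => none) T f - 1) * ψ (T.run f) := by ring
  rw [h6, abs_mul, abs_of_nonneg (hψ0 _)]
  exact mul_le_of_le_one_right (abs_nonneg _) (hψ1 _)

/-- stop before the query number `Z + 1` in `S` -/
def trunc (S : Finset D) : ℕ → QAlg D Bool α → QAlg D Bool (Option α)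
  | _, .ret a => .ret (some a)
  | Z, .ask x k => if x ∈ S then
      (match Z with
        | 0 => .ret none
        | Z' + 1 => .ask x fun y => trunc S Z' (k y))
      else .ask x fun y => trunc S Z (k y)

theorem trunc_ret (S : Finset D) (Z : ℕ) (a : α) :
    trunc S Z (.ret a) = .ret (some a) := by cases Z <;> rfl
theorem trunc_ask_of_notMem (S : Finset D) (Z : ℕ) {x : D} (hx : x ∉ S)
    (k : Bool → QAlg D Bool α) : trunc S Z (.ask x k) = .ask x fun y => trunc S Z (k y) := by
  cases Z <;> simp [trunc, hx]
theorem trunc_ask_zero (S : Finset D) {x : D} (hx : x ∈ S)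
    (k : Bool → QAlg D Bool α) : trunc S 0 (.ask x k) = .ret none := by
  simp [trunc, hx]
theorem trunc_ask_succ (S : Finset D) (Z : ℕ) {x : D} (hx : x ∈ S)
    (k : Bool → QAlg D Bool α) :
    trunc S (Z + 1) (.ask x k) = .ask x fun y => trunc S Z (k y) := by
  simp [trunc, hx]

theorem asksIn_trunc (S : Finset D) (Z : ℕ) (f : D → Bool) (T : QAlg D Bool α) :
    asksIn S f (trunc S Z T) ≤ Z := by
  induction T generalizing Z with
  | ret a => rw [trunc_ret]; exact Nat.zero_le _
  | ask x k ih =>
    by_cases hx : x ∈ S
    · cases Z with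
      | zero => rw [trunc_ask_zero S hx]; exact Nat.zero_le _
      | succ Z =>
        rw [trunc_ask_succ S Z hx, asksIn_ask, if_pos hx]
        have := ih (f x) Z
        omega
    · rw [trunc_ask_of_notMem S Z hx, asksIn_ask, if_neg hx, zero_add]
      exact ih _ _

theorem run_trunc (S : Finset D) (Z : ℕ) (f : D → Bool) (T : QAlg D Bool α) :
    (trunc S Z T).run f = if asksIn S f T ≤ Z then some (T.run f) else none := by
  induction T generalizing Z with
  | ret a => rw [trunc_ret]; simp [asksIn_ret]
  | ask x k ih =>
    by_cases hx : x ∈ S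
    · cases Z with
      | zero => rw [trunc_ask_zero S hx]; simp [asksIn_ask, hx]
      | succ Z =>
        rw [trunc_ask_succ S Z hx, QAlg.run_ask, ih, asksIn_ask, if_pos hx, QAlg.run_ask]
        have h1 : (1 + asksIn S f (k (f x)) ≤ Z + 1) ↔ asksIn S f (k (f x)) ≤ Z := by omega
        by_cases h : asksIn S f (k (f x)) ≤ Z
        · rw [if_pos h, if_pos (h1.mpr h)]
        · rw [if_neg h, if_neg (fun h' => h (h1.mp h'))]
    · rw [trunc_ask_of_notMem S Z hx, QAlg.run_ask, ih, asksIn_ask, if_neg hx, zero_add,
        QAlg.run_ask]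

theorem asksIn_withAns_le (S : Finset D) (f : D → Bool) (w : D → Option Bool)
    (T : QAlg D Bool α) : asksIn S f (T.withAns w) ≤ asksIn S (ovr f w) T := by
  induction T with
  | ret a => exact le_rfl
  | ask x k ih =>
    rcases h : w x with _ | y
    · simp only [QAlg.withAns, h, asksIn_ask, ovr_of_none h]
      exact Nat.add_le_add_left (ih _) _
    · simp only [QAlg.withAns, h, asksIn_ask, ovr_some h]
      exact (ih _).trans (Nat.le_add_left _ _)

end LR

end Pool.Agent.PKE70
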