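import Pool.Agent.PKE70.LB2

/-!
# Lower bound: change of measure with weights and truncation
-/

set_option autoImplicit false
set_option linter.unusedSectionVars false

open scoped BigOperators

namespace Pool.Agent.PKE70

section Switch

variable {D α : Type} [Fintype D] [DecidableEq D] (β : ℝ) (σ : D → Bool)

/-- the restriction to the complement of `S` -/
def offS (S : Finset D) (g : D → Bool) : D → Option Bool := res Sᶜ g

theorem ovr_offS (S : Finset D) (g g' : D → Bool) (x : D) :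
    ovr g' (offS S g) x = if x ∈ S then g' x else g x := by
  rw [offS, ovr_res]
  by_cases h : x ∈ S <;> simp [h]

/-- resample the values on `S` -/
theorem expect_mix (S : Finset D) (ρ : (D → Bool) → ℝ)
    (hρ : ∀ f f', (∀ x, x ∉ S → f' x = f x) → ρ f' = ρ f) (X : (D → Bool) → ℝ) :
    𝔼 f : D → Bool, ρ f * X f =
      𝔼 f : D → Bool, ρ f * 𝔼 g : D → Bool, X (ovr g (offS S f)) := by
  have h1 := resample (D := D) (R := Bool) (fun _ => Sᶜ) (fun _ _ _ => rfl)
    (fun g h => ρ g * X h)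
    (by
      intro g g' h hg
      rw [hρ g g' fun x hx => hg x (by simp [hx])])
  rw [h1]
  refine Finset.expect_congr rfl fun g _ => ?_
  rw [← Finset.mul_expect]
  congr 1
  refine Finset.expect_congr rfl fun g' _ => ?_
  congr 1
  funext x
  rw [ovr_offS]
  by_cases h : x ∈ S <;> simp [h]

/-- the density on `S` is independent of everything outside `S` -/
theorem expect_mul_Lam (S : Finset D) (ρ : (D → Bool) → ℝ)
    (hρ : ∀ f f', (∀ x, x ∉ S → f' x = f x) → ρ f' = ρ f) :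
    𝔼 f : D → Bool, ρ f * Lam β σ S f = 𝔼 f : D → Bool, ρ f := by
  rw [expect_mix S ρ hρ]
  refine Finset.expect_congr rfl fun f _ => ?_
  have : 𝔼 g : D → Bool, Lam β σ S (ovr g (offS S f)) = 1 := by
    rw [← expect_Lam β σ S]
    refine Finset.expect_congr rfl fun g _ => Lam_congr β σ fun x hx => ?_
    rw [ovr_offS, if_pos hx]
  rw [this, mul_one]

theorem switch_one (S : Finset D) (T : QAlg D Bool α) (Z : ℕ) (ψ : α → ℝ) (hψ0 : ∀ a, 0 ≤ ψ a)
    (hψ1 : ∀ a, ψ a ≤ 1) (hβ0 : 0 ≤ β) (hβ1 : β ≤ 1) :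
    𝔼 f : D → Bool, Lam β σ S f * ψ (T.run f) ≤ 𝔼 f : D → Bool, ψ (T.run f) +
      𝔼 f : D → Bool, (if Z < asksIn S f T then (1 : ℝ) else 0) +
      Real.sqrt ((1 + β ^ 2) ^ Z - 1) := by
  let ψ' : Option α → ℝ := fun o => o.elim 1 ψ
  have h0 : ∀ o, 0 ≤ ψ' o := fun o => by cases o <;> simp [ψ', hψ0]
  have h1 : ∀ o, ψ' o ≤ 1 := fun o => by cases o <;> simp [ψ', hψ1]
  have h2 := (abs_le.mp (switch_le β σ S (trunc S Z T) (fun f => asksIn_trunc S Z f T)
    ψ' h0 h1)).2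
  have h3 : 𝔼 f : D → Bool, Lam β σ S f * ψ (T.run f) ≤
      𝔼 f : D → Bool, Lam β σ S f * ψ' ((trunc S Z T).run f) := by
    refine Finset.expect_le_expect fun f _ => mul_le_mul_of_nonneg_left ?_
      (Lam_nonneg σ hβ0 hβ1 S f)
    rw [run_trunc]
    split_ifs
    · exact le_rfl
    · exact hψ1 _
  have h4 : 𝔼 f : D → Bool, ψ' ((trunc S Z T).run f) ≤ 𝔼 f : D → Bool, ψ (T.run f) +
      𝔼 f : D → Bool, (if Z < asksIn S f T then (1 : ℝ) else 0) := by
    rw [← Finset.expect_add_distrib]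
    refine Finset.expect_le_expect fun f _ => ?_
    rw [run_trunc]
    by_cases h : asksIn S f T ≤ Z
    · rw [if_pos h, if_neg (by omega)]
      simp [ψ']
    · rw [if_neg h, if_pos (by omega)]
      have := hψ0 (T.run f)
      simp [ψ']
      exact this
  linarith

theorem switch_one' (S : Finset D) (T : QAlg D Bool α) (Z : ℕ) (ψ : α → ℝ) (hψ0 : ∀ a, 0 ≤ ψ a)
    (hψ1 : ∀ a, ψ a ≤ 1) (hβ0 : 0 ≤ β) (hβ1 : β ≤ 1) :
    𝔼 f : D → Bool, ψ (T.run f) ≤ 𝔼 f : D → Bool, Lam β σ S f * ψ (T.run f) +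
      𝔼 f : D → Bool, (if Z < asksIn S f T then (1 : ℝ) else 0) +
      Real.sqrt ((1 + β ^ 2) ^ Z - 1) := by
  let ψ' : Option α → ℝ := fun o => o.elim 0 ψ
  have h0 : ∀ o, 0 ≤ ψ' o := fun o => by cases o <;> simp [ψ', hψ0]
  have h1 : ∀ o, ψ' o ≤ 1 := fun o => by cases o <;> simp [ψ', hψ1]
  have h2 := (abs_le.mp (switch_le β σ S (trunc S Z T) (fun f => asksIn_trunc S Z f T)
    ψ' h0 h1)).1
  have h3 : 𝔼 f : D → Bool, Lam β σ S f * ψ' ((trunc S Z T).run f) ≤
      𝔼 f : D → Bool, Lam β σ S f * ψ (T.run f) := by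
    refine Finset.expect_le_expect fun f _ => mul_le_mul_of_nonneg_left ?_
      (Lam_nonneg σ hβ0 hβ1 S f)
    rw [run_trunc]
    split_ifs
    · exact le_rfl
    · exact hψ0 _
  have h4 : 𝔼 f : D → Bool, ψ (T.run f) ≤ 𝔼 f : D → Bool, ψ' ((trunc S Z T).run f) +
      𝔼 f : D → Bool, (if Z < asksIn S f T then (1 : ℝ) else 0) := by
    rw [← Finset.expect_add_distrib]
    refine Finset.expect_le_expect fun f _ => ?_
    rw [run_trunc]
    by_cases h : asksIn S f T ≤ Z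
    · rw [if_pos h, if_neg (by omega)]
      simp [ψ']
    · rw [if_neg h, if_pos (by omega)]
      have := hψ1 (T.run f)
      simp [ψ']
      exact this
  linarith

/-- change of measure with a weight that does not depend on the values on `S` -/
theorem switch_weight (S : Finset D) (ρ : (D → Bool) → ℝ) (hρ0 : ∀ f, 0 ≤ ρ f)
    (hρ : ∀ f f', (∀ x, x ∉ S → f' x = f x) → ρ f' = ρ f) (T : QAlg D Bool α) (Z : ℕ)
    (ψ : α → ℝ) (hψ0 : ∀ a, 0 ≤ ψ a) (hψ1 : ∀ a, ψ a ≤ 1) (hβ0 : 0 ≤ β) (hβ1 : β ≤ 1) :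
    𝔼 f : D → Bool, ρ f * (Lam β σ S f * ψ (T.run f)) ≤ 𝔼 f : D → Bool, ρ f * ψ (T.run f) +
      𝔼 f : D → Bool, ρ f * (if Z < asksIn S f T then (1 : ℝ) else 0) +
      (𝔼 f : D → Bool, ρ f) * Real.sqrt ((1 + β ^ 2) ^ Z - 1) := by
  rw [expect_mix S ρ hρ (fun f => Lam β σ S f * ψ (T.run f)),
    expect_mix S ρ hρ (fun f => ψ (T.run f)),
    expect_mix S ρ hρ (fun f => if Z < asksIn S f T then (1 : ℝ) else 0),
    Finset.expect_mul, ← Finset.expect_add_distrib, ← Finset.expect_add_distrib]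
  refine Finset.expect_le_expect fun f _ => ?_
  rw [← mul_add, ← mul_add]
  refine mul_le_mul_of_nonneg_left ?_ (hρ0 f)
  have h1 := switch_one β σ S (T.withAns (offS S f)) Z ψ hψ0 hψ1 hβ0 hβ1
  have h2 : 𝔼 g : D → Bool, Lam β σ S g * ψ ((T.withAns (offS S f)).run g) =
      𝔼 g : D → Bool, Lam β σ S (ovr g (offS S f)) * ψ (T.run (ovr g (offS S f))) := by
    refine Finset.expect_congr rfl fun g _ => ?_
    rw [QAlg.run_withAns]
    congr 1
    refine (Lam_congr β σ fun x hx => ?_).symm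
    rw [ovr_offS, if_pos hx]
  have h3 : 𝔼 g : D → Bool, ψ ((T.withAns (offS S f)).run g) =
      𝔼 g : D → Bool, ψ (T.run (ovr g (offS S f))) :=
    Finset.expect_congr rfl fun g _ => by rw [QAlg.run_withAns]
  have h4 : 𝔼 g : D → Bool, (if Z < asksIn S g (T.withAns (offS S f)) then (1 : ℝ) else 0) ≤
      𝔼 g : D → Bool, (if Z < asksIn S (ovr g (offS S f)) T then (1 : ℝ) else 0) := by
    refine Finset.expect_le_expect fun g _ => ?_
    have := asksIn_withAns_le S g (offS S f) T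
    by_cases h5 : Z < asksIn S g (T.withAns (offS S f))
    · rw [if_pos h5, if_pos (lt_of_lt_of_le h5 this)]
    · rw [if_neg h5]
      split_ifs <;> norm_num
  rw [h2, h3] at h1
  linarith

theorem switch_weight' (S : Finset D) (ρ : (D → Bool) → ℝ) (hρ0 : ∀ f, 0 ≤ ρ f)
    (hρ : ∀ f f', (∀ x, x ∉ S → f' x = f x) → ρ f' = ρ f) (T : QAlg D Bool α) (Z : ℕ)
    (ψ : α → ℝ) (hψ0 : ∀ a, 0 ≤ ψ a) (hψ1 : ∀ a, ψ a ≤ 1) (hβ0 : 0 ≤ β) (hβ1 : β ≤ 1) :
    𝔼 f : D → Bool, ρ f * ψ (T.run f) ≤ 𝔼 f : D → Bool, ρ f * (Lam β σ S f * ψ (T.run f)) +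
      𝔼 f : D → Bool, ρ f * (if Z < asksIn S f T then (1 : ℝ) else 0) +
      (𝔼 f : D → Bool, ρ f) * Real.sqrt ((1 + β ^ 2) ^ Z - 1) := by
  rw [expect_mix S ρ hρ (fun f => Lam β σ S f * ψ (T.run f)),
    expect_mix S ρ hρ (fun f => ψ (T.run f)),
    expect_mix S ρ hρ (fun f => if Z < asksIn S f T then (1 : ℝ) else 0),
    Finset.expect_mul, ← Finset.expect_add_distrib, ← Finset.expect_add_distrib]
  refine Finset.expect_le_expect fun f _ => ?_
  rw [← mul_add, ← mul_add]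
  refine mul_le_mul_of_nonneg_left ?_ (hρ0 f)
  have h1 := switch_one' β σ S (T.withAns (offS S f)) Z ψ hψ0 hψ1 hβ0 hβ1
  have h2 : 𝔼 g : D → Bool, Lam β σ S g * ψ ((T.withAns (offS S f)).run g) =
      𝔼 g : D → Bool, Lam β σ S (ovr g (offS S f)) * ψ (T.run (ovr g (offS S f))) := by
    refine Finset.expect_congr rfl fun g _ => ?_
    rw [QAlg.run_withAns]
    congr 1
    refine (Lam_congr β σ fun x hx => ?_).symm
    rw [ovr_offS, if_pos hx]
  have h3 : 𝔼 g : D → Bool, ψ ((T.withAns (offS S f)).run g) =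
      𝔼 g : D → Bool, ψ (T.run (ovr g (offS S f))) :=
    Finset.expect_congr rfl fun g _ => by rw [QAlg.run_withAns]
  have h4 : 𝔼 g : D → Bool, (if Z < asksIn S g (T.withAns (offS S f)) then (1 : ℝ) else 0) ≤
      𝔼 g : D → Bool, (if Z < asksIn S (ovr g (offS S f)) T then (1 : ℝ) else 0) := by
    refine Finset.expect_le_expect fun g _ => ?_
    have := asksIn_withAns_le S g (offS S f) T
    by_cases h5 : Z < asksIn S g (T.withAns (offS S f))
    · rw [if_pos h5, if_pos (lt_of_lt_of_le h5 this)]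
    · rw [if_neg h5]
      split_ifs <;> norm_num
  rw [h2, h3] at h1
  linarith

end Switch

end Pool.Agent.PKE70
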