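import Pool.Agent.PKE70.LB2

/-!
# Lower bound: a code whose biased product measures cover the uniform measure
-/

set_option autoImplicit false
set_option linter.unusedSectionVars false

open scoped BigOperators

namespace Pool.Agent.PKE70

section Code

variable {I Kc : Type} [Fintype I] [DecidableEq I] [Fintype Kc] [DecidableEq Kc] [Nonempty Kc]

/-- density of the product measure biased against `s` -/
noncomputable def LamB (β : ℝ) (s y : I → Bool) : ℝ := ∏ i, fc β (s i) (y i)

theorem LamB_nonneg {β : ℝ} (h0 : 0 ≤ β) (h1 : β ≤ 1) (s y : I → Bool) : 0 ≤ LamB β s y :=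
  Finset.prod_nonneg fun _ _ => fc_nonneg h0 h1 _ _

/-- density of the mixture over the code -/
noncomputable def Wt (β : ℝ) (s : Kc → I → Bool) (y : I → Bool) : ℝ := 𝔼 κ : Kc, LamB β (s κ) y

theorem expect_LamB (β : ℝ) (s : I → Bool) : 𝔼 y : I → Bool, LamB β s y = 1 := by
  unfold LamB
  rw [expect_pi_prod (fun i y => fc β (s i) y)]
  exact Finset.prod_eq_one fun i _ => expect_fc _ _

theorem expect_Wt (β : ℝ) (s : Kc → I → Bool) : 𝔼 y : I → Bool, Wt β s y = 1 := by
  unfold Wt
  rw [Finset.expect_comm]
  simp only [expect_LamB]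
  exact Fintype.expect_const _

theorem fc_comm (β : ℝ) (s y : Bool) : fc β s y = fc β y s := by
  unfold fc
  by_cases h : y = s
  · rw [if_pos h, if_pos h.symm]
  · rw [if_neg h, if_neg fun h' => h h'.symm]

theorem expect_LamB_left (β : ℝ) (y : I → Bool) : 𝔼 s : I → Bool, LamB β s y = 1 := by
  unfold LamB
  rw [expect_pi_prod (fun i s => fc β s (y i))]
  refine Finset.prod_eq_one fun i _ => ?_
  simp only [fc_comm β _ (y i)]
  exact expect_fc _ _

theorem expect_LamB_left_sq (β : ℝ) (y : I → Bool) :
    𝔼 s : I → Bool, LamB β s y * LamB β s y = (1 + β ^ 2) ^ Fintype.card I := by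
  unfold LamB
  simp only [← Finset.prod_mul_distrib]
  rw [expect_pi_prod (fun i s => fc β s (y i) * fc β s (y i))]
  have : ∀ i, 𝔼 s : Bool, fc β s (y i) * fc β s (y i) = 1 + β ^ 2 := by
    intro i
    simp only [fc_comm β _ (y i), ← pow_two]
    exact expect_fc_sq _ _
  simp only [this]
  rw [Finset.prod_const, Finset.card_univ]

theorem expect_code (β : ℝ) (y : I → Bool) (κ κ' : Kc) :
    𝔼 s : Kc → I → Bool, LamB β (s κ) y * LamB β (s κ') y =
      if κ = κ' then (1 + β ^ 2) ^ Fintype.card I else 1 := by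
  have h1 : ∀ s : Kc → I → Bool, LamB β (s κ) y * LamB β (s κ') y =
      ∏ j, ((if j = κ then LamB β (s j) y else 1) * (if j = κ' then LamB β (s j) y else 1)) := by
    intro s
    rw [Finset.prod_mul_distrib, Finset.prod_ite_eq', Finset.prod_ite_eq']
    simp
  simp only [h1]
  rw [expect_pi_prod (fun j z => (if j = κ then LamB β z y else 1) *
    (if j = κ' then LamB β z y else 1))]
  split_ifs with h
  · subst h
    have h2 : ∀ j : Kc, 𝔼 z : I → Bool, ((if j = κ then LamB β z y else 1) *
        (if j = κ then LamB β z y else 1)) =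
        if j = κ then (1 + β ^ 2) ^ Fintype.card I else 1 := by
      intro j
      by_cases hj : j = κ
      · simp only [hj, if_true]
        exact expect_LamB_left_sq β y
      · simp only [hj, if_false, mul_one]
        exact Fintype.expect_const _
    simp only [h2]
    rw [Finset.prod_ite_eq']
    simp
  · refine Finset.prod_eq_one fun j _ => ?_
    by_cases hj : j = κ
    · have hj' : j ≠ κ' := fun h' => h (hj ▸ h')
      simp only [hj, if_true, if_neg h, mul_one]
      exact expect_LamB_left β y
    · by_cases hj' : j = κ'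
      · simp only [hj', if_true, if_neg (Ne.symm h), one_mul]
        exact expect_LamB_left β y
      · simp only [hj, hj', if_false, mul_one]
        exact Fintype.expect_const _

/-- **Soft covering** -/
theorem exists_code (β : ℝ) : ∃ s : Kc → I → Bool,
    𝔼 y : I → Bool, Wt β s y ^ 2 ≤ 1 + (1 + β ^ 2) ^ Fintype.card I / Fintype.card Kc := by
  by_contra hcon
  push Not at hcon
  have h1 : 1 + (1 + β ^ 2) ^ Fintype.card I / Fintype.card Kc <
      𝔼 s : Kc → I → Bool, 𝔼 y : I → Bool, Wt β s y ^ 2 := by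
    rw [← Fintype.expect_const (ι := Kc → I → Bool)
      (1 + (1 + β ^ 2) ^ Fintype.card I / Fintype.card Kc)]
    exact Finset.expect_lt_expect (fun s _ => (hcon s).le)
      ⟨Classical.arbitrary _, Finset.mem_univ _, hcon _⟩
  have h2 : 𝔼 s : Kc → I → Bool, 𝔼 y : I → Bool, Wt β s y ^ 2 =
      𝔼 y : I → Bool, 𝔼 κ : Kc, 𝔼 κ' : Kc,
        (if κ = κ' then (1 + β ^ 2) ^ Fintype.card I else 1 : ℝ) := by
    rw [Finset.expect_comm]
    refine Finset.expect_congr rfl fun y _ => ?_
    have h3 : ∀ s : Kc → I → Bool, Wt β s y ^ 2 =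
        𝔼 κ : Kc, 𝔼 κ' : Kc, LamB β (s κ) y * LamB β (s κ') y := by
      intro s
      rw [pow_two, Wt, Finset.expect_mul]
      refine Finset.expect_congr rfl fun κ _ => ?_
      rw [Finset.mul_expect]
    simp only [h3]
    rw [Finset.expect_comm]
    refine Finset.expect_congr rfl fun κ _ => ?_
    rw [Finset.expect_comm]
    exact Finset.expect_congr rfl fun κ' _ => expect_code β y κ κ'
  rw [h2, Fintype.expect_const] at h1
  have h4 : 𝔼 κ : Kc, 𝔼 κ' : Kc, (if κ = κ' then (1 + β ^ 2) ^ Fintype.card I else 1 : ℝ) ≤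
      1 + (1 + β ^ 2) ^ Fintype.card I / Fintype.card Kc := by
    refine Finset.expect_le Finset.univ_nonempty fun κ _ => ?_
    have h5 : ∀ κ' : Kc, (if κ = κ' then (1 + β ^ 2) ^ Fintype.card I else 1 : ℝ) ≤
        1 + (1 + β ^ 2) ^ Fintype.card I * (if κ = κ' then 1 else 0) := by
      intro κ'
      split_ifs <;> simp
    refine (Finset.expect_le_expect fun κ' _ => h5 κ').trans (le_of_eq ?_)
    rw [Finset.expect_add_distrib, Fintype.expect_const, ← Finset.mul_expect,
      Fintype.expect_eq_sum_div_card]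
    simp
    ring
  exact absurd h1 (not_lt.mpr h4)

end Code

end Pool.Agent.PKE70
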