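import Pool.Agent.PKE70.LB4

/-!
# Lower bound: sampling the index of the codeword with uniform coins
-/

set_option autoImplicit false
set_option linter.unusedSectionVars false

open scoped BigOperators

namespace Pool.Agent.PKE70

section Sampler

variable {I Kc : Type} [Fintype I] [DecidableEq I] [Fintype Kc] [DecidableEq Kc] [Nonempty Kc]

/-- integer weights -/
def wtN (M : ℕ) (s y : I → Bool) : ℕ := ∏ i, if y i = s i then M - 1 else M + 1

theorem wtN_pos {M : ℕ} (hM : 2 ≤ M) (s y : I → Bool) : 0 < wtN M s y :=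
  Finset.prod_pos fun i _ => by split_ifs <;> omega

theorem wtN_eq {M : ℕ} (hM : 2 ≤ M) (s y : I → Bool) :
    (wtN M s y : ℝ) = (M : ℝ) ^ Fintype.card I * LamB (1 / M) s y := by
  have hM0 : (M : ℝ) ≠ 0 := by positivity
  rw [wtN, LamB, ← Finset.card_univ, ← Finset.prod_const, ← Finset.prod_mul_distrib]
  push_cast
  refine Finset.prod_congr rfl fun i _ => ?_
  unfold fc
  split_ifs
  · rw [Nat.cast_sub (by omega)]
    push_cast
    field_simp
  · field_simp

/-- coins of the sampler: for every block a codeword index with a ticket -/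
abbrev Coin (M : ℕ) (s : Kc → I → Bool) : Type :=
  (y : I → Bool) → (κ : Kc) × Fin (wtN M (s κ) y)

theorem nonempty_coin {M : ℕ} (hM : 2 ≤ M) (s : Kc → I → Bool) : Nonempty (Coin M s) :=
  ⟨fun _ => ⟨Classical.arbitrary Kc, ⟨0, wtN_pos hM _ _⟩⟩⟩

theorem LamB_pos {M : ℕ} (hM : 2 ≤ M) (s y : I → Bool) : 0 < LamB (1 / (M : ℝ)) s y := by
  refine Finset.prod_pos fun i _ => ?_
  have h1 : (1 : ℝ) / M ≤ 1 / 2 := by
    have : (2 : ℝ) ≤ M := by exact_mod_cast hM
    gcongr
  have h2 : (0 : ℝ) < 1 / M := by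
    have : (0 : ℝ) < M := by positivity
    positivity
  unfold fc
  split_ifs <;> linarith

theorem Wt_pos {M : ℕ} (hM : 2 ≤ M) (s : Kc → I → Bool) (y : I → Bool) :
    0 < Wt (1 / (M : ℝ)) s y :=
  Finset.expect_pos (fun _ _ => LamB_pos hM _ _) Finset.univ_nonempty

theorem expect_coin {M : ℕ} (hM : 2 ≤ M) (s : Kc → I → Bool) (y : I → Bool) (g : Kc → ℝ) :
    𝔼 ω : Coin M s, g (ω y).1 =
      𝔼 κ : Kc, LamB (1 / (M : ℝ)) (s κ) y / Wt (1 / (M : ℝ)) s y * g κ := by
  have hne : ∀ y : I → Bool, Nonempty ((κ : Kc) × Fin (wtN M (s κ) y)) :=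
    fun y => ⟨⟨Classical.arbitrary Kc, ⟨0, wtN_pos hM _ _⟩⟩⟩
  have h1 := expect_pi_apply (α := fun y : I → Bool => (κ : Kc) × Fin (wtN M (s κ) y)) y
    (fun z => g z.1)
  rw [h1, Fintype.expect_eq_sum_div_card, Fintype.sum_sigma, Fintype.card_sigma]
  simp only [Finset.sum_const, Finset.card_univ, Fintype.card_fin, nsmul_eq_mul]
  push_cast
  simp only [wtN_eq hM]
  have hM0 : (M : ℝ) ^ Fintype.card I ≠ 0 := by positivity
  have hW := Wt_pos hM s y
  have hK : (Fintype.card Kc : ℝ) ≠ 0 := by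
    have : 0 < Fintype.card Kc := Fintype.card_pos
    positivity
  have h2 : Wt (1 / (M : ℝ)) s y = (∑ κ, LamB (1 / (M : ℝ)) (s κ) y) / Fintype.card Kc := by
    rw [Wt, Fintype.expect_eq_sum_div_card]
  have hS : ∑ κ, LamB (1 / (M : ℝ)) (s κ) y ≠ 0 := by
    intro h
    rw [h, zero_div] at h2
    exact hW.ne' h2
  rw [Fintype.expect_eq_sum_div_card, h2, ← Finset.mul_sum]
  simp only [mul_assoc]
  rw [← Finset.mul_sum, mul_div_mul_left _ _ hM0]
  have h3 : ∀ κ, LamB (1 / (M : ℝ)) (s κ) y / ((∑ κ, LamB (1 / (M : ℝ)) (s κ) y) /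
      Fintype.card Kc) * g κ = Fintype.card Kc / (∑ κ, LamB (1 / (M : ℝ)) (s κ) y) *
        (LamB (1 / (M : ℝ)) (s κ) y * g κ) := by
    intro κ
    field_simp
  simp only [h3]
  rw [← Finset.mul_sum]
  field_simp

/-- the joint law of the codeword indices of all classes -/
theorem expect_coins_pi {A : Type} [Fintype A] [DecidableEq A] {M : ℕ} (hM : 2 ≤ M)
    (s : Kc → I → Bool) (y : A → I → Bool) (G : (A → Kc) → ℝ) :
    𝔼 ω : A → Coin M s, G (fun a => (ω a (y a)).1) =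
      𝔼 κ : A → Kc, (∏ a, LamB (1 / (M : ℝ)) (s (κ a)) (y a) / Wt (1 / (M : ℝ)) s (y a)) *
        G κ := by
  have h1 : ∀ κ' : A → Kc, G κ' = ∑ κ : A → Kc, (∏ a, if κ' a = κ a then (1 : ℝ) else 0) * G κ := by
    intro κ'
    rw [Finset.sum_eq_single κ']
    · simp
    · intro κ _ hκ
      have : ∃ a, κ' a ≠ κ a := by
        by_contra hcon
        push Not at hcon
        exact hκ (funext fun a => (hcon a).symm)
      obtain ⟨a, ha⟩ := this
      rw [Finset.prod_eq_zero (Finset.mem_univ a) (if_neg ha), zero_mul]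
    · simp
  have h2 : 𝔼 ω : A → Coin M s, G (fun a => (ω a (y a)).1) =
      ∑ κ : A → Kc, (∏ a, 𝔼 ω₁ : Coin M s, if (ω₁ (y a)).1 = κ a then (1 : ℝ) else 0) * G κ := by
    rw [Finset.expect_congr rfl (fun ω _ => h1 (fun a => (ω a (y a)).1)),
      Finset.expect_sum_comm]
    refine Finset.sum_congr rfl fun κ _ => ?_
    rw [← Finset.expect_mul]
    congr 1
    exact expect_pi_prod (fun a (ω₁ : Coin M s) => if (ω₁ (y a)).1 = κ a then (1 : ℝ) else 0)
  rw [h2, Fintype.expect_eq_sum_div_card, Finset.sum_div]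
  refine Finset.sum_congr rfl fun κ _ => ?_
  have h3 : ∀ a, 𝔼 ω₁ : Coin M s, (if (ω₁ (y a)).1 = κ a then (1 : ℝ) else 0) =
      LamB (1 / (M : ℝ)) (s (κ a)) (y a) / Wt (1 / (M : ℝ)) s (y a) / Fintype.card Kc := by
    intro a
    rw [expect_coin hM s (y a) (fun κ₁ => if κ₁ = κ a then (1 : ℝ) else 0),
      Fintype.expect_eq_sum_div_card]
    simp
  simp only [h3]
  rw [Finset.prod_div_distrib, Finset.prod_const, Finset.card_univ, Fintype.card_fun]
  push_cast
  ring

end Sampler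

end Pool.Agent.PKE70
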