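import Pool.Agent.PKE70.LB1

/-!
# Lower bound: picking random agreements, leftover hashing, independent entries
-/

set_option autoImplicit false
set_option linter.unusedSectionVars false

open scoped BigOperators

namespace Pool.Agent.PKE70

section Pick

variable {I : Type} [Fintype I] [DecidableEq I] [Nonempty I]

/-- the first of the points that satisfies `P`, else the last point -/
def pick (P : I → Bool) : (T : ℕ) → (Fin (T + 1) → I) → I
  | 0, p => p 0
  | T + 1, p => if P (p 0) then p 0 else pick P T fun j => p j.succ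

theorem pick_congr {P P' : I → Bool} (T : ℕ) (p : Fin (T + 1) → I)
    (h : ∀ j, P' (p j) = P (p j)) : pick P' T p = pick P T p := by
  induction T with
  | zero => rfl
  | succ T ih =>
    rw [pick, pick, h 0, ih _ fun j => h j.succ]

theorem expect_fin_succ {R : Type} [Fintype R] (n : ℕ) (F : (Fin (n + 1) → R) → ℝ) :
    𝔼 p : Fin (n + 1) → R, F p = 𝔼 i : R, 𝔼 p : Fin n → R, F (Fin.cons i p) := by
  rw [← expect_prod_type (fun q : R × (Fin n → R) => F (Fin.cons q.1 q.2))]
  exact (Fintype.expect_equiv (Fin.consEquiv fun _ => R) _ _ fun q => rfl).symm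

/-- number of points that satisfy `P` -/
def cnt (P : I → Bool) : ℕ := (Finset.univ.filter fun i => P i = true).card

theorem expect_P (P : I → Bool) :
    𝔼 i : I, (if P i = true then (1 : ℝ) else 0) = cnt P / Fintype.card I := by
  rw [Fintype.expect_eq_sum_div_card, cnt]
  simp

theorem expect_not_P (P : I → Bool) :
    𝔼 i : I, (if P i = true then (0 : ℝ) else 1) = 1 - cnt P / Fintype.card I := by
  have h : ∀ i, (if P i = true then (0 : ℝ) else 1) = 1 - (if P i = true then (1 : ℝ) else 0) := by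
    intro i; split_ifs <;> norm_num
  simp only [h]
  rw [Finset.expect_sub_distrib, Fintype.expect_const, expect_P]

theorem cnt_le_card (P : I → Bool) : cnt P ≤ Fintype.card I := Finset.card_filter_le _ _

theorem prob_pick_le (P : I → Bool) (hP : 0 < cnt P) (T : ℕ) (i : I) :
    𝔼 p : Fin (T + 1) → I, (if pick P T p = i then (1 : ℝ) else 0) ≤ 1 / cnt P := by
  have hN : (0 : ℝ) < cnt P := by exact_mod_cast hP
  have hn : (0 : ℝ) < Fintype.card I := by exact_mod_cast Fintype.card_pos
  have hNn : (cnt P : ℝ) ≤ Fintype.card I := by exact_mod_cast cnt_le_card P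
  have hi : 𝔼 i₀ : I, (if i₀ = i then (1 : ℝ) else 0) = 1 / Fintype.card I := by
    rw [Fintype.expect_eq_sum_div_card]; simp
  induction T with
  | zero =>
    rw [expect_fin_succ]
    have : ∀ i₀ : I, 𝔼 p : Fin 0 → I, (if pick P 0 (Fin.cons i₀ p) = i then (1 : ℝ) else 0) =
        if i₀ = i then 1 else 0 := by
      intro i₀
      simp only [pick, Fin.cons_zero]
      exact Fintype.expect_const _
    simp only [this]
    rw [hi]
    gcongr
  | succ T ih =>
    rw [expect_fin_succ]
    have h1 : ∀ i₀ : I, 𝔼 p : Fin (T + 1) → I,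
        (if pick P (T + 1) (Fin.cons i₀ p) = i then (1 : ℝ) else 0) ≤
        (if i₀ = i then 1 else 0) + (if P i₀ = true then (0 : ℝ) else 1) * (1 / cnt P) := by
      intro i₀
      by_cases h : P i₀ = true
      · simp only [pick, Fin.cons_zero, h, if_true, zero_mul, add_zero]
        rw [Fintype.expect_const]
      · have h' : P i₀ = false := by simpa using h
        simp only [pick, Fin.cons_zero, h', Bool.false_eq_true, if_false, one_mul, Fin.cons_succ]
        refine ih.trans ?_
        split_ifs <;> linarith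
    refine (Finset.expect_le_expect fun i₀ _ => h1 i₀).trans (le_of_eq ?_)
    rw [Finset.expect_add_distrib, ← Finset.expect_mul, hi, expect_not_P]
    field_simp
    ring

theorem prob_pick_fail (P : I → Bool) (T : ℕ) :
    𝔼 p : Fin (T + 1) → I, (if P (pick P T p) = true then (0 : ℝ) else 1) =
      (1 - cnt P / Fintype.card I) ^ (T + 1) := by
  induction T with
  | zero =>
    rw [expect_fin_succ]
    have : ∀ i₀ : I, 𝔼 p : Fin 0 → I, (if P (pick P 0 (Fin.cons i₀ p)) = true then (0 : ℝ) else 1) =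
        if P i₀ = true then 0 else 1 := by
      intro i₀
      simp only [pick, Fin.cons_zero]
      exact Fintype.expect_const _
    simp only [this]
    rw [expect_not_P]
    ring
  | succ T ih =>
    rw [expect_fin_succ]
    have h1 : ∀ i₀ : I, 𝔼 p : Fin (T + 1) → I,
        (if P (pick P (T + 1) (Fin.cons i₀ p)) = true then (0 : ℝ) else 1) =
        (if P i₀ = true then (0 : ℝ) else 1) * (1 - cnt P / Fintype.card I) ^ (T + 1) := by
      intro i₀
      by_cases h : P i₀ = true
      · simp only [pick, Fin.cons_zero, h, if_true, zero_mul]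
        exact Fintype.expect_const _
      · have h' : P i₀ = false := by simpa using h
        simp only [pick, Fin.cons_zero, h', Bool.false_eq_true, if_false, one_mul, Fin.cons_succ]
        exact ih
    simp only [h1]
    rw [← Finset.expect_mul, expect_not_P]
    ring

/-- a sequence of picks hits a given sequence with small probability -/
theorem prob_picks_le (P : I → Bool) (hP : 0 < cnt P) (T l : ℕ) (x : Fin l → I) :
    𝔼 p : Fin l → Fin (T + 1) → I, (if (fun j => pick P T (p j)) = x then (1 : ℝ) else 0) ≤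
      (1 / cnt P) ^ l := by
  have h1 : ∀ p : Fin l → Fin (T + 1) → I,
      (if (fun j => pick P T (p j)) = x then (1 : ℝ) else 0) =
      ∏ j, (if pick P T (p j) = x j then (1 : ℝ) else 0) := by
    intro p
    by_cases h : (fun j => pick P T (p j)) = x
    · rw [if_pos h]
      refine (Finset.prod_eq_one fun j _ => ?_).symm
      rw [if_pos (congrFun h j)]
    · rw [if_neg h]
      have : ∃ j, pick P T (p j) ≠ x j := by
        by_contra hcon
        push Not at hcon
        exact h (funext hcon)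
      obtain ⟨j, hj⟩ := this
      exact (Finset.prod_eq_zero (Finset.mem_univ j) (if_neg hj)).symm
  simp only [h1]
  rw [expect_pi_prod (fun j q => if pick P T q = x j then (1 : ℝ) else 0)]
  calc ∏ j, 𝔼 q : Fin (T + 1) → I, (if pick P T q = x j then (1 : ℝ) else 0)
      ≤ ∏ _j : Fin l, (1 / (cnt P : ℝ)) := by
        refine Finset.prod_le_prod (fun j _ => ?_) fun j _ => prob_pick_le P hP T (x j)
        exact Finset.expect_nonneg fun _ _ => by split_ifs <;> norm_num
    _ = (1 / cnt P) ^ l := by simp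

end Pick

section LHL

variable {Ωp 𝒳 R' : Type} [Fintype Ωp] [Nonempty Ωp] [Fintype 𝒳] [DecidableEq 𝒳] [Fintype R']
  [DecidableEq R'] [Nonempty R']

theorem expect_hash_eq {x x' : 𝒳} (h : x ≠ x') :
    𝔼 H : 𝒳 → R', (if H x = H x' then (1 : ℝ) else 0) = 1 / Fintype.card R' := by
  rw [← expect_update x]
  simp only [Function.update_self, Function.update_of_ne (Ne.symm h)]
  have : ∀ H : 𝒳 → R', 𝔼 y : R', (if y = H x' then (1 : ℝ) else 0) = 1 / Fintype.card R' := by
    intro H
    rw [Fintype.expect_eq_sum_div_card]; simp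
  simp only [this]
  exact Fintype.expect_const _

/-- **leftover hash lemma** for a random function -/
theorem leftover (X : Ωp → 𝒳) {cp : ℝ}
    (hcp : ∀ x, 𝔼 p : Ωp, (if X p = x then (1 : ℝ) else 0) ≤ cp)
    (ψ : (𝒳 → R') → R' → ℝ) (hψ0 : ∀ H r, 0 ≤ ψ H r) (hψ1 : ∀ H r, ψ H r ≤ 1) :
    |𝔼 H : 𝒳 → R', 𝔼 p : Ωp, ψ H (H (X p)) - 𝔼 H : 𝒳 → R', 𝔼 r : R', ψ H r| ≤
      1 / 2 * Real.sqrt (Fintype.card R' * cp) := by
  have hR : (0 : ℝ) < Fintype.card R' := by exact_mod_cast Fintype.card_pos
  let Dn : (𝒳 → R') → R' → ℝ := fun H r =>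
    Fintype.card R' * 𝔼 p : Ωp, (if H (X p) = r then (1 : ℝ) else 0)
  have hind : ∀ (r₀ : R') (F : R' → ℝ),
      𝔼 r : R', (Fintype.card R' * (if r₀ = r then (1 : ℝ) else 0)) * F r = F r₀ := by
    intro r₀ F
    rw [Fintype.expect_eq_sum_div_card]
    simp
  have h1 : ∀ (H : 𝒳 → R') (F : R' → ℝ), 𝔼 r : R', Dn H r * F r = 𝔼 p : Ωp, F (H (X p)) := by
    intro H F
    have h2 : ∀ r : R', Dn H r * F r =
        𝔼 p : Ωp, (Fintype.card R' * (if H (X p) = r then (1 : ℝ) else 0)) * F r := by
      intro r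
      simp only [Dn]
      rw [Finset.mul_expect, Finset.expect_mul]
    simp only [h2]
    rw [Finset.expect_comm]
    exact Finset.expect_congr rfl fun p _ => hind _ F
  have hD1 : ∀ H : 𝒳 → R', 𝔼 r : R', Dn H r = 1 := by
    intro H
    have := h1 H (fun _ => 1)
    simp only [mul_one] at this
    rw [this]
    exact Fintype.expect_const _
  -- the difference
  have h3 : 𝔼 H : 𝒳 → R', 𝔼 p : Ωp, ψ H (H (X p)) - 𝔼 H : 𝒳 → R', 𝔼 r : R', ψ H r =
      𝔼 q : (𝒳 → R') × R', (Dn q.1 q.2 - 1) * (ψ q.1 q.2 - 1 / 2) := by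
    rw [expect_prod_type, ← Finset.expect_sub_distrib]
    refine Finset.expect_congr rfl fun H _ => ?_
    rw [← h1 H (ψ H)]
    have h4 : ∀ r, (Dn H r - 1) * (ψ H r - 1 / 2) = (Dn H r * ψ H r - ψ H r) -
        (1 / 2 * Dn H r - 1 / 2) := fun r => by ring
    simp only [h4]
    rw [Finset.expect_sub_distrib, Finset.expect_sub_distrib, Finset.expect_sub_distrib,
      ← Finset.mul_expect, hD1, Fintype.expect_const]
    ring
  rw [h3]
  have h5 : |𝔼 q : (𝒳 → R') × R', (Dn q.1 q.2 - 1) * (ψ q.1 q.2 - 1 / 2)| ≤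
      1 / 2 * 𝔼 q : (𝒳 → R') × R', |Dn q.1 q.2 - 1| := by
    refine (Finset.abs_expect_le _ _).trans ?_
    rw [Finset.mul_expect]
    refine Finset.expect_le_expect fun q _ => ?_
    rw [abs_mul, mul_comm]
    refine mul_le_mul_of_nonneg_right ?_ (abs_nonneg _)
    rw [abs_le]
    constructor <;> linarith [hψ0 q.1 q.2, hψ1 q.1 q.2]
  refine h5.trans (mul_le_mul_of_nonneg_left ?_ (by norm_num))
  refine (expect_abs_le _).trans (Real.sqrt_le_sqrt ?_)
  -- the variance
  have h6 : 𝔼 q : (𝒳 → R') × R', (Dn q.1 q.2 - 1) ^ 2 =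
      (𝔼 H : 𝒳 → R', 𝔼 r : R', Dn H r * Dn H r) - 1 := by
    rw [expect_prod_type]
    have h7 : ∀ H : 𝒳 → R', 𝔼 r : R', (Dn H r - 1) ^ 2 = 𝔼 r : R', Dn H r * Dn H r - 1 := by
      intro H
      have h8 : ∀ r, (Dn H r - 1) ^ 2 = Dn H r * Dn H r - 2 * Dn H r + 1 := fun r => by ring
      simp only [h8]
      rw [Finset.expect_add_distrib, Finset.expect_sub_distrib, ← Finset.mul_expect, hD1,
        Fintype.expect_const]
      ring
    simp only [h7]
    rw [Finset.expect_sub_distrib, Fintype.expect_const]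
  rw [h6]
  have h9 : ∀ H : 𝒳 → R', 𝔼 r : R', Dn H r * Dn H r =
      𝔼 p : Ωp, Fintype.card R' * 𝔼 p' : Ωp, (if H (X p') = H (X p) then (1 : ℝ) else 0) :=
    fun H => h1 H (Dn H)
  simp only [h9]
  have h10 : 𝔼 H : 𝒳 → R', 𝔼 p : Ωp, Fintype.card R' * 𝔼 p' : Ωp,
      (if H (X p') = H (X p) then (1 : ℝ) else 0) =
      𝔼 p : Ωp, Fintype.card R' * 𝔼 p' : Ωp, 𝔼 H : 𝒳 → R',
        (if H (X p') = H (X p) then (1 : ℝ) else 0) := by
    rw [Finset.expect_comm]
    refine Finset.expect_congr rfl fun p _ => ?_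
    rw [← Finset.mul_expect, Finset.expect_comm]
  rw [h10]
  have h11 : ∀ p p' : Ωp, 𝔼 H : 𝒳 → R', (if H (X p') = H (X p) then (1 : ℝ) else 0) ≤
      (if X p' = X p then (1 : ℝ) else 0) + 1 / Fintype.card R' := by
    intro p p'
    by_cases h : X p' = X p
    · simp only [h, if_true]
      rw [Fintype.expect_const]
      have : (0 : ℝ) ≤ 1 / Fintype.card R' := by positivity
      linarith
    · rw [if_neg h, zero_add]
      exact (expect_hash_eq h).le
  have h12 : 𝔼 p : Ωp, Fintype.card R' * 𝔼 p' : Ωp, 𝔼 H : 𝒳 → R',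
        (if H (X p') = H (X p) then (1 : ℝ) else 0) ≤ Fintype.card R' * cp + 1 := by
    refine Finset.expect_le Finset.univ_nonempty fun p _ => ?_
    have h13 : 𝔼 p' : Ωp, 𝔼 H : 𝒳 → R', (if H (X p') = H (X p) then (1 : ℝ) else 0) ≤
        cp + 1 / Fintype.card R' := by
      refine (Finset.expect_le_expect fun p' _ => h11 p p').trans ?_
      rw [Finset.expect_add_distrib, Fintype.expect_const]
      have := hcp (X p)
      linarith
    calc (Fintype.card R' : ℝ) * 𝔼 p' : Ωp, 𝔼 H : 𝒳 → R',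
          (if H (X p') = H (X p) then (1 : ℝ) else 0)
        ≤ Fintype.card R' * (cp + 1 / Fintype.card R') :=
          mul_le_mul_of_nonneg_left h13 hR.le
      _ = Fintype.card R' * cp + 1 := by field_simp
  linarith

end LHL

section Hybrid

variable {ι Ω Z : Type} [Fintype ι] [DecidableEq ι] [Fintype Ω] [Nonempty Ω] [Fintype Z]
  [Nonempty Z]

/-- independent entries, each close to uniform -/
theorem hybrid (α : ι → Ω → Z) (d : ι → ℝ)
    (hd : ∀ (i : ι) (ψ : Z → ℝ), (∀ z, 0 ≤ ψ z) → (∀ z, ψ z ≤ 1) →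
      |𝔼 ω : Ω, ψ (α i ω) - 𝔼 z : Z, ψ z| ≤ d i)
    (φ : (ι → Z) → ℝ) (hφ0 : ∀ z, 0 ≤ φ z) (hφ1 : ∀ z, φ z ≤ 1) :
    |𝔼 ω : ι → Ω, φ (fun i => α i (ω i)) - 𝔼 z : ι → Z, φ z| ≤ ∑ i, d i := by
  classical
  let mix : Finset ι → (ι → Ω) → (ι → Z) → (ι → Z) := fun s ω z i =>
    if i ∈ s then z i else α i (ω i)
  have key : ∀ s : Finset ι, |𝔼 ω : ι → Ω, 𝔼 z : ι → Z, φ (mix ∅ ω z) -
      𝔼 ω : ι → Ω, 𝔼 z : ι → Z, φ (mix s ω z)| ≤ ∑ i ∈ s, d i := by
    intro s
    induction s using Finset.induction_on with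
    | empty => simp
    | insert j s hj ih =>
      rw [Finset.sum_insert hj]
      have h1 : 𝔼 ω : ι → Ω, 𝔼 z : ι → Z, φ (mix s ω z) =
          𝔼 ω : ι → Ω, 𝔼 z : ι → Z, 𝔼 ω' : Ω, φ (Function.update (mix s ω z) j (α j ω')) := by
        rw [← expect_update j]
        refine Finset.expect_congr rfl fun ω _ => ?_
        rw [Finset.expect_comm]
        refine Finset.expect_congr rfl fun z _ => Finset.expect_congr rfl fun ω' _ => ?_
        congr 1
        funext i
        by_cases hi : i = j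
        · subst hi; simp [mix, hj]
        · simp [mix, hi]
      have h2 : 𝔼 ω : ι → Ω, 𝔼 z : ι → Z, φ (mix (insert j s) ω z) =
          𝔼 ω : ι → Ω, 𝔼 z : ι → Z, 𝔼 z' : Z, φ (Function.update (mix s ω z) j z') := by
        refine Finset.expect_congr rfl fun ω _ => ?_
        rw [← expect_update j]
        refine Finset.expect_congr rfl fun z _ => Finset.expect_congr rfl fun z' _ => ?_
        congr 1
        funext i
        by_cases hi : i = j
        · subst hi; simp [mix]
        · simp [mix, hi]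
      have h3 : |𝔼 ω : ι → Ω, 𝔼 z : ι → Z, φ (mix s ω z) -
          𝔼 ω : ι → Ω, 𝔼 z : ι → Z, φ (mix (insert j s) ω z)| ≤ d j := by
        rw [h1, h2, ← Finset.expect_sub_distrib]
        refine (Finset.abs_expect_le _ _).trans (Finset.expect_le Finset.univ_nonempty
          fun ω _ => ?_)
        rw [← Finset.expect_sub_distrib]
        refine (Finset.abs_expect_le _ _).trans (Finset.expect_le Finset.univ_nonempty
          fun z _ => ?_)
        exact hd j (fun t => φ (Function.update (mix s ω z) j t)) (fun t => hφ0 _)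
          (fun t => hφ1 _)
      have h4 := abs_sub_le (𝔼 ω : ι → Ω, 𝔼 z : ι → Z, φ (mix ∅ ω z))
        (𝔼 ω : ι → Ω, 𝔼 z : ι → Z, φ (mix s ω z))
        (𝔼 ω : ι → Ω, 𝔼 z : ι → Z, φ (mix (insert j s) ω z))
      linarith
  have h := key Finset.univ
  have h5 : 𝔼 ω : ι → Ω, 𝔼 z : ι → Z, φ (mix ∅ ω z) = 𝔼 ω : ι → Ω, φ (fun i => α i (ω i)) := by
    refine Finset.expect_congr rfl fun ω _ => ?_
    simp only [mix, Finset.notMem_empty, if_false]
    exact Fintype.expect_const _
  have h6 : 𝔼 ω : ι → Ω, 𝔼 z : ι → Z, φ (mix Finset.univ ω z) = 𝔼 z : ι → Z, φ z := by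
    simp only [mix, Finset.mem_univ, if_true]
    exact Fintype.expect_const _
  rw [h5, h6] at h
  exact h

end Hybrid

end Pool.Agent.PKE70
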