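import Pool.Agent.PKE70.LB4
import Pool.Agent.PKE70.LB6

/-!
# Lower bound: the number of agreements of a block with a codeword
-/

set_option autoImplicit false
set_option linter.unusedSectionVars false

open scoped BigOperators

namespace Pool.Agent.PKE70

section Tails

variable {I : Type} [Fintype I] [DecidableEq I] [Nonempty I]

/-- positions at which the block `y` agrees with `s` -/
def agr (s y : I → Bool) : I → Bool := fun i => decide (y i = s i)

theorem cnt_agr (s y : I → Bool) :
    (cnt (agr s y) : ℝ) = ∑ i, if y i = s i then (1 : ℝ) else 0 := by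
  rw [cnt, Finset.card_filter]
  push_cast
  refine Finset.sum_congr rfl fun i _ => ?_
  simp [agr]

/-- a random block has few agreements with small probability -/
theorem lower_tail (s : I → Bool) {lam : ℝ} (hlam : 0 ≤ lam) :
    𝔼 y : I → Bool, (if (cnt (agr s y) : ℝ) < Fintype.card I / 2 - lam then (1 : ℝ) else 0) ≤
      Real.exp (-(2 * lam ^ 2 / Fintype.card I)) := by
  have hn : (0 : ℝ) < Fintype.card I := by exact_mod_cast Fintype.card_pos
  set n : ℝ := (Fintype.card I : ℝ) with hndef
  set θ : ℝ := 4 * lam / n with hθ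
  have hθ0 : 0 ≤ θ := by positivity
  have h1 : ∀ y : I → Bool, (if (cnt (agr s y) : ℝ) < n / 2 - lam then (1 : ℝ) else 0) ≤
      Real.exp (-(θ * lam)) * ∏ i, Real.exp (θ * (1 / 2 - if y i = s i then (1 : ℝ) else 0)) := by
    intro y
    rw [← Real.exp_sum, ← Real.exp_add, ← Finset.mul_sum, Finset.sum_sub_distrib, ← cnt_agr]
    rw [Finset.sum_const, Finset.card_univ, nsmul_eq_mul]
    split_ifs with h
    · refine Real.one_le_exp ?_
      have h2 : -(θ * lam) + θ * ((Fintype.card I : ℝ) * (1 / 2) - cnt (agr s y)) =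
          θ * (n / 2 - lam - cnt (agr s y)) := by rw [hndef]; ring
      rw [h2]
      exact mul_nonneg hθ0 (by linarith)
    · exact (Real.exp_pos _).le
  refine (Finset.expect_le_expect fun y _ => h1 y).trans ?_
  rw [← Finset.mul_expect,
    expect_pi_prod (fun i b => Real.exp (θ * (1 / 2 - if b = s i then (1 : ℝ) else 0)))]
  have h2 : ∀ i : I, 𝔼 b : Bool, Real.exp (θ * (1 / 2 - if b = s i then (1 : ℝ) else 0)) =
      Real.cosh (θ / 2) := by
    intro i
    rw [Fintype.expect_eq_sum_div_card, Real.cosh_eq]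
    have e1 : θ * (1 / 2 - 1) = -(θ / 2) := by ring
    have e2 : θ * (1 / 2 - 0) = θ / 2 := by ring
    cases s i <;> simp [-one_div] <;> rw [show θ * (1 / 2) = θ / 2 by ring, e1] <;> ring
  simp only [h2]
  rw [Finset.prod_const, Finset.card_univ]
  have h3 : Real.cosh (θ / 2) ^ Fintype.card I ≤ Real.exp ((θ / 2) ^ 2 / 2) ^ Fintype.card I :=
    pow_le_pow_left₀ (Real.cosh_pos _).le (Real.cosh_le_exp_half_sq _) _
  calc Real.exp (-(θ * lam)) * Real.cosh (θ / 2) ^ Fintype.card I
      ≤ Real.exp (-(θ * lam)) * Real.exp ((θ / 2) ^ 2 / 2) ^ Fintype.card I :=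
        mul_le_mul_of_nonneg_left h3 (Real.exp_pos _).le
    _ = Real.exp (-(2 * lam ^ 2 / n)) := by
        rw [← Real.exp_nat_mul, ← Real.exp_add]
        congr 1
        rw [hθ, ← hndef]
        field_simp
        ring

/-- the variance of the number of agreements under the biased measure -/
theorem biased_var {β : ℝ} (hβ0 : 0 ≤ β) (hβ1 : β ≤ 1) (s : I → Bool) :
    𝔼 y : I → Bool, LamB β s y *
      ((cnt (agr s y) : ℝ) - (Fintype.card I : ℝ) * ((1 - β) / 2)) ^ 2 ≤
        (Fintype.card I : ℝ) / 4 := by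
  set p : ℝ := (1 - β) / 2 with hp
  let g : I → Bool → ℝ := fun i b => (if b = s i then (1 : ℝ) else 0) - p
  have h1 : ∀ y : I → Bool, LamB β s y * ((cnt (agr s y) : ℝ) - Fintype.card I * p) ^ 2 =
      ∑ i, ∑ j, ∏ l, (fc β (s l) (y l) * (if l = i then g l (y l) else 1) *
        (if l = j then g l (y l) else 1)) := by
    intro y
    have h2 : (cnt (agr s y) : ℝ) - Fintype.card I * p = ∑ i, g i (y i) := by
      simp only [g]
      rw [Finset.sum_sub_distrib, ← cnt_agr, Finset.sum_const, Finset.card_univ, nsmul_eq_mul]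
    rw [h2, pow_two, Finset.sum_mul, Finset.mul_sum]
    refine Finset.sum_congr rfl fun i _ => ?_
    rw [Finset.mul_sum, Finset.mul_sum]
    refine Finset.sum_congr rfl fun j _ => ?_
    rw [Finset.prod_mul_distrib, Finset.prod_mul_distrib, Finset.prod_ite_eq',
      Finset.prod_ite_eq']
    simp only [Finset.mem_univ, if_true, LamB]
    ring
  simp only [h1]
  rw [Finset.expect_sum_comm]
  have hmean : ∀ l : I, 𝔼 b : Bool, fc β (s l) b * g l b = 0 := by
    intro l
    rw [Fintype.expect_eq_sum_div_card]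
    simp only [g, fc, hp]
    cases s l <;> simp <;> ring
  have hsq : ∀ l : I, 𝔼 b : Bool, fc β (s l) b * g l b * g l b = p * (1 - p) := by
    intro l
    rw [Fintype.expect_eq_sum_div_card]
    simp only [g, fc, hp]
    cases s l <;> simp <;> ring
  have h3 : ∀ i j : I, 𝔼 y : I → Bool, ∏ l, (fc β (s l) (y l) *
      (if l = i then g l (y l) else 1) * (if l = j then g l (y l) else 1)) =
      if i = j then p * (1 - p) else 0 := by
    intro i j
    rw [expect_pi_prod (fun l b => fc β (s l) b * (if l = i then g l b else 1) *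
      (if l = j then g l b else 1))]
    by_cases hij : i = j
    · subst hij
      rw [if_pos rfl]
      rw [Finset.prod_eq_single i]
      · simp only [if_true]
        exact hsq i
      · intro l _ hl
        simp only [hl, if_false, mul_one]
        exact expect_fc _ _
      · simp
    · rw [if_neg hij]
      refine Finset.prod_eq_zero (Finset.mem_univ i) ?_
      simp only [if_true, hij, if_false, mul_one]
      exact hmean i
  have h4 : ∀ i : I, 𝔼 y : I → Bool, ∑ j, ∏ l, (fc β (s l) (y l) *
      (if l = i then g l (y l) else 1) * (if l = j then g l (y l) else 1)) = p * (1 - p) := by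
    intro i
    rw [Finset.expect_sum_comm]
    simp only [h3]
    simp
  simp only [h4]
  rw [Finset.sum_const, Finset.card_univ, nsmul_eq_mul]
  have hp4 : p * (1 - p) ≤ 1 / 4 := by nlinarith [sq_nonneg (p - 1 / 2)]
  have hn : (0 : ℝ) ≤ Fintype.card I := Nat.cast_nonneg _
  calc (Fintype.card I : ℝ) * (p * (1 - p)) ≤ Fintype.card I * (1 / 4) :=
        mul_le_mul_of_nonneg_left hp4 hn
    _ = Fintype.card I / 4 := by ring

/-- Chebyshev's inequality under the biased measure -/
theorem biased_tail {β : ℝ} (hβ0 : 0 ≤ β) (hβ1 : β ≤ 1) (s : I → Bool) {μ : ℝ} (hμ : 0 < μ) :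
    𝔼 y : I → Bool, LamB β s y *
      (if |(cnt (agr s y) : ℝ) - (Fintype.card I : ℝ) * ((1 - β) / 2)| ≤ μ then (0 : ℝ) else 1) ≤
        (Fintype.card I : ℝ) / (4 * μ ^ 2) := by
  have h1 := biased_var hβ0 hβ1 s
  have h2 : 𝔼 y : I → Bool, LamB β s y *
      (if |(cnt (agr s y) : ℝ) - Fintype.card I * ((1 - β) / 2)| ≤ μ then (0 : ℝ) else 1) ≤
      𝔼 y : I → Bool, (1 / μ ^ 2) * (LamB β s y *
      ((cnt (agr s y) : ℝ) - Fintype.card I * ((1 - β) / 2)) ^ 2) := by
    refine Finset.expect_le_expect fun y _ => ?_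
    have hL := LamB_nonneg hβ0 hβ1 s y
    split_ifs with h
    · rw [mul_zero]; positivity
    · push Not at h
      have h3 : 1 ≤ (1 / μ ^ 2) * ((cnt (agr s y) : ℝ) - Fintype.card I * ((1 - β) / 2)) ^ 2 := by
        rw [one_div, ← div_eq_inv_mul, le_div_iff₀ (by positivity), one_mul,
          ← sq_abs ((cnt (agr s y) : ℝ) - Fintype.card I * ((1 - β) / 2))]
        exact pow_le_pow_left₀ hμ.le h.le 2
      nlinarith
  refine h2.trans ?_
  rw [← Finset.mul_expect]
  calc 1 / μ ^ 2 * 𝔼 y : I → Bool, LamB β s y *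
        ((cnt (agr s y) : ℝ) - Fintype.card I * ((1 - β) / 2)) ^ 2
      ≤ 1 / μ ^ 2 * (Fintype.card I / 4) := mul_le_mul_of_nonneg_left h1 (by positivity)
    _ = Fintype.card I / (4 * μ ^ 2) := by field_simp

end Tails

end Pool.Agent.PKE70
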