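import Pool.Agent.PKE70.LB3
import Pool.Agent.PKE70.LB5
import Pool.Agent.PKE70.LB7

/-!
# Lower bound: the scheme
-/

set_option autoImplicit false
set_option linter.unusedSectionVars false

open scoped BigOperators

namespace Pool.Agent.PKE70

section Tree

variable {D α : Type} [Fintype D] [DecidableEq D]

theorem exists_coll (N : ℕ) (pt : Fin N → D) : ∃ T : QAlg D Bool (Fin N → Bool),
    (∀ f, T.run f = fun j => f (pt j)) ∧ (∀ f, T.cost f = N) ∧
    ∀ (S : Finset D) f, asksIn S f T = (Finset.univ.filter fun j => pt j ∈ S).card := by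
  induction N with
  | zero =>
    exact ⟨.ret (fun j => j.elim0), fun f => by funext j; exact j.elim0, fun f => rfl,
      fun S f => by simp [asksIn_ret]⟩
  | succ N ih =>
    obtain ⟨T, h1, h2, h3⟩ := ih (fun j => pt j.succ)
    refine ⟨.ask (pt 0) (fun y => T.bind (fun r => .ret (Fin.cons y r))), fun f => ?_,
      fun f => ?_, fun S f => ?_⟩
    · rw [QAlg.run_ask, QAlg.run_bind, h1, QAlg.run_ret]
      funext j
      refine Fin.cases ?_ (fun j => ?_) j <;> simp
    · rw [QAlg.cost_ask, QAlg.cost_bind, h2]; simp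
    · rw [asksIn_ask, asksIn_bind, h3, asksIn_ret, Fin.card_filter_univ_succ]
      split_ifs <;> omega

/-- a function of the values at given points, as an oracle algorithm -/
theorem exists_tree [Nonempty α] {J : Type} [Fintype J] (pt : J → D) (F : (D → Bool) → α)
    (hF : ∀ f f' : D → Bool, (∀ j, f' (pt j) = f (pt j)) → F f' = F f) :
    ∃ T : QAlg D Bool α, (∀ f, T.run f = F f) ∧ (∀ f, T.cost f = Fintype.card J) ∧
      ∀ (S : Finset D) f, asksIn S f T = (Finset.univ.filter fun j => pt j ∈ S).card := by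
  classical
  let pt' : Fin (Fintype.card J) → D := fun j => pt ((Fintype.equivFin J).symm j)
  obtain ⟨T, h1, h2, h3⟩ := exists_coll (Fintype.card J) pt'
  let r : (D → Bool) → (Fin (Fintype.card J) → Bool) := fun f j => f (pt' j)
  have hfac : Function.FactorsThrough F r := by
    intro f f' h
    refine hF f' f fun j => ?_
    have := congrFun h (Fintype.equivFin J j)
    simpa [r, pt'] using this
  refine ⟨T.bind fun x => .ret (Function.extend r F (fun _ => Classical.arbitrary α) x),
    fun f => ?_, fun f => ?_, fun S f => ?_⟩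
  · rw [QAlg.run_bind, h1, QAlg.run_ret]
    exact hfac.extend_apply _ f
  · rw [QAlg.cost_bind, h2]; simp
  · rw [asksIn_bind, h3, asksIn_ret, add_zero]
    refine Finset.card_equiv (Fintype.equivFin J).symm fun j => ?_
    simp [pt']

end Tree

section Blocks

/-- the domain of the oracle: classes, blocks, positions -/
abbrev Dm (A U V I : Type) : Type := A × ((U × V) × I)

variable {A U V I Kc : Type} [Fintype A] [DecidableEq A] [Fintype U] [DecidableEq U] [Fintype V]
  [DecidableEq V] [Fintype I] [DecidableEq I]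

/-- the block `x` of the class `a` -/
def blk (f : Dm A U V I → Bool) (a : A) (x : U × V) : I → Bool := fun i => f (a, (x, i))

/-- the points of the block `x` of the class `a` -/
def Bk (a : A) (x : U × V) : Finset (Dm A U V I) :=
  Finset.univ.map ⟨fun i => (a, (x, i)), fun i j h => by simpa using h⟩

omit [Fintype A] [DecidableEq A] [Fintype U] [DecidableEq U] [Fintype V] [DecidableEq V]
  [DecidableEq I] in
theorem mem_Bk {a : A} {x : U × V} {z : Dm A U V I} : z ∈ Bk a x ↔ z.1 = a ∧ z.2.1 = x := by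
  constructor
  · intro h
    obtain ⟨i, _, rfl⟩ := Finset.mem_map.mp h
    exact ⟨rfl, rfl⟩
  · rintro ⟨rfl, rfl⟩
    exact Finset.mem_map.mpr ⟨z.2.2, Finset.mem_univ _, rfl⟩

/-- signs of the points -/
def sg (s : Kc → I → Bool) (κ : A → Kc) : Dm A U V I → Bool := fun z => s (κ z.1) z.2.2

theorem Lam_Bk (β : ℝ) (s : Kc → I → Bool) (κ : A → Kc) (a : A) (x : U × V)
    (f : Dm A U V I → Bool) :
    Lam β (sg s κ) (Bk a x) f = LamB β (s (κ a)) (blk f a x) := by
  rw [Lam, Bk, Finset.prod_map]; rfl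

/-- the union of the blocks `w a`, `a ∈ H` -/
def SH (w : A → U × V) (H : Finset A) : Finset (Dm A U V I) := H.biUnion fun a => Bk a (w a)

theorem mem_SH {w : A → U × V} {H : Finset A} {z : Dm A U V I} :
    z ∈ SH w H ↔ z.1 ∈ H ∧ z.2.1 = w z.1 := by
  rw [SH, Finset.mem_biUnion]
  constructor
  · rintro ⟨a, ha, hz⟩
    obtain ⟨h1, h2⟩ := mem_Bk.mp hz
    subst h1
    exact ⟨ha, h2⟩
  · rintro ⟨h1, h2⟩
    exact ⟨z.1, h1, mem_Bk.mpr ⟨rfl, h2⟩⟩

theorem Lam_SH (β : ℝ) (s : Kc → I → Bool) (κ : A → Kc) (w : A → U × V) (H : Finset A)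
    (f : Dm A U V I → Bool) :
    Lam β (sg s κ) (SH w H) f = ∏ a ∈ H, LamB β (s (κ a)) (blk f a (w a)) := by
  rw [Lam, SH, Finset.prod_biUnion]
  · exact Finset.prod_congr rfl fun a _ => Lam_Bk β s κ a (w a) f
  · intro a _ a' _ haa'
    rw [Function.onFun, Finset.disjoint_left]
    intro z hz hz'
    exact haa' ((mem_Bk.mp hz).1.symm.trans (mem_Bk.mp hz').1)

/-- the designated blocks are independent and uniform -/
theorem expect_blocks (w : A → U × V) (G : (A → I → Bool) → ℝ) :
    𝔼 f : Dm A U V I → Bool, G (fun a => blk f a (w a)) = 𝔼 y : A → I → Bool, G y := by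
  have hinj : Function.Injective fun p : A × I => ((p.1, (w p.1, p.2)) : Dm A U V I) := by
    rintro ⟨a, i⟩ ⟨a', i'⟩ h
    simp only [Prod.mk.injEq] at h
    exact Prod.ext h.1 h.2.2
  have h1 := expect_comp_inj (R := Bool) (fun p : A × I => ((p.1, (w p.1, p.2)) : Dm A U V I))
    hinj (fun g => G fun a i => g (a, i))
  refine Eq.trans h1 ?_
  exact Fintype.expect_equiv (Equiv.curry A I Bool) _ _ fun g => rfl

theorem expect_block (a : A) (x : U × V) (G : (I → Bool) → ℝ) :
    𝔼 f : Dm A U V I → Bool, G (blk f a x) = 𝔼 y : I → Bool, G y := by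
  have hinj : Function.Injective fun i : I => ((a, (x, i)) : Dm A U V I) := by
    intro i i' h
    simpa using h
  exact expect_comp_inj (R := Bool) (fun i : I => ((a, (x, i)) : Dm A U V I)) hinj G

theorem expect_blocks_prod (w : A → U × V) (g : A → (I → Bool) → ℝ) :
    𝔼 f : Dm A U V I → Bool, ∏ a, g a (blk f a (w a)) = ∏ a, 𝔼 y : I → Bool, g a y := by
  rw [expect_blocks w (fun y => ∏ a, g a (y a))]
  exact expect_pi_prod g

end Blocks

section SchemeDef

/-- hash functions -/
abbrev Hsh (U I Y : Type) (l : ℕ) : Type := U × (Fin l → I) → Y × Bool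

/-- ciphertexts: for every class and block a hash function, a tag and a masked bit -/
abbrev Ct (A U V I Y : Type) (l : ℕ) : Type := A × V → Hsh U I Y l × (Y × Bool)

/-- positions and hash function -/
abbrev Ph (U I Y : Type) (l T : ℕ) : Type := (Fin l → Fin (T + 1) → I) × Hsh U I Y l

/-- coins of encryption: cells, positions, hash functions -/
abbrev EC (A U V I Y : Type) (l T : ℕ) : Type := (A × V → U) × (A × V → Ph U I Y l T)

/-- secret keys: the designated blocks, their contents, the public key -/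
abbrev Sk (A U V I Kc : Type) : Type := (A → U × V) × ((A → I → Bool) × (A → Kc))

variable {A U V I Kc Y : Type} [Fintype A] [DecidableEq A] [Fintype U] [DecidableEq U] [Fintype V]
  [DecidableEq V] [Fintype I] [DecidableEq I] [Fintype Kc] [DecidableEq Kc] [Fintype Y]
  [DecidableEq Y] [Nonempty A] [Nonempty U] [Nonempty V] [Nonempty I] [Nonempty Kc] [Nonempty Y]
  {l : ℕ}

/-- one entry of the ciphertext -/
def entry (P : I → Bool) (u : U) (b : Bool) (T : ℕ) (ph : Ph U I Y l T) :
    Hsh U I Y l × (Y × Bool) :=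
  (ph.2, ((ph.2 (u, fun j => pick P T (ph.1 j))).1,
    xor b (ph.2 (u, fun j => pick P T (ph.1 j))).2))

omit [Fintype I] [DecidableEq I] [Nonempty I] in
theorem agr_congr {s y y' : I → Bool} {i : I} (h : y' i = y i) : agr s y' i = agr s y i := by
  unfold agr
  rw [h]

/-- encryption -/
def encF (s : Kc → I → Bool) (T : ℕ) (κ : A → Kc) (b : Bool) (e : EC A U V I Y l T)
    (f : Dm A U V I → Bool) : Ct A U V I Y l := fun i =>
  entry (agr (s (κ i.1)) (blk f i.1 (e.1 i, i.2))) (e.1 i) b T (e.2 i)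

theorem exists_encT (s : Kc → I → Bool) (T : ℕ) (κ : A → Kc) (b : Bool)
    (e : EC A U V I Y l T) : ∃ E : QAlg (Dm A U V I) Bool (Ct A U V I Y l),
    (∀ f, E.run f = encF s T κ b e f) ∧
    (∀ f, E.cost f = Fintype.card A * Fintype.card V * (l * (T + 1))) ∧
    ∀ a x f, asksIn (Bk a x) f E ≤ l * (T + 1) := by
  classical
  obtain ⟨E, h1, h2, h3⟩ := exists_tree (α := Ct A U V I Y l)
    (J := (A × V) × (Fin l × Fin (T + 1)))
    (fun z => ((z.1.1, ((e.1 z.1, z.1.2), (e.2 z.1).1 z.2.1 z.2.2)) : Dm A U V I))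
    (encF s T κ b e) (by
      intro f f' h
      funext i
      have h4 : ∀ j, pick (agr (s (κ i.1)) (blk f' i.1 (e.1 i, i.2))) T ((e.2 i).1 j) =
          pick (agr (s (κ i.1)) (blk f i.1 (e.1 i, i.2))) T ((e.2 i).1 j) := by
        intro j
        exact pick_congr T _ fun j' => agr_congr (h (i, (j, j')))
      simp only [encF, entry, h4])
  refine ⟨E, h1, fun f => ?_, fun a x f => ?_⟩
  · rw [h2]; simp
  · rw [h3]
    have hsub : (Finset.univ.filter fun z : (A × V) × (Fin l × Fin (T + 1)) =>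
        ((z.1.1, ((e.1 z.1, z.1.2), (e.2 z.1).1 z.2.1 z.2.2)) : Dm A U V I) ∈ Bk a x) ⊆
        (Finset.univ : Finset (Fin l × Fin (T + 1))).map
          ⟨fun z => ((a, x.2), z), fun z z' h => by simpa using h⟩ := by
      intro z hz
      obtain ⟨h4, h5⟩ := mem_Bk.mp (Finset.mem_filter.mp hz).2
      refine Finset.mem_map.mpr ⟨z.2, Finset.mem_univ _, ?_⟩
      refine Prod.ext (Prod.ext h4.symm ?_) rfl
      show x.2 = z.1.2
      rw [← h5]
    refine (Finset.card_le_card hsub).trans ?_
    rw [Finset.card_map]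
    simp

/-- the codeword indices -/
def kap {M : ℕ} {s : Kc → I → Bool} (ω : A → Coin M s) (y : A → I → Bool) : A → Kc :=
  fun a => (ω a (y a)).1

/-- key generation -/
def genF {M : ℕ} (s : Kc → I → Bool) (r : (A → U × V) × (A → Coin M s))
    (f : Dm A U V I → Bool) : (A → Kc) × Sk A U V I Kc :=
  (kap r.2 (fun a => blk f a (r.1 a)),
    (r.1, (fun a => blk f a (r.1 a), kap r.2 (fun a => blk f a (r.1 a)))))

theorem exists_genT {M : ℕ} (s : Kc → I → Bool) (r : (A → U × V) × (A → Coin M s)) :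
    ∃ G : QAlg (Dm A U V I) Bool ((A → Kc) × Sk A U V I Kc),
      (∀ f, G.run f = genF s r f) ∧ ∀ f, G.cost f = Fintype.card A * Fintype.card I := by
  classical
  obtain ⟨G, h1, h2, -⟩ := exists_tree (J := A × I)
    (fun z => ((z.1, (r.1 z.1, z.2)) : Dm A U V I)) (genF s r) (by
      intro f f' h
      have h4 : (fun a => blk f' a (r.1 a)) = fun a => blk f a (r.1 a) :=
        funext fun a => funext fun i => h (a, i)
      unfold genF
      rw [h4])
  exact ⟨G, h1, fun f => by rw [h2]; simp⟩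

/-- candidates for the list hashed by encryption -/
def IsCand (s : Kc → I → Bool) (thr : ℝ) (sk : Sk A U V I Kc) (c : Ct A U V I Y l)
    (q : A × (Fin l → I)) : Prop :=
  (cnt (agr (s (sk.2.2 q.1)) (sk.2.1 q.1)) : ℝ) ≤ thr ∧
    (∀ j, agr (s (sk.2.2 q.1)) (sk.2.1 q.1) (q.2 j) = true) ∧
    ((c (q.1, (sk.1 q.1).2)).1 ((sk.1 q.1).1, q.2)).1 = (c (q.1, (sk.1 q.1).2)).2.1

/-- the bit given by a candidate -/
def candBit (sk : Sk A U V I Kc) (c : Ct A U V I Y l) (q : A × (Fin l → I)) : Bool :=
  xor (c (q.1, (sk.1 q.1).2)).2.2 ((c (q.1, (sk.1 q.1).2)).1 ((sk.1 q.1).1, q.2)).2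

open Classical in
/-- decryption: take any candidate -/
noncomputable def decF (s : Kc → I → Bool) (thr : ℝ) (sk : Sk A U V I Kc)
    (c : Ct A U V I Y l) : Bool :=
  if h : ∃ q, IsCand s thr sk c q then candBit sk c h.choose else false

theorem decF_eq (s : Kc → I → Bool) (thr : ℝ) (sk : Sk A U V I Kc) (c : Ct A U V I Y l)
    (b : Bool) (h1 : ∃ q, IsCand s thr sk c q)
    (h2 : ∀ q, IsCand s thr sk c q → candBit sk c q = b) : decF s thr sk c = b := by
  unfold decF
  rw [dif_pos h1]
  exact h2 _ h1.choose_spec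

/-- the scheme -/
noncomputable def theScheme (M : ℕ) (s : Kc → I → Bool) (l T : ℕ) (thr : ℝ) :
    Scheme (Dm A U V I) Bool (A → Kc) (Sk A U V I Kc) (Ct A U V I Y l)
      ((A → U × V) × (A → Coin M s)) (EC A U V I Y l T) Unit where
  gen f r := genF s r f
  enc κ b e := (exists_encT s T κ b e).choose
  dec sk c _ := .ret (decF s thr sk c)

end SchemeDef

end Pool.Agent.PKE70
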