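import Pool.Agent.PKE70.LB8

/-!
# Lower bound: correctness of the scheme
-/

set_option autoImplicit false
set_option linter.unusedSectionVars false

open scoped BigOperators

namespace Pool.Agent.PKE70

section Corr

variable {A U V I Kc Y : Type} [Fintype A] [DecidableEq A] [Fintype U] [DecidableEq U] [Fintype V]
  [DecidableEq V] [Fintype I] [DecidableEq I] [Fintype Kc] [DecidableEq Kc] [Fintype Y]
  [DecidableEq Y] [Nonempty A] [Nonempty U] [Nonempty V] [Nonempty I] [Nonempty Kc] [Nonempty Y]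
  {l : ℕ}

/-- one class is probed at its designated block with probability `1 / |U|` -/
theorem expect_cell (i : A × V) (u₀ : U) :
    𝔼 u : A × V → U, (if u i = u₀ then (1 : ℝ) else 0) = 1 / Fintype.card U := by
  rw [expect_pi_apply (α := fun _ : A × V => U) i (fun x => if x = u₀ then (1 : ℝ) else 0),
    Fintype.expect_eq_sum_div_card]
  simp

theorem expect_cells (w : A → U × V) (G : (A → U) → ℝ) :
    𝔼 u : A × V → U, G (fun a => u (a, (w a).2)) = 𝔼 x : A → U, G x := by
  have hinj : Function.Injective fun a : A => ((a, (w a).2) : A × V) := by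
    intro a a' h
    exact (Prod.ext_iff.mp h).1
  exact expect_comp_inj (R := U) (fun a : A => ((a, (w a).2) : A × V)) hinj G

/-- no class is probed at its designated block -/
theorem expect_no_cell (w : A → U × V) :
    𝔼 u : A × V → U, (if ∀ a, u (a, (w a).2) ≠ (w a).1 then (1 : ℝ) else 0) =
      (1 - 1 / Fintype.card U) ^ Fintype.card A := by
  rw [expect_cells w (fun x => if ∀ a, x a ≠ (w a).1 then (1 : ℝ) else 0)]
  have h1 : ∀ x : A → U, (if ∀ a, x a ≠ (w a).1 then (1 : ℝ) else 0) =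
      ∏ a, (1 - if x a = (w a).1 then (1 : ℝ) else 0) := by
    intro x
    by_cases h : ∀ a, x a ≠ (w a).1
    · rw [if_pos h]
      refine (Finset.prod_eq_one fun a _ => ?_).symm
      rw [if_neg (h a), sub_zero]
    · rw [if_neg h]
      push Not at h
      obtain ⟨a, ha⟩ := h
      refine (Finset.prod_eq_zero (Finset.mem_univ a) ?_).symm
      rw [if_pos ha, sub_self]
  simp only [h1]
  rw [expect_pi_prod (fun a z => 1 - if z = (w a).1 then (1 : ℝ) else 0)]
  have h2 : ∀ a : A, 𝔼 z : U, (1 - if z = (w a).1 then (1 : ℝ) else 0) =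
      1 - 1 / Fintype.card U := by
    intro a
    rw [Finset.expect_sub_distrib, Fintype.expect_const, Fintype.expect_eq_sum_div_card]
    simp
  simp only [h2]
  rw [Finset.prod_const, Finset.card_univ]

/-- some pick fails -/
theorem expect_pf (P : I → Bool) (l T : ℕ) (hP : (Fintype.card I : ℝ) / 4 ≤ cnt P) :
    𝔼 p : Fin l → Fin (T + 1) → I,
      (if ∀ j, P (pick P T (p j)) = true then (0 : ℝ) else 1) ≤ l * (3 / 4) ^ (T + 1) := by
  have hn : (0 : ℝ) < Fintype.card I := by exact_mod_cast Fintype.card_pos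
  have h1 : ∀ p : Fin l → Fin (T + 1) → I,
      (if ∀ j, P (pick P T (p j)) = true then (0 : ℝ) else 1) ≤
        ∑ j, (if P (pick P T (p j)) = true then (0 : ℝ) else 1) := by
    intro p
    have hnn : ∀ j ∈ (Finset.univ : Finset (Fin l)),
        (0 : ℝ) ≤ (if P (pick P T (p j)) = true then (0 : ℝ) else 1) := by
      intro j _; split_ifs <;> norm_num
    by_cases h : ∀ j, P (pick P T (p j)) = true
    · rw [if_pos h]
      exact Finset.sum_nonneg hnn
    · rw [if_neg h]
      push Not at h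
      obtain ⟨j, hj⟩ := h
      have := Finset.single_le_sum hnn (Finset.mem_univ j)
      rw [if_neg hj] at this
      exact this
  refine (Finset.expect_le_expect fun p _ => h1 p).trans ?_
  rw [Finset.expect_sum_comm]
  have h2 : ∀ j : Fin l, 𝔼 p : Fin l → Fin (T + 1) → I,
      (if P (pick P T (p j)) = true then (0 : ℝ) else 1) ≤ (3 / 4) ^ (T + 1) := by
    intro j
    rw [expect_pi_apply (α := fun _ : Fin l => Fin (T + 1) → I) j
      (fun q => if P (pick P T q) = true then (0 : ℝ) else 1), prob_pick_fail]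
    have h3 : (1 : ℝ) / 4 ≤ cnt P / Fintype.card I := by
      rw [le_div_iff₀ hn]; linarith
    have h4 : (cnt P : ℝ) / Fintype.card I ≤ 1 := by
      rw [div_le_one hn]
      exact_mod_cast cnt_le_card P
    exact pow_le_pow_left₀ (by linarith) (by linarith) _
  refine (Finset.sum_le_sum fun j _ => h2 j).trans (le_of_eq ?_)
  rw [Finset.sum_const, Finset.card_univ, Fintype.card_fin, nsmul_eq_mul]

theorem expect_tag_eq {x x' : U × (Fin l → I)} (h : x ≠ x') :
    𝔼 H : Hsh U I Y l, (if (H x).1 = (H x').1 then (1 : ℝ) else 0) = 1 / Fintype.card Y := by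
  rw [← expect_update x]
  simp only [Function.update_self, Function.update_of_ne (Ne.symm h)]
  have : ∀ H : Hsh U I Y l, 𝔼 r : Y × Bool, (if r.1 = (H x').1 then (1 : ℝ) else 0) =
      1 / Fintype.card Y := by
    intro H
    rw [expect_prod_type (fun r : Y × Bool => if r.1 = (H x').1 then (1 : ℝ) else 0)]
    have h5 : ∀ a : Y, 𝔼 c : Bool, (if ((a, c) : Y × Bool).1 = (H x').1 then (1 : ℝ) else 0) =
        if a = (H x').1 then 1 else 0 := fun a => Fintype.expect_const _
    simp only [h5]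
    rw [Fintype.expect_eq_sum_div_card]; simp
  simp only [this]
  exact Fintype.expect_const _

/-- the probability of a false candidate -/
theorem expect_col (P : I → Bool) (x₀ : U × (Fin l → I)) (u₀ : U) :
    𝔼 h : Hsh U I Y l, (if ∃ X : Fin l → I, (∀ j, P (X j) = true) ∧ (u₀, X) ≠ x₀ ∧
      (h (u₀, X)).1 = (h x₀).1 then (1 : ℝ) else 0) ≤ (cnt P : ℝ) ^ l / Fintype.card Y := by
  classical
  let Fs : Finset (Fin l → I) := Fintype.piFinset fun _ => Finset.univ.filter fun i => P i = true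
  have hFs : Fs.card = cnt P ^ l := by
    rw [Fintype.card_piFinset]
    simp [cnt]
  have hmem : ∀ X, X ∈ Fs ↔ ∀ j, P (X j) = true := by
    intro X; simp [Fs, Fintype.mem_piFinset]
  have h1 : ∀ h : Hsh U I Y l, (if ∃ X : Fin l → I, (∀ j, P (X j) = true) ∧ (u₀, X) ≠ x₀ ∧
      (h (u₀, X)).1 = (h x₀).1 then (1 : ℝ) else 0) ≤
      ∑ X ∈ Fs, (if (u₀, X) ≠ x₀ ∧ (h (u₀, X)).1 = (h x₀).1 then (1 : ℝ) else 0) := by
    intro h
    have hnn : ∀ X ∈ Fs, (0 : ℝ) ≤
        (if (u₀, X) ≠ x₀ ∧ (h (u₀, X)).1 = (h x₀).1 then (1 : ℝ) else 0) := by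
      intro X _; split_ifs <;> norm_num
    by_cases hex : ∃ X : Fin l → I, (∀ j, P (X j) = true) ∧ (u₀, X) ≠ x₀ ∧
      (h (u₀, X)).1 = (h x₀).1
    · rw [if_pos hex]
      obtain ⟨X, hX, hX2⟩ := hex
      have := Finset.single_le_sum hnn ((hmem X).mpr hX)
      rw [if_pos hX2] at this
      exact this
    · rw [if_neg hex]
      exact Finset.sum_nonneg hnn
  refine (Finset.expect_le_expect fun h _ => h1 h).trans ?_
  rw [Finset.expect_sum_comm]
  have h2 : ∀ X ∈ Fs, 𝔼 h : Hsh U I Y l,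
      (if (u₀, X) ≠ x₀ ∧ (h (u₀, X)).1 = (h x₀).1 then (1 : ℝ) else 0) ≤
        1 / Fintype.card Y := by
    intro X _
    by_cases hX : (u₀, X) = x₀
    · simp only [hX, ne_eq, not_true_eq_false, false_and, if_false]
      rw [Fintype.expect_const]
      positivity
    · rw [← expect_tag_eq (Y := Y) hX]
      exact Finset.expect_le_expect fun h _ => by simp [hX]
  refine (Finset.sum_le_sum h2).trans (le_of_eq ?_)
  rw [Finset.sum_const, hFs, nsmul_eq_mul]
  push_cast
  ring

/-- the picked list -/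
def pk (s : Kc → I → Bool) (T : ℕ) (κ : A → Kc) (e : EC A U V I Y l T)
    (f : Dm A U V I → Bool) (i : A × V) : Fin l → I :=
  fun j => pick (agr (s (κ i.1)) (blk f i.1 (e.1 i, i.2))) T ((e.2 i).1 j)

/-- decryption is correct unless one of four bad events happens -/
theorem decF_encF (s : Kc → I → Bool) (T : ℕ) {c₀ μ : ℝ} (w : A → U × V) (κ : A → Kc) (b : Bool)
    (e : EC A U V I Y l T) (f : Dm A U V I → Bool)
    (h1 : ¬ ∀ a, e.1 (a, (w a).2) ≠ (w a).1)
    (h2 : ∀ a, e.1 (a, (w a).2) = (w a).1 →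
      |(cnt (agr (s (κ a)) (blk f a (w a))) : ℝ) - c₀| ≤ μ)
    (h3 : ∀ a, e.1 (a, (w a).2) = (w a).1 → ∀ j,
      agr (s (κ a)) (blk f a (e.1 (a, (w a).2), (w a).2)) (pk s T κ e f (a, (w a).2) j) = true)
    (h4 : ∀ a, (cnt (agr (s (κ a)) (blk f a (w a))) : ℝ) ≤ c₀ + μ → ¬ ∃ X : Fin l → I,
      (∀ j, agr (s (κ a)) (blk f a (w a)) (X j) = true) ∧
      ((w a).1, X) ≠ (e.1 (a, (w a).2), pk s T κ e f (a, (w a).2)) ∧
      ((e.2 (a, (w a).2)).2 ((w a).1, X)).1 =
        ((e.2 (a, (w a).2)).2 (e.1 (a, (w a).2), pk s T κ e f (a, (w a).2))).1) :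
    decF s (c₀ + μ) (w, (fun a => blk f a (w a), κ)) (encF s T κ b e f) = b := by
  refine decF_eq _ _ _ _ _ ?_ ?_
  · push Not at h1
    obtain ⟨a, ha⟩ := h1
    refine ⟨(a, pk s T κ e f (a, (w a).2)), ?_, ?_, ?_⟩
    · have := (abs_le.mp (h2 a ha)).2
      show (cnt (agr (s (κ a)) (blk f a (w a))) : ℝ) ≤ c₀ + μ
      linarith
    · intro j
      have h5 := h3 a ha j
      have hw : (e.1 (a, (w a).2), (w a).2) = w a := Prod.ext ha rfl
      rw [hw] at h5
      exact h5
    · show ((e.2 (a, (w a).2)).2 ((w a).1, pk s T κ e f (a, (w a).2))).1 =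
        ((e.2 (a, (w a).2)).2 (e.1 (a, (w a).2), pk s T κ e f (a, (w a).2))).1
      rw [ha]
  · rintro ⟨a, X⟩ ⟨h5, h6, h7⟩
    have h8 := h4 a h5
    have h9 : ((w a).1, X) = (e.1 (a, (w a).2), pk s T κ e f (a, (w a).2)) := by
      by_contra hne
      exact h8 ⟨X, h6, hne, h7⟩
    show xor (xor b ((e.2 (a, (w a).2)).2 (e.1 (a, (w a).2), pk s T κ e f (a, (w a).2))).2)
      ((e.2 (a, (w a).2)).2 ((w a).1, X)).2 = b
    rw [h9, Bool.xor_assoc, Bool.xor_self, Bool.xor_false]

end Corr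

end Pool.Agent.PKE70
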