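import Pool.Agent.PKE70.Attack4
import Pool.Agent.PKE70.Fakes

/-!
# Short public keys: strategies that simulate key generation, and their values
-/

set_option autoImplicit false
set_option linter.unusedSectionVars false

open scoped BigOperators

namespace Pool.Agent.PKE70

variable {D R PK SK C ΩG ΩE ΩD : Type} [DecidableEq D]

namespace Scheme

variable (S : Scheme D R PK SK C ΩG ΩE ΩD)

/-- a block: use the strategy `σ` to find a hypothetical secret key and overriding answers, encrypt,
decrypt -/
def blk (pk : PK) (σ : QAlg D R (SK × (D → Option R))) (r : Bool × ΩE × ΩD) : QAlg D R Bool :=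
  σ.bind fun h => S.full pk h r

/-- success of a block -/
noncomputable def sval (pk : PK) (σ : QAlg D R (SK × (D → Option R))) (r : Bool × ΩE × ΩD)
    (f : D → R) : ℝ :=
  if (S.blk pk σ r).run f = r.1 then 1 else 0

theorem sval_eq (pk : PK) (σ : QAlg D R (SK × (D → Option R))) (r : Bool × ΩE × ΩD)
    (f : D → R) : S.sval pk σ r f = S.val pk (σ.run f) r f := by
  rw [sval, val, blk, QAlg.run_bind]

theorem sval_nonneg (pk : PK) (σ : QAlg D R (SK × (D → Option R))) (r : Bool × ΩE × ΩD)
    (f : D → R) : 0 ≤ S.sval pk σ r f := by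
  unfold sval; split_ifs <;> norm_num

theorem sval_le_one (pk : PK) (σ : QAlg D R (SK × (D → Option R))) (r : Bool × ΩE × ΩD)
    (f : D → R) : S.sval pk σ r f ≤ 1 := by
  unfold sval; split_ifs <;> norm_num

theorem cost_blk_le {q n : ℕ} (hq : S.QueryBound q) (pk : PK)
    (σ : QAlg D R (SK × (D → Option R))) (hσ : ∀ f, σ.cost f ≤ n) (r : Bool × ΩE × ΩD)
    (f : D → R) : (S.blk pk σ r).cost f ≤ n + 2 * q := by
  rw [blk, QAlg.cost_bind]
  exact Nat.add_le_add (hσ f) (S.card_qs_le hq _ _ _ _)

variable [Fintype D] [Fintype R] [Fintype ΩE] [Fintype ΩD] [Fintype SK] [Nonempty SK]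

/-- the value of a strategy if all points outside `v` are fresh -/
noncomputable def sidl (pk : PK) (v : D → Option R) (σ : QAlg D R (SK × (D → Option R))) : ℝ :=
  𝔼 g : D → R, 𝔼 r : Bool × ΩE × ΩD, S.sval pk σ r (ovr g v)

theorem sidl_nonneg (pk : PK) (v : D → Option R) (σ : QAlg D R (SK × (D → Option R))) :
    0 ≤ S.sidl pk v σ :=
  Finset.expect_nonneg fun _ _ => Finset.expect_nonneg fun _ _ => S.sval_nonneg _ _ _ _

theorem exists_best_strategy (n : ℕ) (pk : PK) (v : D → Option R) :
    ∃ σ : QAlg D R (SK × (D → Option R)), (∀ f, σ.cost f ≤ n) ∧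
      ∀ σ' : QAlg D R (SK × (D → Option R)), (∀ f, σ'.cost f ≤ n) →
        S.sidl pk v σ' ≤ S.sidl pk v σ := by
  classical
  let P : ((D → R) → SK × (D → Option R)) → Prop := fun Φ =>
    ∃ σ : QAlg D R (SK × (D → Option R)), (∀ f, σ.cost f ≤ n) ∧ ∀ f, σ.run f = Φ f
  have hne : Nonempty {Φ // P Φ} :=
    ⟨⟨fun _ => (Classical.arbitrary SK, fun _ => none),
      .ret (Classical.arbitrary SK, fun _ => none), fun f => by simp, fun f => rfl⟩⟩
  have hfin : Finite {Φ // P Φ} := inferInstance
  obtain ⟨Φ, hΦ⟩ := Finite.exists_max (fun Φ : {Φ // P Φ} => S.sidl pk v (Classical.choose Φ.2))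
  refine ⟨Classical.choose Φ.2, (Classical.choose_spec Φ.2).1, fun σ' hσ' => ?_⟩
  have hP : P fun f => σ'.run f := ⟨σ', hσ', fun f => rfl⟩
  refine le_trans (le_of_eq ?_) (hΦ ⟨_, hP⟩)
  have h1 := (Classical.choose_spec hP).2
  unfold sidl
  refine Finset.expect_congr rfl fun g _ => Finset.expect_congr rfl fun r _ => ?_
  rw [sval_eq, sval_eq, h1]

/-- the best strategy with at most `n` queries, given the knowledge `v` -/
noncomputable def bst (n : ℕ) (pk : PK) (v : D → Option R) : QAlg D R (SK × (D → Option R)) :=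
  Classical.choose (S.exists_best_strategy n pk v)

theorem cost_bst (n : ℕ) (pk : PK) (v : D → Option R) (f : D → R) :
    (S.bst n pk v).cost f ≤ n := (Classical.choose_spec (S.exists_best_strategy n pk v)).1 f

/-- its value -/
noncomputable def W (n : ℕ) (pk : PK) (v : D → Option R) : ℝ := S.sidl pk v (S.bst n pk v)

theorem sidl_le_W {n : ℕ} {pk : PK} {v : D → Option R} {σ : QAlg D R (SK × (D → Option R))}
    (hσ : ∀ f, σ.cost f ≤ n) : S.sidl pk v σ ≤ S.W n pk v :=
  (Classical.choose_spec (S.exists_best_strategy n pk v)).2 σ hσ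

theorem W_nonneg (n : ℕ) (pk : PK) (v : D → Option R) : 0 ≤ S.W n pk v := S.sidl_nonneg _ _ _

/-- one more query -/
theorem expect_W_le [Nonempty R] {n : ℕ} {pk : PK} {z : D → Option R} {x : D} (hx : z x = none) :
    𝔼 y : R, S.W n pk (Function.update z x (some y)) ≤ S.W (n + 1) pk z := by
  refine le_trans (le_of_eq ?_) (S.sidl_le_W (σ := .ask x fun y =>
    S.bst n pk (Function.update z x (some y))) fun f => by
      rw [QAlg.cost_ask]; exact Nat.add_le_add_right (S.cost_bst _ _ _ _) 1)
  unfold sidl
  rw [expect_ovr_update hx (fun f => 𝔼 r : Bool × ΩE × ΩD, S.sval pk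
    (.ask x fun y => S.bst n pk (Function.update z x (some y))) r f)]
  refine Finset.expect_congr rfl fun y _ => ?_
  unfold W sidl
  refine Finset.expect_congr rfl fun g _ => Finset.expect_congr rfl fun r _ => ?_
  rw [sval_eq, sval_eq, QAlg.run_ask, ovr_update_self]

/-- the probability that encryption queries `x` -/
noncomputable def pq (pk : PK) (x : D) (f : D → R) : ℝ :=
  𝔼 r : Bool × ΩE × ΩD, if x ∈ S.eqs pk r f then (1 : ℝ) else 0

theorem pq_nonneg (pk : PK) (x : D) (f : D → R) : 0 ≤ S.pq pk x f :=
  Finset.expect_nonneg fun _ _ => by split_ifs <;> norm_num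

theorem pq_le_one [Nonempty ΩE] [Nonempty ΩD] (pk : PK) (x : D) (f : D → R) : S.pq pk x f ≤ 1 :=
  Finset.expect_le Finset.univ_nonempty fun _ _ => by split_ifs <;> norm_num

variable [DecidableEq PK]

/-- expected number of replaced points that encryption queries, along the run of `T` -/
noncomputable def hitF (pk : PK) : (D → Option R) → QAlg D R (PK × SK) → (D → R) → ℝ
  | _, .ret _, _ => 0
  | u, .ask x k, f => (if (u x).isSome then 0 else
      fk (fun a : PK × SK => a.1 = pk) u x k (f x) * S.pq pk x f) +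
      hitF pk (Function.update u x (some (f x))) (k (f x)) f

theorem hitF_ret (pk : PK) (u : D → Option R) (a : PK × SK) (f : D → R) :
    S.hitF pk u (.ret a) f = 0 := rfl
theorem hitF_ask (pk : PK) (u : D → Option R) (x : D) (k : R → QAlg D R (PK × SK))
    (f : D → R) : S.hitF pk u (.ask x k) f = (if (u x).isSome then 0 else
      fk (fun a : PK × SK => a.1 = pk) u x k (f x) * S.pq pk x f) +
      S.hitF pk (Function.update u x (some (f x))) (k (f x)) f := rfl

end Scheme

/-- the averaging argument in the coupling -/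
theorem transport {ι : Type} [Fintype ι] [Nonempty ι] (a A P W φ : ι → ℝ) {m : ℝ}
    (hm : m = 𝔼 y, a y) (hφ0 : ∀ y, 0 ≤ φ y) (hφ1 : ∀ y, φ y ≤ 1)
    (hφa : ∀ y, φ y * a y = max (a y - m) 0) (I1 : ∀ y, A y ≤ a y * W y)
    (I2 : ∀ y' y, A y' - P y' ≤ a y' * W y) :
    𝔼 y, (A y - φ y * P y) ≤ m * 𝔼 y, W y := by
  set s := 𝔼 y, max (a y - m) 0 with hs
  have hs2 : s = 𝔼 y, max (m - a y) 0 := by
    have h1 : 𝔼 y, (max (a y - m) 0 - max (m - a y) 0) = 0 := by
      have h2 : ∀ y, max (a y - m) 0 - max (m - a y) 0 = a y - m := by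
        intro y
        rcases le_total (a y) m with h | h
        · rw [max_eq_right (by linarith), max_eq_left (by linarith)]; ring
        · rw [max_eq_left (by linarith), max_eq_right (by linarith)]; ring
      simp only [h2]
      rw [Finset.expect_sub_distrib, Fintype.expect_const, ← hm, sub_self]
    rw [Finset.expect_sub_distrib] at h1
    linarith
  have hs0 : 0 ≤ s := Finset.expect_nonneg fun y _ => le_max_right _ _
  -- the replaced part
  have h3 : 𝔼 y, φ y * (A y - P y) ≤ 𝔼 y, max (m - a y) 0 * W y := by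
    have h4 : ∀ y' y, φ y' * (A y' - P y') ≤ max (a y' - m) 0 * W y := by
      intro y' y
      have := mul_le_mul_of_nonneg_left (I2 y' y) (hφ0 y')
      rw [← mul_assoc, hφa] at this
      exact this
    rcases hs0.eq_or_lt with h | h
    · -- no replacement
      have hcpos : (0 : ℝ) < Fintype.card ι := by exact_mod_cast Fintype.card_pos
      have hz : ∀ b : ι → ℝ, (∀ y, 0 ≤ b y) → 𝔼 y, b y = 0 → ∀ y, b y = 0 := by
        intro b hb h0 y
        rw [Fintype.expect_eq_sum_div_card] at h0
        have h2 : ∑ j, b j = 0 := by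
          rcases div_eq_zero_iff.mp h0 with h | h
          · exact h
          · exact absurd h hcpos.ne'
        exact (Finset.sum_eq_zero_iff_of_nonneg fun j _ => hb j).mp h2 y (Finset.mem_univ y)
      have h5 : ∀ y, max (a y - m) 0 = 0 := hz (fun y => max (a y - m) 0)
        (fun y => le_max_right _ _) (by rw [← hs]; exact h.symm)
      have h6 : ∀ y, max (m - a y) 0 = 0 := hz (fun y => max (m - a y) 0)
        (fun y => le_max_right _ _) (by rw [← hs2]; exact h.symm)
      simp only [h6, zero_mul, Fintype.expect_const]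
      have y0 : ι := Classical.arbitrary ι
      refine (Finset.expect_le_expect fun y' _ => h4 y' y0).trans ?_
      simp only [h5, zero_mul, Fintype.expect_const, le_refl]
    · rw [← mul_le_mul_iff_right₀ h]
      calc s * 𝔼 y, φ y * (A y - P y)
          = 𝔼 y', 𝔼 y, max (m - a y) 0 * (φ y' * (A y' - P y')) := by
            rw [Finset.mul_expect]
            refine Finset.expect_congr rfl fun y' _ => ?_
            rw [← Finset.expect_mul, ← hs2]
        _ ≤ 𝔼 y', 𝔼 y, max (m - a y) 0 * (max (a y' - m) 0 * W y) :=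
            Finset.expect_le_expect fun y' _ => Finset.expect_le_expect fun y _ =>
              mul_le_mul_of_nonneg_left (h4 y' y) (le_max_right _ _)
        _ = s * 𝔼 y, max (m - a y) 0 * W y := by
            rw [hs, Finset.expect_mul]
            refine Finset.expect_congr rfl fun y' _ => ?_
            rw [Finset.mul_expect]
            exact Finset.expect_congr rfl fun y _ => by ring
  -- the part that is not replaced
  have h7 : 𝔼 y, (1 - φ y) * A y ≤ 𝔼 y, (a y - max (a y - m) 0) * W y := by
    refine Finset.expect_le_expect fun y _ => ?_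
    have := mul_le_mul_of_nonneg_left (I1 y) (sub_nonneg.mpr (hφ1 y))
    have h8 : (1 - φ y) * (a y * W y) = (a y - max (a y - m) 0) * W y := by
      rw [← hφa]; ring
    rw [h8] at this
    exact this
  have h9 : 𝔼 y, (A y - φ y * P y) = 𝔼 y, (1 - φ y) * A y + 𝔼 y, φ y * (A y - P y) := by
    rw [← Finset.expect_add_distrib]
    exact Finset.expect_congr rfl fun y _ => by ring
  have h10 : m * 𝔼 y, W y = 𝔼 y, (a y - max (a y - m) 0) * W y + 𝔼 y, max (m - a y) 0 * W y := by
    rw [← Finset.expect_add_distrib, Finset.mul_expect]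
    refine Finset.expect_congr rfl fun y _ => ?_
    rcases le_total (a y) m with h | h
    · rw [max_eq_right (by linarith), max_eq_left (by linarith)]; ring
    · rw [max_eq_left (by linarith), max_eq_right (by linarith)]; ring
  rw [h9, h10]
  exact add_le_add h7 h3

end Pool.Agent.PKE70
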