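import Pool.Agent.PKE70.Short1

/-!
# Short public keys: the coupling of the posterior view of key generation with the oracle
-/

set_option autoImplicit false
set_option linter.unusedSectionVars false

open scoped BigOperators

namespace Pool.Agent.PKE70

variable {D R PK SK C ΩG ΩE ΩD : Type} [DecidableEq D]

namespace Scheme

variable (S : Scheme D R PK SK C ΩG ΩE ΩD)
variable [Fintype D] [Fintype R] [Fintype ΩE] [Fintype ΩD] [Fintype SK] [Nonempty SK]
  [Nonempty ΩE] [Nonempty ΩD] [Nonempty R] [DecidableEq PK]

/-- the honest success with the keys that `T` outputs, if the public key is `pk`, minus the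
probability that encryption queries a point of `F` and minus the expected number of replaced
points that encryption queries -/
noncomputable def lhsF (pk : PK) (F : Finset D) (u : D → Option R) (T : QAlg D R (PK × SK))
    (f : D → R) : ℝ :=
  (if (T.run f).1 = pk then (1 : ℝ) else 0) *
    (S.succH pk (T.run f).2 f - ∑ x ∈ F, S.pq pk x f - S.hitF pk u T f)

/-- a leaf -/
theorem leaf_le (pk : PK) (sk : SK) {F : Finset D} {u z : D → Option R}
    (hdom : ∀ x, (u x).isSome = (z x).isSome) (hF : ∀ x, x ∉ F → u x = z x) (n : ℕ) :
    𝔼 g : D → R, (S.succH pk sk (ovr g u) - ∑ x ∈ F, S.pq pk x (ovr g u)) ≤ S.W n pk z := by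
  classical
  refine le_trans ?_ (S.sidl_le_W (σ := .ret (sk, u)) fun f => by simp)
  unfold sidl
  refine Finset.expect_le_expect fun g _ => ?_
  unfold succH pq
  rw [← Finset.expect_sum_comm, ← Finset.expect_sub_distrib]
  refine Finset.expect_le_expect fun r _ => ?_
  have hnn : ∀ x ∈ F, (0 : ℝ) ≤ if x ∈ S.eqs pk r (ovr g u) then (1 : ℝ) else 0 := fun x _ => by
    split_ifs <;> norm_num
  rw [sval_eq, QAlg.run_ret]
  by_cases hex : ∃ x ∈ F, x ∈ S.eqs pk r (ovr g u)
  · obtain ⟨x, hx1, hx2⟩ := hex
    have h1 := Finset.single_le_sum hnn hx1
    rw [if_pos hx2] at h1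
    have h2 := S.val_le_one pk (sk, fun _ => none) r (ovr g u)
    have h3 := S.val_nonneg pk (sk, u) r (ovr g z)
    linarith
  · have h0 : ∑ x ∈ F, (if x ∈ S.eqs pk r (ovr g u) then (1 : ℝ) else 0) = 0 :=
      Finset.sum_eq_zero fun x hx => if_neg fun h => hex ⟨x, hx, h⟩
    rw [h0, sub_zero]
    have hagree : ∀ x ∈ S.eqs pk r (ovr g u), ovr g z x = ovr g u x := by
      intro x hx
      have hxF : x ∉ F := fun h => hex ⟨x, h, hx⟩
      simp only [ovr, hF x hxF]
    obtain ⟨h1, -⟩ := S.eqs_local pk r _ _ hagree
    have h2 : ovr (ovr g z) u = ovr g u := by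
      funext x
      rcases hu : u x with _ | y
      · have hz : z x = none := by
          have := hdom x
          rw [hu] at this
          exact Option.isNone_iff_eq_none.mp (by rw [← Option.not_isSome, ← this]; rfl)
        simp [ovr, hu, hz]
      · simp [ovr, hu]
    have h3 : (S.full pk (sk, u) r).run (ovr g z) =
        (S.full pk (sk, fun _ => none) r).run (ovr g u) := by
      simp only [full, QAlg.run_bind, QAlg.run_withAns, h1, h2, ovr_none]
    unfold val
    rw [h3]

/-- **coupling** -/
theorem coupling (pk : PK) (T : QAlg D R (PK × SK)) : ∀ (n : ℕ) (F : Finset D)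
    (u z : D → Option R), (∀ x, (u x).isSome = (z x).isSome) → (∀ x, x ∉ F → u x = z x) →
    (∀ g : D → R, T.cost (ovr g u) ≤ n) →
    𝔼 g : D → R, S.lhsF pk F u T (ovr g u) ≤
      acc (fun a : PK × SK => a.1 = pk) u T * S.W n pk z := by
  classical
  induction T with
  | ret a =>
    intro n F u z hdom hF _
    unfold lhsF acc
    simp only [QAlg.run_ret, hitF_ret, sub_zero]
    by_cases ha : a.1 = pk
    · simp only [ha, if_true, one_mul, Fintype.expect_const]
      exact S.leaf_le pk a.2 hdom hF n
    · simp only [ha, if_false, zero_mul, Fintype.expect_const, le_refl]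
  | ask x k ih =>
    intro n F u z hdom hF hT
    rcases hx : u x with _ | y
    · -- fresh point
      have hzx : z x = none := by
        have := hdom x
        rw [hx] at this
        exact Option.isNone_iff_eq_none.mp (by rw [← Option.not_isSome, ← this]; rfl)
      have hn1 : 1 ≤ n := by
        have g : D → R := Classical.arbitrary _
        have := hT g
        rw [QAlg.cost_ask] at this
        omega
      obtain ⟨n', rfl⟩ : ∃ n', n = n' + 1 := ⟨n - 1, by omega⟩
      have hcost : ∀ (y : R) (g : D → R),
          (k y).cost (ovr g (Function.update u x (some y))) ≤ n' := by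
        intro y g
        have h1 := hT (Function.update g x y)
        rw [ovr_update_of_none hx, QAlg.cost_ask, ovr_update_self] at h1
        omega
      have hdom' : ∀ (y' y : R) (w : D), ((Function.update u x (some y')) w).isSome =
          ((Function.update z x (some y)) w).isSome := by
        intro y' y w
        by_cases hw : w = x
        · subst hw; simp
        · rw [Function.update_of_ne hw, Function.update_of_ne hw, hdom]
      rw [expect_ovr_update hx (fun f => S.lhsF pk F u (.ask x k) f)]
      -- the data for each hypothetical answer
      let Av : R → ℝ := fun y => 𝔼 g : D → R, S.lhsF pk F (Function.update u x (some y)) (k y)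
        (ovr g (Function.update u x (some y)))
      let Pv : R → ℝ := fun y => 𝔼 g : D → R,
        (if ((k y).run (ovr g (Function.update u x (some y)))).1 = pk then (1 : ℝ) else 0) *
          S.pq pk x (ovr g (Function.update u x (some y)))
      have h1 : ∀ y : R, 𝔼 g : D → R, S.lhsF pk F u (.ask x k)
            (ovr g (Function.update u x (some y))) =
          Av y - fk (fun a : PK × SK => a.1 = pk) u x k y * Pv y := by
        intro y
        simp only [Av, Pv]
        rw [Finset.mul_expect, ← Finset.expect_sub_distrib]
        refine Finset.expect_congr rfl fun g _ => ?_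
        unfold lhsF
        rw [hitF_ask, QAlg.run_ask, ovr_update_self, hx]
        simp only [Option.isSome_none, Bool.false_eq_true, if_false]
        ring
      simp only [h1]
      have hac := acc_ask_of_none (fun a : PK × SK => a.1 = pk) (k := k) hx
      have h2 := transport (fun y => acc (fun a : PK × SK => a.1 = pk)
          (Function.update u x (some y)) (k y)) Av Pv
        (fun y => S.W n' pk (Function.update z x (some y)))
        (fun y => fk (fun a : PK × SK => a.1 = pk) u x k y) hac
        (fun y => fk_nonneg _ _ _ _ _) (fun y => fk_le_one _ _ _ _ _)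
        (fun y => fk_mul _ _ _ _ _)
        (by
          intro y
          refine ih y n' F _ _ (hdom' y y) ?_ (hcost y)
          intro w hw
          by_cases hwx : w = x
          · subst hwx; simp
          · rw [Function.update_of_ne hwx, Function.update_of_ne hwx, hF w hw])
        (by
          intro y' y
          have h3 := ih y' n' (insert x F) (Function.update u x (some y'))
            (Function.update z x (some y)) (hdom' y' y)
            (by
              intro w hw
              rw [Finset.mem_insert, not_or] at hw
              rw [Function.update_of_ne hw.1, Function.update_of_ne hw.1, hF w hw.2]) (hcost y')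
          refine le_trans ?_ h3
          simp only [Av, Pv]
          rw [← Finset.expect_sub_distrib]
          refine Finset.expect_le_expect fun g _ => ?_
          unfold lhsF
          rw [← mul_sub]
          refine mul_le_mul_of_nonneg_left ?_ (by split_ifs <;> norm_num)
          have h4 : ∑ w ∈ insert x F, S.pq pk w (ovr g (Function.update u x (some y'))) ≤
              S.pq pk x (ovr g (Function.update u x (some y'))) +
              ∑ w ∈ F, S.pq pk w (ovr g (Function.update u x (some y'))) := by
            by_cases hxF : x ∈ F
            · rw [Finset.insert_eq_of_mem hxF]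
              have := S.pq_nonneg pk x (ovr g (Function.update u x (some y')))
              linarith
            · rw [Finset.sum_insert hxF]
          linarith)
      refine h2.trans ?_
      exact mul_le_mul_of_nonneg_left (S.expect_W_le hzx) (acc_nonneg _ _ _)
    · -- known point
      have hcost : ∀ (g : D → R), (k y).cost (ovr g u) ≤ n := by
        intro g
        have h1 := hT g
        rw [QAlg.cost_ask, ovr_some hx] at h1
        omega
      have h2 : ∀ g : D → R, S.lhsF pk F u (.ask x k) (ovr g u) = S.lhsF pk F u (k y) (ovr g u) := by
        intro g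
        unfold lhsF
        rw [hitF_ask, QAlg.run_ask, ovr_some hx, update_eq_self_of_some hx, hx]
        simp
      simp only [h2]
      rw [acc_ask_of_some _ hx]
      exact ih y n F u z hdom hF hcost

/-- the coupling lemma with equal knowledge -/
theorem coupling_self (pk : PK) (T : QAlg D R (PK × SK)) {q : ℕ} (hT : ∀ f, T.cost f ≤ q)
    (v : D → Option R) :
    𝔼 g : D → R, (if (T.run (ovr g v)).1 = pk then (1 : ℝ) else 0) *
        S.succH pk (T.run (ovr g v)).2 (ovr g v) ≤
      𝔼 g : D → R, (if (T.run (ovr g v)).1 = pk then (1 : ℝ) else 0) *
        (S.W q pk v + S.hitF pk v T (ovr g v)) := by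
  have h := S.coupling pk T q ∅ v v (fun _ => rfl) (fun _ _ => rfl) (fun g => hT _)
  unfold lhsF acc at h
  simp only [Finset.sum_empty, sub_zero] at h
  rw [Finset.expect_mul] at h
  have h2 : ∀ g : D → R, (if (T.run (ovr g v)).1 = pk then (1 : ℝ) else 0) *
      (S.W q pk v + S.hitF pk v T (ovr g v)) =
      (if (T.run (ovr g v)).1 = pk then (1 : ℝ) else 0) * S.W q pk v +
      (if (T.run (ovr g v)).1 = pk then (1 : ℝ) else 0) * S.hitF pk v T (ovr g v) :=
    fun g => by ring
  have h3 : ∀ g : D → R, (if (T.run (ovr g v)).1 = pk then (1 : ℝ) else 0) *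
      (S.succH pk (T.run (ovr g v)).2 (ovr g v) - S.hitF pk v T (ovr g v)) =
      (if (T.run (ovr g v)).1 = pk then (1 : ℝ) else 0) *
        S.succH pk (T.run (ovr g v)).2 (ovr g v) -
      (if (T.run (ovr g v)).1 = pk then (1 : ℝ) else 0) * S.hitF pk v T (ovr g v) :=
    fun g => by ring
  simp only [h2, h3] at h ⊢
  rw [Finset.expect_sub_distrib] at h
  rw [Finset.expect_add_distrib]
  linarith

end Scheme

end Pool.Agent.PKE70
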