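import Pool.Agent.PKE70.Short2

/-!
# Short public keys: the learning phase
-/

set_option autoImplicit false
set_option linter.unusedSectionVars false

open scoped BigOperators

namespace Pool.Agent.PKE70

variable {D R PK SK C ΩG ΩE ΩD : Type} [DecidableEq D]

theorem avgL_append {Ω : Type} [Fintype Ω] (m l : ℕ) (Φ : List Ω → ℝ) :
    avgL (m + l) Φ = avgL m (fun ρ₀ => avgL l (fun ρ => Φ (ρ₀ ++ ρ))) := by
  induction m generalizing Φ with
  | zero => simp [avgL_zero]
  | succ m ih =>
    rw [show m + 1 + l = (m + l) + 1 by ring, avgL_succ, avgL_succ]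
    refine Finset.expect_congr rfl fun r _ => ?_
    rw [ih]
    rfl

theorem kn_append {Ω : Type} (Q : (D → Option R) → Ω → (D → R) → Finset D) (f : D → R)
    (A : Finset D) (ρ₀ ρ : List Ω) : kn Q f A (ρ₀ ++ ρ) = kn Q f (kn Q f A ρ₀) ρ := by
  induction ρ₀ generalizing A with
  | nil => rfl
  | cons r ρ₀ ih => exact ih _

namespace Scheme

variable (S : Scheme D R PK SK C ΩG ΩE ΩD)
variable [Fintype D] [Fintype R] [Fintype ΩE] [Fintype ΩD] [Fintype SK] [Nonempty SK]
  [Nonempty ΩE] [Nonempty ΩD] [Nonempty R] [DecidableEq PK]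

/-- queries of a block -/
noncomputable def QS (q : ℕ) (pk : PK) (v : D → Option R) (r : Bool × ΩE × ΩD) (f : D → R) :
    Finset D := (S.blk pk (S.bst q pk v) r).queries f

/-- success of a block -/
noncomputable def XSt (q : ℕ) (pk : PK) (v : D → Option R) (r : Bool × ΩE × ΩD) (f : D → R) :
    ℝ := S.sval pk (S.bst q pk v) r f

theorem isLocal_S (q : ℕ) (pk : PK) : IsLocal (S.QS q pk) (S.XSt q pk) := by
  intro v r f f' h
  obtain ⟨h1, h2⟩ := QAlg.local_run (S.blk pk (S.bst q pk v) r) h
  exact ⟨h2, by rw [XSt, XSt, sval, sval, h1]⟩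

theorem isLocal_S' (q : ℕ) (pk : PK) :
    IsLocal (S.QS q pk) (fun v r f => 1 - S.XSt q pk v r f) := by
  intro v r f f' h
  obtain ⟨h1, h2⟩ := S.isLocal_S q pk v r f f' h
  exact ⟨h1, by simp only [h2]⟩

/-- exposed set of the learning phase -/
noncomputable def AS (q : ℕ) (pk : PK) (ρ : List (Bool × ΩE × ΩD)) (f : D → R) : Finset D :=
  kn (S.QS q pk) f ∅ ρ

theorem AS_local (q : ℕ) (pk : PK) (ρ : List (Bool × ΩE × ΩD)) (f f' : D → R)
    (h : ∀ x ∈ S.AS q pk ρ f, f' x = f x) : S.AS q pk ρ f' = S.AS q pk ρ f :=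
  kn_local (S.QS q pk) (fun v r f f' h => (S.isLocal_S q pk v r f f' h).1) f f' ∅ ρ h

theorem eqs_subset_QS (q : ℕ) (pk : PK) (v : D → Option R) (r : Bool × ΩE × ΩD) (f : D → R) :
    S.eqs pk r f ⊆ S.QS q pk v r f := by
  rw [QS, blk, QAlg.queries_bind]
  refine Finset.Subset.trans ?_ Finset.subset_union_right
  exact S.eqs_subset_qs pk _ r f

/-- points queried by encryption in the learning phase are exposed -/
theorem eqs_subset_kn' (q : ℕ) (pk : PK) (ρ : List (Bool × ΩE × ΩD)) (f : D → R) (A : Finset D)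
    (r : Bool × ΩE × ΩD) (hr : r ∈ ρ) : S.eqs pk r f ⊆ kn (S.QS q pk) f A ρ := by
  induction ρ generalizing A with
  | nil => simp at hr
  | cons r' ρ ih =>
    rw [kn_cons]
    rcases List.mem_cons.mp hr with rfl | hr
    · refine Finset.Subset.trans ?_ (subset_kn _ _ _ _)
      exact (S.eqs_subset_QS q pk _ _ f).trans Finset.subset_union_right
    · exact ih _ hr

open Classical in
/-- a point that encryption queries often is rarely missed by the learning phase -/
theorem miss_le (q : ℕ) (pk : PK) (f : D → R) (x : D) (l : ℕ) :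
    avgL l (fun ρ : List (Bool × ΩE × ΩD) =>
      (if x ∉ S.AS q pk ρ f then (1 : ℝ) else 0)) ≤ (1 - S.pq pk x f) ^ l := by
  have hmiss : avgL l (fun ρ : List (Bool × ΩE × ΩD) =>
      (if ∀ r ∈ ρ, x ∉ S.eqs pk r f then (1 : ℝ) else 0)) = (1 - S.pq pk x f) ^ l := by
    induction l with
    | zero => simp [avgL_zero]
    | succ l ih =>
      rw [avgL_succ]
      have h1 : ∀ r : Bool × ΩE × ΩD, avgL l (fun ρ : List (Bool × ΩE × ΩD) =>
          (if ∀ r' ∈ r :: ρ, x ∉ S.eqs pk r' f then (1 : ℝ) else 0)) =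
          (1 - (if x ∈ S.eqs pk r f then (1 : ℝ) else 0)) * (1 - S.pq pk x f) ^ l := by
        intro r
        rw [← ih, ← avgL_mul_left]
        refine avgL_congr fun ρ _ => ?_
        by_cases h2 : x ∈ S.eqs pk r f
        · simp [h2]
        · simp [h2]
      simp only [h1]
      rw [← Finset.expect_mul, Finset.expect_sub_distrib, Fintype.expect_const]
      have : 𝔼 r : Bool × ΩE × ΩD, (if x ∈ S.eqs pk r f then (1 : ℝ) else 0) = S.pq pk x f := by
        unfold pq
        exact Finset.expect_congr rfl fun r _ => by congr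
      rw [this]
      ring
  rw [← hmiss]
  refine avgL_mono fun ρ _ => ?_
  by_cases h4 : x ∉ S.AS q pk ρ f
  · have h5 : ∀ r ∈ ρ, x ∉ S.eqs pk r f := fun r hr hx =>
      h4 (S.eqs_subset_kn' q pk ρ f ∅ r hr hx)
    rw [if_pos h4, if_pos h5]
  · rw [if_neg h4]
    split_ifs <;> norm_num

open Classical in
/-- replaced points that encryption queries: light points and heavy points -/
theorem hitF_le (pk : PK) {δ : ℝ} (hδ : 0 ≤ δ) (T : QAlg D R (PK × SK)) (u : D → Option R)
    (f : D → R) : S.hitF pk u T f ≤ δ * fakeF (fun a : PK × SK => a.1 = pk) u T f +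
      ∑ x ∈ T.queries f, if u x = none ∧ δ < S.pq pk x f then (1 : ℝ) else 0 := by
  induction T generalizing u with
  | ret a => simp [hitF_ret, fakeF_ret]
  | ask x k ih =>
    rw [hitF_ask, fakeF_ask, QAlg.queries_ask]
    set u' := Function.update u x (some (f x)) with hu'
    have h1 := ih (f x) u'
    set Q := (k (f x)).queries f
    have h2 : ∑ z ∈ Q, (if u' z = none ∧ δ < S.pq pk z f then (1 : ℝ) else 0) ≤
        ∑ z ∈ Q.erase x, (if u z = none ∧ δ < S.pq pk z f then (1 : ℝ) else 0) := by
      have h3 : ∑ z ∈ Q, (if u' z = none ∧ δ < S.pq pk z f then (1 : ℝ) else 0) =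
          ∑ z ∈ Q.erase x, (if u' z = none ∧ δ < S.pq pk z f then (1 : ℝ) else 0) := by
        by_cases hxQ : x ∈ Q
        · rw [← Finset.add_sum_erase Q _ hxQ]
          simp [hu']
        · rw [Finset.erase_eq_of_notMem hxQ]
      rw [h3]
      refine Finset.sum_le_sum fun z hz => ?_
      have hzx : z ≠ x := Finset.ne_of_mem_erase hz
      rw [hu', Function.update_of_ne hzx]
    have h4 : ∑ z ∈ insert x Q, (if u z = none ∧ δ < S.pq pk z f then (1 : ℝ) else 0) =
        (if u x = none ∧ δ < S.pq pk x f then (1 : ℝ) else 0) +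
        ∑ z ∈ Q.erase x, (if u z = none ∧ δ < S.pq pk z f then (1 : ℝ) else 0) := by
      have : insert x Q = insert x (Q.erase x) := by
        ext z; by_cases hz : z = x <;> simp [hz]
      rw [this, Finset.sum_insert (Finset.notMem_erase _ _)]
    rw [h4]
    have h5 : (if (u x).isSome then (0 : ℝ) else
        fk (fun a : PK × SK => a.1 = pk) u x k (f x) * S.pq pk x f) ≤
        δ * (if (u x).isSome then (0 : ℝ) else fk (fun a : PK × SK => a.1 = pk) u x k (f x)) +
        (if u x = none ∧ δ < S.pq pk x f then (1 : ℝ) else 0) := by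
      rcases hux : u x with _ | y
      · simp only [Option.isSome_none, Bool.false_eq_true, if_false, true_and]
        have g0 := fk_nonneg (fun a : PK × SK => a.1 = pk) u x k (f x)
        have g1 := fk_le_one (fun a : PK × SK => a.1 = pk) u x k (f x)
        have g2 := S.pq_nonneg pk x f
        have g3 := S.pq_le_one pk x f
        split_ifs with h
        · have : fk (fun a : PK × SK => a.1 = pk) u x k (f x) * S.pq pk x f ≤ 1 * 1 :=
            mul_le_mul g1 g3 g2 zero_le_one
          nlinarith [mul_nonneg hδ g0]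
        · push Not at h
          nlinarith [mul_le_mul_of_nonneg_left h g0]
      · simp
    linarith

end Scheme

end Pool.Agent.PKE70
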