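import Pool.Agent.PKE70.Short3

/-!
# Short public keys: the main inequality
-/

set_option autoImplicit false
set_option linter.unusedSectionVars false

open scoped BigOperators

namespace Pool.Agent.PKE70

variable {D R PK SK C ΩG ΩE ΩD : Type} [DecidableEq D]

namespace Scheme

variable (S : Scheme D R PK SK C ΩG ΩE ΩD)
variable [Fintype D] [Fintype R] [Fintype ΩE] [Fintype ΩD] [Fintype SK] [Nonempty SK]
  [Nonempty ΩE] [Nonempty ΩD] [Nonempty R] [DecidableEq PK]

theorem resample_AS (q : ℕ) (pk : PK) (ρ : List (Bool × ΩE × ΩD))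
    (K : (D → Option R) → (D → R) → ℝ)
    (h : ∀ v : D → Option R, 𝔼 g : D → R, K v (ovr g v) ≤ 0) :
    𝔼 f : D → R, K (res (S.AS q pk ρ f) f) f ≤ 0 := by
  have h1 := resample (D := D) (R := R) (fun g => S.AS q pk ρ g)
    (fun g g' h => S.AS_local q pk ρ g g' h)
    (fun g h => K (res (S.AS q pk ρ g) g) h)
    (by
      intro g g' h hg
      simp only [S.AS_local q pk ρ g g' hg, res_congr hg])
  rw [h1]
  refine Finset.expect_le (Finset.univ_nonempty) fun g _ => ?_
  have h2 : ∀ g' : D → R, (fun x => if x ∈ S.AS q pk ρ g then g x else g' x) =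
      ovr g' (res (S.AS q pk ρ g) g) := by
    intro g'
    funext x
    rw [ovr_res]
  simp only [h2]
  exact h _

/-- honest success in terms of the value of the best strategy -/
theorem expect_hyb (q : ℕ) (pk : PK) (ρ : List (Bool × ΩE × ΩD)) (T : QAlg D R (PK × SK))
    (hT : ∀ f, T.cost f ≤ q) :
    𝔼 f : D → R, (if (T.run f).1 = pk then (1 : ℝ) else 0) * S.succH pk (T.run f).2 f ≤
      𝔼 f : D → R, (if (T.run f).1 = pk then (1 : ℝ) else 0) *
        (S.W q pk (res (S.AS q pk ρ f) f) + S.hitF pk (res (S.AS q pk ρ f) f) T f) := by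
  have h := S.resample_AS q pk ρ (fun v f => (if (T.run f).1 = pk then (1 : ℝ) else 0) *
      S.succH pk (T.run f).2 f - (if (T.run f).1 = pk then (1 : ℝ) else 0) *
        (S.W q pk v + S.hitF pk v T f))
    (by
      intro v
      rw [Finset.expect_sub_distrib]
      exact sub_nonpos.mpr (S.coupling_self pk T hT v))
  rw [Finset.expect_sub_distrib] at h
  exact sub_nonpos.mp h

/-- the expected number of replaced points -/
theorem expect_fakes (q : ℕ) (pk : PK) (ρ : List (Bool × ΩE × ΩD)) (T : QAlg D R (PK × SK))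
    (hT : ∀ f, T.cost f ≤ q) {θ K : ℝ} (hθ0 : 0 < θ) (hθ1 : θ ≤ 1) (hK : 0 < K) :
    𝔼 f : D → R, (if (T.run f).1 = pk then (1 : ℝ) else 0) *
        fakeF (fun a : PK × SK => a.1 = pk) (res (S.AS q pk ρ f) f) T f ≤
      (Real.log K / θ - 1 / θ + θ * q / 4) *
        (𝔼 f : D → R, (if (T.run f).1 = pk then (1 : ℝ) else 0)) + 1 / (θ * K) := by
  have h := S.resample_AS q pk ρ (fun v f => (if (T.run f).1 = pk then (1 : ℝ) else 0) *
      fakeF (fun a : PK × SK => a.1 = pk) v T f -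
      ((Real.log K / θ - 1 / θ + θ * q / 4) * (if (T.run f).1 = pk then (1 : ℝ) else 0) +
        1 / (θ * K)))
    (by
      intro v
      rw [Finset.expect_sub_distrib, Finset.expect_add_distrib, Fintype.expect_const,
        ← Finset.mul_expect]
      have h1 := expect_fakeF_le (fun a : PK × SK => a.1 = pk) hθ0 hθ1 v T (n := q)
        (fun g => hT _)
      have h2 := negMulLog_le hK (acc_nonneg (fun a : PK × SK => a.1 = pk) v T)
      have h3 : 1 / θ * Real.negMulLog (acc (fun a : PK × SK => a.1 = pk) v T) ≤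
          1 / θ * (acc (fun a : PK × SK => a.1 = pk) v T * Real.log K + 1 / K -
            acc (fun a : PK × SK => a.1 = pk) v T) :=
        mul_le_mul_of_nonneg_left h2 (by positivity)
      have h4 : 1 / θ * (acc (fun a : PK × SK => a.1 = pk) v T * Real.log K + 1 / K -
            acc (fun a : PK × SK => a.1 = pk) v T) + θ / 4 * q *
              acc (fun a : PK × SK => a.1 = pk) v T =
          (Real.log K / θ - 1 / θ + θ * q / 4) * acc (fun a : PK × SK => a.1 = pk) v T +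
            1 / (θ * K) := by
        field_simp
        ring
      have h5 : 𝔼 g : D → R, (if (T.run (ovr g v)).1 = pk then (1 : ℝ) else 0) =
          acc (fun a : PK × SK => a.1 = pk) v T := rfl
      rw [h5]
      linarith)
  rw [Finset.expect_sub_distrib, Finset.expect_add_distrib, Fintype.expect_const,
    ← Finset.mul_expect] at h
  linarith

variable [Fintype PK] [Nonempty PK]

theorem sum_pk {X : PK → ℝ} (a : PK) :
    ∑ pk : PK, (if a = pk then (1 : ℝ) else 0) * X pk = X a := by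
  simp

open Classical in
/-- the honest success is at most the value of the best strategy plus errors -/
theorem expect_succ_le {q : ℕ} (T : QAlg D R (PK × SK)) (hT : ∀ f, T.cost f ≤ q) (l : ℕ)
    {θ δ : ℝ} (hθ0 : 0 < θ) (hθ1 : θ ≤ 1) (hδ0 : 0 ≤ δ) (hδ1 : δ ≤ 1) :
    𝔼 f : D → R, S.succH (T.run f).1 (T.run f).2 f ≤
      avgL l (fun ρ : List (Bool × ΩE × ΩD) =>
        𝔼 f : D → R, S.W q (T.run f).1 (res (S.AS q (T.run f).1 ρ f) f)) +
      δ * (Real.log (Fintype.card PK) / θ + θ * q / 4) + q * (1 - δ) ^ l := by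
  have hKpos : (0 : ℝ) < Fintype.card PK := by exact_mod_cast Fintype.card_pos
  -- for every learning phase
  have h1 : ∀ ρ : List (Bool × ΩE × ΩD), 𝔼 f : D → R, S.succH (T.run f).1 (T.run f).2 f ≤
      (𝔼 f : D → R, S.W q (T.run f).1 (res (S.AS q (T.run f).1 ρ f) f)) +
      δ * (Real.log (Fintype.card PK) / θ + θ * q / 4) +
      𝔼 f : D → R, ∑ x ∈ T.queries f, (if x ∉ S.AS q (T.run f).1 ρ f then (1 : ℝ) else 0) *
        (if δ < S.pq (T.run f).1 x f then (1 : ℝ) else 0) := by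
    intro ρ
    have e1 : 𝔼 f : D → R, S.succH (T.run f).1 (T.run f).2 f =
        ∑ pk : PK, 𝔼 f : D → R, (if (T.run f).1 = pk then (1 : ℝ) else 0) *
          S.succH pk (T.run f).2 f := by
      rw [← Finset.expect_sum_comm]
      refine Finset.expect_congr rfl fun f _ => ?_
      rw [sum_pk (X := fun pk => S.succH pk (T.run f).2 f)]
    have e2 : ∑ pk : PK, 𝔼 f : D → R, (if (T.run f).1 = pk then (1 : ℝ) else 0) *
        (S.W q pk (res (S.AS q pk ρ f) f) + S.hitF pk (res (S.AS q pk ρ f) f) T f) =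
        (𝔼 f : D → R, S.W q (T.run f).1 (res (S.AS q (T.run f).1 ρ f) f)) +
        𝔼 f : D → R, S.hitF (T.run f).1 (res (S.AS q (T.run f).1 ρ f) f) T f := by
      rw [← Finset.expect_sum_comm, ← Finset.expect_add_distrib]
      refine Finset.expect_congr rfl fun f _ => ?_
      rw [sum_pk (X := fun pk => S.W q pk (res (S.AS q pk ρ f) f) +
        S.hitF pk (res (S.AS q pk ρ f) f) T f)]
    have e3 := Finset.sum_le_sum fun (pk : PK) (_ : pk ∈ Finset.univ) =>
      S.expect_hyb q pk ρ T hT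
    rw [← e1, e2] at e3
    refine e3.trans ?_
    -- the hits
    have e4 : 𝔼 f : D → R, S.hitF (T.run f).1 (res (S.AS q (T.run f).1 ρ f) f) T f ≤
        δ * (𝔼 f : D → R, fakeF (fun a : PK × SK => a.1 = (T.run f).1)
          (res (S.AS q (T.run f).1 ρ f) f) T f) +
        𝔼 f : D → R, ∑ x ∈ T.queries f, (if x ∉ S.AS q (T.run f).1 ρ f then (1 : ℝ) else 0) *
        (if δ < S.pq (T.run f).1 x f then (1 : ℝ) else 0) := by
      rw [Finset.mul_expect, ← Finset.expect_add_distrib]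
      refine Finset.expect_le_expect fun f _ => ?_
      refine (S.hitF_le (T.run f).1 hδ0 T _ f).trans (le_of_eq ?_)
      congr 1
      refine Finset.sum_congr rfl fun x _ => ?_
      by_cases h2 : x ∈ S.AS q (T.run f).1 ρ f
      · simp [res, h2]
      · by_cases h3 : δ < S.pq (T.run f).1 x f <;> simp [res, h2, h3]
    have e5 : 𝔼 f : D → R, fakeF (fun a : PK × SK => a.1 = (T.run f).1)
          (res (S.AS q (T.run f).1 ρ f) f) T f =
        ∑ pk : PK, 𝔼 f : D → R, (if (T.run f).1 = pk then (1 : ℝ) else 0) *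
          fakeF (fun a : PK × SK => a.1 = pk) (res (S.AS q pk ρ f) f) T f := by
      rw [← Finset.expect_sum_comm]
      refine Finset.expect_congr rfl fun f _ => ?_
      rw [sum_pk (X := fun pk => fakeF (fun a : PK × SK => a.1 = pk) (res (S.AS q pk ρ f) f) T f)]
    have e6 := Finset.sum_le_sum fun (pk : PK) (_ : pk ∈ Finset.univ) =>
      S.expect_fakes q pk ρ T hT hθ0 hθ1 hKpos
    rw [← e5, Finset.sum_add_distrib, ← Finset.mul_sum, ← Finset.expect_sum_comm,
      Finset.sum_const, Finset.card_univ, nsmul_eq_mul] at e6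
    have e7 : 𝔼 f : D → R, ∑ pk : PK, (if (T.run f).1 = pk then (1 : ℝ) else 0) = 1 := by
      have : ∀ f : D → R, ∑ pk : PK, (if (T.run f).1 = pk then (1 : ℝ) else 0) = 1 := by
        intro f; simp
      simp only [this]
      exact Fintype.expect_const _
    have e8 : (Fintype.card PK : ℝ) * (1 / (θ * Fintype.card PK)) = 1 / θ := by
      field_simp
    rw [e7, e8, mul_one] at e6
    have e9 := mul_le_mul_of_nonneg_left e6 hδ0
    have e10 : δ * (Real.log (Fintype.card PK) / θ - 1 / θ + θ * q / 4 + 1 / θ) =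
        δ * (Real.log (Fintype.card PK) / θ + θ * q / 4) := by ring
    rw [e10] at e9
    linarith
  -- average over the learning phases
  have h2 : 𝔼 f : D → R, S.succH (T.run f).1 (T.run f).2 f ≤
      avgL l (fun ρ : List (Bool × ΩE × ΩD) =>
      (𝔼 f : D → R, S.W q (T.run f).1 (res (S.AS q (T.run f).1 ρ f) f)) +
      δ * (Real.log (Fintype.card PK) / θ + θ * q / 4) +
      𝔼 f : D → R, ∑ x ∈ T.queries f, (if x ∉ S.AS q (T.run f).1 ρ f then (1 : ℝ) else 0) *
        (if δ < S.pq (T.run f).1 x f then (1 : ℝ) else 0)) := by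
    rw [← avgL_const (Ω := Bool × ΩE × ΩD) l (𝔼 f : D → R, S.succH (T.run f).1 (T.run f).2 f)]
    exact avgL_mono fun ρ _ => h1 ρ
  refine h2.trans ?_
  rw [avgL_add, avgL_add, avgL_const]
  refine add_le_add le_rfl ?_
  rw [avgL_expect]
  refine Finset.expect_le Finset.univ_nonempty fun f _ => ?_
  rw [avgL_sum]
  have h3 : ∀ x ∈ T.queries f, avgL l (fun ρ : List (Bool × ΩE × ΩD) =>
      (if x ∉ S.AS q (T.run f).1 ρ f then (1 : ℝ) else 0) *
        (if δ < S.pq (T.run f).1 x f then (1 : ℝ) else 0)) ≤ (1 - δ) ^ l := by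
    intro x _
    by_cases hx : δ < S.pq (T.run f).1 x f
    · simp only [hx, if_true, mul_one]
      refine (S.miss_le q (T.run f).1 f x l).trans ?_
      have := S.pq_le_one (T.run f).1 x f
      exact pow_le_pow_left₀ (by linarith) (by linarith) l
    · simp only [hx, if_false, mul_zero]
      rw [avgL_const]
      exact pow_nonneg (by linarith) _
  refine (Finset.sum_le_sum h3).trans ?_
  rw [Finset.sum_const, nsmul_eq_mul]
  refine mul_le_mul_of_nonneg_right ?_ (pow_nonneg (by linarith) _)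
  exact_mod_cast (QAlg.card_queries_le f T).trans (hT f)

variable [Fintype ΩG] [Nonempty ΩG]

theorem pred_one_sub_XSt (q : ℕ) (pk : PK) (v : D → Option R) :
    pred (fun v r f => 1 - S.XSt q pk v r f) v = 1 - S.W q pk v := by
  simp only [pred, W, sidl, XSt]
  simp only [Finset.expect_sub_distrib, Fintype.expect_const]

/-- exponential moment, started after the first part of the learning phase -/
theorem expect_expF_S_le (q : ℕ) (pk : PK) (ρ₀ : List (Bool × ΩE × ΩD)) {lam : ℝ}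
    (hl : |lam| ≤ 1) (m : ℕ) :
    𝔼 f : D → R, expF (S.QS q pk) (fun v r f => 1 - S.XSt q pk v r f) lam f m
        (S.AS q pk ρ₀ f) ≤ Real.exp (lam ^ 2 / 4) ^ m := by
  have h1 := resample (D := D) (R := R) (fun g => S.AS q pk ρ₀ g)
    (fun g g' h => S.AS_local q pk ρ₀ g g' h)
    (fun g h => expF (S.QS q pk) (fun v r f => 1 - S.XSt q pk v r f) lam h m (S.AS q pk ρ₀ g))
    (by
      intro g g' h hg
      simp only [S.AS_local q pk ρ₀ g g' hg])
  rw [h1]
  refine Finset.expect_le (Finset.univ_nonempty) fun g _ => ?_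
  have h2 : ∀ g' : D → R, (fun x => if x ∈ S.AS q pk ρ₀ g then g x else g' x) =
      ovr g' (res (S.AS q pk ρ₀ g) g) := by
    intro g'
    funext x
    rw [ovr_res]
  simp only [h2]
  exact expect_expF_le (S.isLocal_S' q pk)
    (fun v r f => sub_nonneg.mpr (S.sval_le_one _ _ _ _))
    (fun v r f => by
      have := S.sval_nonneg pk (S.bst q pk v) r f
      simp only [XSt]; linarith) hl m _ g

theorem devF_S (q : ℕ) (pk : PK) (ρ₀ : List (Bool × ΩE × ΩD)) (f : D → R) (M : ℕ) :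
    devF (S.QS q pk) (fun v r f => 1 - S.XSt q pk v r f) f M (S.AS q pk ρ₀ f) =
      ∑ l ∈ Finset.range M, avgL l (fun ρ : List (Bool × ΩE × ΩD) =>
        S.W q pk (res (S.AS q pk (ρ₀ ++ ρ) f) f) -
          𝔼 r : Bool × ΩE × ΩD, S.XSt q pk (res (S.AS q pk (ρ₀ ++ ρ) f) f) r f) := by
  rw [devF]
  refine Finset.sum_congr rfl fun l _ => avgL_congr fun ρ _ => ?_
  rw [AS, AS, kn_append, pred_one_sub_XSt]
  simp only [Finset.expect_sub_distrib, Fintype.expect_const]
  ring

/-- in the attack the real successes are close to the predicted ones -/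
theorem window_dev {lam : ℝ} (hl0 : 0 < lam) (hl1 : lam ≤ 1) (q M : ℕ)
    (ρ₀ : List (Bool × ΩE × ΩD)) :
    𝔼 f : D → R, 𝔼 ω : ΩG, (∑ l ∈ Finset.range M, avgL l (fun ρ : List (Bool × ΩE × ΩD) =>
        S.W q (S.gen f ω).1 (res (S.AS q (S.gen f ω).1 (ρ₀ ++ ρ) f) f) -
          𝔼 r : Bool × ΩE × ΩD,
            S.XSt q (S.gen f ω).1 (res (S.AS q (S.gen f ω).1 (ρ₀ ++ ρ) f) f) r f)) ≤
      Real.log (Fintype.card PK * Real.exp (lam ^ 2 / 4) ^ M) / lam := by
  have hB : (1 : ℝ) ≤ Real.exp (lam ^ 2 / 4) ^ M :=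
    one_le_pow₀ (Real.one_le_exp (by positivity))
  have h := expect_dev_le (D := D) (R := R) (K := PK) (ΩG := ΩG)
    (fun pk f => devF (S.QS q pk) (fun v r f => 1 - S.XSt q pk v r f) f M (S.AS q pk ρ₀ f))
    (fun pk f => expF (S.QS q pk) (fun v r f => 1 - S.XSt q pk v r f) lam f M
      (S.AS q pk ρ₀ f))
    (fun pk f => expF_nonneg _ _ _ _ _ _) hl0 hB
    (fun pk => S.expect_expF_S_le q pk ρ₀ (abs_le.mpr ⟨by linarith, hl1⟩) M)
    (fun pk f a => devF_le_expF _ _ _ _ _ _ _)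
    (fun f ω => (S.gen f ω).1)
  simp only [devF_S] at h
  exact h

/-- the main inequality -/
theorem short_ineq {q : ℕ} (G : ΩG → QAlg D R (PK × SK)) (hG : ∀ ω f, (G ω).cost f ≤ q)
    (hgen : ∀ f ω, S.gen f ω = (G ω).run f) (M₀ M : ℕ) {θ δ lam : ℝ} (hθ0 : 0 < θ)
    (hθ1 : θ ≤ 1) (hδ0 : 0 ≤ δ) (hδ1 : δ ≤ 1) (hl0 : 0 < lam) (hl1 : lam ≤ 1) (hM : 0 < M) :
    𝔼 f : D → R, 𝔼 ω : ΩG, S.succH (S.gen f ω).1 (S.gen f ω).2 f ≤
      (∑ l ∈ Finset.range M, avgL (M₀ + l) (fun ρ : List (Bool × ΩE × ΩD) =>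
        𝔼 f : D → R, 𝔼 ω : ΩG, 𝔼 r : Bool × ΩE × ΩD,
          S.XSt q (S.gen f ω).1 (res (S.AS q (S.gen f ω).1 ρ f) f) r f)) / M +
      (Real.log (Fintype.card PK) / (lam * M) + lam / 4) +
      δ * (Real.log (Fintype.card PK) / θ + θ * q / 4) + q * (1 - δ) ^ M₀ := by
  have hMr : (0 : ℝ) < M := by exact_mod_cast hM
  have hKpos : (0 : ℝ) < Fintype.card PK := by exact_mod_cast Fintype.card_pos
  -- predicted value for a given length
  let w : ℕ → ℝ := fun l => avgL l (fun ρ : List (Bool × ΩE × ΩD) =>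
    𝔼 f : D → R, 𝔼 ω : ΩG, S.W q (S.gen f ω).1 (res (S.AS q (S.gen f ω).1 ρ f) f))
  let x : ℕ → ℝ := fun l => avgL l (fun ρ : List (Bool × ΩE × ΩD) =>
    𝔼 f : D → R, 𝔼 ω : ΩG, 𝔼 r : Bool × ΩE × ΩD,
      S.XSt q (S.gen f ω).1 (res (S.AS q (S.gen f ω).1 ρ f) f) r f)
  set Y := 𝔼 f : D → R, 𝔼 ω : ΩG, S.succH (S.gen f ω).1 (S.gen f ω).2 f with hY
  set L := Real.log (Fintype.card PK) with hL
  have h1 : ∀ l, Y ≤ w (M₀ + l) + δ * (L / θ + θ * q / 4) + q * (1 - δ) ^ M₀ := by
    intro l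
    have e1 : Y = 𝔼 ω : ΩG, 𝔼 f : D → R, S.succH ((G ω).run f).1 ((G ω).run f).2 f := by
      rw [hY, Finset.expect_comm]
      refine Finset.expect_congr rfl fun ω _ => Finset.expect_congr rfl fun f _ => ?_
      rw [hgen]
    have e2 : w (M₀ + l) = 𝔼 ω : ΩG, avgL (M₀ + l) (fun ρ : List (Bool × ΩE × ΩD) =>
        𝔼 f : D → R, S.W q ((G ω).run f).1 (res (S.AS q ((G ω).run f).1 ρ f) f)) := by
      simp only [w]
      rw [← avgL_expect]
      refine avgL_congr fun ρ _ => ?_
      rw [Finset.expect_comm]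
      refine Finset.expect_congr rfl fun ω _ => Finset.expect_congr rfl fun f _ => ?_
      rw [hgen]
    have e3 : Y ≤ 𝔼 ω : ΩG, (avgL (M₀ + l) (fun ρ : List (Bool × ΩE × ΩD) =>
        𝔼 f : D → R, S.W q ((G ω).run f).1 (res (S.AS q ((G ω).run f).1 ρ f) f)) +
        (δ * (L / θ + θ * q / 4) + q * (1 - δ) ^ M₀)) := by
      rw [e1]
      refine Finset.expect_le_expect fun ω _ => ?_
      have e4 := S.expect_succ_le (G ω) (hG ω) (M₀ + l) hθ0 hθ1 hδ0 hδ1
      have e5 : (1 - δ) ^ (M₀ + l) ≤ (1 - δ) ^ M₀ :=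
        pow_le_pow_of_le_one (by linarith) (by linarith) (Nat.le_add_right _ _)
      have e6 : (q : ℝ) * (1 - δ) ^ (M₀ + l) ≤ q * (1 - δ) ^ M₀ :=
        mul_le_mul_of_nonneg_left e5 (Nat.cast_nonneg _)
      linarith
    rw [Finset.expect_add_distrib, Fintype.expect_const, ← e2] at e3
    linarith
  have h2 : ∑ l ∈ Finset.range M, (w (M₀ + l) - x (M₀ + l)) ≤
      (L + M * (lam ^ 2 / 4)) / lam := by
    have e0 : Real.log (Fintype.card PK * Real.exp (lam ^ 2 / 4) ^ M) =
        L + M * (lam ^ 2 / 4) := by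
      rw [Real.log_mul hKpos.ne' (pow_pos (Real.exp_pos _) _).ne', Real.log_pow, Real.log_exp]
    have e1 : ∑ l ∈ Finset.range M, (w (M₀ + l) - x (M₀ + l)) =
        avgL M₀ (fun ρ₀ : List (Bool × ΩE × ΩD) => 𝔼 f : D → R, 𝔼 ω : ΩG,
          (∑ l ∈ Finset.range M, avgL l (fun ρ : List (Bool × ΩE × ΩD) =>
        S.W q (S.gen f ω).1 (res (S.AS q (S.gen f ω).1 (ρ₀ ++ ρ) f) f) -
          𝔼 r : Bool × ΩE × ΩD,
            S.XSt q (S.gen f ω).1 (res (S.AS q (S.gen f ω).1 (ρ₀ ++ ρ) f) f) r f))) := by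
      have e2 : ∀ l, w (M₀ + l) - x (M₀ + l) = avgL M₀ (fun ρ₀ : List (Bool × ΩE × ΩD) =>
          𝔼 f : D → R, 𝔼 ω : ΩG, avgL l (fun ρ : List (Bool × ΩE × ΩD) =>
        S.W q (S.gen f ω).1 (res (S.AS q (S.gen f ω).1 (ρ₀ ++ ρ) f) f) -
          𝔼 r : Bool × ΩE × ΩD,
            S.XSt q (S.gen f ω).1 (res (S.AS q (S.gen f ω).1 (ρ₀ ++ ρ) f) f) r f)) := by
        intro l
        simp only [w, x]
        rw [← avgL_sub, avgL_append]
        refine avgL_congr fun ρ₀ _ => ?_
        simp only [← avgL_expect]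
        refine avgL_congr fun ρ _ => ?_
        simp only [Finset.expect_sub_distrib]
      simp only [e2]
      rw [← avgL_sum]
      refine avgL_congr fun ρ₀ _ => ?_
      simp only [Finset.expect_sum_comm]
    rw [e1, ← e0, ← avgL_const (Ω := Bool × ΩE × ΩD) M₀
      (Real.log (Fintype.card PK * Real.exp (lam ^ 2 / 4) ^ M) / lam)]
    exact avgL_mono fun ρ₀ _ => S.window_dev hl0 hl1 q M ρ₀
  have h3 : (M : ℝ) * Y ≤ ∑ l ∈ Finset.range M, (w (M₀ + l) +
      (δ * (L / θ + θ * q / 4) + q * (1 - δ) ^ M₀)) := by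
    have : (M : ℝ) * Y = ∑ _l ∈ Finset.range M, Y := by
      rw [Finset.sum_const, Finset.card_range, nsmul_eq_mul]
    rw [this]
    refine Finset.sum_le_sum fun l _ => ?_
    have := h1 l
    linarith
  rw [Finset.sum_add_distrib, Finset.sum_const, Finset.card_range, nsmul_eq_mul] at h3
  rw [Finset.sum_sub_distrib] at h2
  show Y ≤ (∑ l ∈ Finset.range M, x (M₀ + l)) / M + (L / (lam * M) + lam / 4) +
      δ * (L / θ + θ * q / 4) + q * (1 - δ) ^ M₀
  have h4 : (L + M * (lam ^ 2 / 4)) / lam = M * (L / (lam * M) + lam / 4) := by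
    field_simp
  rw [h4] at h2
  have h5 : (M : ℝ) * ((∑ l ∈ Finset.range M, x (M₀ + l)) / M + (L / (lam * M) + lam / 4) +
      δ * (L / θ + θ * q / 4) + q * (1 - δ) ^ M₀) =
      (∑ l ∈ Finset.range M, x (M₀ + l)) + M * (L / (lam * M) + lam / 4) +
        M * (δ * (L / θ + θ * q / 4) + q * (1 - δ) ^ M₀) := by
    have : (M : ℝ) * ((∑ l ∈ Finset.range M, x (M₀ + l)) / M) =
        ∑ l ∈ Finset.range M, x (M₀ + l) := mul_div_cancel₀ _ hMr.ne'
    linear_combination this
  refine le_of_mul_le_mul_left ?_ hMr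
  rw [h5]
  linarith

end Scheme

end Pool.Agent.PKE70
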