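import Pool.Agent.PKE70.Short4

/-!
# Short public keys: the adversary
-/

set_option autoImplicit false
set_option linter.unusedSectionVars false

open scoped BigOperators

namespace Pool.Agent.PKE70

variable {D R PK SK C ΩG ΩE ΩD : Type} [DecidableEq D]

namespace Scheme

variable (S : Scheme D R PK SK C ΩG ΩE ΩD)
variable [Fintype D] [Fintype R] [Fintype ΩE] [Fintype ΩD] [Fintype SK] [Nonempty SK]
  [Nonempty ΩE] [Nonempty ΩD] [Nonempty R] [DecidableEq PK]

/-- the learning phase as an oracle algorithm -/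
noncomputable def learnS (q : ℕ) (pk : PK) :
    (D → Option R) → List (Bool × ΩE × ΩD) → QAlg D R (D → Option R)
  | v, [] => .ret v
  | v, r :: ρ => ((S.blk pk (S.bst q pk v) r).record v).bind fun v' => learnS q pk v' ρ

theorem run_learnS (q : ℕ) (pk : PK) (f : D → R) (A : Finset D) (ρ : List (Bool × ΩE × ΩD)) :
    (S.learnS q pk (res A f) ρ).run f = res (kn (S.QS q pk) f A ρ) f := by
  induction ρ generalizing A with
  | nil => rfl
  | cons r ρ ih =>
    rw [learnS, QAlg.run_bind, run_record_res, kn_cons]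
    exact ih _

theorem cost_learnS {q : ℕ} (hq : S.QueryBound q) (pk : PK) (f : D → R) (v : D → Option R)
    (ρ : List (Bool × ΩE × ΩD)) : (S.learnS q pk v ρ).cost f ≤ 3 * q * ρ.length := by
  induction ρ generalizing v with
  | nil => simp [learnS]
  | cons r ρ ih =>
    rw [learnS, QAlg.cost_bind, QAlg.cost_record, List.length_cons]
    have h1 := S.cost_blk_le hq pk (S.bst q pk v) (S.cost_bst q pk v) r f
    have h2 := ih (((S.blk pk (S.bst q pk v) r).record v).run f)
    have h3 : 3 * q * (ρ.length + 1) = 3 * q + 3 * q * ρ.length := by ring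
    omega

/-- the adversary -/
noncomputable def eveS (q : ℕ) (ρ : List (Bool × ΩE × ΩD)) (d : ΩD) (pk : PK) (c : C) :
    QAlg D R Bool :=
  (S.learnS q pk (fun _ => none) ρ).bind fun v => (S.bst q pk v).bind fun h =>
    (S.dec h.1 c d).withAns h.2

theorem run_eveS (q : ℕ) (ρ : List (Bool × ΩE × ΩD)) (d : ΩD) (pk : PK) (c : C) (f : D → R) :
    (S.eveS q ρ d pk c).run f =
      (S.dec ((S.bst q pk (res (S.AS q pk ρ f) f)).run f).1 c d).run
        (ovr f ((S.bst q pk (res (S.AS q pk ρ f) f)).run f).2) := by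
  have h : (S.learnS q pk (fun _ => none) ρ).run f = res (S.AS q pk ρ f) f := by
    rw [← res_empty f]
    exact S.run_learnS q pk f ∅ ρ
  rw [eveS, QAlg.run_bind, h, QAlg.run_bind, QAlg.run_withAns]

theorem cost_eveS {q : ℕ} (hq : S.QueryBound q) (ρ : List (Bool × ΩE × ΩD)) (d : ΩD) (pk : PK)
    (c : C) (f : D → R) : (S.eveS q ρ d pk c).cost f ≤ 3 * q * (ρ.length + 1) := by
  rw [eveS, QAlg.cost_bind, QAlg.cost_bind]
  have h1 := S.cost_learnS hq pk f (fun _ => none) ρ
  set v := (S.learnS q pk (fun _ => none) ρ).run f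
  have h2 := S.cost_bst q pk v f
  have h3 := (QAlg.cost_withAns f ((S.bst q pk v).run f).2
    (S.dec ((S.bst q pk v).run f).1 c d)).trans (hq.2 _ _ _ _)
  have h4 : 3 * q * (ρ.length + 1) = 3 * q + 3 * q * ρ.length := by ring
  omega

variable [Fintype ΩG] [Nonempty ΩG]

theorem advProb_eveS (q : ℕ) (ρ : List (Bool × ΩE × ΩD)) :
    𝔼 d : ΩD, 𝔼 f : D → R, S.advProb f (fun pk c => (S.eveS q ρ d pk c).run f) =
      𝔼 f : D → R, 𝔼 ω : ΩG, 𝔼 r : Bool × ΩE × ΩD,
        S.XSt q (S.gen f ω).1 (res (S.AS q (S.gen f ω).1 ρ f) f) r f := by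
  rw [Finset.expect_comm]
  refine Finset.expect_congr rfl fun f _ => ?_
  unfold advProb
  rw [Finset.expect_comm]
  refine Finset.expect_congr rfl fun ω _ => ?_
  rw [expect_coins, Finset.expect_comm]
  refine Finset.expect_congr rfl fun b _ => ?_
  rw [Finset.expect_comm]
  refine Finset.expect_congr rfl fun e _ => Finset.expect_congr rfl fun d _ => ?_
  simp only [run_eveS, XSt, sval_eq, val, full, QAlg.run_bind, QAlg.run_withAns]

/-- averaging -/
theorem exists_eveS {q : ℕ} (hq : S.QueryBound q) (M₀ : ℕ) {M : ℕ} (hM : 0 < M) :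
    ∃ (A : PK → C → QAlg D R Bool), (∀ pk c f, (A pk c).cost f ≤ 3 * q * (M₀ + M)) ∧
      (∑ l ∈ Finset.range M, avgL (M₀ + l) (fun ρ : List (Bool × ΩE × ΩD) =>
        𝔼 f : D → R, 𝔼 ω : ΩG, 𝔼 r : Bool × ΩE × ΩD,
          S.XSt q (S.gen f ω).1 (res (S.AS q (S.gen f ω).1 ρ f) f) r f)) / M ≤
        𝔼 f : D → R, S.advProb f (fun pk c => (A pk c).run f) := by
  have hMr : (0 : ℝ) < M := by exact_mod_cast hM
  simp only [← advProb_eveS]
  set a := (∑ l ∈ Finset.range M, avgL (M₀ + l) (fun ρ : List (Bool × ΩE × ΩD) =>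
        𝔼 d : ΩD, 𝔼 f : D → R, S.advProb f (fun pk c => (S.eveS q ρ d pk c).run f))) / M with ha
  have h2 : ∃ l ∈ Finset.range M, a ≤ avgL (M₀ + l) (fun ρ : List (Bool × ΩE × ΩD) =>
      𝔼 d : ΩD, 𝔼 f : D → R, S.advProb f (fun pk c => (S.eveS q ρ d pk c).run f)) := by
    by_contra hcon
    push Not at hcon
    have h3 : ∑ l ∈ Finset.range M, avgL (M₀ + l) (fun ρ : List (Bool × ΩE × ΩD) =>
        𝔼 d : ΩD, 𝔼 f : D → R, S.advProb f (fun pk c => (S.eveS q ρ d pk c).run f)) <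
        ∑ _l ∈ Finset.range M, a :=
      Finset.sum_lt_sum_of_nonempty ⟨0, Finset.mem_range.mpr hM⟩ hcon
    rw [Finset.sum_const, Finset.card_range, nsmul_eq_mul, ha,
      mul_div_cancel₀ _ hMr.ne'] at h3
    exact lt_irrefl _ h3
  obtain ⟨l, hl, h4⟩ := h2
  obtain ⟨ρ, hρ, h5⟩ := exists_le_avgL h4
  obtain ⟨d, -, h6⟩ : ∃ d ∈ (Finset.univ : Finset ΩD),
      a ≤ 𝔼 f : D → R, S.advProb f (fun pk c => (S.eveS q ρ d pk c).run f) := by
    by_contra hcon
    push Not at hcon
    have h7 : 𝔼 d : ΩD, 𝔼 f : D → R, S.advProb f (fun pk c => (S.eveS q ρ d pk c).run f) < a :=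
      Finset.expect_lt (fun d hd => (hcon d hd).le)
        ⟨Classical.arbitrary ΩD, Finset.mem_univ _, hcon _ (Finset.mem_univ _)⟩
    exact absurd h5 (not_le.mpr h7)
  refine ⟨S.eveS q ρ d, fun pk c f => ?_, h6⟩
  refine (S.cost_eveS hq ρ d pk c f).trans ?_
  have h8 : ρ.length + 1 ≤ M₀ + M := by
    rw [hρ]
    have := Finset.mem_range.mp hl
    omega
  exact Nat.mul_le_mul_left _ h8

/-- **Attack on schemes with short public keys.** -/
theorem attack_short [Fintype PK] [Nonempty PK] {q k : ℕ} (hq : S.QueryBound q)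
    (G : ΩG → QAlg D R (PK × SK)) (hG : ∀ ω f, (G ω).cost f ≤ q)
    (hgen : ∀ f ω, S.gen f ω = (G ω).run f) (hk : Fintype.card PK ≤ 2 ^ k) (hkq : k + 1 ≤ q)
    {ε : ℝ} (hε : 0 < ε) (hε1 : ε ≤ 1) :
    ∃ A : PK → C → QAlg D R Bool,
      (∀ pk c f, ((A pk c).cost f : ℝ) ≤
        40 * q * Real.sqrt (q * (k + 1)) * (1 + Real.log (q / ε)) / ε ^ 2) ∧
      S.decProb ≤ (𝔼 f : D → R, S.advProb f (fun pk c => (A pk c).run f)) + ε := by
  have hk0 : (0 : ℝ) ≤ k := Nat.cast_nonneg k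
  set κ : ℝ := (k : ℝ) + 1 with hκ
  have hκ1 : 1 ≤ κ := by linarith
  have hκ0 : 0 < κ := by linarith
  have hκq : κ ≤ q := by rw [hκ]; exact_mod_cast hkq
  have hq1 : (1 : ℝ) ≤ q := hκ1.trans hκq
  have hq0 : (0 : ℝ) < q := by linarith
  set w : ℝ := Real.sqrt (q * κ) with hw
  have hw2 : w * w = q * κ := Real.mul_self_sqrt (by positivity)
  have hw0 : 0 < w := Real.sqrt_pos.mpr (by positivity)
  have hκw : κ ≤ w := by
    refine Real.le_sqrt_of_sq_le ?_
    nlinarith
  have hw1 : 1 ≤ w := hκ1.trans hκw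
  -- parameters
  set θ : ℝ := κ / w with hθ
  have hθ0 : 0 < θ := by positivity
  have hθ1 : θ ≤ 1 := (div_le_one hw0).mpr hκw
  set δ : ℝ := ε / (3 * w) with hδ
  have hδ0 : 0 < δ := by positivity
  have hδ1 : δ ≤ 1 := by
    rw [hδ, div_le_one (by positivity)]
    linarith
  set lam : ℝ := 2 * ε / 3 with hlam
  have hl0 : 0 < lam := by positivity
  have hl1 : lam ≤ 1 := by rw [hlam]; linarith
  have hqε : 1 ≤ q / ε := by
    rw [le_div_iff₀ hε]; linarith
  have hlogq : 0 ≤ Real.log (q / ε) := Real.log_nonneg hqε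
  have hlog4 : Real.log 4 ≤ 1.3864 := by
    have h1 : Real.log 4 = 2 * Real.log 2 := by
      rw [show (4 : ℝ) = 2 ^ 2 by norm_num, Real.log_pow]; norm_num
    have := Real.log_two_lt_d9
    linarith
  have hlog4q : Real.log (4 * (q / ε)) = Real.log 4 + Real.log (q / ε) :=
    Real.log_mul (by norm_num) (by positivity)
  have hlog40 : 0 ≤ Real.log (4 * (q / ε)) := Real.log_nonneg (by linarith)
  set M₀ : ℕ := ⌈3 * w / ε * Real.log (4 * (q / ε))⌉₊ with hM₀
  have hM₀1 : 3 * w / ε * Real.log (4 * (q / ε)) ≤ M₀ := Nat.le_ceil _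
  have hM₀2 : (M₀ : ℝ) ≤ 3 * w / ε * Real.log (4 * (q / ε)) + 1 :=
    (Nat.ceil_lt_add_one (by positivity)).le
  set M : ℕ := ⌈7 * κ / ε ^ 2⌉₊ with hMdef
  have hMpos : 0 < M := Nat.ceil_pos.mpr (by positivity)
  have hMr : (0 : ℝ) < M := by exact_mod_cast hMpos
  have hM1 : 7 * κ / ε ^ 2 ≤ M := Nat.le_ceil _
  have hM2 : (M : ℝ) ≤ 7 * κ / ε ^ 2 + 1 := (Nat.ceil_lt_add_one (by positivity)).le
  obtain ⟨A, hA1, hA2⟩ := S.exists_eveS hq M₀ hMpos
  refine ⟨A, fun pk c f => ?_, ?_⟩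
  · -- the number of queries
    have hε2 : ε ^ 2 ≤ ε := by nlinarith
    have hε20 : 0 < ε ^ 2 := by positivity
    have e1 : ((A pk c).cost f : ℝ) ≤ 3 * q * (M₀ + M) := by
      calc ((A pk c).cost f : ℝ) ≤ ((3 * q * (M₀ + M) : ℕ) : ℝ) := by exact_mod_cast hA1 pk c f
        _ = 3 * q * (M₀ + M) := by push_cast; ring
    have e2 : 3 * w / ε * Real.log (4 * (q / ε)) ≤
        3 * w / ε ^ 2 * (1.3864 + Real.log (q / ε)) := by
      have e3 : 3 * w / ε ≤ 3 * w / ε ^ 2 := by
        gcongr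
      have e4 : Real.log (4 * (q / ε)) ≤ 1.3864 + Real.log (q / ε) := by
        rw [hlog4q]; linarith
      exact mul_le_mul e3 e4 hlog40 (by positivity)
    have e5 : 7 * κ / ε ^ 2 ≤ 7 * w / ε ^ 2 := by gcongr
    have e6 : (1 : ℝ) ≤ w / ε ^ 2 := by
      rw [le_div_iff₀ hε20]
      have : ε ^ 2 ≤ 1 := pow_le_one₀ hε.le hε1
      linarith
    have e7 : (M₀ : ℝ) + M ≤ w / ε ^ 2 * (3 * (1.3864 + Real.log (q / ε)) + 9) := by
      have : w / ε ^ 2 * (3 * (1.3864 + Real.log (q / ε)) + 9) =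
          3 * w / ε ^ 2 * (1.3864 + Real.log (q / ε)) + 7 * w / ε ^ 2 + w / ε ^ 2 +
            w / ε ^ 2 := by ring
      rw [this]
      linarith
    have e8 : w / ε ^ 2 * (3 * (1.3864 + Real.log (q / ε)) + 9) ≤
        w / ε ^ 2 * (40 / 3 * (1 + Real.log (q / ε))) := by
      refine mul_le_mul_of_nonneg_left ?_ (by positivity)
      linarith
    calc ((A pk c).cost f : ℝ) ≤ 3 * q * (M₀ + M) := e1
      _ ≤ 3 * q * (w / ε ^ 2 * (40 / 3 * (1 + Real.log (q / ε)))) :=
          mul_le_mul_of_nonneg_left (e7.trans e8) (by positivity)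
      _ = 40 * q * w * (1 + Real.log (q / ε)) / ε ^ 2 := by ring
  · rw [decProb_eq]
    have h1 := S.short_ineq G hG hgen M₀ M hθ0 hθ1 hδ0.le hδ1 hl0 hl1 hMpos
    have hKpos : (0 : ℝ) < Fintype.card PK := by exact_mod_cast Fintype.card_pos
    set L := Real.log (Fintype.card PK) with hL
    have hL0 : 0 ≤ L := Real.log_nonneg (by exact_mod_cast Fintype.card_pos)
    have hLk : L ≤ 0.7 * κ := by
      have e1 : L ≤ Real.log ((2 : ℝ) ^ k) := by
        refine Real.log_le_log hKpos ?_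
        exact_mod_cast hk
      rw [Real.log_pow] at e1
      have e2 : Real.log 2 ≤ 0.7 := by
        have := Real.log_two_lt_d9
        linarith
      nlinarith
    -- the four errors
    have b1 : L / (lam * M) ≤ 3 * ε / 20 := by
      rw [div_le_iff₀ (by positivity)]
      have e1 : 7 * κ ≤ M * ε ^ 2 := by
        rwa [div_le_iff₀ (by positivity)] at hM1
      have e2 : 3 * ε / 20 * (lam * M) = (M * ε ^ 2) / 10 := by rw [hlam]; ring
      rw [e2]
      linarith
    have b2 : δ * (L / θ + θ * q / 4) ≤ ε / 3 := by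
      have e1 : L / θ = L * w / κ := by rw [hθ]; field_simp
      have e2 : θ * q / 4 = w / 4 := by
        rw [hθ]
        field_simp
        linarith
      have e3 : L * w / κ ≤ 0.7 * w := by
        rw [div_le_iff₀ hκ0]
        nlinarith
      have e4 : δ * (3 * w) = ε := by rw [hδ]; field_simp
      have e5 : δ * (L / θ + θ * q / 4) ≤ δ * w := by
        refine mul_le_mul_of_nonneg_left ?_ hδ0.le
        rw [e1, e2]
        linarith
      linarith
    have b3 : (q : ℝ) * (1 - δ) ^ M₀ ≤ ε / 4 := by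
      have e1 : (1 - δ) ^ M₀ ≤ Real.exp (-δ) ^ M₀ := by
        refine pow_le_pow_left₀ (by linarith) ?_ _
        have := Real.add_one_le_exp (-δ)
        linarith
      have e2 : Real.exp (-δ) ^ M₀ = Real.exp (-(δ * M₀)) := by
        rw [← Real.exp_nat_mul]; congr 1; ring
      have e3 : Real.log (4 * (q / ε)) ≤ δ * M₀ := by
        have e4 : δ * (3 * w / ε * Real.log (4 * (q / ε))) = Real.log (4 * (q / ε)) := by
          rw [hδ]; field_simp
        rw [← e4]
        exact mul_le_mul_of_nonneg_left hM₀1 hδ0.le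
      have e5 : Real.exp (-(δ * M₀)) ≤ ε / (4 * q) := by
        calc Real.exp (-(δ * M₀)) ≤ Real.exp (-Real.log (4 * (q / ε))) :=
              Real.exp_le_exp.mpr (by linarith)
          _ = ε / (4 * q) := by
              rw [Real.exp_neg, Real.exp_log (by positivity)]
              field_simp
      calc (q : ℝ) * (1 - δ) ^ M₀ ≤ q * (ε / (4 * q)) := by
            refine mul_le_mul_of_nonneg_left ?_ hq0.le
            rw [e2] at e1
            exact e1.trans e5
        _ = ε / 4 := by field_simp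
    have hlam4 : lam / 4 = ε / 6 := by rw [hlam]; ring
    rw [hlam4] at h1
    linarith

end Scheme

end Pool.Agent.PKE70
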