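import Pool.Agent.PKE70.Short5
import Pool.Agent.PKE70.LB19

/-!
# Public-key encryption from a random oracle with short public keys: matching bounds

The other definitions are in `Pool.Agent.PKE70.Defs`.
-/

set_option autoImplicit false

open scoped BigOperators

namespace Pool.Agent.Results.MP_5f4f03_lc.TightShortKeys

open Pool.Agent.PKE70

/-- Key generation is the oracle algorithm `G`, key generation, encryption and decryption make at
most `q` adaptive queries each, and public keys have at most `k` bits. -/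
def Bounded {D R PK SK C ΩG ΩE ΩD : Type} [Fintype PK] (S : Scheme D R PK SK C ΩG ΩE ΩD)
    (G : ΩG → QAlg D R (PK × SK)) (q k : ℕ) : Prop :=
  (∀ f ω, S.gen f ω = (G ω).run f) ∧ (∀ ω f, (G ω).cost f ≤ q) ∧ S.QueryBound q ∧
    Fintype.card PK ≤ 2 ^ k

/-- Encryption relative to a random oracle, with at most `q` queries for each of the three
algorithms and `k`-bit public keys. First part: every such scheme with `k + 1 ≤ q` is broken by an
adversary with about `q √(q k)` queries. Second part: this is optimal up to logarithmic factors for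
all `k` between a multiple of `1 + log q` and `q`. -/
theorem result :
    (∀ (D R PK SK C ΩG ΩE ΩD : Type) [Fintype D] [DecidableEq D] [Fintype R] [Nonempty R]
      [Fintype PK] [Nonempty PK] [Fintype SK] [Nonempty SK] [Fintype ΩG] [Nonempty ΩG]
      [Fintype ΩE] [Nonempty ΩE] [Fintype ΩD] [Nonempty ΩD]
      (S : Scheme D R PK SK C ΩG ΩE ΩD) (G : ΩG → QAlg D R (PK × SK)) (q k : ℕ) (ε : ℝ),
      Bounded S G q k → k + 1 ≤ q → 0 < ε → ε ≤ 1 →
      ∃ A : PK → C → QAlg D R Bool,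
        (∀ pk c f, ((A pk c).cost f : ℝ) ≤
          40 * q * Real.sqrt (q * (k + 1)) * (1 + Real.log (q / ε)) / ε ^ 2) ∧
        S.decProb ≤ (𝔼 f : D → R, S.advProb f fun pk c => (A pk c).run f) + ε) ∧
    (∀ ε : ℝ, 0 < ε → ε ≤ 1 → ∃ M : ℝ, 0 < M ∧ ∀ q k : ℕ, M * (1 + Real.log q) ≤ k → k ≤ q →
      ∃ (D PK SK C ΩG ΩE : Type) (_ : Fintype D) (_ : DecidableEq D) (_ : Fintype PK)
        (_ : Nonempty PK) (_ : Fintype SK) (_ : Nonempty SK) (_ : Fintype ΩG) (_ : Nonempty ΩG)
        (_ : Fintype ΩE) (_ : Nonempty ΩE) (S : Scheme D Bool PK SK C ΩG ΩE Unit)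
        (G : ΩG → QAlg D Bool (PK × SK)),
        Bounded S G q k ∧ 1 - ε ≤ S.decProb ∧
        ∀ A : PK → C → QAlg D Bool Bool,
          (∀ pk c f, ((A pk c).cost f : ℝ) ≤
            q * Real.sqrt (q * k) / (M * (1 + Real.log q) ^ 5)) →
          (𝔼 f : D → Bool, S.advProb f fun pk c => (A pk c).run f) ≤ 1 / 2 + ε) := by
  constructor
  · intro D R PK SK C ΩG ΩE ΩD _ _ _ _ _ _ _ _ _ _ _ _ _ _ S G q k ε hB hkq hε hε1
    classical
    exact S.attack_short hB.2.2.1 G hB.2.1 hB.1 hB.2.2.2 hkq hε hε1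
  · intro ε hε hε1
    obtain ⟨M, hM, h⟩ := exists_scheme hε hε1
    refine ⟨M, hM, fun q k hk hkq => ?_⟩
    obtain ⟨D, PK, SK, C, ΩG, ΩE, i1, i2, i3, i4, i5, i6, i7, i8, i9, i10, S, G, h1, h2, h3, h4,
      h5, h6⟩ := h q k hk hkq
    exact ⟨D, PK, SK, C, ΩG, ΩE, i1, i2, i3, i4, i5, i6, i7, i8, i9, i10, S, G,
      ⟨h3, h2, h1, h4⟩, h5, h6⟩

end Pool.Agent.Results.MP_5f4f03_lc.TightShortKeys
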