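import Pool.Agent.PKE70.BlackBox

/-!
# Public-key encryption from a random oracle with oracle-dependent, unbounded key generation

The definitions are in `Pool.Agent.PKE70.Defs`.
-/

set_option autoImplicit false

open scoped BigOperators

namespace Pool.Agent.PKE70.UnboundedKeyGen

open Pool.Agent.PKE70

/-- Let key generation be an arbitrary function of the oracle `f : D → R` and of its coins, and let
encryption and decryption make at most `q` adaptive queries each, with key pairs of at most `s`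
bits. Then one adversary with at most `50 q² (s + 1) / ε³` queries decrypts as well as the
legitimate receiver, up to `ε`, and no algorithm that makes at most `t` calls to `f` and to this
adversary inverts `f` at a random point with more than the stated small probability. -/
theorem result {D R PK SK C ΩG ΩE ΩD : Type} [Fintype D] [DecidableEq D] [Nonempty D]
    [Fintype R] [DecidableEq R] [Nonempty R] [Fintype PK] [Nonempty PK] [Fintype SK] [Nonempty SK]
    [Fintype ΩG] [Nonempty ΩG] [Fintype ΩE] [Nonempty ΩE] [Fintype ΩD] [Nonempty ΩD]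
    (S : Scheme D R PK SK C ΩG ΩE ΩD) {q s : ℕ} (hq : S.QueryBound q) (hq1 : 1 ≤ q)
    (hs : Fintype.card PK * Fintype.card SK ≤ 2 ^ s) {ε : ℝ} (hε : 0 < ε) (hε1 : ε ≤ 1) :
    ∃ A : PK → C → QAlg D R Bool,
      (∀ pk c f, ((A pk c).cost f : ℝ) ≤ 50 * q ^ 2 * (s + 1) / ε ^ 3) ∧
      S.decProb ≤ (𝔼 f : D → R, S.advProb f fun pk c => (A pk c).run f) + ε ∧
      ∀ (ΩS : Type) [Fintype ΩS] [Nonempty ΩS] (red : R → ΩS → RAlg D R (PK × C) D) (t : ℕ),
        (∀ y σ f B, (red y σ).cost f B ≤ t) →
        𝔼 f : D → R, invProb red f (fun pk c => (A pk c).run f) ≤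
          (t * (50 * q ^ 2 * (s + 1) / ε ^ 3 + 1) + 1) *
            (1 / (Fintype.card D : ℝ) + 1 / Fintype.card R) := by
  obtain ⟨A, hA1, hA2⟩ := S.attack hq hq1 hs hε hε1
  refine ⟨A, hA1, hA2, ?_⟩
  intro ΩS _ _ red t hred
  have hE : ∀ pk c f, (A pk c).cost f ≤ ⌊50 * (q : ℝ) ^ 2 * (s + 1) / ε ^ 3⌋₊ :=
    fun pk c f => Nat.le_floor (hA1 pk c f)
  refine (expect_invProb_le red hred A hE).trans ?_
  refine mul_le_mul_of_nonneg_right ?_ (by positivity)
  have hfl : (⌊50 * (q : ℝ) ^ 2 * (s + 1) / ε ^ 3⌋₊ : ℝ) ≤ 50 * q ^ 2 * (s + 1) / ε ^ 3 :=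
    Nat.floor_le (by positivity)
  push_cast
  have ht : (0 : ℝ) ≤ t := Nat.cast_nonneg t
  nlinarith

end Pool.Agent.PKE70.UnboundedKeyGen
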